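import Pool.Agent.Helper986.NilAvg.Defs

set_option autoImplicit false

namespace Pool.NilAvg

open Filter Topology
open scoped ComplexConjugate

noncomputable section

variable {κ : Type}


theorem api_ev_induction {motive : Law → Prop} (μ : Law) (h0 : motive 0)
    (hadd : ∀ a b, motive a → motive b → motive (a + b))
    (hs : ∀ (n : ℤ) (r : ℝ), motive (AddMonoidAlgebra.single n r)) : motive μ :=
  AddMonoidAlgebra.induction_linear μ h0 hadd hs

theorem ev_add_law {E : Type*} [AddCommGroup E] [Module ℝ E] (μ ν : Law) (f : ℤ → E) :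
    ev (μ + ν) f = ev μ f + ev ν f := by
  unfold ev
  rw [AddMonoidAlgebra.coeff_add]
  exact Finsupp.sum_add_index' (fun n => zero_smul ℝ (f n)) (fun n a b => add_smul a b (f n))

theorem api_ev_zero {E : Type*} [AddCommGroup E] [Module ℝ E] (f : ℤ → E) :
    ev (0 : Law) f = 0 := by
  unfold ev
  rw [AddMonoidAlgebra.coeff_zero]
  exact Finsupp.sum_zero_index

theorem api_ev_single {E : Type*} [AddCommGroup E] [Module ℝ E] (n : ℤ) (r : ℝ) (f : ℤ → E) :
    ev (AddMonoidAlgebra.single n r) f = r • f n := by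
  unfold ev
  rw [AddMonoidAlgebra.coeff_single]
  exact Finsupp.sum_single_index (zero_smul ℝ (f n))

theorem ev_smul_law {E : Type*} [AddCommGroup E] [Module ℝ E] (c : ℝ) (μ : Law) (f : ℤ → E) :
    ev (c • μ) f = c • ev μ f := by
  unfold ev
  rw [AddMonoidAlgebra.coeff_smul, Finsupp.sum_smul_index' (fun n => zero_smul ℝ (f n)),
    Finsupp.smul_sum]
  refine Finsupp.sum_congr fun n _ => ?_
  rw [smul_eq_mul, mul_smul]

theorem ev_sum_law {E : Type*} [AddCommGroup E] [Module ℝ E] {ι : Type*} (s : Finset ι)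
    (μ : ι → Law) (f : ℤ → E) : ev (∑ i ∈ s, μ i) f = ∑ i ∈ s, ev (μ i) f := by
  classical
  induction s using Finset.induction_on with
  | empty => simp only [Finset.sum_empty]; exact api_ev_zero f
  | insert a s ha ih => rw [Finset.sum_insert ha, Finset.sum_insert ha, ev_add_law, ih]

theorem ev_pt {E : Type*} [AddCommGroup E] [Module ℝ E] (n : ℤ) (f : ℤ → E) :
    ev (pt n) f = f n := by
  unfold pt
  rw [api_ev_single, one_smul]

theorem ev_one {E : Type*} [AddCommGroup E] [Module ℝ E] (f : ℤ → E) : ev 1 f = f 0 := by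
  rw [AddMonoidAlgebra.one_def, api_ev_single, one_smul]

theorem ev_mul {E : Type*} [AddCommGroup E] [Module ℝ E] (μ ν : Law) (f : ℤ → E) :
    ev (μ * ν) f = ev μ fun m => ev ν fun n => f (m + n) := by
  induction μ using api_ev_induction with
  | h0 => rw [zero_mul, api_ev_zero, api_ev_zero]
  | hadd a b ha hb => rw [add_mul, ev_add_law, ha, hb, ev_add_law]
  | hs m r =>
    rw [api_ev_single]
    induction ν using api_ev_induction with
    | h0 => rw [mul_zero, api_ev_zero, api_ev_zero, smul_zero]
    | hadd a b ha hb => rw [mul_add, ev_add_law, ha, hb, ev_add_law, smul_add]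
    | hs n t => rw [AddMonoidAlgebra.single_mul_single, api_ev_single, api_ev_single, mul_smul]

theorem ev_add_fun {E : Type*} [AddCommGroup E] [Module ℝ E] (μ : Law) (f g : ℤ → E) :
    ev μ (fun n => f n + g n) = ev μ f + ev μ g := by
  unfold ev
  rw [← Finsupp.sum_add]
  exact Finsupp.sum_congr fun n _ => smul_add _ _ _

theorem api_ev_zero_fun {E : Type*} [AddCommGroup E] [Module ℝ E] (μ : Law) :
    ev μ (fun _ => (0 : E)) = 0 := by
  unfold ev
  simp

theorem ev_sum_fun {E : Type*} [AddCommGroup E] [Module ℝ E] {ι : Type*} (s : Finset ι)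
    (μ : Law) (f : ι → ℤ → E) : ev μ (fun n => ∑ i ∈ s, f i n) = ∑ i ∈ s, ev μ (f i) := by
  classical
  induction s using Finset.induction_on with
  | empty => simp only [Finset.sum_empty]; exact api_ev_zero_fun μ
  | insert a s ha ih =>
    rw [Finset.sum_insert ha, ← ih, ← ev_add_fun]
    congr 1
    funext n
    rw [Finset.sum_insert ha]

theorem ev_map {E F : Type*} [AddCommGroup E] [Module ℝ E] [AddCommGroup F] [Module ℝ F]
    (L : E →ₗ[ℝ] F) (μ : Law) (f : ℤ → E) : L (ev μ f) = ev μ fun n => L (f n) := by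
  unfold ev
  rw [map_finsuppSum]
  exact Finsupp.sum_congr fun n _ => L.map_smul _ _

theorem ev_const_mul (μ : Law) (c : ℂ) (f : ℤ → ℂ) : ev μ (fun n => c * f n) = c * ev μ f := by
  exact (ev_map (LinearMap.mulLeft ℝ c) μ f).symm

theorem ev_ofReal (μ : Law) (f : ℤ → ℝ) : ev μ (fun n => (f n : ℂ)) = ((ev μ f : ℝ) : ℂ) := by
  exact (ev_map Complex.ofRealLI.toLinearMap μ f).symm

theorem ev_comm {E : Type*} [AddCommGroup E] [Module ℝ E] (μ ν : Law) (f : ℤ → ℤ → E) :
    ev μ (fun m => ev ν fun n => f m n) = ev ν fun n => ev μ fun m => f m n := by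
  induction μ using api_ev_induction with
  | h0 =>
    rw [api_ev_zero]
    have : (fun n => ev (0 : Law) fun m => f m n) = fun _ => (0 : E) := by
      funext n; exact api_ev_zero _
    rw [this, api_ev_zero_fun]
  | hadd a b ha hb =>
    rw [ev_add_law, ha, hb, ← ev_add_fun]
    congr 1
    funext n
    rw [ev_add_law]
  | hs m r =>
    rw [api_ev_single]
    have : (fun n => ev (AddMonoidAlgebra.single m r : Law) fun m => f m n) =
        fun n => r • f m n := by
      funext n; exact api_ev_single _ _ _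
    rw [this]
    exact ev_map (LinearMap.lsmul ℝ E r) ν (fun n => f m n)

end

end Pool.NilAvg
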