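import Pool.Agent.Helper986.NilAvg.Defs
import Pool.Agent.Helper986.NilAvg.ApiEv

set_option autoImplicit false

namespace Pool.NilAvg

open Filter Topology
open scoped ComplexConjugate

noncomputable section

variable {κ : Type}


theorem api_nrm_eq (μ : Law) (s : Finset ℤ) (hs : μ.coeff.support ⊆ s) :
    nrm μ = ∑ n ∈ s, |μ.coeff n| :=
  Finsupp.sum_of_support_subset _ hs _ (fun _ _ => abs_zero)

theorem api_nrm_ev_eq {E : Type*} [AddCommGroup E] [Module ℝ E] (μ : Law) (s : Finset ℤ)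
    (hs : μ.coeff.support ⊆ s) (f : ℤ → E) : ev μ f = ∑ n ∈ s, μ.coeff n • f n :=
  Finsupp.sum_of_support_subset _ hs _ (fun _ _ => zero_smul _ _)

theorem api_nrm_sum_ev (μ : Law) : (μ.coeff.sum fun _ a => a) = ev μ (fun _ => (1 : ℝ)) := by
  unfold ev
  simp only [smul_eq_mul, mul_one]

theorem nrm_nonneg (μ : Law) : 0 ≤ nrm μ := by
  rw [api_nrm_eq μ _ subset_rfl]
  exact Finset.sum_nonneg fun n _ => abs_nonneg _

theorem nrm_add_le (μ ν : Law) : nrm (μ + ν) ≤ nrm μ + nrm ν := by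
  classical
  have h1 : (μ + ν).coeff.support ⊆ μ.coeff.support ∪ ν.coeff.support := by
    rw [AddMonoidAlgebra.coeff_add]
    exact Finsupp.support_add
  rw [api_nrm_eq (μ + ν) _ h1, api_nrm_eq μ _ (Finset.subset_union_left (s₂ := ν.coeff.support)),
    api_nrm_eq ν _ (Finset.subset_union_right (s₁ := μ.coeff.support)), ← Finset.sum_add_distrib]
  refine Finset.sum_le_sum fun n _ => ?_
  rw [AddMonoidAlgebra.coeff_add, Finsupp.add_apply]
  exact abs_add_le _ _

theorem nrm_smul (c : ℝ) (μ : Law) : nrm (c • μ) = |c| * nrm μ := by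
  have h1 : (c • μ).coeff.support ⊆ μ.coeff.support := by
    rw [AddMonoidAlgebra.coeff_smul]
    exact Finsupp.support_smul
  rw [api_nrm_eq (c • μ) _ h1, api_nrm_eq μ _ subset_rfl, Finset.mul_sum]
  refine Finset.sum_congr rfl fun n _ => ?_
  rw [AddMonoidAlgebra.coeff_smul, Finsupp.smul_apply, smul_eq_mul, abs_mul]

theorem nrm_neg (μ : Law) : nrm (-μ) = nrm μ := by
  have h1 : -μ = (-1 : ℝ) • μ := by simp
  rw [h1, nrm_smul, abs_neg, abs_one, one_mul]

theorem api_nrm_single (n : ℤ) (a : ℝ) : nrm (AddMonoidAlgebra.single n a) = |a| := by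
  unfold nrm
  rw [AddMonoidAlgebra.coeff_single]
  exact Finsupp.sum_single_index abs_zero

theorem api_nrm_sum_le {ι : Type*} (s : Finset ι) (μ : ι → Law) :
    nrm (∑ i ∈ s, μ i) ≤ ∑ i ∈ s, nrm (μ i) := by
  classical
  induction s using Finset.induction_on with
  | empty => simp [nrm]
  | insert i s hi ih =>
    rw [Finset.sum_insert hi, Finset.sum_insert hi]
    exact (nrm_add_le _ _).trans (by gcongr)

theorem nrm_mul_le (μ ν : Law) : nrm (μ * ν) ≤ nrm μ * nrm ν := by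
  have h1 : μ * ν = ∑ m ∈ μ.coeff.support, ∑ n ∈ ν.coeff.support,
      AddMonoidAlgebra.single (m + n) (μ.coeff m * ν.coeff n) := by
    rw [AddMonoidAlgebra.mul_def]
    rfl
  rw [h1, api_nrm_eq μ _ subset_rfl, api_nrm_eq ν _ subset_rfl, Finset.sum_mul_sum]
  refine (api_nrm_sum_le _ _).trans (Finset.sum_le_sum fun m _ => ?_)
  refine (api_nrm_sum_le _ _).trans (Finset.sum_le_sum fun n _ => ?_)
  rw [api_nrm_single, abs_mul]

theorem nrm_pt (n : ℤ) : nrm (pt n) = 1 := by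
  rw [pt, api_nrm_single, abs_one]

theorem norm_ev_le {E : Type*} [SeminormedAddCommGroup E] [NormedSpace ℝ E] (μ : Law)
    (f : ℤ → E) (C : ℝ) (hf : ∀ n, ‖f n‖ ≤ C) : ‖ev μ f‖ ≤ nrm μ * C := by
  rw [api_nrm_ev_eq μ _ subset_rfl, api_nrm_eq μ _ subset_rfl, Finset.sum_mul]
  refine (norm_sum_le _ _).trans (Finset.sum_le_sum fun n _ => ?_)
  rw [norm_smul, Real.norm_eq_abs]
  exact mul_le_mul_of_nonneg_left (hf n) (abs_nonneg _)

theorem IsProb.nrm_eq {μ : Law} (h : IsProb μ) : nrm μ = 1 := by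
  rw [← h.sum_eq]
  unfold nrm
  exact Finset.sum_congr rfl fun n _ => abs_of_nonneg (h.nonneg n)

theorem IsProb.pt (n : ℤ) : IsProb (pt n) := by
  constructor
  · intro m
    rw [Pool.NilAvg.pt, AddMonoidAlgebra.coeff_single, Finsupp.single_apply]
    split_ifs <;> norm_num
  · rw [Pool.NilAvg.pt, AddMonoidAlgebra.coeff_single]
    exact Finsupp.sum_single_index rfl

theorem IsProb.one : IsProb 1 := IsProb.pt 0

theorem IsProb.mul {μ ν : Law} (h : IsProb μ) (h' : IsProb ν) : IsProb (μ * ν) := by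
  classical
  constructor
  · intro m
    rw [AddMonoidAlgebra.coeff_mul]
    refine Finset.sum_nonneg fun i _ => Finset.sum_nonneg fun j _ => ?_
    dsimp only
    split_ifs
    · exact mul_nonneg (h.nonneg _) (h'.nonneg _)
    · exact le_rfl
  · rw [api_nrm_sum_ev, ev_mul, ← api_nrm_sum_ev ν, h'.sum_eq, ← api_nrm_sum_ev, h.sum_eq]

theorem IsProb.avg {ι : Type*} (s : Finset ι) (hs : s.Nonempty) (μ : ι → Law)
    (h : ∀ i ∈ s, IsProb (μ i)) : IsProb (((s.card : ℝ))⁻¹ • ∑ i ∈ s, μ i) := by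
  have hc : (0 : ℝ) < s.card := by exact_mod_cast hs.card_pos
  constructor
  · intro m
    rw [AddMonoidAlgebra.coeff_smul, AddMonoidAlgebra.coeff_sum, Finsupp.smul_apply,
      Finsupp.finsetSum_apply, smul_eq_mul]
    exact mul_nonneg (by positivity) (Finset.sum_nonneg fun i hi => (h i hi).nonneg m)
  · rw [api_nrm_sum_ev, ev_smul_law, ev_sum_law]
    have h1 : ∀ i ∈ s, ev (μ i) (fun _ => (1 : ℝ)) = 1 := fun i hi => by
      rw [← api_nrm_sum_ev, (h i hi).sum_eq]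
    rw [Finset.sum_congr rfl h1]
    simp only [Finset.sum_const, nsmul_eq_mul, mul_one, smul_eq_mul]
    exact inv_mul_cancel₀ hc.ne'

theorem IsProb.ev_const {E : Type*} [AddCommGroup E] [Module ℝ E] {μ : Law} (h : IsProb μ)
    (c : E) : ev μ (fun _ => c) = c := by
  have h1 := h.sum_eq
  unfold ev
  rw [Finsupp.sum] at h1 ⊢
  rw [← Finset.sum_smul, h1, one_smul]

theorem IsProb.ev_mono {μ : Law} (h : IsProb μ) {f g : ℤ → ℝ}
    (hfg : ∀ n ∈ μ.coeff.support, f n ≤ g n) : ev μ f ≤ ev μ g := by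
  unfold ev
  exact Finset.sum_le_sum fun n hn => mul_le_mul_of_nonneg_left (hfg n hn) (h.nonneg n)

theorem IsProb.norm_ev_le_ev {E : Type*} [SeminormedAddCommGroup E] [NormedSpace ℝ E] {μ : Law}
    (h : IsProb μ) (f : ℤ → E) : ‖ev μ f‖ ≤ ev μ fun n => ‖f n‖ := by
  unfold ev
  refine (norm_sum_le _ _).trans (Finset.sum_le_sum fun n _ => ?_)
  rw [norm_smul, Real.norm_of_nonneg (h.nonneg n)]
  exact le_rfl

theorem IsProb.sq_ev_le {μ : Law} (h : IsProb μ) (f : ℤ → ℂ) :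
    ‖ev μ f‖ ^ 2 ≤ ev μ fun n => ‖f n‖ ^ 2 := by
  have h1 := h.norm_ev_le_ev f
  have h2 : (ev μ fun n => ‖f n‖) ^ 2 ≤ (μ.coeff.sum fun _ a => a) * ev μ fun n => ‖f n‖ ^ 2 := by
    unfold ev
    refine Finset.sum_sq_le_sum_mul_sum_of_sq_le_mul _ (fun n _ => h.nonneg n)
      (fun n _ => mul_nonneg (h.nonneg n) (by positivity)) (fun n _ => le_of_eq ?_)
    simp only [smul_eq_mul]
    ring
  rw [h.sum_eq, one_mul] at h2
  exact (pow_le_pow_left₀ (norm_nonneg _) h1 2).trans h2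

end

end Pool.NilAvg
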