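import Pool.Agent.Helper986.NilAvg.Defs
import Pool.Agent.Helper986.NilAvg.ApiEv
import Pool.Agent.Helper986.NilAvg.ApiNrm

set_option autoImplicit false

namespace Pool.NilAvg

open Filter Topology
open scoped ComplexConjugate

noncomputable section

variable {κ : Type}


theorem e_add (x y : ℝ) : e (x + y) = e x * e y := by
  unfold e
  rw [← Complex.exp_add]
  congr 1
  push_cast
  ring

theorem e_int (m : ℤ) : e m = 1 := by
  unfold e
  rw [Complex.exp_eq_one_iff]
  refine ⟨m, ?_⟩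
  push_cast
  ring

theorem api_hat_e_eq (x : ℝ) : e x = Complex.exp (((2 * Real.pi * x : ℝ) : ℂ) * Complex.I) := by
  unfold e
  congr 1
  push_cast
  ring

theorem norm_e (x : ℝ) : ‖e x‖ = 1 := by
  rw [api_hat_e_eq]
  exact Complex.norm_exp_ofReal_mul_I _

theorem api_hat_e_zero : e 0 = 1 := by
  have := e_int 0
  simpa using this

theorem conj_e (x : ℝ) : conj (e x) = e (-x) := by
  have h1 : e x * e (-x) = 1 := by
    rw [← e_add, add_neg_cancel, api_hat_e_zero]
  have h2 : e x * conj (e x) = 1 := by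
    rw [Complex.mul_conj, Complex.normSq_eq_norm_sq, norm_e]
    norm_num
  have h3 : e x ≠ 0 := by
    intro h
    have := norm_e x
    rw [h] at this
    simp at this
  exact mul_left_cancel₀ h3 (h2.trans h1.symm)

theorem api_hat_e_re (x : ℝ) : (e x).re = Real.cos (2 * Real.pi * x) := by
  rw [api_hat_e_eq]
  exact Complex.exp_ofReal_mul_I_re _

theorem hat_mul (μ ν : Law) (x : ℝ) : hat (μ * ν) x = hat μ x * hat ν x := by
  unfold hat
  rw [ev_mul]
  have : (fun m : ℤ => ev ν fun n => e (((m + n : ℤ) : ℝ) * x)) =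
      fun m : ℤ => (ev ν fun n => e (n * x)) * e (m * x) := by
    funext m
    rw [mul_comm, ← ev_const_mul]
    congr 1
    funext n
    rw [← e_add]
    congr 1
    push_cast
    ring
  rw [this, ev_const_mul, mul_comm]

theorem hat_one (x : ℝ) : hat 1 x = 1 := by
  unfold hat
  rw [ev_one]
  simp [api_hat_e_zero]

theorem hat_zero {μ : Law} (h : IsProb μ) : hat μ 0 = 1 := by
  unfold hat
  have : (fun n : ℤ => e (n * 0)) = fun _ => (1 : ℂ) := by
    funext n
    simp [api_hat_e_zero]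
  rw [this, h.ev_const]

theorem norm_hat_le (μ : Law) (x : ℝ) : ‖hat μ x‖ ≤ nrm μ := by
  unfold hat
  have := norm_ev_le μ (fun n : ℤ => e (n * x)) 1 (fun n => (norm_e _).le)
  simpa using this

theorem Pos.mul {μ ν : Law} (h : Pos μ) (h' : Pos ν) : Pos (μ * ν) := by
  refine ⟨h.prob.mul h'.prob, fun x => ?_, fun x => ?_⟩
  · rw [hat_mul, Complex.mul_im, h.im, h'.im]
    ring
  · rw [hat_mul, Complex.mul_re, h.im, h'.im]
    have := mul_nonneg (h.re x) (h'.re x)
    linarith

theorem Pos.one : Pos 1 := by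
  refine ⟨IsProb.one, fun x => ?_, fun x => ?_⟩
  · rw [hat_one]; simp
  · rw [hat_one]; simp

theorem Pos.le_one {μ : Law} (h : Pos μ) (x : ℝ) : (hat μ x).re ≤ 1 := by
  have h1 := norm_hat_le μ x
  rw [h.prob.nrm_eq] at h1
  exact (Complex.re_le_norm _).trans h1

theorem Pos.hat_eq {μ : Law} (h : Pos μ) (x : ℝ) : hat μ x = ((hat μ x).re : ℂ) := by
  apply Complex.ext
  · simp
  · simp [h.im]

theorem api_hat_re (μ : Law) (x : ℝ) :
    (hat μ x).re = ev μ fun n : ℤ => Real.cos (2 * Real.pi * (n * x)) := by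
  unfold hat
  have := ev_map (Complex.reLm : ℂ →ₗ[ℝ] ℝ) μ (fun n : ℤ => e (n * x))
  simp only [Complex.reLm_coe] at this
  rw [this]
  congr 1
  funext n
  exact api_hat_e_re _

theorem api_hat_one_sub {μ : Law} (h : IsProb μ) (x : ℝ) :
    1 - (hat μ x).re = ev μ fun n : ℤ => (1 - Real.cos (2 * Real.pi * (n * x))) := by
  have h1 : ev μ (fun _ : ℤ => (1 : ℝ)) = 1 := h.ev_const 1
  have h2 := ev_add_fun μ (fun n : ℤ => (1 - Real.cos (2 * Real.pi * (n * x))))
    (fun n : ℤ => Real.cos (2 * Real.pi * (n * x)))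
  simp only [sub_add_cancel] at h2
  rw [h1] at h2
  rw [api_hat_re]
  linarith

theorem api_hat_cos_sub (a b : ℝ) :
    1 - Real.cos (a - b) ≤ 2 * (1 - Real.cos a) + 2 * (1 - Real.cos b) := by
  rw [Real.cos_sub]
  nlinarith [Real.sin_sq_add_cos_sq a, Real.sin_sq_add_cos_sq b,
    sq_nonneg (Real.sin a + Real.sin b), sq_nonneg (Real.cos a + Real.cos b - 2),
    sq_nonneg (Real.cos a - Real.cos b), sq_nonneg (Real.sin a - Real.sin b)]

theorem api_hat_ev_mul_left (μ : Law) (c : ℝ) (f : ℤ → ℝ) :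
    ev μ (fun n => c * f n) = c * ev μ f := by
  have := ev_map (LinearMap.mulLeft ℝ c) μ f
  simpa using this.symm

/-- quasi-subadditivity of `1 - hat` -/
theorem one_sub_hat_sub_le {μ : Law} (h : IsProb μ) (x y : ℝ) :
    1 - (hat μ (x - y)).re ≤ 2 * (1 - (hat μ x).re) + 2 * (1 - (hat μ y).re) := by
  rw [api_hat_one_sub h, api_hat_one_sub h, api_hat_one_sub h, ← api_hat_ev_mul_left,
    ← api_hat_ev_mul_left, ← ev_add_fun]
  apply h.ev_mono
  intro n _
  have := api_hat_cos_sub (2 * Real.pi * (n * x)) (2 * Real.pi * (n * y))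
  have h2 : 2 * Real.pi * (n * (x - y)) = 2 * Real.pi * (n * x) - 2 * Real.pi * (n * y) := by ring
  rw [h2]
  exact this

theorem api_hat_norm_sub_sq (a b : ℝ) :
    ‖e a - e b‖ ^ 2 = 2 * (1 - Real.cos (2 * Real.pi * (a - b))) := by
  rw [← Complex.normSq_eq_norm_sq, Complex.normSq_sub, Complex.normSq_eq_norm_sq,
    Complex.normSq_eq_norm_sq, norm_e, norm_e, conj_e, ← e_add, api_hat_e_re]
  rw [show a + -b = a - b by ring]
  ring

theorem norm_hat_sub_hat_le {μ : Law} (h : IsProb μ) (x y : ℝ) :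
    ‖hat μ x - hat μ y‖ ≤ Real.sqrt (2 * (1 - (hat μ (x - y)).re)) := by
  apply Real.le_sqrt_of_sq_le
  have h1 : hat μ x - hat μ y = ev μ fun n : ℤ => (e (n * x) - e (n * y)) := by
    have h2 := ev_add_fun μ (fun n : ℤ => (e (n * x) - e (n * y))) (fun n : ℤ => e (n * y))
    simp only [sub_add_cancel] at h2
    unfold hat
    rw [h2]
    ring
  rw [h1]
  refine (h.sq_ev_le _).trans ?_
  rw [api_hat_one_sub h, ← api_hat_ev_mul_left]
  apply h.ev_mono
  intro n _
  rw [api_hat_norm_sub_sq]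
  rw [show (n : ℝ) * x - n * y = n * (x - y) by ring]

theorem ev_e_add (μ : Law) (x : ℝ) (u : ℤ) :
    ev μ (fun n => e (((n + u : ℤ) : ℝ) * x)) = e (u * x) * hat μ x := by
  unfold hat
  rw [← ev_const_mul]
  congr 1
  funext n
  rw [← e_add]
  congr 1
  push_cast
  ring

end

end Pool.NilAvg
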