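import Pool.Agent.Helper986.NilAvg.Defs
import Pool.Agent.Helper986.NilAvg.ApiEv
import Pool.Agent.Helper986.NilAvg.ApiNrm

set_option autoImplicit false

namespace Pool.NilAvg

open Filter Topology
open scoped ComplexConjugate

noncomputable section

variable {κ : Type}


/-- a law is close to the empirical law of a finite list -/
theorem approx_list (ν : Law) (hν : IsProb ν) (ε : ℝ) (hε : 0 < ε) :
    ∃ l : List ℤ, l ≠ [] ∧ ∀ f : ℤ → ℂ, (∀ n, ‖f n‖ ≤ 1) →
      ‖(l.length : ℂ)⁻¹ * (l.map f).sum - ev ν f‖ ≤ ε := by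
  classical
  set S := ν.coeff.support with hS
  have hsum : ∑ n ∈ S, ν.coeff n = 1 := hν.sum_eq
  obtain ⟨N, hN⟩ := exists_nat_gt ((2 * (S.card : ℝ) + 1) / ε)
  have hN0 : (0 : ℝ) < N := lt_trans (by positivity) hN
  have hNn : 0 < N := by exact_mod_cast hN0
  have hN1 : 2 * (S.card : ℝ) ≤ ε * N := by
    rw [div_lt_iff₀ hε] at hN
    linarith
  set m : ℤ → ℕ := fun n => ⌊(N : ℝ) * ν.coeff n⌋₊ with hm
  have hm1 : ∀ n, (m n : ℝ) ≤ N * ν.coeff n := fun n =>
    Nat.floor_le (mul_nonneg hN0.le (hν.nonneg n))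
  have hm2 : ∀ n, (N : ℝ) * ν.coeff n < m n + 1 := fun n => Nat.lt_floor_add_one _
  have hms : (∑ n ∈ S, (m n : ℝ)) ≤ N := by
    calc (∑ n ∈ S, (m n : ℝ)) ≤ ∑ n ∈ S, (N : ℝ) * ν.coeff n := Finset.sum_le_sum fun n _ => hm1 n
      _ = N := by rw [← Finset.mul_sum, hsum, mul_one]
  have hms2 : (N : ℝ) ≤ (∑ n ∈ S, (m n : ℝ)) + S.card := by
    calc (N : ℝ) = ∑ n ∈ S, (N : ℝ) * ν.coeff n := by rw [← Finset.mul_sum, hsum, mul_one]
      _ ≤ ∑ n ∈ S, ((m n : ℝ) + 1) := Finset.sum_le_sum fun n _ => (hm2 n).le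
      _ = _ := by rw [Finset.sum_add_distrib]; simp
  have hmsn : (∑ n ∈ S, m n) ≤ N := by exact_mod_cast hms
  obtain ⟨r, hr⟩ := Nat.exists_eq_add_of_le hmsn
  have hrR : (N : ℝ) = (∑ n ∈ S, (m n : ℝ)) + r := by
    rw [hr]; push_cast; rfl
  set ms : Multiset ℤ := (∑ n ∈ S, m n • ({n} : Multiset ℤ)) + r • ({0} : Multiset ℤ) with hmsdef
  have hcard : Multiset.card ms = N := by
    rw [hmsdef, Multiset.card_add, Multiset.card_sum, hr]
    simp
  refine ⟨ms.toList, ?_, ?_⟩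
  · intro h
    have := congrArg List.length h
    rw [Multiset.length_toList, hcard] at this
    simp at this
    omega
  intro f hf
  have hlen : ms.toList.length = N := by rw [Multiset.length_toList, hcard]
  have hmap : (ms.toList.map f).sum = ∑ n ∈ S, (m n : ℂ) * f n + r * f 0 := by
    have h1 : (ms.toList.map f).sum = (ms.map f).sum := by
      conv_rhs => rw [← Multiset.coe_toList ms]
      rw [Multiset.map_coe, Multiset.sum_coe]
    have h2 : (ms.map f).sum = (Multiset.sumAddMonoidHom.comp (Multiset.mapAddMonoidHom f)) ms := rfl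
    rw [h1, h2, hmsdef, map_add, map_sum, map_nsmul]
    simp [map_nsmul]
  have hev : ev ν f = ∑ n ∈ S, (ν.coeff n : ℂ) * f n := by
    unfold ev
    rw [Finsupp.sum]
    refine Finset.sum_congr rfl fun n _ => ?_
    rw [Complex.real_smul]
  have hNC : (N : ℂ) ≠ 0 := by exact_mod_cast hNn.ne'
  rw [hlen, hmap, hev]
  have e1 : (N : ℂ)⁻¹ * (∑ n ∈ S, (m n : ℂ) * f n + r * f 0) - ∑ n ∈ S, (ν.coeff n : ℂ) * f n =
      (N : ℂ)⁻¹ * ((∑ n ∈ S, (((m n : ℝ) - N * ν.coeff n : ℝ) : ℂ) * f n) + r * f 0) := by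
    have h3 : ∑ n ∈ S, (((m n : ℝ) - N * ν.coeff n : ℝ) : ℂ) * f n =
        ∑ n ∈ S, (m n : ℂ) * f n - N * ∑ n ∈ S, (ν.coeff n : ℂ) * f n := by
      rw [Finset.mul_sum, ← Finset.sum_sub_distrib]
      refine Finset.sum_congr rfl fun n _ => ?_
      push_cast
      ring
    rw [h3]
    field_simp
    ring
  rw [e1, norm_mul, norm_inv, Complex.norm_natCast, inv_mul_le_iff₀ hN0]
  refine (norm_add_le _ _).trans ?_
  have h4 : ‖∑ n ∈ S, (((m n : ℝ) - N * ν.coeff n : ℝ) : ℂ) * f n‖ ≤ S.card := by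
    refine (norm_sum_le _ _).trans ?_
    calc ∑ n ∈ S, ‖(((m n : ℝ) - N * ν.coeff n : ℝ) : ℂ) * f n‖ ≤ ∑ n ∈ S, (1 : ℝ) := by
          refine Finset.sum_le_sum fun n _ => ?_
          rw [norm_mul, Complex.norm_real, Real.norm_eq_abs]
          have h5 : |(m n : ℝ) - N * ν.coeff n| ≤ 1 := by
            rw [abs_le]
            constructor <;> linarith [hm1 n, hm2 n]
          exact mul_le_one₀ h5 (norm_nonneg _) (hf n)
      _ = S.card := by simp
  have h5 : ‖(r : ℂ) * f 0‖ ≤ S.card := by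
    rw [norm_mul, Complex.norm_natCast]
    have h6 : (r : ℝ) ≤ S.card := by linarith
    calc (r : ℝ) * ‖f 0‖ ≤ r * 1 := mul_le_mul_of_nonneg_left (hf 0) (by positivity)
      _ ≤ S.card := by linarith
  linarith

end

end Pool.NilAvg
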