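import Pool.Agent.Helper986.NilAvg.Defs

set_option autoImplicit false

namespace Pool.NilAvg

open Filter Topology
open scoped ComplexConjugate

noncomputable section

variable {κ : Type}

/-- integers with binary digits at the places `a i` -/
def pos (a : ℕ) (y : Finset ℕ) : ℤ := ∑ i ∈ y, 2 ^ (a * i)

/-- the sign `(-1)^(number of pairs of `y × z` in `B`)` -/
def sgn (B : ℕ → ℕ → Bool) (y z : Finset ℕ) : ℝ :=
  (-1) ^ ((y ×ˢ z).filter fun p => B p.1 p.2 = true).card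

open Classical in
/-- number of rows of `B` selected by exactly one of `y`, `y'` with a one in column `j` -/
def cnt (B : ℕ → ℕ → Bool) (y y' : Finset ℕ) (j : ℕ) : ℕ :=
  ((symmDiff y y').filter fun i => B i j = true).card

def BadPair (a l : ℕ) (B : ℕ → ℕ → Bool) (ϑ : ℤ → ℝ) (Ξ : Finset ℝ) (ε : ℝ)
    (y y' : Finset ℕ) : Prop :=
  ∃ ξ ∈ Ξ, ε ≤ ∏ j ∈ Finset.range l, |Real.cos (Real.pi *
    (2 ^ (a * (l + j)) * (ϑ (pos a y - pos a y') + ξ) + (cnt B y y' j : ℝ) / 2))|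

open Classical in
/-- for every quasi-additive `ϑ` of complexity at most `M` there are few bad pairs -/
def GoodMat (M a l : ℕ) (B : ℕ → ℕ → Bool) : Prop :=
  ∀ (ϑ : ℤ → ℝ) (Λ Ξ : Finset ℝ), Λ.card ≤ M → Ξ.card ≤ M →
    (∀ u v : ℤ, ∃ x ∈ Λ, ∃ m : ℤ, ϑ (u + v) = ϑ u + ϑ v + x + m) →
    M * (((Finset.range l).powerset ×ˢ (Finset.range l).powerset).filter fun p =>
      BadPair a l B ϑ Ξ (1 / M) p.1 p.2).card ≤ 4 ^ l

end

end Pool.NilAvg
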