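import Pool.Agent.Helper986.NilAvg.Defs
import Pool.Agent.Helper986.NilAvg.ApiHat
import Pool.Agent.Helper986.NilAvg.DefsB

set_option autoImplicit false

namespace Pool.NilAvg

open Filter Topology
open scoped ComplexConjugate

noncomputable section

variable {κ : Type}


theorem bound_of_good_cos (v : ℝ) : ‖1 + e v‖ = 2 * |Real.cos (Real.pi * v)| := by
  have h : 1 + e v = e (v / 2) * ((2 * Real.cos (Real.pi * v) : ℝ) : ℂ) := by
    have h1 : ((2 * Real.cos (Real.pi * v) : ℝ) : ℂ) =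
        Complex.exp (((Real.pi * v : ℝ) : ℂ) * Complex.I) +
          Complex.exp (-((Real.pi * v : ℝ) : ℂ) * Complex.I) := by
      rw [Complex.ofReal_mul, Complex.ofReal_cos, Complex.cos]
      push_cast
      ring
    rw [h1]
    unfold e
    rw [mul_add, ← Complex.exp_add, ← Complex.exp_add]
    have h2 : 2 * (Real.pi : ℂ) * Complex.I * ((v / 2 : ℝ) : ℂ) +
        ((Real.pi * v : ℝ) : ℂ) * Complex.I = 2 * (Real.pi : ℂ) * Complex.I * (v : ℂ) := by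
      push_cast; ring
    have h3 : 2 * (Real.pi : ℂ) * Complex.I * ((v / 2 : ℝ) : ℂ) +
        -((Real.pi * v : ℝ) : ℂ) * Complex.I = 0 := by
      push_cast; ring
    rw [h2, h3, Complex.exp_zero, add_comm]
  rw [h, norm_mul, norm_e, one_mul, Complex.norm_real, Real.norm_eq_abs, abs_mul,
    abs_of_pos (by norm_num : (0 : ℝ) < 2)]

theorem bound_of_good_half (c : ℕ) : e ((c : ℝ) / 2) = (-1 : ℂ) ^ c := by
  unfold e
  have h : 2 * (Real.pi : ℂ) * Complex.I * (((c : ℝ) / 2 : ℝ) : ℂ) =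
      (c : ℂ) * ((Real.pi : ℂ) * Complex.I) := by
    push_cast; ring
  rw [h, Complex.exp_nat_mul, Complex.exp_pi_mul_I]

theorem bound_of_good_sgn1 (B : ℕ → ℕ → Bool) (y z : Finset ℕ) :
    sgn B y z = ∏ j ∈ z, (-1 : ℝ) ^ (y.filter fun i => B i j = true).card := by
  unfold sgn
  rw [Finset.prod_pow_eq_pow_sum]
  congr 1
  rw [Finset.card_filter, Finset.sum_product_right]
  refine Finset.sum_congr rfl fun j _ => ?_
  rw [Finset.card_filter]

theorem bound_of_good_sgn (B : ℕ → ℕ → Bool) (y y' z : Finset ℕ) :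
    sgn B y z * sgn B y' z = ∏ j ∈ z, (-1 : ℝ) ^ (cnt B y y' j) := by
  classical
  rw [bound_of_good_sgn1, bound_of_good_sgn1, ← Finset.prod_mul_distrib]
  refine Finset.prod_congr rfl fun j _ => ?_
  obtain ⟨Y, hY⟩ : ∃ Y, Y = y.filter fun i => B i j = true := ⟨_, rfl⟩
  obtain ⟨Y', hY'⟩ : ∃ Y, Y = y'.filter fun i => B i j = true := ⟨_, rfl⟩
  have h1 : cnt B y y' j = (Y \ Y').card + (Y' \ Y).card := by
    rw [← Finset.card_union_of_disjoint disjoint_sdiff_sdiff]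
    unfold cnt
    congr 1
    ext i
    rw [hY, hY']
    simp only [Finset.mem_filter, Finset.mem_symmDiff, Finset.mem_union, Finset.mem_sdiff]
    tauto
  have h2 : (Y \ Y').card + (Y ∩ Y').card = Y.card := Finset.card_sdiff_add_card_inter Y Y'
  have h3 : (Y' \ Y).card + (Y' ∩ Y).card = Y'.card := Finset.card_sdiff_add_card_inter Y' Y
  rw [← hY, ← hY', ← pow_add, h1, ← h2, ← h3, Finset.inter_comm Y' Y]
  have h4 : (Y \ Y').card + (Y ∩ Y').card + ((Y' \ Y).card + (Y ∩ Y').card) =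
      ((Y \ Y').card + (Y' \ Y).card) + 2 * (Y ∩ Y').card := by ring
  rw [h4, pow_add, pow_mul]
  simp

theorem bound_of_good_esum (z : Finset ℕ) (v : ℕ → ℝ) :
    e (∑ j ∈ z, v j) = ∏ j ∈ z, e (v j) := by
  classical
  induction z using Finset.induction_on with
  | empty =>
    rw [Finset.sum_empty, Finset.prod_empty]
    have := e_int 0
    simpa using this
  | insert a s ha ih => rw [Finset.sum_insert ha, Finset.prod_insert ha, e_add, ih]

theorem bound_of_good_abs_sgn (B : ℕ → ℕ → Bool) (y z : Finset ℕ) : |sgn B y z| = 1 := by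
  unfold sgn
  rw [abs_pow, abs_neg, abs_one, one_pow]

/-- the sum over `z` -/
theorem bound_of_good_z (a l : ℕ) (B : ℕ → ℕ → Bool) (y y' : Finset ℕ) (m t : ℤ) (x : ℝ) :
    ‖∑ z ∈ (Finset.range l).powerset, ((sgn B y z * sgn B y' z : ℝ) : ℂ) *
      e (((m + t * (2 ^ (a * l) * pos a z) : ℤ) : ℝ) * x)‖ =
    2 ^ l * ∏ j ∈ Finset.range l, |Real.cos (Real.pi *
      (t * 2 ^ (a * (l + j)) * x + (cnt B y y' j : ℝ) / 2))| := by
  have h1 : ∀ z : Finset ℕ, ((sgn B y z * sgn B y' z : ℝ) : ℂ) *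
      e (((m + t * (2 ^ (a * l) * pos a z) : ℤ) : ℝ) * x) =
      e (m * x) * ∏ j ∈ z, e (t * 2 ^ (a * (l + j)) * x + (cnt B y y' j : ℝ) / 2) := by
    intro z
    have h2 : ((m + t * (2 ^ (a * l) * pos a z) : ℤ) : ℝ) * x =
        m * x + ∑ j ∈ z, t * 2 ^ (a * (l + j)) * x := by
      unfold pos
      push_cast
      rw [add_mul, Finset.mul_sum, Finset.mul_sum, Finset.sum_mul]
      congr 1
      refine Finset.sum_congr rfl fun j _ => ?_
      rw [mul_add, pow_add, ← mul_assoc]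
    rw [h2, e_add, bound_of_good_esum, bound_of_good_sgn]
    have h3 : ∏ j ∈ z, e (t * 2 ^ (a * (l + j)) * x + (cnt B y y' j : ℝ) / 2) =
        (∏ j ∈ z, e (t * 2 ^ (a * (l + j)) * x)) * ∏ j ∈ z, (-1 : ℂ) ^ (cnt B y y' j) := by
      rw [← Finset.prod_mul_distrib]
      refine Finset.prod_congr rfl fun j _ => ?_
      rw [e_add, bound_of_good_half]
    rw [h3]
    push_cast
    ring
  rw [Finset.sum_congr rfl (fun z _ => h1 z), ← Finset.mul_sum, ← Finset.prod_one_add, norm_mul,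
    norm_e, one_mul, norm_prod]
  rw [Finset.prod_congr rfl (fun j _ => bound_of_good_cos _), Finset.prod_mul_distrib,
    Finset.prod_const, Finset.card_range]

open Classical in
theorem bound_of_good_pair (M a l : ℕ) (B : ℕ → ℕ → Bool)
    (f : ℤ → ℂ) (θ : ℤ → ℝ) (Ξ : Finset ℝ) (K ε : ℝ) (hK : 0 ≤ K)
    (happr : ∀ u : ℤ, ∃ p : ℝ → ℂ, (∑ ξ ∈ Ξ, ‖p ξ‖) ≤ K ∧
      ∀ n : ℤ, ‖f (n + u) * conj (f n) - e (n * θ u) * ∑ ξ ∈ Ξ, p ξ * e (n * ξ)‖ ≤ ε)
    (m t : ℤ) (y y' : Finset ℕ) :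
    ‖∑ z ∈ (Finset.range l).powerset,
      ((sgn B y z : ℂ) * f (m + t * (pos a y + 2 ^ (a * l) * pos a z))) *
      conj ((sgn B y' z : ℂ) * f (m + t * (pos a y' + 2 ^ (a * l) * pos a z)))‖ ≤
    2 ^ l * ((if BadPair a l B (fun v => t * θ (t * v)) (Ξ.image fun ξ => t * ξ) (1 / M) y y'
      then K else K / M) + ε) := by
  obtain ⟨p, hp, hp'⟩ := happr (t * (pos a y - pos a y'))
  obtain ⟨θu, hθu⟩ : ∃ θu, θu = θ (t * (pos a y - pos a y')) := ⟨_, rfl⟩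
  rw [← hθu] at hp'
  obtain ⟨N, hN⟩ : ∃ N : Finset ℕ → ℤ, N = fun z => (m + t * pos a y') + t * (2 ^ (a * l) * pos a z) :=
    ⟨_, rfl⟩
  have h1 : ∀ z, ((sgn B y z : ℂ) * f (m + t * (pos a y + 2 ^ (a * l) * pos a z))) *
      conj ((sgn B y' z : ℂ) * f (m + t * (pos a y' + 2 ^ (a * l) * pos a z))) =
      (∑ ξ ∈ Ξ, p ξ * (((sgn B y z * sgn B y' z : ℝ) : ℂ) * e ((N z : ℝ) * (θu + ξ)))) +
      ((sgn B y z * sgn B y' z : ℝ) : ℂ) * (f (N z + t * (pos a y - pos a y')) * conj (f (N z)) -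
        e (N z * θu) * ∑ ξ ∈ Ξ, p ξ * e (N z * ξ)) := by
    intro z
    have e1 : m + t * (pos a y + 2 ^ (a * l) * pos a z) = N z + t * (pos a y - pos a y') := by
      rw [hN]; ring
    have e2 : m + t * (pos a y' + 2 ^ (a * l) * pos a z) = N z := by
      rw [hN]; ring
    rw [e1, e2, map_mul, Complex.conj_ofReal]
    have e3 : ∑ ξ ∈ Ξ, p ξ * (((sgn B y z * sgn B y' z : ℝ) : ℂ) * e ((N z : ℝ) * (θu + ξ))) =
        ((sgn B y z * sgn B y' z : ℝ) : ℂ) * (e (N z * θu) * ∑ ξ ∈ Ξ, p ξ * e (N z * ξ)) := by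
      rw [Finset.mul_sum, Finset.mul_sum]
      refine Finset.sum_congr rfl fun ξ _ => ?_
      rw [mul_add, e_add]; ring
    rw [e3]
    push_cast
    ring
  rw [Finset.sum_congr rfl (fun z _ => h1 z), Finset.sum_add_distrib]
  refine (norm_add_le _ _).trans ?_
  rw [mul_add]
  refine add_le_add ?_ ?_
  · rw [Finset.sum_comm]
    have h2 : ∀ ξ ∈ Ξ, ‖∑ z ∈ (Finset.range l).powerset,
        p ξ * (((sgn B y z * sgn B y' z : ℝ) : ℂ) * e ((N z : ℝ) * (θu + ξ)))‖ ≤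
        ‖p ξ‖ * (2 ^ l * (if BadPair a l B (fun v => t * θ (t * v)) (Ξ.image fun ξ => t * ξ)
          (1 / M) y y' then (1 : ℝ) else 1 / (M : ℝ))) := by
      intro ξ hξ
      rw [← Finset.mul_sum, norm_mul]
      refine mul_le_mul_of_nonneg_left ?_ (norm_nonneg _)
      rw [hN]
      rw [bound_of_good_z]
      refine mul_le_mul_of_nonneg_left ?_ (by positivity)
      have hprod : ∏ j ∈ Finset.range l, |Real.cos (Real.pi *
          (t * 2 ^ (a * (l + j)) * (θu + ξ) + (cnt B y y' j : ℝ) / 2))| =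
          ∏ j ∈ Finset.range l, |Real.cos (Real.pi * (2 ^ (a * (l + j)) *
          ((fun v : ℤ => (t : ℝ) * θ (t * v)) (pos a y - pos a y') + t * ξ) +
            (cnt B y y' j : ℝ) / 2))| := by
        refine Finset.prod_congr rfl fun j _ => ?_
        congr 3
        show _ = 2 ^ (a * (l + j)) * (t * θ (t * (pos a y - pos a y')) + t * ξ) + _
        rw [← hθu]; ring
      split_ifs with hbad
      · refine Finset.prod_le_one (fun j _ => abs_nonneg _) (fun j _ => Real.abs_cos_le_one _)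
      · rw [hprod]
        by_contra hcon
        push Not at hcon
        exact hbad ⟨t * ξ, Finset.mem_image_of_mem _ hξ, hcon.le⟩
    refine (norm_sum_le _ _).trans ((Finset.sum_le_sum h2).trans ?_)
    rw [← Finset.sum_mul]
    have h3 : (0 : ℝ) ≤ 2 ^ l * (if BadPair a l B (fun v => t * θ (t * v))
        (Ξ.image fun ξ => t * ξ) (1 / M) y y' then (1 : ℝ) else 1 / (M : ℝ)) := by
      split_ifs <;> positivity
    refine (mul_le_mul_of_nonneg_right hp h3).trans (le_of_eq ?_)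
    split_ifs
    · ring
    · ring
  · refine (norm_sum_le _ _).trans ?_
    have h2 : ∀ z ∈ (Finset.range l).powerset, ‖((sgn B y z * sgn B y' z : ℝ) : ℂ) *
        (f (N z + t * (pos a y - pos a y')) * conj (f (N z)) -
        e (N z * θu) * ∑ ξ ∈ Ξ, p ξ * e (N z * ξ))‖ ≤ ε := by
      intro z _
      rw [norm_mul, Complex.norm_real, Real.norm_eq_abs, abs_mul, bound_of_good_abs_sgn,
        bound_of_good_abs_sgn, one_mul, one_mul]
      exact hp' (N z)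
    refine (Finset.sum_le_sum h2).trans ?_
    rw [Finset.sum_const, Finset.card_powerset, Finset.card_range, nsmul_eq_mul]
    push_cast
    exact le_rfl

/-- the first two steps -/
theorem bound_of_good_cs {ι : Type*} (P : Finset ι) (g : ι → ι → ℂ) :
    ‖∑ y ∈ P, ∑ z ∈ P, g y z‖ ^ 2 ≤
      P.card * ∑ y ∈ P, ∑ y' ∈ P, ‖∑ z ∈ P, g y z * conj (g y' z)‖ := by
  rw [Finset.sum_comm]
  have h1 : ‖∑ z ∈ P, ∑ y ∈ P, g y z‖ ^ 2 ≤ P.card * ∑ z ∈ P, ‖∑ y ∈ P, g y z‖ ^ 2 := by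
    calc ‖∑ z ∈ P, ∑ y ∈ P, g y z‖ ^ 2 ≤ (∑ z ∈ P, ‖∑ y ∈ P, g y z‖) ^ 2 :=
          pow_le_pow_left₀ (norm_nonneg _) (norm_sum_le _ _) 2
      _ ≤ _ := sq_sum_le_card_mul_sum_sq
  refine h1.trans (mul_le_mul_of_nonneg_left ?_ (Nat.cast_nonneg _))
  have h2 : ((∑ z ∈ P, ‖∑ y ∈ P, g y z‖ ^ 2 : ℝ) : ℂ) =
      ∑ y ∈ P, ∑ y' ∈ P, ∑ z ∈ P, g y z * conj (g y' z) := by
    have h3 : ∀ z, ((‖∑ y ∈ P, g y z‖ ^ 2 : ℝ) : ℂ) = ∑ y ∈ P, ∑ y' ∈ P, g y z * conj (g y' z) := by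
      intro z
      have h4 := Complex.mul_conj (∑ y ∈ P, g y z)
      rw [Complex.normSq_eq_norm_sq] at h4
      rw [← h4, map_sum, Finset.sum_mul_sum]
    rw [Complex.ofReal_sum, Finset.sum_congr rfl (fun z _ => h3 z), Finset.sum_comm]
    refine Finset.sum_congr rfl fun y _ => ?_
    rw [Finset.sum_comm]
  have h3 : (∑ z ∈ P, ‖∑ y ∈ P, g y z‖ ^ 2 : ℝ) =
      ‖∑ y ∈ P, ∑ y' ∈ P, ∑ z ∈ P, g y z * conj (g y' z)‖ := by
    rw [← h2, Complex.norm_real, Real.norm_eq_abs, abs_of_nonneg]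
    exact Finset.sum_nonneg fun z _ => by positivity
  rw [h3]
  refine (norm_sum_le _ _).trans (Finset.sum_le_sum fun y _ => norm_sum_le _ _)

theorem bound_of_good (M a l : ℕ) (hM : 1 ≤ M) (B : ℕ → ℕ → Bool) (hB : GoodMat M a l B)
    (f : ℤ → ℂ) (θ : ℤ → ℝ) (Λ Ξ : Finset ℝ) (K ε : ℝ) (hK : 0 ≤ K)
    (hΛ : Λ.card ≤ M) (hΞ : Ξ.card ≤ M)
    (hadd : ∀ u v : ℤ, ∃ x ∈ Λ, ∃ m : ℤ, θ (u + v) = θ u + θ v + x + m)
    (happr : ∀ u : ℤ, ∃ p : ℝ → ℂ, (∑ ξ ∈ Ξ, ‖p ξ‖) ≤ K ∧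
      ∀ n : ℤ, ‖f (n + u) * conj (f n) - e (n * θ u) * ∑ ξ ∈ Ξ, p ξ * e (n * ξ)‖ ≤ ε)
    (m t : ℤ) :
    ‖(4 ^ l : ℂ)⁻¹ * ∑ y ∈ (Finset.range l).powerset, ∑ z ∈ (Finset.range l).powerset,
      (sgn B y z : ℂ) * f (m + t * (pos a y + 2 ^ (a * l) * pos a z))‖ ^ 2 ≤
      2 * K / M + ε := by
  classical
  obtain ⟨P, hP⟩ : ∃ P, P = (Finset.range l).powerset := ⟨_, rfl⟩
  have hPc : P.card = 2 ^ l := by rw [hP, Finset.card_powerset, Finset.card_range]
  have hM0 : (0 : ℝ) < M := by exact_mod_cast hM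
  obtain ⟨G, hG⟩ : ∃ G : Finset ℕ → Finset ℕ → ℂ, G = fun y z =>
    (sgn B y z : ℂ) * f (m + t * (pos a y + 2 ^ (a * l) * pos a z)) := ⟨_, rfl⟩
  have hcs := bound_of_good_cs P G
  obtain ⟨bad, hbad⟩ : ∃ bad : Finset ℕ → Finset ℕ → Prop, bad = fun y y' =>
    BadPair a l B (fun v => t * θ (t * v)) (Ξ.image fun ξ => t * ξ) (1 / M) y y' := ⟨_, rfl⟩
  have hpair : ∀ y y', ‖∑ z ∈ P, G y z * conj (G y' z)‖ ≤
      2 ^ l * ((if bad y y' then K else K / M) + ε) := by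
    intro y y'
    rw [hG, hP, hbad]
    exact bound_of_good_pair M a l B f θ Ξ K ε hK happr m t y y'
  -- number of bad pairs
  have hgood : (M : ℝ) * (((P ×ˢ P).filter fun q => bad q.1 q.2).card : ℝ) ≤ 4 ^ l := by
    have h1 := hB (fun v => t * θ (t * v)) (Λ.image fun x => t * x) (Ξ.image fun ξ => t * ξ)
      (Finset.card_image_le.trans hΛ) (Finset.card_image_le.trans hΞ) (fun u v => by
        obtain ⟨x, hx, k, hk⟩ := hadd (t * u) (t * v)
        refine ⟨t * x, Finset.mem_image_of_mem _ hx, t * k, ?_⟩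
        show (t : ℝ) * θ (t * (u + v)) = t * θ (t * u) + t * θ (t * v) + t * x + ((t * k : ℤ) : ℝ)
        rw [mul_add t u v, hk]
        push_cast
        ring)
    rw [hP, hbad]
    exact_mod_cast h1
  have hε : 0 ≤ ε := by
    obtain ⟨p, _, hp⟩ := happr 0
    exact (norm_nonneg _).trans (hp 0)
  have hsum : ∑ y ∈ P, ∑ y' ∈ P, ‖∑ z ∈ P, G y z * conj (G y' z)‖ ≤
      2 ^ l * (4 ^ l * (2 * K / M + ε)) := by
    have h1 : ∑ y ∈ P, ∑ y' ∈ P, ‖∑ z ∈ P, G y z * conj (G y' z)‖ ≤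
        ∑ q ∈ P ×ˢ P, 2 ^ l * ((if bad q.1 q.2 then K else 0) + (K / M + ε)) := by
      rw [← Finset.sum_product']
      refine Finset.sum_le_sum fun q _ => (hpair q.1 q.2).trans ?_
      refine mul_le_mul_of_nonneg_left ?_ (by positivity)
      have h0 : 0 ≤ K / M := by positivity
      split_ifs <;> linarith
    refine h1.trans ?_
    rw [← Finset.mul_sum]
    refine mul_le_mul_of_nonneg_left ?_ (by positivity)
    rw [Finset.sum_add_distrib, Finset.sum_const, Finset.card_product, hPc, nsmul_eq_mul,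
      ← Finset.sum_filter, Finset.sum_const, nsmul_eq_mul]
    have h2 : (((P ×ˢ P).filter fun q => bad q.1 q.2).card : ℝ) ≤ 4 ^ l / M := by
      rw [le_div_iff₀ hM0, mul_comm]; exact hgood
    have h3 : ((2 ^ l * 2 ^ l : ℕ) : ℝ) = 4 ^ l := by
      push_cast
      rw [← mul_pow]; norm_num
    rw [h3]
    have h4 := mul_le_mul_of_nonneg_right h2 hK
    have h5 : 4 ^ l / (M : ℝ) * K + 4 ^ l * (K / M + ε) = 4 ^ l * (2 * K / M + ε) := by ring
    linarith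
  have hfin : ‖∑ y ∈ P, ∑ z ∈ P, G y z‖ ^ 2 ≤ 4 ^ l * 4 ^ l * (2 * K / M + ε) := by
    refine hcs.trans ?_
    rw [hPc]
    have h1 := mul_le_mul_of_nonneg_left hsum (show (0 : ℝ) ≤ ((2 ^ l : ℕ) : ℝ) by positivity)
    refine h1.trans (le_of_eq ?_)
    have h3 : (2 : ℝ) ^ l * 2 ^ l = 4 ^ l := by
      rw [← mul_pow]; norm_num
    push_cast
    rw [← h3]; ring
  have hmain : ‖(4 ^ l : ℂ)⁻¹ * ∑ y ∈ P, ∑ z ∈ P, G y z‖ ^ 2 ≤ 2 * K / M + ε := by
    rw [norm_mul, norm_inv, norm_pow, mul_pow]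
    have h4 : ‖(4 : ℂ)‖ = 4 := by norm_num
    rw [h4]
    have h5 : (0 : ℝ) < 4 ^ l := by positivity
    have h6 := mul_le_mul_of_nonneg_left hfin (show (0 : ℝ) ≤ ((4 ^ l)⁻¹) ^ 2 by positivity)
    refine h6.trans (le_of_eq ?_)
    field_simp
  rw [hP, hG] at hmain
  exact hmain

end

end Pool.NilAvg
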