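import Pool.Agent.Helper986.NilAvg.Defs

set_option autoImplicit false

namespace Pool.NilAvg

open Filter Topology
open scoped ComplexConjugate

noncomputable section

variable {κ : Type}

universe u


section CharsPW

open MeasureTheory Filter Topology
open scoped ComplexConjugate

section Rep

variable {B : Type u} [Group B] [TopologicalSpace B] [IsTopologicalGroup B] [CompactSpace B]

/-- Left translation of continuous functions. -/
def chars_Lt (g : B) : C(B, ℂ) →ₗ[ℂ] C(B, ℂ) where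
  toFun φ := φ.comp ⟨fun x => g⁻¹ * x, by fun_prop⟩
  map_add' _ _ := rfl
  map_smul' _ _ := rfl

omit [CompactSpace B] in
lemma chars_Lt_apply (g : B) (φ : C(B, ℂ)) (x : B) : chars_Lt g φ x = φ (g⁻¹ * x) := rfl

omit [CompactSpace B] in
lemma chars_Lt_one (φ : C(B, ℂ)) : chars_Lt (1 : B) φ = φ := by
  ext x; rw [chars_Lt_apply]; simp

omit [CompactSpace B] in
lemma chars_Lt_mul (g h : B) (φ : C(B, ℂ)) : chars_Lt (g * h) φ = chars_Lt g (chars_Lt h φ) := by
  ext x; rw [chars_Lt_apply, chars_Lt_apply, chars_Lt_apply, mul_inv_rev, mul_assoc]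

lemma chars_Lt_cont (φ : C(B, ℂ)) : Continuous (fun g : B => chars_Lt g φ) := by
  have h : Continuous (fun g : B =>
      (ContinuousMap.curry (⟨fun q : B × B => φ (q.1⁻¹ * q.2), by fun_prop⟩ : C(B × B, ℂ))) g) :=
    ContinuousMap.continuous _
  exact h

lemma chars_fix_of_all {b : B}
    (H : ∀ (N : ℕ) (ρ : B →* Matrix (Fin N) (Fin N) ℂ), Continuous ρ → ρ b = 1)
    (V : Submodule ℂ C(B, ℂ)) [FiniteDimensional ℂ V] (hV : ∀ g : B, ∀ φ ∈ V, chars_Lt g φ ∈ V) :
    ∀ φ ∈ V, chars_Lt b φ = φ := by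
  let rep : B →* (V →ₗ[ℂ] V) :=
    { toFun := fun g => (chars_Lt g).restrict (hV g)
      map_one' := by
        ext φ x
        exact congrArg (fun ψ : C(B, ℂ) => ψ x) (chars_Lt_one φ.1)
      map_mul' := fun g h => by
        ext φ x
        exact congrArg (fun ψ : C(B, ℂ) => ψ x) (chars_Lt_mul g h φ.1) }
  have hrep : ∀ g (φ : V), ((rep g φ : V) : C(B, ℂ)) = chars_Lt g φ.1 := fun _ _ => rfl
  let bas := Module.finBasis ℂ V
  let ρ : B →* Matrix (Fin (Module.finrank ℂ V)) (Fin (Module.finrank ℂ V)) ℂ :=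
    ((LinearMap.toMatrixAlgEquiv bas : (V →ₗ[ℂ] V) →* _)).comp rep
  have hρ : ∀ g, ρ g = LinearMap.toMatrixAlgEquiv bas (rep g) := fun _ => rfl
  have hc : Continuous ρ := by
    refine continuous_matrix fun i j => ?_
    have h1 : ∀ g, ρ g i j = bas.coord i (rep g (bas j)) := by
      intro g
      rw [hρ, LinearMap.toMatrixAlgEquiv_apply]
      rfl
    simp only [h1]
    have h2 : Continuous (bas.coord i) := LinearMap.continuous_of_finiteDimensional _
    refine h2.comp ?_
    rw [continuous_induced_rng]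
    exact chars_Lt_cont (bas j).1
  have h3 := H _ ρ hc
  rw [hρ] at h3
  have h4 : rep b = 1 := by
    apply (LinearMap.toMatrixAlgEquiv bas).injective
    rw [h3, map_one]
  intro φ hφ
  have h5 := hrep b ⟨φ, hφ⟩
  rw [h4] at h5
  exact h5.symm

end Rep

section PW

variable {B : Type u} [Group B] [TopologicalSpace B] [IsTopologicalGroup B] [CompactSpace B]
  [T2Space B] [MeasurableSpace B] [BorelSpace B] (μ : Measure B) [IsFiniteMeasure μ]

/-- The convolution kernel. -/
def chars_ker2 (k : C(B, ℂ)) : C(B × B, ℂ) := ⟨fun q => k (q.1⁻¹ * q.2), by fun_prop⟩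

/-- The kernel as a map into `L^2`. -/
def chars_kap (k : C(B, ℂ)) : C(B, Lp ℂ 2 μ) :=
  ⟨fun x => ContinuousMap.toLp 2 μ ℂ ((chars_ker2 k).curry x), by fun_prop⟩

/-- The convolution operator, with values in the continuous functions. -/
def chars_Aop (k : C(B, ℂ)) : Lp ℂ 2 μ →L[ℂ] C(B, ℂ) :=
  LinearMap.mkContinuous
    { toFun := fun f => ⟨fun x => inner ℂ (chars_kap μ k x) f, by fun_prop⟩
      map_add' := fun f g => by ext x; exact inner_add_right (𝕜 := ℂ) (chars_kap μ k x) f g
      map_smul' := fun c f => by ext x; exact inner_smul_right (𝕜 := ℂ) (chars_kap μ k x) f c } ‖chars_kap μ k‖ (by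
    intro f
    rw [ContinuousMap.norm_le _ (by positivity)]
    intro x
    refine (norm_inner_le_norm (𝕜 := ℂ) (chars_kap μ k x) f).trans ?_
    exact mul_le_mul_of_nonneg_right (ContinuousMap.norm_coe_le_norm (chars_kap μ k) x) (norm_nonneg f))

lemma chars_Aop_apply (k : C(B, ℂ)) (f : Lp ℂ 2 μ) (x : B) :
    chars_Aop μ k f x = inner ℂ (chars_kap μ k x) f := rfl

lemma chars_Aop_toLp (k φ : C(B, ℂ)) (x : B) :
    chars_Aop μ k (ContinuousMap.toLp 2 μ ℂ φ) x = ∫ y, φ y * conj (k (x⁻¹ * y)) ∂μ := by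
  rw [chars_Aop_apply]
  exact ContinuousMap.inner_toLp μ _ _

lemma chars_Aop_compact (k : C(B, ℂ)) : IsCompactOperator (chars_Aop μ k) := by
  set Φ := ContinuousMap.linearIsometryBoundedOfCompact B ℂ ℂ with hΦ
  let S : Set (BoundedContinuousFunction B ℂ) := (fun f => Φ (chars_Aop μ k f)) '' Metric.ball 0 1
  have hS : IsCompact (closure S) := by
    refine BoundedContinuousFunction.arzela_ascoli (Metric.closedBall 0 ‖chars_kap μ k‖)
      (isCompact_closedBall _ _) S ?_ ?_
    · rintro _ x ⟨f, hf, rfl⟩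
      rw [mem_closedBall_zero_iff]
      rw [mem_ball_zero_iff] at hf
      show ‖chars_Aop μ k f x‖ ≤ _
      rw [chars_Aop_apply]
      refine (norm_inner_le_norm _ _).trans ?_
      have h1 := ContinuousMap.norm_coe_le_norm (chars_kap μ k) x
      nlinarith [norm_nonneg (chars_kap μ k x), norm_nonneg f]
    · intro x₀
      apply Metric.equicontinuousAt_of_continuity_modulus (fun x => ‖chars_kap μ k x₀ - chars_kap μ k x‖)
      · have : Continuous (fun x => ‖chars_kap μ k x₀ - chars_kap μ k x‖) := by fun_prop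
        have h := this.tendsto x₀
        simpa using h
      · filter_upwards with x
        rintro ⟨_, f, hf, rfl⟩
        rw [mem_ball_zero_iff] at hf
        show dist (chars_Aop μ k f x₀) (chars_Aop μ k f x) ≤ _
        rw [chars_Aop_apply, chars_Aop_apply, dist_eq_norm, ← inner_sub_left]
        refine (norm_inner_le_norm _ _).trans ?_
        nlinarith [norm_nonneg (chars_kap μ k x₀ - chars_kap μ k x), norm_nonneg f]
  rw [isCompactOperator_iff_exists_mem_nhds_image_subset_compact]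
  refine ⟨Metric.ball 0 1, Metric.ball_mem_nhds 0 one_pos, Φ.symm '' closure S,
    hS.image Φ.symm.continuous, ?_⟩
  rintro _ ⟨f, hf, rfl⟩
  exact ⟨Φ (chars_Aop μ k f), subset_closure ⟨f, hf, rfl⟩, by simp⟩

/-- The convolution operator on `L^2`. -/
def chars_Top (k : C(B, ℂ)) : Lp ℂ 2 μ →L[ℂ] Lp ℂ 2 μ :=
  (ContinuousMap.toLp 2 μ ℂ).comp (chars_Aop μ k)

lemma chars_Top_compact (k : C(B, ℂ)) : IsCompactOperator (chars_Top μ k) :=
  (chars_Aop_compact μ k).clm_comp (ContinuousMap.toLp 2 μ ℂ)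

lemma chars_Top_symm [μ.WeaklyRegular] {k : C(B, ℂ)} (hk : ∀ z, conj (k z) = k z)
    (hinv : ∀ z, k z⁻¹ = k z) (f g : Lp ℂ 2 μ) :
    inner ℂ (chars_Top μ k f) g = inner ℂ f (chars_Top μ k g) := by
  have hd := ContinuousMap.toLp_denseRange ℂ μ ℂ (p := 2) (by norm_num)
  have hsw : ∀ φ ψ : C(B, ℂ), inner ℂ (chars_Top μ k (ContinuousMap.toLp 2 μ ℂ φ))
      (ContinuousMap.toLp 2 μ ℂ ψ) = inner ℂ (ContinuousMap.toLp 2 μ ℂ φ)
      (chars_Top μ k (ContinuousMap.toLp 2 μ ℂ ψ)) := by
    intro φ ψ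
    unfold chars_Top
    rw [ContinuousLinearMap.comp_apply, ContinuousLinearMap.comp_apply,
      ContinuousMap.inner_toLp, ContinuousMap.inner_toLp]
    have e1 : ∀ x, ψ x * conj ((chars_Aop μ k) (ContinuousMap.toLp 2 μ ℂ φ) x) =
        ∫ y, ψ x * (conj (φ y) * k (x⁻¹ * y)) ∂μ := by
      intro x
      rw [chars_Aop_toLp, ← integral_conj, ← integral_const_mul]
      congr 1
      funext y
      rw [map_mul, Complex.conj_conj]
    have e2 : ∀ x, (chars_Aop μ k) (ContinuousMap.toLp 2 μ ℂ ψ) x * conj (φ x) =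
        ∫ y, ψ y * (conj (φ x) * k (y⁻¹ * x)) ∂μ := by
      intro x
      rw [chars_Aop_toLp, ← integral_mul_const]
      congr 1
      funext y
      have : k (y⁻¹ * x) = k (x⁻¹ * y) := by
        rw [← hinv (x⁻¹ * y)]
        congr 1
        group
      rw [this, hk]
      ring
    simp only [e1, e2]
    apply integral_integral_swap_of_hasCompactSupport
    · show Continuous (fun q : B × B => ψ q.1 * (conj (φ q.2) * k (q.1⁻¹ * q.2)))
      have h1 : Continuous (fun q : B × B => conj (φ q.2)) :=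
        Complex.continuous_conj.comp (φ.continuous.comp continuous_snd)
      fun_prop
    · exact HasCompactSupport.of_compactSpace _
  refine hd.induction_on (p := fun f => inner ℂ (chars_Top μ k f) g = inner ℂ f (chars_Top μ k g)) f ?_ ?_
  · exact isClosed_eq (by fun_prop) (by fun_prop)
  · intro φ
    refine hd.induction_on (p := fun g => inner ℂ (chars_Top μ k (ContinuousMap.toLp 2 μ ℂ φ)) g =
      inner ℂ (ContinuousMap.toLp 2 μ ℂ φ) (chars_Top μ k g)) g ?_ ?_
    · exact isClosed_eq (by fun_prop) (by fun_prop)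
    · intro ψ
      exact hsw φ ψ

/-- Commutation with left translation. -/
lemma chars_Aop_Lt [μ.IsMulLeftInvariant] (k φ : C(B, ℂ)) (g : B) :
    chars_Aop μ k (ContinuousMap.toLp 2 μ ℂ (chars_Lt g φ)) = chars_Lt g (chars_Aop μ k (ContinuousMap.toLp 2 μ ℂ φ)) := by
  ext x
  rw [chars_Lt_apply, chars_Aop_toLp, chars_Aop_toLp]
  rw [← integral_mul_left_eq_self (fun y => (chars_Lt g φ) y * conj (k (x⁻¹ * y))) g]
  congr 1
  funext y
  rw [chars_Lt_apply, inv_mul_cancel_left, mul_inv_rev, inv_inv, mul_assoc]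

theorem chars_main [μ.WeaklyRegular] [μ.IsMulLeftInvariant] [μ.IsOpenPosMeasure] {b : B} (hb : b ≠ 1)
    (H : ∀ (N : ℕ) (ρ : B →* Matrix (Fin N) (Fin N) ℂ), Continuous ρ → ρ b = 1) : False := by
  -- the function
  obtain ⟨g, hg0, hg1, -⟩ := exists_continuous_zero_one_of_isClosed
    (isClosed_singleton (x := b)) (isClosed_singleton (x := (1 : B)))
    (by rw [Set.disjoint_singleton]; exact hb)
  let k : C(B, ℂ) := ⟨fun x => ((g x * g x⁻¹ : ℝ) : ℂ), by fun_prop⟩
  have hkd : ∀ x, k x = ((g x * g x⁻¹ : ℝ) : ℂ) := fun _ => rfl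
  have hk : ∀ z, conj (k z) = k z := fun z => by rw [hkd, Complex.conj_ofReal]
  have hinv : ∀ z, k z⁻¹ = k z := fun z => by rw [hkd, hkd, inv_inv, mul_comm]
  have hk1 : k 1 = 1 := by
    have : g 1 = 1 := hg1 rfl
    rw [hkd, inv_one, this]; simp
  have hkb : k b = 0 := by
    have : g b = 0 := hg0 rfl
    rw [hkd, this]; simp
  have hcomp := chars_Top_compact μ k
  have hsym : (chars_Top μ k).IsSymmetric := fun f g => chars_Top_symm μ hk hinv f g
  -- every eigenvector is mapped to an invariant function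
  have hinvt : ∀ lam : ℂ, ∀ f ∈ Module.End.eigenspace (chars_Top μ k : Module.End ℂ (Lp ℂ 2 μ)) lam,
      chars_Lt b (chars_Aop μ k f) = chars_Aop μ k f := by
    intro lam f hf
    have hf' : chars_Top μ k f = lam • f := Module.End.mem_eigenspace_iff.1 hf
    by_cases hlam : lam = 0
    · rw [hlam, zero_smul] at hf'
      have h1 : chars_Aop μ k f = 0 := by
        apply ContinuousMap.toLp_injective (p := 2) (𝕜 := ℂ) μ
        rw [map_zero]; exact hf'
      rw [h1, map_zero]
    · -- the eigenspace in the continuous functions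
      let S : C(B, ℂ) →ₗ[ℂ] C(B, ℂ) :=
        (chars_Aop μ k).toLinearMap.comp (ContinuousMap.toLp 2 μ ℂ).toLinearMap
      have hSd : ∀ φ, S φ = chars_Aop μ k (ContinuousMap.toLp 2 μ ℂ φ) := fun _ => rfl
      let V : Submodule ℂ C(B, ℂ) := Module.End.eigenspace S lam
      have hVle : V ≤ (Module.End.eigenspace (chars_Top μ k : Module.End ℂ (Lp ℂ 2 μ)) lam).map
          (chars_Aop μ k).toLinearMap := by
        intro φ hφ
        have hφ' : chars_Aop μ k (ContinuousMap.toLp 2 μ ℂ φ) = lam • φ :=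
          Module.End.mem_eigenspace_iff.1 hφ
        refine ⟨lam⁻¹ • ContinuousMap.toLp 2 μ ℂ φ, ?_, ?_⟩
        · apply Submodule.smul_mem
          apply Module.End.mem_eigenspace_iff.2
          show ContinuousMap.toLp 2 μ ℂ (chars_Aop μ k (ContinuousMap.toLp 2 μ ℂ φ)) = _
          rw [hφ', map_smul]
        · show chars_Aop μ k (lam⁻¹ • ContinuousMap.toLp 2 μ ℂ φ) = φ
          rw [map_smul, hφ', smul_smul, inv_mul_cancel₀ hlam, one_smul]
      have hfd : FiniteDimensional ℂ
          (Module.End.eigenspace (chars_Top μ k : Module.End ℂ (Lp ℂ 2 μ)) lam) :=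
        ContinuousLinearMap.finite_dimensional_eigenspace hcomp lam hlam
      have hfdV : FiniteDimensional ℂ V := Submodule.finiteDimensional_of_le hVle
      have hVinv : ∀ g : B, ∀ φ ∈ V, chars_Lt g φ ∈ V := by
        intro g φ hφ
        have hφ' : chars_Aop μ k (ContinuousMap.toLp 2 μ ℂ φ) = lam • φ :=
          Module.End.mem_eigenspace_iff.1 hφ
        apply Module.End.mem_eigenspace_iff.2
        rw [hSd, chars_Aop_Lt, hφ', map_smul]
      apply chars_fix_of_all H V hVinv
      apply Module.End.mem_eigenspace_iff.2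
      rw [hSd]
      show chars_Aop μ k (chars_Top μ k f) = _
      rw [hf', map_smul]
  -- hence for all `f`
  have hall : ∀ f : Lp ℂ 2 μ, chars_Lt b (chars_Aop μ k f) = chars_Aop μ k f := by
    have horth := ContinuousLinearMap.orthogonalComplement_iSup_eigenspaces_eq_bot hcomp hsym
    have hdense : (⨆ lam, Module.End.eigenspace (chars_Top μ k : Module.End ℂ (Lp ℂ 2 μ)) lam).topologicalClosure = ⊤ := by
      rw [← Submodule.topologicalClosure_eq_top_iff] at horth
      exact horth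
    intro f
    ext x
    let W : Submodule ℂ (Lp ℂ 2 μ) := LinearMap.ker
      ((innerSL ℂ (chars_kap μ k (b⁻¹ * x) - chars_kap μ k x)) : Lp ℂ 2 μ →L[ℂ] ℂ).toLinearMap
    have hWc : IsClosed (W : Set (Lp ℂ 2 μ)) :=
      ContinuousLinearMap.isClosed_ker (innerSL ℂ (chars_kap μ k (b⁻¹ * x) - chars_kap μ k x))
    have hmem : ∀ f, f ∈ W ↔ inner ℂ (chars_kap μ k (b⁻¹ * x) - chars_kap μ k x) f = 0 := fun f => Iff.rfl
    have hle : (⨆ lam, Module.End.eigenspace (chars_Top μ k : Module.End ℂ (Lp ℂ 2 μ)) lam) ≤ W := by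
      apply iSup_le
      intro lam f hf
      rw [hmem, inner_sub_left, sub_eq_zero]
      have := congrArg (fun ψ : C(B, ℂ) => ψ x) (hinvt lam f hf)
      exact this
    have htop : W = ⊤ := by
      rw [eq_top_iff, ← hdense]
      exact Submodule.topologicalClosure_minimal _ hle hWc
    have hfW : f ∈ W := by rw [htop]; trivial
    rw [hmem, inner_sub_left, sub_eq_zero] at hfW
    exact hfW
  -- the kernel is invariant
  have hkap : chars_kap μ k (b⁻¹ * 1) = chars_kap μ k 1 := by
    rw [← sub_eq_zero]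
    apply (inner_self_eq_zero (𝕜 := ℂ)).1
    rw [inner_sub_left, sub_eq_zero]
    exact congrArg (fun ψ : C(B, ℂ) => ψ 1) (hall (chars_kap μ k (b⁻¹ * 1) - chars_kap μ k 1))
  have h1 : (chars_ker2 k).curry (b⁻¹ * 1) = (chars_ker2 k).curry 1 :=
    ContinuousMap.toLp_injective (p := 2) (𝕜 := ℂ) μ hkap
  have h2 := congrArg (fun ψ : C(B, ℂ) => ψ 1) h1
  have h3 : k ((b⁻¹ * 1)⁻¹ * 1) = k ((1 : B)⁻¹ * 1) := h2
  simp only [mul_one, inv_inv, inv_one] at h3
  rw [hkb, hk1] at h3
  exact zero_ne_one h3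

end PW

/-- Peter-Weyl, separation of points: continuous finite-dimensional matrix representations
of a compact Hausdorff group separate points. -/
theorem chars_exists_rep_ne_one (B : Type u) [Group B] [TopologicalSpace B] [IsTopologicalGroup B]
    [CompactSpace B] [T2Space B] (b : B) (hb : b ≠ 1) :
    ∃ (N : ℕ) (ρ : B →* Matrix (Fin N) (Fin N) ℂ), Continuous ρ ∧ ρ b ≠ 1 := by
  by_contra hcon
  push Not at hcon
  let _ : MeasurableSpace B := borel B
  have _ : BorelSpace B := ⟨rfl⟩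
  exact chars_main (Measure.haar : Measure B) hb hcon



end CharsPW

/-- an unbounded affine sequence -/
lemma chars_affine {a b : ℂ} {C : ℝ} (h : ∀ n : ℕ, ‖a + n * b‖ ≤ C) : b = 0 := by
  by_contra hb
  have hb' : 0 < ‖b‖ := norm_pos_iff.2 hb
  obtain ⟨n, hn⟩ := exists_nat_gt ((C + ‖a‖) / ‖b‖)
  have h1 := h n
  have h2 : ‖(n : ℂ) * b‖ ≤ ‖a + n * b‖ + ‖a‖ := by
    calc ‖(n : ℂ) * b‖ = ‖(a + n * b) - a‖ := by congr 1; ring
      _ ≤ _ := norm_sub_le _ _
  rw [norm_mul, Complex.norm_natCast] at h2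
  rw [div_lt_iff₀ hb'] at hn
  linarith

/-- a maximal ideal avoiding a non-nilpotent element, as a character of a finite algebra -/
lemma chars_alg {A : Type*} [CommRing A] [Algebra ℂ A] [Module.Finite ℂ A] (x : A)
    (hx : ¬ IsNilpotent x) : ∃ φ : A →ₐ[ℂ] ℂ, φ x ≠ 0 := by
  have : IsArtinianRing A := IsArtinianRing.of_finite ℂ A
  have h1 : x ∉ nilradical A := hx
  rw [nilradical_eq_sInf, Submodule.mem_sInf] at h1
  push Not at h1
  obtain ⟨P', hP, hxP⟩ := h1
  let P : Ideal A := P'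
  have hP' : Ideal.IsPrime P := hP
  have hm : Ideal.IsMaximal P := inferInstance
  let _ : Field (A ⧸ P) := Ideal.Quotient.field P
  have hfin : Module.Finite ℂ (A ⧸ P) := inferInstance
  have hint : Algebra.IsIntegral ℂ (A ⧸ P) := inferInstance
  have hb : Function.Bijective (algebraMap ℂ (A ⧸ P)) :=
    IsAlgClosed.algebraMap_bijective_of_isIntegral
  let ε : ℂ ≃ₐ[ℂ] (A ⧸ P) := AlgEquiv.ofBijective (Algebra.ofId ℂ (A ⧸ P)) hb
  refine ⟨(ε.symm : (A ⧸ P) →ₐ[ℂ] ℂ).comp (Ideal.Quotient.mkₐ ℂ P), ?_⟩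
  intro h
  have h2 : ε.symm (Ideal.Quotient.mk P x) = 0 := h
  rw [map_eq_zero_iff _ ε.symm.injective] at h2
  exact hxP (Ideal.Quotient.eq_zero_iff_mem.1 h2)

/-- bounded powers and a unipotent matrix -/
lemma chars_unip {N : ℕ} (M : Matrix (Fin N) (Fin N) ℂ) (hM : M ≠ 1)
    (hb : ∀ L : Matrix (Fin N) (Fin N) ℂ, ∀ i j, ∃ C : ℝ, ∀ n : ℕ, ‖(M ^ n * L) i j‖ ≤ C) :
    ¬ IsNilpotent (M - 1) := by
  classical
  intro hnil
  have hX : M - 1 ≠ 0 := sub_ne_zero.2 hM
  set X := M - 1 with hXd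
  have hne : ∃ m, X ^ m = 0 := hnil
  set m := Nat.find hne with hm
  have hm0 : X ^ m = 0 := Nat.find_spec hne
  have hmin : ∀ l < m, X ^ l ≠ 0 := fun l hl => Nat.find_min hne hl
  have hm2 : 2 ≤ m := by
    by_contra hlt
    push Not at hlt
    interval_cases h : m
    · rw [pow_zero] at hm0
      apply hX
      calc X = X * 1 := (mul_one X).symm
        _ = 0 := by rw [hm0, mul_zero]
    · rw [pow_one] at hm0; exact hX hm0
  obtain ⟨l, hl⟩ : ∃ l, m = l + 2 := ⟨m - 2, by omega⟩
  have hstep : ∀ n : ℕ, M ^ n * X ^ l = X ^ l + (n : ℂ) • X ^ (l + 1) := by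
    intro n
    induction n with
    | zero => simp
    | succ n ih =>
      have hMX : M = 1 + X := by rw [hXd]; abel
      rw [pow_succ', mul_assoc, ih]
      conv_lhs => rw [hMX]
      have h3 : X * X ^ (l + 1) = 0 := by
        rw [← pow_succ', ← hm0, hl]
      rw [add_mul, one_mul, mul_add, mul_smul_comm, h3, smul_zero, add_zero, ← pow_succ']
      push_cast
      rw [add_smul, one_smul, add_assoc]
  have hne1 : X ^ (l + 1) ≠ 0 := hmin _ (by omega)
  apply hne1
  ext i j
  obtain ⟨C, hC⟩ := hb (X ^ l) i j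
  rw [Matrix.zero_apply]
  refine chars_affine (a := (X ^ l) i j) (C := C) fun n => ?_
  have := hC n
  rw [hstep n] at this
  simpa using this

/-- continuous characters separate the points of a compact Hausdorff abelian group -/
theorem chars {K : Type u} [CommGroup K] [TopologicalSpace K] [IsTopologicalGroup K]
    [CompactSpace K] [T2Space K] (k : K) (hk : k ≠ 1) :
    ∃ χ : ContinuousMonoidHom K Circle, χ k ≠ 1 := by
  classical
  obtain ⟨N, ρ, hρ, hρk⟩ := chars_exists_rep_ne_one K k hk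
  let F : MonoidAlgebra ℂ K →ₐ[ℂ] Matrix (Fin N) (Fin N) ℂ := MonoidAlgebra.lift ℂ _ K ρ
  have hFs : ∀ g, F (MonoidAlgebra.single g 1) = ρ g := fun g => by simp [F]
  let I : Ideal (MonoidAlgebra ℂ K) := RingHom.ker F
  let Fb : (MonoidAlgebra ℂ K ⧸ I) →ₐ[ℂ] Matrix (Fin N) (Fin N) ℂ := Ideal.kerLiftAlg F
  have hFb : Function.Injective Fb := Ideal.kerLiftAlg_injective F
  have hFbs : ∀ x, Fb (Ideal.Quotient.mk I x) = F x := fun x => rfl
  have hfin : Module.Finite ℂ (MonoidAlgebra ℂ K ⧸ I) :=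
    FiniteDimensional.of_injective Fb.toLinearMap hFb
  -- the basic hom
  let γ : K →* (MonoidAlgebra ℂ K ⧸ I) :=
    { toFun := fun g => Ideal.Quotient.mk I (MonoidAlgebra.single g 1)
      map_one' := by rw [← MonoidAlgebra.one_def, map_one]
      map_mul' := fun a b => by
        rw [← map_mul, MonoidAlgebra.single_mul_single, one_mul] }
  have hγ : ∀ g, Fb (γ g) = ρ g := fun g => (hFbs _).trans (hFs g)
  have hbdd : ∀ L : Matrix (Fin N) (Fin N) ℂ, ∀ i j, ∃ C : ℝ, ∀ g : K, ‖(ρ g * L) i j‖ ≤ C := by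
    intro L i j
    have hc : Continuous fun g => (ρ g * L) i j := by
      have h1 : Continuous fun g => ρ g * L := hρ.matrix_mul continuous_const
      exact (continuous_apply_apply i j).comp h1
    obtain ⟨C, hC⟩ := (isCompact_range hc).isBounded.exists_norm_le
    exact ⟨C, fun g => hC _ ⟨g, rfl⟩⟩
  have hnil : ¬ IsNilpotent (γ k - 1) := by
    intro h
    have h1 : IsNilpotent (Fb (γ k - 1)) := h.map Fb
    rw [map_sub, map_one, hγ] at h1
    refine chars_unip (ρ k) hρk (fun L i j => ?_) h1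
    obtain ⟨C, hC⟩ := hbdd L i j
    refine ⟨C, fun n => ?_⟩
    rw [← map_pow]
    exact hC _
  obtain ⟨φ, hφ⟩ := chars_alg (γ k - 1) hnil
  rw [map_sub, map_one, sub_ne_zero] at hφ
  -- continuity
  obtain ⟨G, hG⟩ := LinearMap.exists_leftInverse_of_injective Fb.toLinearMap
    (LinearMap.ker_eq_bot.2 hFb)
  have hφG : ∀ g, φ (γ g) = (φ.toLinearMap ∘ₗ G) (ρ g) := by
    intro g
    have h1 : G (Fb.toLinearMap (γ g)) = γ g := LinearMap.congr_fun hG (γ g)
    rw [LinearMap.comp_apply, ← hγ]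
    show _ = φ (G (Fb.toLinearMap (γ g)))
    rw [h1]
  have hcont : Continuous fun g => φ (γ g) := by
    simp only [hφG]
    exact (LinearMap.continuous_of_finiteDimensional _).comp hρ
  obtain ⟨C, hC⟩ := (isCompact_range hcont).isBounded.exists_norm_le
  have hC' : ∀ g, ‖φ (γ g)‖ ≤ C := fun g => hC _ ⟨g, rfl⟩
  have hle : ∀ g, ‖φ (γ g)‖ ≤ 1 := by
    intro g
    by_contra hgt
    push Not at hgt
    obtain ⟨n, hn⟩ := pow_unbounded_of_one_lt C hgt
    have h1 := hC' (g ^ n)
    rw [map_pow, map_pow, norm_pow] at h1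
    linarith
  have heq : ∀ g, ‖φ (γ g)‖ = 1 := by
    intro g
    have h1 : φ (γ g) * φ (γ g⁻¹) = 1 := by
      rw [← map_mul, ← map_mul, mul_inv_cancel, map_one, map_one]
    have h2 := congrArg norm h1
    rw [norm_mul, norm_one] at h2
    have h3 := hle g
    have h4 := hle g⁻¹
    have h5 := norm_nonneg (φ (γ g))
    have h6 := norm_nonneg (φ (γ g⁻¹))
    nlinarith
  refine ⟨{ toFun := fun g => ⟨φ (γ g), mem_sphere_zero_iff_norm.2 (heq g)⟩
            map_one' := by
              apply Circle.ext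
              show φ (γ 1) = 1
              rw [map_one, map_one]
            map_mul' := fun a b => by
              apply Circle.ext
              show φ (γ (a * b)) = φ (γ a) * φ (γ b)
              rw [map_mul, map_mul]
            continuous_toFun := by
              exact Continuous.subtype_mk hcont _ }, ?_⟩
  intro h
  apply hφ
  exact congrArg (fun z : Circle => (z : ℂ)) h

end

end Pool.NilAvg
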