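import Pool.Agent.Helper986.NilAvg.Defs

set_option autoImplicit false

namespace Pool.NilAvg

open Filter Topology
open scoped ComplexConjugate

noncomputable section

variable {κ : Type}

open MeasureTheory

instance instMeasZ2 : MeasurableSpace ℤ_[2] := borel _
instance instBorelZ2 : BorelSpace ℤ_[2] := ⟨rfl⟩
instance instMeasCircle : MeasurableSpace Circle := borel _
instance instBorelCircle : BorelSpace Circle := ⟨rfl⟩

/-- Haar probability measure on the 2-adic integers -/
def mu2 : Measure ℤ_[2] := Measure.addHaarMeasure ⊤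

/-- residue modulo `2 ^ s` -/
def res (s : ℕ) (x : ℤ_[2]) : ℕ := (PadicInt.toZModPow (p := 2) s x).val

/-- the digit at the place with exponent `s` and `a` bits -/
def dg (s a : ℕ) (x : ℤ_[2]) : ℕ := res (s + a) x / 2 ^ s

/-- the fourth root of unity `i` -/
def iC : Circle := Circle.exp (Real.pi / 2)

/-- quadratic phase of one window starting at exponent `s` -/
def psi (s a l : ℕ) (B : ℕ → ℕ → Bool) (x : ℤ_[2]) : Circle :=
  ∏ i ∈ Finset.range l, ∏ j ∈ Finset.range l,
    if B i j then iC ^ (dg (s + a * i) a x * dg (s + a * (l + j)) a x) else 1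

/-- `Φ` is a cocycle over the odometer obtained from the phases `ψ w` -/
structure IsCoc (ψ : ℕ → ℤ_[2] → Circle) (Φ : ℤ → ℤ_[2] → Circle) : Prop where
  meas : ∀ n, Measurable (Φ n)
  add : ∀ (m n : ℤ) (x : ℤ_[2]), Φ (m + n) x = Φ m (x + n) * Φ n x
  lim : ∀ n : ℤ, ∀ᵐ x ∂mu2, ∀ᶠ V in atTop,
    Φ n x = ∏ w ∈ Finset.range V, ψ w (x + n) / ψ w x

/-- the correlation sequence -/
def corr (Φ : ℤ → ℤ_[2] → Circle) (n : ℤ) : ℂ :=
  ∫ x, ((Φ (2 * n) x * (Φ n x)⁻¹ ^ 2 : Circle) : ℂ) ∂mu2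

end

end Pool.NilAvg
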