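import Pool.Agent.Helper986.NilAvg.Defs
import Pool.Agent.Helper986.NilAvg.DefsA

set_option autoImplicit false

namespace Pool.NilAvg

open Filter Topology
open scoped ComplexConjugate

noncomputable section

variable {κ : Type}

open MeasureTheory


theorem mu2_prob : IsProbabilityMeasure mu2 := by
  constructor
  have h := Measure.addHaarMeasure_self (K₀ := (⊤ : TopologicalSpace.PositiveCompacts ℤ_[2]))
  rwa [TopologicalSpace.PositiveCompacts.coe_top] at h

theorem res_lt (s : ℕ) (x : ℤ_[2]) : res s x < 2 ^ s := ZMod.val_lt _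

theorem res_facts_open (s k : ℕ) : IsOpen {x : ℤ_[2] | res s x = k} := by
  rw [isOpen_iff_mem_nhds]
  intro x hx
  have h2 : (0 : ℝ) < (2 : ℝ) ^ (-(s : ℤ)) := by positivity
  refine Filter.mem_of_superset (Metric.closedBall_mem_nhds x h2) ?_
  intro y hy
  rw [Metric.mem_closedBall, dist_eq_norm] at hy
  have h3 : y - x ∈ (Ideal.span {(2 : ℤ_[2]) ^ s} : Ideal ℤ_[2]) := by
    have := (PadicInt.norm_le_pow_iff_mem_span_pow (p := 2) (y - x) s).1 (by exact_mod_cast hy)
    exact_mod_cast this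
  have h4 : y - x ∈ RingHom.ker (PadicInt.toZModPow (p := 2) s) := by
    rw [PadicInt.ker_toZModPow]
    exact_mod_cast h3
  rw [RingHom.mem_ker, map_sub, sub_eq_zero] at h4
  show res s y = k
  rw [← (show res s x = k from hx), res, res, h4]

theorem measurable_res (s : ℕ) : Measurable (res s) := by
  apply measurable_to_countable'
  intro k
  exact (res_facts_open s k).measurableSet

/-- adding an integer without overflow -/
theorem res_add (s : ℕ) (x : ℤ_[2]) (n : ℤ) (h0 : 0 ≤ (res s x : ℤ) + n)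
    (h1 : (res s x : ℤ) + n < 2 ^ s) : (res s (x + n) : ℤ) = res s x + n := by
  obtain ⟨m, hm⟩ := Int.eq_ofNat_of_zero_le h0
  have hm2 : m < 2 ^ s := by
    rw [hm] at h1
    exact_mod_cast h1
  have h2 : PadicInt.toZModPow (p := 2) s (x + n) = (m : ZMod (2 ^ s)) := by
    rw [map_add, map_intCast]
    have h3 : PadicInt.toZModPow (p := 2) s x = ((res s x : ℕ) : ZMod (2 ^ s)) := by
      rw [res, ZMod.natCast_zmod_val]
    rw [h3]
    have h4 : ((((res s x : ℕ) : ℤ) + n : ℤ) : ZMod (2 ^ s)) = ((m : ℤ) : ZMod (2 ^ s)) := by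
      rw [hm]
    push_cast at h4
    exact h4
  have h5 : res s (x + n) = m := by
    rw [res, h2, ZMod.val_natCast_of_lt hm2]
  rw [h5, hm]

theorem res_mod (s t : ℕ) (h : s ≤ t) (x : ℤ_[2]) : res s x = res t x % 2 ^ s := by
  rw [res, res, ← PadicInt.cast_toZModPow s t h x, ZMod.cast_eq_val, ZMod.val_natCast]

/-- if adding `n` does not overflow modulo `2 ^ s` then the higher part is unchanged -/
theorem res_div (s t : ℕ) (h : s ≤ t) (x : ℤ_[2]) (n : ℤ) (h0 : 0 ≤ (res s x : ℤ) + n)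
    (h1 : (res s x : ℤ) + n < 2 ^ s) : res t (x + n) / 2 ^ s = res t x / 2 ^ s := by
  have hm := res_mod s t h x
  have hdm := Nat.div_add_mod (res t x) (2 ^ s)
  set q := res t x / 2 ^ s with hq
  have hq2 : q < 2 ^ (t - s) := by
    rw [hq, Nat.div_lt_iff_lt_mul (by positivity), ← pow_add, Nat.sub_add_cancel h]
    exact res_lt t x
  have hdm' : (res t x : ℤ) = 2 ^ s * q + res s x := by
    rw [hm]; exact_mod_cast hdm.symm
  have hpow : (2 : ℤ) ^ t = 2 ^ s * 2 ^ (t - s) := by
    rw [← pow_add]; congr 1; omega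
  have hq3 : (q : ℤ) + 1 ≤ 2 ^ (t - s) := by exact_mod_cast hq2
  have hspos : (0 : ℤ) < 2 ^ s := by positivity
  have h2 := res_add t x n (by rw [hdm']; nlinarith [Int.natCast_nonneg q])
    (by rw [hdm', hpow]; nlinarith)
  have h3 : (res t (x + n) : ℤ) / 2 ^ s = q := by
    rw [h2, hdm', add_assoc, Int.add_comm (2 ^ s * (q : ℤ)), Int.add_mul_ediv_left _ _ hspos.ne',
      Int.ediv_eq_zero_of_lt h0 h1, zero_add]
  have h4 : ((res t (x + n) / 2 ^ s : ℕ) : ℤ) = q := by
    rw [← h3]; push_cast; rfl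
  exact_mod_cast h4

theorem res_facts_trans (s k : ℕ) (hk : k < 2 ^ s) :
    mu2 {x | res s x = k} = mu2 {x | res s x = 0} := by
  have e : {x : ℤ_[2] | res s x = k} = (fun x : ℤ_[2] => x + ((-(k : ℤ) : ℤ) : ℤ_[2])) ⁻¹'
      {x | res s x = 0} := by
    ext x
    simp only [Set.mem_setOf_eq, Set.mem_preimage]
    constructor
    · intro h
      have h1 := res_add s x (-(k : ℤ)) (by rw [h]; simp) (by rw [h]; simp)
      rw [h] at h1
      have h2 : (res s (x + (-(k : ℤ) : ℤ)) : ℤ) = 0 := by rw [h1]; ring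
      exact_mod_cast h2
    · intro h
      have h1 := res_add s (x + (-(k : ℤ) : ℤ)) (k : ℤ) (by rw [h]; simp)
        (by rw [h]; simpa using (by exact_mod_cast hk : (k : ℤ) < 2 ^ s))
      rw [h] at h1
      have e2 : x + (-(k : ℤ) : ℤ) + ((k : ℤ) : ℤ_[2]) = x := by push_cast; ring
      rw [e2] at h1
      simpa using h1
  rw [e]
  haveI : mu2.IsAddHaarMeasure := by unfold mu2; infer_instance
  exact measure_preimage_add_right mu2 _ _

theorem res_facts_sum (s : ℕ) (A : Finset ℕ) (hA : A ⊆ Finset.range (2 ^ s)) :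
    mu2 {x | res s x ∈ A} = A.card * mu2 {x | res s x = 0} := by
  have e : {x : ℤ_[2] | res s x ∈ A} = ⋃ k ∈ A, {x | res s x = k} := by
    ext x; simp
  rw [e, measure_biUnion_finset]
  · rw [Finset.sum_congr rfl (fun k hk => res_facts_trans s k (Finset.mem_range.1 (hA hk))),
      Finset.sum_const, nsmul_eq_mul]
  · intro k _ l _ hkl
    rw [Function.onFun, Set.disjoint_left]
    intro x hx hx'
    exact hkl ((show res s x = k from hx).symm.trans hx')
  · intro k _
    exact (res_facts_open s k).measurableSet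

/-- residues are uniformly distributed -/
theorem mu2_res (s : ℕ) (A : Finset ℕ) (hA : A ⊆ Finset.range (2 ^ s)) :
    mu2 {x | res s x ∈ A} = ENNReal.ofReal ((A.card : ℝ) / 2 ^ s) := by
  have hprob := mu2_prob
  have h1 := res_facts_sum s (Finset.range (2 ^ s)) (Finset.Subset.refl _)
  have h2 : {x : ℤ_[2] | res s x ∈ Finset.range (2 ^ s)} = Set.univ := by
    ext x; simp [res_lt s x]
  rw [h2, measure_univ, Finset.card_range] at h1
  have h3 : mu2 {x | res s x = 0} = ENNReal.ofReal (1 / 2 ^ s) := by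
    have h4 : ((2 ^ s : ℕ) : ENNReal) * ENNReal.ofReal (1 / 2 ^ s) = 1 := by
      rw [← ENNReal.ofReal_natCast, ← ENNReal.ofReal_mul (by positivity)]
      have : (((2 ^ s : ℕ) : ℝ)) * (1 / 2 ^ s) = 1 := by
        push_cast; field_simp
      rw [this, ENNReal.ofReal_one]
    have h5 : ((2 ^ s : ℕ) : ENNReal) ≠ 0 := by
      rw [Nat.cast_ne_zero]; positivity
    have h6 : ((2 ^ s : ℕ) : ENNReal) ≠ ⊤ := ENNReal.natCast_ne_top _
    exact (ENNReal.mul_right_inj h5 h6).1 (h1.symm.trans h4.symm)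
  rw [res_facts_sum s A hA, h3, ← ENNReal.ofReal_natCast, ← ENNReal.ofReal_mul (by positivity)]
  congr 1
  ring

theorem mu2_dg (s a : ℕ) (A : Finset ℕ) (hA : A ⊆ Finset.range (2 ^ a)) :
    mu2 {x | dg s a x ∈ A} = ENNReal.ofReal ((A.card : ℝ) / 2 ^ a) := by
  classical
  set A' : Finset ℕ := (A ×ˢ Finset.range (2 ^ s)).image (fun p => 2 ^ s * p.1 + p.2) with hA'
  have hpos : 0 < 2 ^ s := by positivity
  have hmem : ∀ m, m ∈ A' ↔ m / 2 ^ s ∈ A := by
    intro m
    rw [hA', Finset.mem_image]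
    constructor
    · rintro ⟨⟨q, r⟩, hp, rfl⟩
      rw [Finset.mem_product, Finset.mem_range] at hp
      simp only at hp ⊢
      rw [Nat.mul_add_div hpos, Nat.div_eq_of_lt hp.2, add_zero]
      exact hp.1
    · intro h
      refine ⟨(m / 2 ^ s, m % 2 ^ s), ?_, Nat.div_add_mod m (2 ^ s)⟩
      rw [Finset.mem_product, Finset.mem_range]
      exact ⟨h, Nat.mod_lt _ hpos⟩
  have hcard : A'.card = A.card * 2 ^ s := by
    rw [hA', Finset.card_image_of_injOn, Finset.card_product, Finset.card_range]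
    rintro ⟨q, r⟩ hp ⟨q', r'⟩ hp' h
    rw [Finset.mem_coe, Finset.mem_product, Finset.mem_range] at hp hp'
    simp only at hp hp' h
    have h1 := congrArg (· / 2 ^ s) h
    have h2 := congrArg (· % 2 ^ s) h
    simp only [Nat.mul_add_div hpos, Nat.div_eq_of_lt hp.2, Nat.div_eq_of_lt hp'.2, add_zero] at h1
    simp only [Nat.mul_add_mod, Nat.mod_eq_of_lt hp.2, Nat.mod_eq_of_lt hp'.2] at h2
    rw [h1, h2]
  have hsub : A' ⊆ Finset.range (2 ^ (s + a)) := by
    intro m hm
    rw [hmem] at hm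
    have h1 := Finset.mem_range.1 (hA hm)
    rw [Nat.div_lt_iff_lt_mul hpos] at h1
    rw [Finset.mem_range, pow_add, mul_comm]
    exact h1
  have e : {x : ℤ_[2] | dg s a x ∈ A} = {x | res (s + a) x ∈ A'} := by
    ext x
    simp only [Set.mem_setOf_eq, hmem, dg]
  rw [e, mu2_res (s + a) A' hsub, hcard]
  congr 1
  push_cast
  rw [pow_add]
  field_simp

end

end Pool.NilAvg
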