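import Pool.Agent.Helper986.NilAvg.Defs
import Pool.Agent.Helper986.NilAvg.DefsA
import Pool.Agent.Helper986.NilAvg.ResFacts

set_option autoImplicit false

namespace Pool.NilAvg

open Filter Topology
open scoped ComplexConjugate

noncomputable section

variable {κ : Type}

open MeasureTheory


lemma cocycle_card (S : ℕ) (n : ℤ) :
    ((Finset.range (2 ^ S)).filter fun r : ℕ =>
      ¬ (0 ≤ (r : ℤ) + n ∧ (r : ℤ) + n < 2 ^ S)).card ≤ n.natAbs := by
  have hc : ((2 ^ S : ℕ) : ℤ) = 2 ^ S := by push_cast; rfl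
  rcases le_or_gt 0 n with hn | hn
  · refine (Finset.card_le_card (t := Finset.Ico (2 ^ S - n.natAbs) (2 ^ S)) ?_).trans ?_
    · intro r hr
      simp only [Finset.mem_filter, Finset.mem_range, Finset.mem_Ico] at hr ⊢
      obtain ⟨h1, h2⟩ := hr
      refine ⟨?_, h1⟩
      by_contra h3
      apply h2
      constructor <;> omega
    · rw [Nat.card_Ico]; omega
  · refine (Finset.card_le_card (t := Finset.range n.natAbs) ?_).trans ?_
    · intro r hr
      simp only [Finset.mem_filter, Finset.mem_range] at hr ⊢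
      obtain ⟨h1, h2⟩ := hr
      by_contra h3
      apply h2
      constructor <;> omega
    · rw [Finset.card_range]

lemma cocycle_ae (ψ : ℕ → ℤ_[2] → Circle) (s : ℕ → ℕ) (hs : ∀ w, w ≤ s w)
    (hψ : ∀ (w : ℕ) (x : ℤ_[2]) (n : ℤ), 0 ≤ (res (s w) x : ℤ) + n →
      (res (s w) x : ℤ) + n < 2 ^ s w → ψ w (x + n) = ψ w x) (n : ℤ) :
    ∀ᵐ x ∂mu2, ∀ᶠ w in atTop, ψ w (x + n) = ψ w x := by
  obtain ⟨A, hA⟩ : ∃ A : ℕ → Finset ℕ, A = fun w => (Finset.range (2 ^ s w)).filter fun r : ℕ =>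
      ¬ (0 ≤ (r : ℤ) + n ∧ (r : ℤ) + n < 2 ^ s w) := ⟨_, rfl⟩
  have h1 : ∀ w, mu2 {x | res (s w) x ∈ A w} ≤ ENNReal.ofReal ((n.natAbs : ℝ) * (1 / 2) ^ w) := by
    intro w
    rw [mu2_res (s w) (A w) (by rw [hA]; exact Finset.filter_subset _ _)]
    apply ENNReal.ofReal_le_ofReal
    have h2 : ((A w).card : ℝ) ≤ n.natAbs := by
      rw [hA]; exact_mod_cast cocycle_card (s w) n
    have h3 : (2 : ℝ) ^ w ≤ 2 ^ s w := pow_le_pow_right₀ (by norm_num) (hs w)
    rw [one_div, inv_pow, ← div_eq_mul_inv]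
    exact div_le_div₀ (by positivity) h2 (by positivity) h3
  have h4 : ∑' w, mu2 {x | res (s w) x ∈ A w} ≠ ⊤ := by
    refine ne_top_of_le_ne_top ?_ (ENNReal.tsum_le_tsum h1)
    apply Summable.tsum_ofReal_ne_top
    exact (summable_geometric_of_lt_one (by norm_num) (by norm_num)).mul_left _
  filter_upwards [ae_eventually_notMem h4] with x hx
  filter_upwards [hx] with w hw
  have h5 : 0 ≤ (res (s w) x : ℤ) + n ∧ (res (s w) x : ℤ) + n < 2 ^ s w := by
    by_contra h6
    apply hw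
    rw [hA]
    exact Finset.mem_filter.2 ⟨Finset.mem_range.2 (res_lt _ _), h6⟩
  exact hψ w x n h5.1 h5.2

/-- existence of the cocycle -/
theorem cocycle (ψ : ℕ → ℤ_[2] → Circle) (s : ℕ → ℕ) (hs : ∀ w, w ≤ s w)
    (hm : ∀ w, Measurable (ψ w))
    (hψ : ∀ (w : ℕ) (x : ℤ_[2]) (n : ℤ), 0 ≤ (res (s w) x : ℤ) + n →
      (res (s w) x : ℤ) + n < 2 ^ s w → ψ w (x + n) = ψ w x) :
    ∃ Φ, IsCoc ψ Φ := by
  classical
  obtain ⟨G, hG⟩ : ∃ G : Set ℤ_[2],
      G = {x | ∀ n : ℤ, ∀ᶠ w in atTop, ψ w (x + n) = ψ w x} := ⟨_, rfl⟩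
  have hGm : ∀ x, x ∈ G ↔ ∀ n : ℤ, ∀ᶠ w in atTop, ψ w (x + n) = ψ w x := by
    intro x; rw [hG]; exact Iff.rfl
  have hinv : ∀ (x : ℤ_[2]) (m : ℤ), x ∈ G → x + m ∈ G := by
    intro x m hx
    rw [hGm] at hx ⊢
    intro n
    filter_upwards [hx (m + n), hx m] with w h1 h2
    rw [h2, add_assoc, ← Int.cast_add, h1]
  have hinv' : ∀ (x : ℤ_[2]) (m : ℤ), x + m ∈ G → x ∈ G := by
    intro x m hx
    have := hinv _ (-m) hx
    rwa [add_assoc, ← Int.cast_add, add_neg_cancel, Int.cast_zero, add_zero] at this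
  have hadd : ∀ n : ℤ, Measurable fun x : ℤ_[2] => x + n := fun n =>
    (continuous_id.add continuous_const).measurable
  have hq : ∀ (n : ℤ) (w : ℕ), Measurable fun x => ψ w (x + n) / ψ w x := fun n w =>
    ((hm w).comp (hadd n)).div (hm w)
  have hGmeas : MeasurableSet G := by
    have h1 : G = ⋂ n : ℤ, ⋃ N : ℕ, ⋂ w : ℕ, ⋂ _ : N ≤ w,
        (fun x => ψ w (x + n) / ψ w x) ⁻¹' {1} := by
      ext x
      rw [hGm]
      simp only [Set.mem_iInter, Set.mem_iUnion, Set.mem_preimage, Set.mem_singleton_iff,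
        eventually_atTop, div_eq_one]
    rw [h1]
    refine MeasurableSet.iInter fun n => MeasurableSet.iUnion fun N => MeasurableSet.iInter
      fun w => MeasurableSet.iInter fun _ => hq n w (measurableSet_singleton 1)
  have hGae : ∀ᵐ x ∂mu2, x ∈ G := by
    have := ae_all_iff.2 fun n : ℤ => cocycle_ae ψ s hs hψ n
    filter_upwards [this] with x hx
    exact (hGm x).2 hx
  obtain ⟨Φ, hΦ⟩ : ∃ Φ : ℤ → ℤ_[2] → Circle, Φ = fun (n : ℤ) (x : ℤ_[2]) =>
      if x ∈ G then ∏ᶠ w, ψ w (x + n) / ψ w x else 1 := ⟨_, rfl⟩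
  have hlim : ∀ (n : ℤ) (x : ℤ_[2]), x ∈ G → ∀ᶠ V in atTop,
      Φ n x = ∏ w ∈ Finset.range V, ψ w (x + n) / ψ w x := by
    intro n x hx
    obtain ⟨N, hN⟩ := eventually_atTop.1 ((hGm x).1 hx n)
    filter_upwards [eventually_ge_atTop N] with V hV
    rw [hΦ]
    simp only [if_pos hx]
    apply finprod_eq_prod_of_mulSupport_subset
    intro w hw
    rw [Finset.coe_range, Set.mem_Iio]
    by_contra h3
    apply hw
    change ψ w (x + n) / ψ w x = 1
    rw [hN w (by omega), div_self']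
  have hout : ∀ (n : ℤ) (x : ℤ_[2]), x ∉ G → Φ n x = 1 := by
    intro n x hx
    rw [hΦ]
    simp only [if_neg hx]
  refine ⟨Φ, ⟨fun n => ?_, fun m n x => ?_, fun n => ?_⟩⟩
  · refine measurable_of_tendsto_metrizable (f := fun (V : ℕ) x =>
      if x ∈ G then ∏ w ∈ Finset.range V, ψ w (x + n) / ψ w x else 1) (fun V => ?_) ?_
    · exact Measurable.ite hGmeas (Finset.measurable_fun_prod _ fun w _ => hq n w)
        measurable_const
    · rw [tendsto_pi_nhds]
      intro x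
      by_cases hx : x ∈ G
      · simp only [if_pos hx]
        refine tendsto_const_nhds.congr' ?_
        filter_upwards [hlim n x hx] with V hV using hV
      · simp only [if_neg hx, hout n x hx]
        exact tendsto_const_nhds
  · by_cases hx : x ∈ G
    · obtain ⟨V, h1, h2, h3⟩ := ((hlim (m + n) x hx).and ((hlim m (x + n) (hinv x n hx)).and
        (hlim n x hx))).exists
      rw [h1, h2, h3, ← Finset.prod_mul_distrib]
      refine Finset.prod_congr rfl fun w _ => ?_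
      rw [div_mul_div_cancel]
      congr 2
      push_cast
      ring
    · rw [hout _ x hx, hout _ x hx, hout _ (x + n) fun h => hx (hinv' x n h), mul_one]
  · filter_upwards [hGae] with x hx using hlim n x hx

end

end Pool.NilAvg
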