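import Pool.Agent.Helper986.NilAvg.Defs
import Pool.Agent.Helper986.NilAvg.DefsB

set_option autoImplicit false

namespace Pool.NilAvg

open Filter Topology
open scoped ComplexConjugate

noncomputable section

variable {κ : Type}


/-- index of the base reals -/
abbrev coding_T (M : ℕ) : Type := Fin 3 ⊕ (Fin M ⊕ Fin M)

def coding_e {M : ℕ} (t : coding_T M) : coding_T M → ℤ := Pi.single t 1

def coding_pw {M : ℕ} (s : Bool) (g : ℕ → Fin M) : ℕ → coding_T M → ℤ
  | 0 => coding_e (Sum.inl (if s then 1 else 2))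
  | k + 1 => fun t => 2 * coding_pw s g k t + coding_e (Sum.inr (Sum.inl (g k))) t

def coding_cv {M : ℕ} (a : ℕ) (h : ℕ → Fin M × Bool) (gp gm : ℕ → Fin M) :
    ℕ → coding_T M → ℤ
  | 0 => coding_e (Sum.inl 0)
  | i + 1 => fun t => coding_cv a h gp gm i t +
      coding_pw (h i).2 (if (h i).2 then gp else gm) (a * i) t +
      coding_e (Sum.inr (Sum.inl (h i).1)) t

def coding_val {M : ℕ} (β : coding_T M → ℝ) (w : coding_T M → ℤ) : ℝ := ∑ t, (w t : ℝ) * β t

def coding_N {M : ℕ} (w : coding_T M → ℤ) : ℝ := ∑ t, |(w t : ℝ)|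

theorem coding_val_e {M : ℕ} (β : coding_T M → ℝ) (t : coding_T M) :
    coding_val β (coding_e t) = β t := by
  unfold coding_val coding_e
  rw [Finset.sum_eq_single t]
  · rw [Pi.single_eq_same]; simp
  · intro u _ hu
    rw [Pi.single_eq_of_ne hu]; simp
  · intro h; exact absurd (Finset.mem_univ t) h

theorem coding_val_add {M : ℕ} (β : coding_T M → ℝ) (v w : coding_T M → ℤ) :
    coding_val β (fun t => v t + w t) = coding_val β v + coding_val β w := by
  unfold coding_val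
  rw [← Finset.sum_add_distrib]
  exact Finset.sum_congr rfl fun t _ => by push_cast; ring

theorem coding_val_two {M : ℕ} (β : coding_T M → ℝ) (v w : coding_T M → ℤ) :
    coding_val β (fun t => 2 * v t + w t) = 2 * coding_val β v + coding_val β w := by
  unfold coding_val
  rw [Finset.mul_sum, ← Finset.sum_add_distrib]
  exact Finset.sum_congr rfl fun t _ => by push_cast; ring

theorem coding_N_e {M : ℕ} (t : coding_T M) : coding_N (coding_e t) = 1 := by
  unfold coding_N coding_e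
  rw [Finset.sum_eq_single t]
  · rw [Pi.single_eq_same]; simp
  · intro u _ hu
    rw [Pi.single_eq_of_ne hu]; simp
  · intro h; exact absurd (Finset.mem_univ t) h

theorem coding_N_add {M : ℕ} (v w : coding_T M → ℤ) :
    coding_N (fun t => v t + w t) ≤ coding_N v + coding_N w := by
  unfold coding_N
  rw [← Finset.sum_add_distrib]
  refine Finset.sum_le_sum fun t _ => ?_
  push_cast
  exact abs_add_le _ _

theorem coding_N_two {M : ℕ} (v w : coding_T M → ℤ) :
    coding_N (fun t => 2 * v t + w t) ≤ 2 * coding_N v + coding_N w := by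
  unfold coding_N
  rw [Finset.mul_sum, ← Finset.sum_add_distrib]
  refine Finset.sum_le_sum fun t _ => ?_
  push_cast
  refine (abs_add_le _ _).trans ?_
  rw [abs_mul, abs_of_pos (by norm_num : (0 : ℝ) < 2)]

theorem coding_N_pw {M : ℕ} (s : Bool) (g : ℕ → Fin M) (k : ℕ) :
    coding_N (coding_pw s g k) ≤ 2 ^ (k + 1) - 1 := by
  induction k with
  | zero =>
    show coding_N (coding_e _) ≤ _
    rw [coding_N_e]; norm_num
  | succ k ih =>
    refine (coding_N_two _ _).trans ?_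
    rw [coding_N_e, pow_succ (2 : ℝ) (k + 1)]
    linarith

theorem coding_N_cv {M : ℕ} (a l : ℕ) (h : ℕ → Fin M × Bool) (gp gm : ℕ → Fin M) (i : ℕ)
    (hi : i ≤ l) : coding_N (coding_cv a h gp gm i) ≤ 1 + i * 2 ^ (a * l + 1) := by
  induction i with
  | zero =>
    show coding_N (coding_e _) ≤ _
    rw [coding_N_e]; simp
  | succ i ih =>
    refine (coding_N_add (fun t => coding_cv a h gp gm i t +
      coding_pw (h i).2 (if (h i).2 then gp else gm) (a * i) t) _).trans ?_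
    have h1 := coding_N_add (coding_cv a h gp gm i)
      (coding_pw (h i).2 (if (h i).2 then gp else gm) (a * i))
    have h2 := coding_N_pw (h i).2 (if (h i).2 then gp else gm) (a * i)
    have h3 : (2 : ℝ) ^ (a * i + 1) ≤ 2 ^ (a * l + 1) :=
      pow_le_pow_right₀ (by norm_num) (by
        have : a * i ≤ a * l := Nat.mul_le_mul_left a (by omega)
        omega)
    have h4 := ih (by omega)
    rw [coding_N_e]
    push_cast
    linarith

theorem coding_pw_val {M : ℕ} (ϑ : ℤ → ℝ) (β : coding_T M → ℝ) (s : Bool) (g : ℕ → Fin M)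
    (sg : ℤ) (h0 : β (Sum.inl (if s then 1 else 2)) = ϑ sg) (K : ℕ)
    (hg : ∀ k < K, ∃ m : ℤ, ϑ (sg * 2 ^ (k + 1)) = ϑ (sg * 2 ^ k) + ϑ (sg * 2 ^ k) +
      β (Sum.inr (Sum.inl (g k))) + m) (k : ℕ) (hk : k ≤ K) :
    ∃ m : ℤ, ϑ (sg * 2 ^ k) = coding_val β (coding_pw s g k) + m := by
  induction k with
  | zero =>
    refine ⟨0, ?_⟩
    show _ = coding_val β (coding_e _) + _
    rw [coding_val_e, h0]; simp
  | succ k ih =>
    obtain ⟨m, hm⟩ := ih (by omega)
    obtain ⟨m', hm'⟩ := hg k (by omega)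
    refine ⟨2 * m + m', ?_⟩
    have h1 : coding_val β (coding_pw s g (k + 1)) = 2 * coding_val β (coding_pw s g k) +
        coding_val β (coding_e (Sum.inr (Sum.inl (g k)))) := coding_val_two _ _ _
    rw [h1, coding_val_e, hm', hm]
    push_cast
    ring

theorem coding_cv_val {M : ℕ} (ϑ : ℤ → ℝ) (β : coding_T M → ℝ) (a l : ℕ)
    (h : ℕ → Fin M × Bool) (gp gm : ℕ → Fin M) (v : ℕ → ℤ)
    (h0 : β (Sum.inl 0) = ϑ (v 0)) (h1 : β (Sum.inl 1) = ϑ 1) (h2 : β (Sum.inl 2) = ϑ (-1))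
    (hgp : ∀ k < a * l, ∃ m : ℤ, ϑ (1 * 2 ^ (k + 1)) = ϑ (1 * 2 ^ k) + ϑ (1 * 2 ^ k) +
      β (Sum.inr (Sum.inl (gp k))) + m)
    (hgm : ∀ k < a * l, ∃ m : ℤ, ϑ ((-1) * 2 ^ (k + 1)) = ϑ ((-1) * 2 ^ k) + ϑ ((-1) * 2 ^ k) +
      β (Sum.inr (Sum.inl (gm k))) + m)
    (hv : ∀ i < l, ∃ m : ℤ, ϑ (v (i + 1)) = ϑ (v i) +
      ϑ ((if (h i).2 then 1 else -1) * 2 ^ (a * i)) + β (Sum.inr (Sum.inl (h i).1)) + m)
    (i : ℕ) (hi : i ≤ l) : ∃ m : ℤ, ϑ (v i) = coding_val β (coding_cv a h gp gm i) + m := by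
  induction i with
  | zero =>
    refine ⟨0, ?_⟩
    show _ = coding_val β (coding_e _) + _
    rw [coding_val_e, h0]; simp
  | succ i ih =>
    obtain ⟨m, hm⟩ := ih (by omega)
    obtain ⟨m', hm'⟩ := hv i (by omega)
    have hai : a * i ≤ a * l := Nat.mul_le_mul_left a (by omega)
    have h3 : coding_val β (coding_cv a h gp gm (i + 1)) = coding_val β (coding_cv a h gp gm i) +
        coding_val β (coding_pw (h i).2 (if (h i).2 then gp else gm) (a * i)) +
        coding_val β (coding_e (Sum.inr (Sum.inl (h i).1))) := by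
      refine (coding_val_add β (fun t => coding_cv a h gp gm i t +
        coding_pw (h i).2 (if (h i).2 then gp else gm) (a * i) t) _).trans ?_
      rw [coding_val_add]
    have h4 : ∃ m'' : ℤ, ϑ ((if (h i).2 then 1 else -1) * 2 ^ (a * i)) =
        coding_val β (coding_pw (h i).2 (if (h i).2 then gp else gm) (a * i)) + m'' := by
      cases hb : (h i).2 with
      | true =>
        exact coding_pw_val ϑ β true gp 1 h1 (a * l) hgp (a * i) hai
      | false =>
        exact coding_pw_val ϑ β false gm (-1) h2 (a * l) hgm (a * i) hai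
    obtain ⟨m'', hm''⟩ := h4
    refine ⟨m + m' + m'', ?_⟩
    rw [h3, coding_val_e, hm', hm, hm'']
    push_cast
    ring

theorem coding_pos (a : ℕ) (y : Finset ℕ) (i : ℕ) :
    pos a (symmDiff y (Finset.range (i + 1))) = pos a (symmDiff y (Finset.range i)) +
      (if i ∈ y then -1 else 1) * 2 ^ (a * i) := by
  by_cases hi : i ∈ y
  · have h1 : symmDiff y (Finset.range (i + 1)) = (symmDiff y (Finset.range i)).erase i := by
      ext x
      rw [Finset.mem_erase, Finset.mem_symmDiff, Finset.mem_symmDiff, Finset.mem_range,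
        Finset.mem_range]
      by_cases hx : x = i
      · subst hx; simp [hi]
      · constructor
        · rintro (⟨h, h'⟩ | ⟨h, h'⟩)
          · exact ⟨hx, Or.inl ⟨h, by omega⟩⟩
          · exact ⟨hx, Or.inr ⟨by omega, h'⟩⟩
        · rintro ⟨_, ⟨h, h'⟩ | ⟨h, h'⟩⟩
          · exact Or.inl ⟨h, by omega⟩
          · exact Or.inr ⟨by omega, h'⟩
    have h2 : i ∈ symmDiff y (Finset.range i) := by
      rw [Finset.mem_symmDiff]
      exact Or.inl ⟨hi, by simp⟩
    have h3 : 2 ^ (a * i) + pos a ((symmDiff y (Finset.range i)).erase i) =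
        pos a (symmDiff y (Finset.range i)) := Finset.add_sum_erase _ (fun i => (2 : ℤ) ^ (a * i)) h2
    rw [h1, if_pos hi]
    linarith
  · have h1 : symmDiff y (Finset.range (i + 1)) = insert i (symmDiff y (Finset.range i)) := by
      ext x
      rw [Finset.mem_insert, Finset.mem_symmDiff, Finset.mem_symmDiff, Finset.mem_range,
        Finset.mem_range]
      by_cases hx : x = i
      · subst hx; simp [hi]
      · constructor
        · rintro (⟨h, h'⟩ | ⟨h, h'⟩)
          · exact Or.inr (Or.inl ⟨h, by omega⟩)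
          · exact Or.inr (Or.inr ⟨by omega, h'⟩)
        · rintro (h | ⟨h, h'⟩ | ⟨h, h'⟩)
          · exact absurd h hx
          · exact Or.inl ⟨h, by omega⟩
          · exact Or.inr ⟨by omega, h'⟩
    have h2 : i ∉ symmDiff y (Finset.range i) := by
      rw [Finset.mem_symmDiff]
      simp [hi]
    have h3 : pos a (insert i (symmDiff y (Finset.range i))) =
        2 ^ (a * i) + pos a (symmDiff y (Finset.range i)) :=
      Finset.sum_insert (f := fun i => (2 : ℤ) ^ (a * i)) h2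
    rw [h1, if_neg hi, h3]
    ring

theorem coding_enum (M : ℕ) (S : Finset ℝ) (hS : S.card ≤ M) :
    ∃ f : Fin M → ℝ, ∀ x ∈ S, ∃ t, f t = x := by
  classical
  refine ⟨fun t => if h : t.val < S.card then (S.equivFin.symm ⟨t.val, h⟩ : S).1 else 0, ?_⟩
  intro x hx
  have h1 := (S.equivFin ⟨x, hx⟩).2
  refine ⟨⟨(S.equivFin ⟨x, hx⟩).1, lt_of_lt_of_le h1 hS⟩, ?_⟩
  beta_reduce
  rw [dif_pos h1]
  simp

theorem coding_round (P : ℕ) (x : ℝ) : ∃ r : Fin (2 ^ P), ∃ m : ℤ, ∃ ρ : ℝ, |ρ| ≤ (1 / 2) ^ P ∧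
    x = (r : ℕ) / 2 ^ P + m + ρ := by
  have hP : (0 : ℝ) < 2 ^ P := by positivity
  have h0 : 0 ≤ 2 ^ P * Int.fract x := mul_nonneg hP.le (Int.fract_nonneg x)
  have h1 : 2 ^ P * Int.fract x < 2 ^ P := by
    have := mul_lt_mul_of_pos_left (Int.fract_lt_one x) hP
    linarith
  have h2 : ⌊2 ^ P * Int.fract x⌋₊ < 2 ^ P := by
    rw [Nat.floor_lt h0]
    push_cast
    exact h1
  refine ⟨⟨⌊2 ^ P * Int.fract x⌋₊, h2⟩, ⌊x⌋,
    Int.fract x - (⌊2 ^ P * Int.fract x⌋₊ : ℝ) / 2 ^ P, ?_, ?_⟩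
  · have h3 := Nat.floor_le h0
    have h4 := Nat.lt_floor_add_one (2 ^ P * Int.fract x)
    have h5 : Int.fract x - (⌊2 ^ P * Int.fract x⌋₊ : ℝ) / 2 ^ P =
        (2 ^ P * Int.fract x - (⌊2 ^ P * Int.fract x⌋₊ : ℝ)) / 2 ^ P := by
      field_simp
    rw [h5, abs_of_nonneg (div_nonneg (by linarith) hP.le), one_div, inv_pow, ← one_div]
    exact div_le_div_of_nonneg_right (by linarith) hP.le
  · have h6 : x = ⌊x⌋ + Int.fract x := (Int.floor_add_fract x).symm
    show x = (⌊2 ^ P * Int.fract x⌋₊ : ℝ) / 2 ^ P + ⌊x⌋ +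
      (Int.fract x - (⌊2 ^ P * Int.fract x⌋₊ : ℝ) / 2 ^ P)
    linarith

theorem coding_abs_cos (x : ℝ) (m : ℤ) :
    |Real.cos (Real.pi * (x + m))| = |Real.cos (Real.pi * x)| := by
  have h1 : Real.pi * (x + m) = Real.pi * x + m * Real.pi := by ring
  rw [h1, Real.cos_add_int_mul_pi, abs_mul]
  have : |((-1 : ℝ)) ^ m| = 1 := by
    rw [abs_zpow]; simp
  rw [this, one_mul]

theorem coding_cos_lip (x y : ℝ) :
    |Real.cos (Real.pi * x)| ≤ |Real.cos (Real.pi * y)| + 4 * |x - y| := by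
  have h1 : |Real.cos (Real.pi * x) - Real.cos (Real.pi * y)| ≤ |Real.pi * x - Real.pi * y| :=
    Real.abs_cos_sub_cos_le _ _
  have h2 : |Real.pi * x - Real.pi * y| ≤ 4 * |x - y| := by
    rw [← mul_sub, abs_mul, abs_of_pos Real.pi_pos]
    exact mul_le_mul_of_nonneg_right Real.pi_le_four (abs_nonneg _)
  have h3 := abs_sub_abs_le_abs_sub (Real.cos (Real.pi * x)) (Real.cos (Real.pi * y))
  linarith

/-- the prediction -/
theorem coding_pred (A B : ℝ) (m : ℤ) (ρ : ℝ) (hρ : |ρ| ≤ 1 / 400) (hA : A = B + m + ρ) (s : ℕ)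
    (hs : 9 / 10 < |Real.cos (Real.pi * (A + (s : ℝ) / 2))|) :
    (|Real.cos (Real.pi * B)| < 7 / 10) ↔ Odd s := by
  have hl1 := coding_cos_lip (B + ρ) B
  have hl2 := coding_cos_lip B (B + ρ)
  have e1 : |B + ρ - B| = |ρ| := by congr 1; ring
  have e2 : |B - (B + ρ)| = |ρ| := by rw [← abs_neg]; congr 1; ring
  rw [e1] at hl1
  rw [e2] at hl2
  rcases Nat.even_or_odd s with hev | hodd
  · obtain ⟨k, hk⟩ := hev
    have h1 : A + (s : ℝ) / 2 = (B + ρ) + ((m + k : ℤ) : ℝ) := by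
      rw [hA, hk]; push_cast; ring
    rw [h1, coding_abs_cos] at hs
    constructor
    · intro h2; linarith
    · intro h2
      exact absurd h2 (Nat.not_odd_iff_even.mpr ⟨k, hk⟩)
  · obtain ⟨k, hk⟩ := hodd
    have h1 : A + (s : ℝ) / 2 = (B + ρ + 1 / 2) + ((m + k : ℤ) : ℝ) := by
      rw [hA, hk]; push_cast; ring
    rw [h1, coding_abs_cos] at hs
    have h2 : Real.pi * (B + ρ + 1 / 2) = Real.pi * (B + ρ) + Real.pi / 2 := by ring
    rw [h2, Real.cos_add_pi_div_two, abs_neg] at hs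
    have h3 : |Real.cos (Real.pi * (B + ρ))| < 1 / 2 := by
      have h4 := Real.sin_sq_add_cos_sq (Real.pi * (B + ρ))
      have h5 : (9 / 10 : ℝ) ^ 2 < Real.sin (Real.pi * (B + ρ)) ^ 2 := by
        rw [← sq_abs (Real.sin _)]
        exact pow_lt_pow_left₀ hs (by norm_num) two_ne_zero
      have h6 : Real.cos (Real.pi * (B + ρ)) ^ 2 < (1 / 2) ^ 2 := by
        norm_num at h5 ⊢
        linarith
      exact abs_lt_of_sq_lt_sq h6 (by norm_num)
    constructor
    · intro _; exact ⟨k, hk⟩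
    · intro _; linarith

/-- the signs seen by a quasi-additive `ϑ` along a chain are predicted by a short code -/
theorem coding (M a l : ℕ) (hM : 1 ≤ M) (hl : 1 ≤ l) :
    ∃ (C : Type) (_ : Fintype C) (pred : C → ℕ → ℕ → Bool),
      Fintype.card C ≤ 2 ^ ((3 * a * l + l + 10) * (2 * M + 3) + (2 * l + 2 * a * l) * M) ∧
      ∀ (ϑ : ℤ → ℝ) (Λ Ξ : Finset ℝ), Λ.card ≤ M → Ξ.card ≤ M →
        (∀ u v : ℤ, ∃ x ∈ Λ, ∃ m : ℤ, ϑ (u + v) = ϑ u + ϑ v + x + m) →
        ∀ (y₀ y' : Finset ℕ), y₀ ⊆ Finset.range l → y' ⊆ Finset.range l →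
        ∀ ξ : ℕ → ℝ, (∀ i, ξ i ∈ Ξ) →
        ∃ c : C, ∀ i < l, ∀ j < l, ∀ s : ℕ,
          9 / 10 < |Real.cos (Real.pi * (2 ^ (a * (l + j)) *
            (ϑ (pos a (symmDiff y₀ (Finset.range i)) - pos a y') + ξ i) + (s : ℝ) / 2))| →
          pred c i j = decide (Odd s) := by
  classical
  obtain ⟨P, hP⟩ : ∃ P : ℕ, P = 3 * a * l + l + 10 := ⟨_, rfl⟩
  rw [← hP]
  have hM0 : 0 < M := hM
  let dflt : Fin M := ⟨0, hM0⟩
  -- extension of functions
  let ex : ∀ {α : Type} (_ : α) (n : ℕ), (Fin n → α) → ℕ → α :=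
    fun {α} d n f k => if h : k < n then f ⟨k, h⟩ else d
  let C : Type := (coding_T M → Fin (2 ^ P)) × (Fin l → Fin M × Bool) × (Fin l → Fin M) ×
    (Fin (a * l) → Fin M) × (Fin (a * l) → Fin M)
  let wt : C → ℕ → coding_T M → ℤ := fun c i t =>
    coding_cv a (ex (dflt, true) l c.2.1) (ex dflt (a * l) c.2.2.2.1)
      (ex dflt (a * l) c.2.2.2.2) i t +
    coding_e (Sum.inr (Sum.inr (ex dflt l c.2.2.1 i))) t
  let B : C → ℕ → ℕ → ℝ := fun c i j => 2 ^ (a * (l + j)) *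
    coding_val (fun t => ((c.1 t : ℕ) : ℝ) / 2 ^ P) (wt c i)
  refine ⟨C, inferInstance, fun c i j => decide (|Real.cos (Real.pi * B c i j)| < 7 / 10), ?_, ?_⟩
  · have h1 : Fintype.card C = (2 ^ P) ^ (2 * M + 3) * ((M * 2) ^ l * (M ^ l * (M ^ (a * l) *
        M ^ (a * l)))) := by
      show Fintype.card ((coding_T M → Fin (2 ^ P)) × (Fin l → Fin M × Bool) × (Fin l → Fin M) ×
        (Fin (a * l) → Fin M) × (Fin (a * l) → Fin M)) = _
      rw [Fintype.card_prod, Fintype.card_prod, Fintype.card_prod, Fintype.card_prod,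
        Fintype.card_fun, Fintype.card_fun, Fintype.card_fun, Fintype.card_fun, Fintype.card_sum,
        Fintype.card_sum, Fintype.card_prod, Fintype.card_bool, Fintype.card_fin,
        Fintype.card_fin, Fintype.card_fin, Fintype.card_fin, Fintype.card_fin]
      congr 2
      ring
    rw [h1, ← pow_mul, pow_add 2 (P * (2 * M + 3))]
    apply Nat.mul_le_mul_left
    have h2 : M ≤ 2 ^ M := Nat.lt_two_pow_self.le
    have h3 : M * 2 ≤ 2 ^ M := by
      obtain ⟨m, rfl⟩ : ∃ m, M = m + 1 := ⟨M - 1, by omega⟩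
      have h4 : m + 1 ≤ 2 ^ m := Nat.lt_two_pow_self
      rw [pow_succ]
      omega
    calc (M * 2) ^ l * (M ^ l * (M ^ (a * l) * M ^ (a * l))) ≤
        (2 ^ M) ^ l * ((2 ^ M) ^ l * ((2 ^ M) ^ (a * l) * (2 ^ M) ^ (a * l))) := by gcongr
      _ = 2 ^ ((2 * l + 2 * a * l) * M) := by
        rw [← pow_add, ← pow_add, ← pow_add, ← pow_mul]
        congr 1
        ring
  · intro ϑ Λ Ξ hΛ hΞ hadd y₀ y' hy₀ hy' ξ hξ
    obtain ⟨lam, hlam⟩ := coding_enum M Λ hΛ
    obtain ⟨xi, hxi⟩ := coding_enum M Ξ hΞ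
    obtain ⟨v, hv⟩ : ∃ v : ℕ → ℤ, v = fun i =>
      pos a (symmDiff y₀ (Finset.range i)) - pos a y' := ⟨_, rfl⟩
    have hadd' : ∀ u w : ℤ, ∃ t : Fin M, ∃ m : ℤ, ϑ (u + w) = ϑ u + ϑ w + lam t + m := by
      intro u w
      obtain ⟨x, hx, m, hm⟩ := hadd u w
      obtain ⟨t, ht⟩ := hlam x hx
      exact ⟨t, m, by rw [ht]; exact hm⟩
    choose L mL hL using hadd'
    have hxi' : ∀ i, ∃ t : Fin M, xi t = ξ i := fun i => hxi _ (hξ i)
    choose X hX using hxi'
    obtain ⟨β, hβ⟩ : ∃ β : coding_T M → ℝ, β = Sum.elim ![ϑ (v 0), ϑ 1, ϑ (-1)]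
      (Sum.elim lam xi) := ⟨_, rfl⟩
    have hround : ∀ t, ∃ r : Fin (2 ^ P), ∃ m : ℤ, ∃ ρ : ℝ, |ρ| ≤ (1 / 2) ^ P ∧
        β t = (r : ℕ) / 2 ^ P + m + ρ := fun t => coding_round P (β t)
    choose r mr ρ hρ hr using hround
    let sg : ℕ → Bool := fun i => if i ∈ y₀ then false else true
    let H : ℕ → Fin M × Bool := fun i =>
      (L (v i) ((if sg i then 1 else -1) * 2 ^ (a * i)), sg i)
    let gp : ℕ → Fin M := fun k => L (1 * 2 ^ k) (1 * 2 ^ k)
    let gm : ℕ → Fin M := fun k => L ((-1) * 2 ^ k) ((-1) * 2 ^ k)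
    let c : C := (r, fun i => H i, fun i => X i, fun k => gp k, fun k => gm k)
    refine ⟨c, ?_⟩
    intro i hi j hj s hs
    have hexH : ∀ k < l, ex (dflt, true) l c.2.1 k = H k := fun k hk => dif_pos hk
    have hexX : ∀ k < l, ex dflt l c.2.2.1 k = X k := fun k hk => dif_pos hk
    have hexp : ∀ k < a * l, ex dflt (a * l) c.2.2.2.1 k = gp k := fun k hk => dif_pos hk
    have hexm : ∀ k < a * l, ex dflt (a * l) c.2.2.2.2 k = gm k := fun k hk => dif_pos hk
    obtain ⟨H', hH'⟩ : ∃ H', H' = ex (dflt, true) l c.2.1 := ⟨_, rfl⟩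
    obtain ⟨gp', hgp'⟩ : ∃ gp', gp' = ex dflt (a * l) c.2.2.2.1 := ⟨_, rfl⟩
    obtain ⟨gm', hgm'⟩ : ∃ gm', gm' = ex dflt (a * l) c.2.2.2.2 := ⟨_, rfl⟩
    rw [← hH'] at hexH
    rw [← hgp'] at hexp
    rw [← hgm'] at hexm
    obtain ⟨m1, hm1⟩ := coding_cv_val ϑ β a l H' gp' gm' v (by rw [hβ]; rfl) (by rw [hβ]; rfl)
      (by rw [hβ]; rfl)
      (by
        intro k hk
        rw [hexp k hk, hβ]
        refine ⟨mL (1 * 2 ^ k) (1 * 2 ^ k), ?_⟩
        have h1 := hL (1 * 2 ^ k) (1 * 2 ^ k)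
        have h2 : (1 : ℤ) * 2 ^ (k + 1) = 1 * 2 ^ k + 1 * 2 ^ k := by ring
        rw [h2]
        exact h1)
      (by
        intro k hk
        rw [hexm k hk, hβ]
        refine ⟨mL ((-1) * 2 ^ k) ((-1) * 2 ^ k), ?_⟩
        have h1 := hL ((-1) * 2 ^ k) ((-1) * 2 ^ k)
        have h2 : (-1 : ℤ) * 2 ^ (k + 1) = (-1) * 2 ^ k + (-1) * 2 ^ k := by ring
        rw [h2]
        exact h1)
      (by
        intro k hk
        rw [hexH k hk, hβ]
        refine ⟨mL (v k) ((if sg k then 1 else -1) * 2 ^ (a * k)), ?_⟩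
        have h1 := hL (v k) ((if sg k then 1 else -1) * 2 ^ (a * k))
        have h2 : v (k + 1) = v k + (if sg k then 1 else -1) * 2 ^ (a * k) := by
          rw [hv]
          beta_reduce
          rw [coding_pos]
          by_cases hk2 : k ∈ y₀
          · have : sg k = false := if_pos hk2
            rw [this, if_pos hk2]
            simp
            ring
          · have : sg k = true := if_neg hk2
            rw [this, if_neg hk2]
            simp
            ring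
        rw [h2]
        exact h1)
      i hi.le
    -- the weight vector
    obtain ⟨w, hw⟩ : ∃ w : coding_T M → ℤ, w = wt c i := ⟨_, rfl⟩
    have hw2 : w = fun t => coding_cv a H' gp' gm' i t +
        coding_e (Sum.inr (Sum.inr (X i))) t := by
      rw [hw, hH', hgp', hgm', ← hexX i hi]
    have hNw : coding_N w ≤ l * 2 ^ (a * l + 1) := by
      rw [hw2]
      refine (coding_N_add _ _).trans ?_
      rw [coding_N_e]
      have h1 := coding_N_cv a l H' gp' gm' i hi.le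
      have h2 : ((i : ℝ) + 1) ≤ l := by exact_mod_cast hi
      have h3 : (1 : ℝ) ≤ 2 ^ (a * l) := one_le_pow₀ (by norm_num)
      have h4 : (2 : ℝ) ≤ 2 ^ (a * l + 1) := by rw [pow_succ]; linarith
      have h5 : ((i : ℝ) + 1) * 2 ^ (a * l + 1) ≤ l * 2 ^ (a * l + 1) :=
        mul_le_mul_of_nonneg_right h2 (by positivity)
      linarith
    have hvalw : ϑ (v i) + ξ i = coding_val β w + m1 := by
      rw [hw2, coding_val_add, coding_val_e, hm1]
      have h1 : β (Sum.inr (Sum.inr (X i))) = ξ i := by rw [hβ]; exact hX i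
      rw [h1]
      ring
    have hval2 : coding_val β w = coding_val (fun t => ((r t : ℕ) : ℝ) / 2 ^ P) w +
        ((∑ t, w t * mr t : ℤ) : ℝ) + ∑ t, (w t : ℝ) * ρ t := by
      unfold coding_val
      push_cast
      rw [← Finset.sum_add_distrib, ← Finset.sum_add_distrib]
      refine Finset.sum_congr rfl fun t _ => ?_
      rw [hr t]
      ring
    have herr : |∑ t, (w t : ℝ) * ρ t| ≤ l * 2 ^ (a * l + 1) * (1 / 2) ^ P := by
      refine (Finset.abs_sum_le_sum_abs _ _).trans ?_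
      have h1 : ∑ t, |(w t : ℝ) * ρ t| ≤ ∑ t, |(w t : ℝ)| * (1 / 2) ^ P := by
        refine Finset.sum_le_sum fun t _ => ?_
        rw [abs_mul]
        exact mul_le_mul_of_nonneg_left (hρ t) (abs_nonneg _)
      rw [← Finset.sum_mul] at h1
      exact h1.trans (mul_le_mul_of_nonneg_right hNw (by positivity))
    have hB : B c i j = 2 ^ (a * (l + j)) * coding_val (fun t => ((r t : ℕ) : ℝ) / 2 ^ P) w := by
      rw [hw]
    have hfinal : |2 ^ (a * (l + j)) * ∑ t, (w t : ℝ) * ρ t| ≤ 1 / 400 := by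
      rw [abs_mul, abs_of_pos (by positivity : (0 : ℝ) < 2 ^ (a * (l + j)))]
      have h1 : (2 : ℝ) ^ (a * (l + j)) ≤ 2 ^ (2 * (a * l)) :=
        pow_le_pow_right₀ (by norm_num) (by
          have : a * (l + j) ≤ a * (l + l) := Nat.mul_le_mul_left a (by omega)
          calc a * (l + j) ≤ a * (l + l) := this
            _ = 2 * (a * l) := by ring)
      have h2 : (2 : ℝ) ^ (a * (l + j)) * |∑ t, (w t : ℝ) * ρ t| ≤
          2 ^ (2 * (a * l)) * (l * 2 ^ (a * l + 1) * (1 / 2) ^ P) :=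
        mul_le_mul h1 herr (abs_nonneg _) (by positivity)
      refine h2.trans ?_
      have h3 : (2 : ℝ) ^ (2 * (a * l)) * (l * 2 ^ (a * l + 1) * (1 / 2) ^ P) =
          l * (1 / 2) ^ l * (1 / 2) ^ 9 := by
        have h4 : P = 2 * (a * l) + (a * l + 1) + (l + 9) := by rw [hP]; ring
        rw [h4, pow_add (1 / 2 : ℝ), pow_add (1 / 2 : ℝ), pow_add (1 / 2 : ℝ) l]
        have h5 : (2 : ℝ) ^ (2 * (a * l)) * (1 / 2) ^ (2 * (a * l)) = 1 := by
          rw [← mul_pow]; norm_num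
        have h6 : (2 : ℝ) ^ (a * l + 1) * (1 / 2) ^ (a * l + 1) = 1 := by
          rw [← mul_pow]; norm_num
        calc (2 : ℝ) ^ (2 * (a * l)) * (l * 2 ^ (a * l + 1) *
            ((1 / 2) ^ (2 * (a * l)) * (1 / 2) ^ (a * l + 1) * ((1 / 2) ^ l * (1 / 2) ^ 9))) =
            (2 ^ (2 * (a * l)) * (1 / 2) ^ (2 * (a * l))) *
            (2 ^ (a * l + 1) * (1 / 2) ^ (a * l + 1)) * (l * (1 / 2) ^ l * (1 / 2) ^ 9) := by ring
          _ = _ := by rw [h5, h6]; ring
      rw [h3]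
      have h7 : (l : ℝ) * (1 / 2) ^ l ≤ 1 := by
        have h8 : (l : ℝ) ≤ 2 ^ l := by exact_mod_cast Nat.lt_two_pow_self.le
        calc (l : ℝ) * (1 / 2) ^ l ≤ 2 ^ l * (1 / 2) ^ l :=
              mul_le_mul_of_nonneg_right h8 (by positivity)
          _ = 1 := by rw [← mul_pow]; norm_num
      have h9 : (l : ℝ) * (1 / 2) ^ l * (1 / 2) ^ 9 ≤ 1 * (1 / 2) ^ 9 :=
        mul_le_mul_of_nonneg_right h7 (by positivity)
      refine h9.trans ?_
      norm_num
    have hA : 2 ^ (a * (l + j)) * (ϑ (pos a (symmDiff y₀ (Finset.range i)) - pos a y') + ξ i) =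
        B c i j + ((2 ^ (a * (l + j)) * (m1 + ∑ t, w t * mr t) : ℤ) : ℝ) +
          2 ^ (a * (l + j)) * ∑ t, (w t : ℝ) * ρ t := by
      have h1 : ϑ (pos a (symmDiff y₀ (Finset.range i)) - pos a y') = ϑ (v i) := by rw [hv]
      rw [h1, hvalw, hval2, hB]
      push_cast
      ring
    have hiff := coding_pred _ _ _ _ hfinal hA s hs
    show decide (|Real.cos (Real.pi * B c i j)| < 7 / 10) = decide (Odd s)
    rw [decide_eq_decide]
    exact hiff

end

end Pool.NilAvg
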