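import Pool.Agent.Helper986.NilAvg.Defs
import Pool.Agent.Helper986.NilAvg.ApiEv
import Pool.Agent.Helper986.NilAvg.ApiNrm
import Pool.Agent.Helper986.NilAvg.ApiHat

set_option autoImplicit false

namespace Pool.NilAvg

open Filter Topology
open scoped ComplexConjugate

noncomputable section

variable {κ : Type}


/-- `ν` is almost invariant under the shifts in the support of `β` -/
def Inv (β ν : Law) (δ : ℝ) : Prop := ∀ b ∈ β.coeff.support, nrm (pt b * ν - ν) ≤ δ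

theorem inv_pt_add (a b : ℤ) : pt (a + b) = pt a * pt b := by
  unfold pt
  rw [AddMonoidAlgebra.single_mul_single, mul_one]

theorem inv_pt_zero : pt 0 = 1 := by
  unfold pt
  rw [AddMonoidAlgebra.one_def]

theorem inv_nonneg {β ν : Law} {δ : ℝ} (h : Inv β ν δ) {b : ℤ} (hb : b ∈ β.coeff.support) :
    0 ≤ δ := (nrm_nonneg _).trans (h b hb)

theorem Inv.mul {β β' ν ν' : Law} {δ δ' : ℝ} (h : Inv β ν δ) (h' : Inv β' ν' δ')
    (hν : IsProb ν) (hν' : IsProb ν') : Inv (β * β') (ν * ν') (δ + δ') := by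
  intro b hb
  have hb1 := AddMonoidAlgebra.support_coeff_mul_subset β β' hb
  rw [Finset.mem_add] at hb1
  obtain ⟨b1, hb1, b2, hb2, rfl⟩ := hb1
  have e1 : pt (b1 + b2) * (ν * ν') - ν * ν' =
      (pt b1 * ν - ν) * (pt b2 * ν') + ν * (pt b2 * ν' - ν') := by
    rw [inv_pt_add]; ring
  rw [e1]
  have h1 := h b1 hb1
  have h2 := h' b2 hb2
  have h3 : nrm (pt b2 * ν') ≤ 1 := by
    refine (nrm_mul_le _ _).trans ?_
    rw [nrm_pt, hν'.nrm_eq, one_mul]
  have h4 := nrm_mul_le (pt b1 * ν - ν) (pt b2 * ν')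
  have h5 := nrm_mul_le ν (pt b2 * ν' - ν')
  rw [hν.nrm_eq, one_mul] at h5
  have h6 : nrm (pt b1 * ν - ν) * nrm (pt b2 * ν') ≤ δ * 1 :=
    mul_le_mul h1 h3 (nrm_nonneg _) (inv_nonneg h hb1)
  have h7 := nrm_add_le ((pt b1 * ν - ν) * (pt b2 * ν')) (ν * (pt b2 * ν' - ν'))
  linarith

theorem Inv.neg_shift {β ν : Law} {δ : ℝ} (h : Inv β ν δ) :
    ∀ b ∈ β.coeff.support, nrm (pt (-b) * ν - ν) ≤ δ := by
  intro b hb
  have e0 : pt (-b) * pt b = 1 := by
    rw [← inv_pt_add, neg_add_cancel, inv_pt_zero]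
  have e1 : pt (-b) * ν - ν = -(pt (-b) * (pt b * ν - ν)) := by
    linear_combination ν * e0
  rw [e1, nrm_neg]
  refine (nrm_mul_le _ _).trans ?_
  rw [nrm_pt, one_mul]
  exact h b hb

theorem inv_ev_sub {E : Type*} [AddCommGroup E] [Module ℝ E] (μ ν : Law) (f : ℤ → E) :
    ev (μ - ν) f = ev μ f - ev ν f := by
  have h1 : ev (μ - ν + ν) f = ev (μ - ν) f + ev ν f := ev_add_law _ _ _
  rw [sub_add_cancel] at h1
  rw [h1, add_sub_cancel_right]

theorem inv_ev_aux {β ν : Law} {δ : ℝ} (h : Inv β ν δ) (hβ : IsProb β) {E : Type*}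
    [SeminormedAddCommGroup E] [NormedSpace ℝ E] (f : ℤ → E) (C : ℝ) (hf : ∀ n, ‖f n‖ ≤ C) :
    ‖ev ν (av β f) - ev ν f‖ ≤ δ * C := by
  have hC : 0 ≤ C := (norm_nonneg _).trans (hf 0)
  have e1 : ev ν (av β f) = ev β fun k => ev (pt k * ν) f := by
    have e2 : ev ν (av β f) = ev ν fun n => ev β fun k => f (n + k) := rfl
    rw [e2, ev_comm]
    congr 1
    funext k
    rw [ev_mul, ev_pt]
    congr 1
    funext n
    rw [add_comm]
  have e3 : ev ν (av β f) - ev ν f = ev β fun k => ev (pt k * ν - ν) f := by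
    have e4 : ev β (fun k => ev (pt k * ν - ν) f + ev ν f) =
        ev β (fun k => ev (pt k * ν - ν) f) + ev β (fun _ => ev ν f) := ev_add_fun _ _ _
    have e5 : (fun k => ev (pt k * ν - ν) f + ev ν f) = fun k => ev (pt k * ν) f := by
      funext k
      rw [inv_ev_sub, sub_add_cancel]
    rw [e5, hβ.ev_const, ← e1] at e4
    rw [e4, add_sub_cancel_right]
  rw [e3]
  refine (hβ.norm_ev_le_ev _).trans ?_
  have e6 : ev β (fun _ : ℤ => δ * C) = δ * C := hβ.ev_const _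
  rw [← e6]
  apply hβ.ev_mono
  intro n hn
  refine (norm_ev_le _ _ C hf).trans ?_
  exact mul_le_mul_of_nonneg_right (h n hn) hC

theorem Inv.ev {β ν : Law} {δ : ℝ} (h : Inv β ν δ) (hβ : IsProb β) {E : Type*}
    [SeminormedAddCommGroup E] [NormedSpace ℝ E] (f : ℤ → E) (C : ℝ) (hf : ∀ n, ‖f n‖ ≤ C) :
    ‖ev ν (av β f) - ev ν f‖ ≤ δ * C :=
  inv_ev_aux h hβ f C hf

theorem inv_hat_aux {β ν : Law} {δ : ℝ} (h : Inv β ν δ) (hβ : IsProb β) (x : ℝ) :
    ‖hat ν x * hat β x - hat ν x‖ ≤ δ := by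
  have h1 := inv_ev_aux h hβ (fun n : ℤ => e (n * x)) 1 (fun n => (norm_e _).le)
  rw [mul_one] at h1
  have e1 : Pool.NilAvg.ev ν (av β (fun n : ℤ => e (n * x))) = hat ν x * hat β x := by
    rw [← hat_mul]
    have e2 : hat (ν * β) x = Pool.NilAvg.ev (ν * β) (fun n : ℤ => e (n * x)) := rfl
    rw [e2, ev_mul]
    rfl
  rw [e1] at h1
  exact h1

theorem Inv.hat {β ν : Law} {δ : ℝ} (h : Inv β ν δ) (hβ : IsProb β) (x : ℝ) :
    ‖hat ν x * hat β x - hat ν x‖ ≤ δ :=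
  inv_hat_aux h hβ x

end

end Pool.NilAvg
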