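import Pool.Agent.Helper986.NilAvg.Defs
import Pool.Agent.Helper986.NilAvg.ApiEv
import Pool.Agent.Helper986.NilAvg.ApiNrm
import Pool.Agent.Helper986.NilAvg.ApiHat

set_option autoImplicit false

namespace Pool.NilAvg

open Filter Topology
open scoped ComplexConjugate

noncomputable section

variable {κ : Type}


theorem box_prob (r : ℕ) (g : ℤ) : IsProb (box r g) := by
  have h := IsProb.avg (Finset.range (2 ^ r)) ⟨0, Finset.mem_range.2 (by positivity)⟩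
    (fun i : ℕ => pt (i * g)) (fun i _ => IsProb.pt _)
  have hc : (((Finset.range (2 ^ r)).card : ℕ) : ℝ) = (2 : ℝ) ^ r := by simp
  rw [hc] at h
  exact h

theorem tri_pos_hat (r : ℕ) (g : ℤ) (x : ℝ) : hat (box r g) x =
    (((2 : ℝ) ^ r)⁻¹ : ℝ) • ∑ i ∈ Finset.range (2 ^ r), e ((((i : ℤ) * g : ℤ) : ℝ) * x) := by
  unfold hat box
  rw [ev_smul_law, ev_sum_law]
  congr 1
  refine Finset.sum_congr rfl fun i _ => ?_
  rw [ev_pt]

theorem tri_pos_conj (r : ℕ) (g : ℤ) (x : ℝ) :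
    hat (box r (-g)) x = conj (hat (box r g) x) := by
  rw [tri_pos_hat, tri_pos_hat, Complex.real_smul, Complex.real_smul, map_mul, Complex.conj_ofReal,
    map_sum]
  congr 1
  refine Finset.sum_congr rfl fun i _ => ?_
  rw [conj_e]
  congr 1
  push_cast
  ring

theorem tri_pos_hat_tri (r : ℕ) (g : ℤ) (x : ℝ) :
    hat (tri r g) x = ((‖hat (box r g) x‖ ^ 2 : ℝ) : ℂ) := by
  unfold tri
  rw [hat_mul, tri_pos_conj, Complex.mul_conj, Complex.normSq_eq_norm_sq]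

theorem tri_pos_step (r : ℕ) (g : ℤ) (x : ℝ) :
    ‖hat (box (r + 1) g) x‖ ≤ ‖hat (box r g) x‖ := by
  rw [tri_pos_hat, tri_pos_hat, norm_smul, norm_smul]
  have h1 : ∑ i ∈ Finset.range (2 ^ (r + 1)), e ((((i : ℤ) * g : ℤ) : ℝ) * x) =
      (1 + e ((((2 ^ r : ℤ) * g : ℤ) : ℝ) * x)) *
        ∑ i ∈ Finset.range (2 ^ r), e ((((i : ℤ) * g : ℤ) : ℝ) * x) := by
    have h2 : (2 : ℕ) ^ (r + 1) = 2 ^ r + 2 ^ r := by ring
    rw [h2, Finset.sum_range_add, add_mul, one_mul]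
    congr 1
    rw [Finset.mul_sum]
    refine Finset.sum_congr rfl fun i _ => ?_
    rw [← e_add]
    congr 1
    push_cast
    ring
  rw [h1, norm_mul]
  have h3 : ‖1 + e ((((2 ^ r : ℤ) * g : ℤ) : ℝ) * x)‖ ≤ 2 := by
    refine (norm_add_le _ _).trans ?_
    rw [norm_e, norm_one]
    norm_num
  have h4 : ‖((2 : ℝ) ^ (r + 1))⁻¹‖ * 2 = ‖((2 : ℝ) ^ r)⁻¹‖ := by
    rw [Real.norm_of_nonneg (by positivity), Real.norm_of_nonneg (by positivity), pow_succ]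
    field_simp
  calc ‖((2 : ℝ) ^ (r + 1))⁻¹‖ * (‖1 + e ((((2 ^ r : ℤ) * g : ℤ) : ℝ) * x)‖ *
        ‖∑ i ∈ Finset.range (2 ^ r), e ((((i : ℤ) * g : ℤ) : ℝ) * x)‖)
      ≤ ‖((2 : ℝ) ^ (r + 1))⁻¹‖ * (2 *
        ‖∑ i ∈ Finset.range (2 ^ r), e ((((i : ℤ) * g : ℤ) : ℝ) * x)‖) := by gcongr
    _ = ‖((2 : ℝ) ^ r)⁻¹‖ * ‖∑ i ∈ Finset.range (2 ^ r), e ((((i : ℤ) * g : ℤ) : ℝ) * x)‖ := by
        rw [← h4]; ring

theorem tri_pos (r : ℕ) (g : ℤ) : Pos (tri r g) := by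
  refine ⟨(box_prob r g).mul (box_prob r (-g)), fun x => ?_, fun x => ?_⟩
  · rw [tri_pos_hat_tri, Complex.ofReal_im]
  · rw [tri_pos_hat_tri, Complex.ofReal_re]
    positivity

theorem tri_anti {r r' : ℕ} (h : r ≤ r') (g : ℤ) (x : ℝ) :
    (hat (tri r' g) x).re ≤ (hat (tri r g) x).re := by
  rw [tri_pos_hat_tri, tri_pos_hat_tri, Complex.ofReal_re, Complex.ofReal_re]
  have h1 : ‖hat (box r' g) x‖ ≤ ‖hat (box r g) x‖ :=
    antitone_nat_of_succ_le (f := fun r => ‖hat (box r g) x‖) (fun n => tri_pos_step n g x) h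
  exact pow_le_pow_left₀ (norm_nonneg _) h1 2

end

end Pool.NilAvg
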