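import Pool.Agent.Helper986.NilAvg.Defs
import Pool.Agent.Helper986.NilAvg.ApiEv
import Pool.Agent.Helper986.NilAvg.ApiNrm

set_option autoImplicit false

namespace Pool.NilAvg

open Filter Topology
open scoped ComplexConjugate

noncomputable section

variable {κ : Type}


theorem tri_shift_ptmul (a b : ℤ) : pt a * pt b = pt (a + b) := by
  unfold pt
  rw [AddMonoidAlgebra.single_mul_single, one_mul]

theorem tri_shift_pt0 : pt 0 = 1 := rfl

theorem tri_shift_nrm_zero : nrm (0 : Law) = 0 := by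
  have := nrm_smul 0 (0 : Law)
  simpa using this

theorem tri_shift_nrm_sum {ι : Type*} (s : Finset ι) (f : ι → Law) :
    nrm (∑ i ∈ s, f i) ≤ ∑ i ∈ s, nrm (f i) :=
  Finset.le_sum_of_subadditive nrm tri_shift_nrm_zero.le nrm_add_le s f

theorem tri_shift_nrm_sub (μ ν : Law) : nrm (μ - ν) ≤ nrm μ + nrm ν := by
  rw [sub_eq_add_neg]
  exact (nrm_add_le _ _).trans (by rw [nrm_neg])

theorem tri_shift_nrm_box (r : ℕ) (g : ℤ) : nrm (box r g) ≤ 1 := by
  unfold box
  rw [nrm_smul, abs_of_nonneg (by positivity)]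
  have h := tri_shift_nrm_sum (Finset.range (2 ^ r)) (fun i : ℕ => pt (i * g))
  simp only [nrm_pt, Finset.sum_const, Finset.card_range, nsmul_eq_mul, mul_one] at h
  push_cast at h
  have hp : (0 : ℝ) < 2 ^ r := by positivity
  calc ((2 : ℝ) ^ r)⁻¹ * nrm (∑ i ∈ Finset.range (2 ^ r), pt (i * g))
      ≤ ((2 : ℝ) ^ r)⁻¹ * 2 ^ r := mul_le_mul_of_nonneg_left h (by positivity)
    _ = 1 := inv_mul_cancel₀ hp.ne'

theorem tri_shift_one (r : ℕ) (g : ℤ) : nrm (pt g * box r g - box r g) ≤ 2 / 2 ^ r := by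
  have e : pt g * box r g - box r g = ((2 : ℝ) ^ r)⁻¹ • (pt ((2 ^ r : ℕ) * g) - pt 0) := by
    unfold box
    rw [mul_smul_comm, ← smul_sub, Finset.mul_sum]
    congr 1
    have h1 : ∑ i ∈ Finset.range (2 ^ r), pt g * pt (i * g) =
        ∑ i ∈ Finset.range (2 ^ r), pt (((i + 1 : ℕ) : ℤ) * g) := by
      apply Finset.sum_congr rfl
      intro i _
      rw [tri_shift_ptmul]
      congr 1
      push_cast
      ring
    rw [h1, ← Finset.sum_sub_distrib,
      Finset.sum_range_sub (fun i : ℕ => pt ((i : ℤ) * g))]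
    simp
  rw [e, nrm_smul, abs_of_nonneg (by positivity)]
  have h := tri_shift_nrm_sub (pt ((2 ^ r : ℕ) * g)) (pt 0)
  rw [nrm_pt, nrm_pt] at h
  calc ((2 : ℝ) ^ r)⁻¹ * nrm (pt ((2 ^ r : ℕ) * g) - pt 0) ≤ ((2 : ℝ) ^ r)⁻¹ * (1 + 1) :=
        mul_le_mul_of_nonneg_left h (by positivity)
    _ = 2 / 2 ^ r := by ring

theorem tri_shift_nat (r : ℕ) (g : ℤ) (n : ℕ) :
    nrm (pt (n * g) * box r g - box r g) ≤ 2 * n / 2 ^ r := by
  induction n with
  | zero =>
    simp [tri_shift_pt0, tri_shift_nrm_zero]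
  | succ n ih =>
    have e : pt (((n + 1 : ℕ) : ℤ) * g) * box r g - box r g =
        pt (n * g) * (pt g * box r g - box r g) + (pt (n * g) * box r g - box r g) := by
      have h1 : pt (((n + 1 : ℕ) : ℤ) * g) = pt (n * g) * pt g := by
        rw [tri_shift_ptmul]
        congr 1
        push_cast
        ring
      rw [h1, mul_sub, mul_assoc]
      abel
    rw [e]
    have h1 := nrm_add_le (pt (n * g) * (pt g * box r g - box r g))
      (pt (n * g) * box r g - box r g)
    have h2 := nrm_mul_le (pt (n * g)) (pt g * box r g - box r g)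
    rw [nrm_pt, one_mul] at h2
    have h3 := tri_shift_one r g
    push_cast
    have h4 : 2 * ((n : ℝ) + 1) / 2 ^ r = 2 / 2 ^ r + 2 * n / 2 ^ r := by ring
    rw [h4]
    linarith

theorem tri_shift_int (r : ℕ) (g t : ℤ) :
    nrm (pt (t * g) * box r g - box r g) ≤ 2 * |(t : ℝ)| / 2 ^ r := by
  rcases Int.eq_nat_or_neg t with ⟨n, h | h⟩
  · subst h
    have := tri_shift_nat r g n
    simpa using this
  · subst h
    have e : pt (-(n : ℤ) * g) * box r g - box r g =
        -(pt (-(n : ℤ) * g) * (pt (n * g) * box r g - box r g)) := by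
      have h1 : pt (-(n : ℤ) * g) * pt (n * g) = 1 := by
        rw [tri_shift_ptmul]
        rw [← tri_shift_pt0]
        congr 1
        ring
      rw [mul_sub, ← mul_assoc, h1, one_mul]
      abel
    rw [e, nrm_neg]
    have h2 := nrm_mul_le (pt (-(n : ℤ) * g)) (pt (n * g) * box r g - box r g)
    rw [nrm_pt, one_mul] at h2
    have := tri_shift_nat r g n
    have h3 : |((-(n : ℤ) : ℤ) : ℝ)| = n := by
      push_cast
      rw [abs_neg, abs_of_nonneg (by positivity)]
    rw [h3]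
    exact h2.trans this

theorem tri_shift_main (r k : ℕ) (g t : ℤ) (ht : |t| < 2 ^ (r - k)) :
    nrm (pt (t * g) * tri r g - tri r g) ≤ 2 / 2 ^ k := by
  have e : pt (t * g) * tri r g - tri r g =
      (pt (t * g) * box r g - box r g) * box r (-g) := by
    unfold tri
    rw [sub_mul, mul_assoc]
  rw [e]
  have h1 := nrm_mul_le (pt (t * g) * box r g - box r g) (box r (-g))
  have h2 := tri_shift_int r g t
  have h3 := tri_shift_nrm_box r (-g)
  have h4 := nrm_nonneg (pt (t * g) * box r g - box r g)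
  have h5 : nrm (pt (t * g) * box r g - box r g) * nrm (box r (-g)) ≤
      nrm (pt (t * g) * box r g - box r g) * 1 := mul_le_mul_of_nonneg_left h3 h4
  have h6 : 2 * |(t : ℝ)| / 2 ^ r ≤ 2 / 2 ^ k := by
    rw [div_le_div_iff₀ (by positivity) (by positivity)]
    have h7 : |(t : ℝ)| * 2 ^ k ≤ 2 ^ r := by
      by_cases hrk : k ≤ r
      · have h8 : |(t : ℝ)| ≤ 2 ^ (r - k) := by
          have : ((|t| : ℤ) : ℝ) < ((2 ^ (r - k) : ℤ) : ℝ) := by exact_mod_cast ht
          push_cast at this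
          exact this.le
        calc |(t : ℝ)| * 2 ^ k ≤ 2 ^ (r - k) * 2 ^ k :=
              mul_le_mul_of_nonneg_right h8 (by positivity)
          _ = 2 ^ r := by rw [← pow_add, Nat.sub_add_cancel hrk]
      · have h8 : r - k = 0 := by omega
        rw [h8, pow_zero] at ht
        have h9 : t = 0 := by
          have := abs_lt.1 ht
          omega
        rw [h9]
        simp
    nlinarith
  linarith

theorem tri_shift_supp_sum {ι : Type*} (s : Finset ι) (f : ι → ℤ) (c : ℝ) (b : ℤ)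
    (hb : b ∈ (c • ∑ i ∈ s, pt (f i) : Law).coeff.support) : ∃ i ∈ s, b = f i := by
  rw [Finsupp.mem_support_iff] at hb
  by_contra hne
  push Not at hne
  apply hb
  rw [AddMonoidAlgebra.coeff_smul_apply, AddMonoidAlgebra.coeff_sum, Finsupp.finset_sum_apply]
  rw [Finset.sum_eq_zero, smul_zero]
  intro i hi
  unfold pt
  rw [AddMonoidAlgebra.coeff_single_apply, if_neg (fun h => hne i hi h.symm)]

theorem tri_shift_supp (r : ℕ) (g b : ℤ) (hb : b ∈ (tri r g).coeff.support) :
    ∃ t : ℤ, |t| < 2 ^ r ∧ b = t * g := by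
  have e : tri r g = (((2 : ℝ) ^ r)⁻¹ * ((2 : ℝ) ^ r)⁻¹) •
      ∑ x ∈ Finset.range (2 ^ r) ×ˢ Finset.range (2 ^ r), pt ((x.1 : ℤ) * g + (x.2 : ℤ) * (-g)) := by
    unfold tri box
    rw [smul_mul_smul_comm, Finset.sum_mul_sum, Finset.sum_product]
    congr 1
    apply Finset.sum_congr rfl
    intro i _
    apply Finset.sum_congr rfl
    intro j _
    rw [tri_shift_ptmul]
  rw [e] at hb
  obtain ⟨x, hx, hbx⟩ := tri_shift_supp_sum _ _ _ _ hb
  rw [Finset.mem_product, Finset.mem_range, Finset.mem_range] at hx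
  refine ⟨(x.1 : ℤ) - x.2, ?_, ?_⟩
  · have h1 : (x.1 : ℤ) < 2 ^ r := by exact_mod_cast hx.1
    have h2 : (x.2 : ℤ) < 2 ^ r := by exact_mod_cast hx.2
    rw [abs_lt]
    constructor <;> omega
  · rw [hbx]
    ring

theorem tri_shift (r k : ℕ) (g b : ℤ) (hb : b ∈ (tri (r - k) g).coeff.support) :
    nrm (pt b * tri r g - tri r g) ≤ 2 / 2 ^ k := by
  obtain ⟨t, ht, rfl⟩ := tri_shift_supp (r - k) g b hb
  exact tri_shift_main r k g t ht

theorem tri_shift_box (r k : ℕ) (g b : ℤ) (hb : b ∈ (box (r - k) g).coeff.support) :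
    nrm (pt b * tri r g - tri r g) ≤ 2 / 2 ^ k := by
  unfold box at hb
  obtain ⟨i, hi, rfl⟩ := tri_shift_supp_sum (Finset.range (2 ^ (r - k)))
    (fun i : ℕ => (i : ℤ) * g) _ _ hb
  apply tri_shift_main r k g (i : ℤ)
  rw [Finset.mem_range] at hi
  rw [abs_of_nonneg (by positivity)]
  exact_mod_cast hi

theorem tri_support (r : ℕ) (g b : ℤ) (hb : b ∈ (tri r g).coeff.support) :
    ∃ t : ℤ, |t| < 2 ^ r ∧ b = t * g :=
  tri_shift_supp r g b hb

end

end Pool.NilAvg
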