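import Pool.Agent.Helper986.NilAvg.Defs
import Pool.Agent.Helper986.NilAvg.ApiEv
import Pool.Agent.Helper986.NilAvg.ApiNrm
import Pool.Agent.Helper986.NilAvg.ApiHat
import Pool.Agent.Helper986.NilAvg.TriPos

set_option autoImplicit false

namespace Pool.NilAvg

open Filter Topology
open scoped ComplexConjugate

noncomputable section

variable {κ : Type}


theorem win_pos_re_mul {μ ν : Law} (h : Pos μ) (h' : Pos ν) (x : ℝ) :
    (hat (μ * ν) x).re = (hat μ x).re * (hat ν x).re := by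
  rw [hat_mul, Complex.mul_re, h.im, h'.im]; ring

theorem win_pos_list (l : List Law) (h : ∀ μ ∈ l, Pos μ) : Pos l.prod := by
  induction l with
  | nil => exact Pos.one
  | cons μ l ih =>
    rw [List.prod_cons]
    exact (h μ List.mem_cons_self).mul (ih fun ν hν => h ν (List.mem_cons_of_mem _ hν))

theorem win_pos_mono {μ ν μ' ν' : Law} (h : Pos μ) (h1 : Pos ν) (h' : Pos μ') (h1' : Pos ν') (x : ℝ)
    (hle : (hat μ x).re ≤ (hat ν x).re) (hle' : (hat μ' x).re ≤ (hat ν' x).re) :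
    (hat (μ * μ') x).re ≤ (hat (ν * ν') x).re := by
  rw [win_pos_re_mul h h', win_pos_re_mul h1 h1']
  exact mul_le_mul hle hle' (h'.re x) (h1.re x)

theorem win_pos (gen : ℕ → κ → List ℤ) (w : ℕ) (p : ℕ × κ) : Pos (win gen w p) := by
  unfold win
  apply win_pos_list
  intro μ hμ
  rw [List.mem_map] at hμ
  obtain ⟨g, _, rfl⟩ := hμ
  exact tri_pos _ _

theorem win_pos_finset (s : Finset ℕ) (F : ℕ → Law) (h : ∀ w ∈ s, Pos (F w)) : Pos (∏ w ∈ s, F w) :=
  Finset.prod_induction F Pos (fun _ _ ha hb => ha.mul hb) Pos.one h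

theorem lawP_pos (gen : ℕ → κ → List ℤ) (ω : ℕ → ℕ × κ) (a b : ℕ) :
    Pos (lawP gen ω a b) :=
  win_pos_finset _ _ fun _ _ => win_pos _ _ _

theorem subP_pos (gen : ℕ → κ → List ℤ) (k : ℕ → ℕ) (ω : ℕ → ℕ × κ) (a b : ℕ) :
    Pos (subP gen k ω a b) :=
  win_pos_finset _ _ fun _ _ => win_pos _ _ _

theorem lawP_mul (gen : ℕ → κ → List ℤ) (ω : ℕ → ℕ × κ) {a b c : ℕ} (h : a ≤ b) (h' : b ≤ c) :
    lawP gen ω a b * lawP gen ω b c = lawP gen ω a c :=
  Finset.prod_Ico_consecutive _ h h'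

theorem subP_mul (gen : ℕ → κ → List ℤ) (k : ℕ → ℕ) (ω : ℕ → ℕ × κ) {a b c : ℕ} (h : a ≤ b)
    (h' : b ≤ c) : subP gen k ω a b * subP gen k ω b c = subP gen k ω a c :=
  Finset.prod_Ico_consecutive _ h h'

theorem win_pos_anti (l : List ℤ) {r r' : ℕ} (h : r ≤ r') (x : ℝ) :
    (hat ((l.map (tri r')).prod) x).re ≤ (hat ((l.map (tri r)).prod) x).re := by
  induction l with
  | nil => simp
  | cons g l ih =>
    rw [List.map_cons, List.map_cons, List.prod_cons, List.prod_cons]
    refine win_pos_mono (tri_pos _ _) (tri_pos _ _) ?_ ?_ x (tri_anti h g x) ih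
    · apply win_pos_list
      intro μ hμ
      rw [List.mem_map] at hμ
      obtain ⟨g, _, rfl⟩ := hμ
      exact tri_pos _ _
    · apply win_pos_list
      intro μ hμ
      rw [List.mem_map] at hμ
      obtain ⟨g, _, rfl⟩ := hμ
      exact tri_pos _ _

theorem win_pos_finset_mono (s : Finset ℕ) (F G : ℕ → Law) (h : ∀ w, Pos (F w)) (h' : ∀ w, Pos (G w))
    (x : ℝ) (hle : ∀ w, (hat (F w) x).re ≤ (hat (G w) x).re) :
    (hat (∏ w ∈ s, F w) x).re ≤ (hat (∏ w ∈ s, G w) x).re := by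
  classical
  induction s using Finset.induction with
  | empty => simp
  | insert a s ha ih =>
    rw [Finset.prod_insert ha, Finset.prod_insert ha]
    exact win_pos_mono (h a) (h' a) (win_pos_finset _ _ fun w _ => h w) (win_pos_finset _ _ fun w _ => h' w)
      x (hle a) ih

/-- Fourier transforms decrease with the scale and with the number of windows -/
theorem lawP_le_subP (gen : ℕ → κ → List ℤ) (k : ℕ → ℕ) (ω : ℕ → ℕ × κ) (j D : ℕ) (h : j ≤ D)
    (x : ℝ) : (hat (lawP gen ω 0 D) x).re ≤ (hat (subP gen k ω j D) x).re := by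
  rw [← lawP_mul gen ω (Nat.zero_le j) h, win_pos_re_mul (lawP_pos _ _ _ _) (lawP_pos _ _ _ _)]
  have h1 := (lawP_pos gen ω 0 j).le_one x
  have h2 := (lawP_pos gen ω j D).re x
  have h3 : (hat (lawP gen ω j D) x).re ≤ (hat (subP gen k ω j D) x).re := by
    unfold lawP subP
    apply win_pos_finset_mono
    · exact fun w => win_pos _ _ _
    · exact fun w => win_pos _ _ _
    · intro w
      unfold win
      exact win_pos_anti _ (Nat.sub_le _ _) x
  calc _ ≤ 1 * (hat (lawP gen ω j D) x).re := mul_le_mul_of_nonneg_right h1 h2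
    _ = _ := one_mul _
    _ ≤ _ := h3

end

end Pool.NilAvg
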