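import Pool.Agent.Helper986.NilAvg.Defs
import Pool.Agent.Helper986.NilAvg.ApiEv
import Pool.Agent.Helper986.NilAvg.ApiNrm
import Pool.Agent.Helper986.NilAvg.ApiHat
import Pool.Agent.Helper986.NilAvg.TriPos
import Pool.Agent.Helper986.NilAvg.TriShift
import Pool.Agent.Helper986.NilAvg.WinPos
import Pool.Agent.Helper986.NilAvg.Inv

set_option autoImplicit false

namespace Pool.NilAvg

open Filter Topology
open scoped ComplexConjugate

noncomputable section

variable {κ : Type}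


theorem inv_win_one (ν : Law) : Inv 1 ν 0 := by
  intro b hb
  have h1 : (1 : Law) = AddMonoidAlgebra.single 0 1 := AddMonoidAlgebra.one_def
  have hb0 : b = 0 := by
    rw [h1] at hb
    by_contra hne
    rw [Finsupp.mem_support_iff] at hb
    apply hb
    rw [AddMonoidAlgebra.coeff_single, Finsupp.single_eq_of_ne hne]
  subst hb0
  have h2 : pt 0 = 1 := h1.symm
  rw [h2, one_mul, sub_self]
  have := nrm_smul 0 (0 : Law)
  simpa using this.le

theorem inv_win_mono {β ν : Law} {δ δ' : ℝ} (h : Inv β ν δ) (hd : δ ≤ δ') : Inv β ν δ' :=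
  fun b hb => (h b hb).trans hd

theorem inv_win_prob_list (l : List ℤ) (f : ℤ → Law) (hf : ∀ g, IsProb (f g)) :
    IsProb ((l.map f).prod) := by
  induction l with
  | nil => simpa using IsProb.one
  | cons g l ih =>
    rw [List.map_cons, List.prod_cons]
    exact (hf g).mul ih

theorem inv_win_prob_prod (s : Finset ℕ) (f : ℕ → Law) (hf : ∀ w ∈ s, IsProb (f w)) :
    IsProb (∏ w ∈ s, f w) := by
  classical
  induction s using Finset.induction_on with
  | empty => simpa using IsProb.one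
  | insert a s ha ih =>
    rw [Finset.prod_insert ha]
    exact (hf a (Finset.mem_insert_self a s)).mul
      (ih (fun w hw => hf w (Finset.mem_insert_of_mem hw)))

theorem inv_win_list (l : List ℤ) (β ν : ℤ → Law) (δ : ℝ) (h : ∀ g, Inv (β g) (ν g) δ)
    (hν : ∀ g, IsProb (ν g)) :
    Inv ((l.map β).prod) ((l.map ν).prod) (l.length * δ) := by
  induction l with
  | nil => simpa using inv_win_one _
  | cons g l ih =>
    rw [List.map_cons, List.prod_cons, List.map_cons, List.prod_cons, List.length_cons]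
    have h1 := (h g).mul ih (hν g) (inv_win_prob_list l ν hν)
    apply inv_win_mono h1
    push_cast
    linarith

theorem inv_win_prod (s : Finset ℕ) (β ν : ℕ → Law) (δ : ℕ → ℝ)
    (h : ∀ w ∈ s, Inv (β w) (ν w) (δ w)) (hν : ∀ w ∈ s, IsProb (ν w)) :
    Inv (∏ w ∈ s, β w) (∏ w ∈ s, ν w) (∑ w ∈ s, δ w) := by
  classical
  induction s using Finset.induction_on with
  | empty => simpa using inv_win_one _
  | insert a s ha ih =>
    rw [Finset.prod_insert ha, Finset.prod_insert ha, Finset.sum_insert ha]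
    exact (h a (Finset.mem_insert_self a s)).mul
      (ih (fun w hw => h w (Finset.mem_insert_of_mem hw))
        (fun w hw => hν w (Finset.mem_insert_of_mem hw)))
      (hν a (Finset.mem_insert_self a s))
      (inv_win_prob_prod s ν (fun w hw => hν w (Finset.mem_insert_of_mem hw)))

theorem inv_win_sub (s t : Finset ℕ) (hst : s ⊆ t) (β ν : ℕ → Law) (δ : ℕ → ℝ)
    (h : ∀ w ∈ s, Inv (β w) (ν w) (δ w)) (hν : ∀ w ∈ t, IsProb (ν w)) :
    Inv (∏ w ∈ s, β w) (∏ w ∈ t, ν w) (∑ w ∈ s, δ w) := by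
  classical
  have h1 := inv_win_prod s β ν δ h (fun w hw => hν w (hst hw))
  have h2 := h1.mul (inv_win_one (∏ w ∈ t \ s, ν w))
    (inv_win_prob_prod s ν (fun w hw => hν w (hst hw)))
    (inv_win_prob_prod (t \ s) ν (fun w hw => hν w (Finset.mem_sdiff.mp hw).1))
  rw [mul_one, add_zero, mul_comm (∏ w ∈ s, ν w), Finset.prod_sdiff hst] at h2
  exact h2

/-- half of `subP`: product of one sided boxes -/
def hlf (gen : ℕ → κ → List ℤ) (k : ℕ → ℕ) (ω : ℕ → ℕ × κ) (a b : ℕ) : Law :=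
  ∏ w ∈ Finset.Ico a b, ((gen w (ω w).2).map (box ((ω w).1 - k w))).prod

/-- the reflection of `hlf` -/
def hlf' (gen : ℕ → κ → List ℤ) (k : ℕ → ℕ) (ω : ℕ → ℕ × κ) (a b : ℕ) : Law :=
  ∏ w ∈ Finset.Ico a b, ((gen w (ω w).2).map fun g => box ((ω w).1 - k w) (-g)).prod

theorem subP_eq (gen : ℕ → κ → List ℤ) (k : ℕ → ℕ) (ω : ℕ → ℕ × κ) (a b : ℕ) :
    subP gen k ω a b = hlf gen k ω a b * hlf' gen k ω a b := by
  unfold subP hlf hlf' win
  rw [← Finset.prod_mul_distrib]
  apply Finset.prod_congr rfl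
  intro w _
  rw [← List.prod_map_mul]
  rfl

theorem hlf_prob (gen : ℕ → κ → List ℤ) (k : ℕ → ℕ) (ω : ℕ → ℕ × κ) (a b : ℕ) :
    IsProb (hlf gen k ω a b) ∧ IsProb (hlf' gen k ω a b) := by
  constructor
  · exact inv_win_prob_prod _ _ (fun w _ => inv_win_prob_list _ _ (fun g => box_prob _ _))
  · exact inv_win_prob_prod _ _ (fun w _ => inv_win_prob_list _ _ (fun g => box_prob _ _))

/-- reflected pairs of laws -/
def inv_win_R (μ μ' : Law) : Prop := ∀ f : ℤ → ℂ, ev μ' f = ev μ fun n => f (-n)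

theorem inv_win_R_one : inv_win_R 1 1 := by
  intro f
  rw [ev_one, ev_one, neg_zero]

theorem inv_win_R_mul {μ μ' ν ν' : Law} (h : inv_win_R μ μ') (h' : inv_win_R ν ν') :
    inv_win_R (μ * ν) (μ' * ν') := by
  intro f
  rw [ev_mul, ev_mul, h]
  congr 1
  funext m
  rw [h']
  congr 1
  funext n
  congr 1
  ring

theorem inv_win_R_box (r : ℕ) (g : ℤ) : inv_win_R (box r g) (box r (-g)) := by
  intro f
  unfold box
  rw [ev_smul_law, ev_smul_law, ev_sum_law, ev_sum_law]
  congr 1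
  apply Finset.sum_congr rfl
  intro i _
  rw [ev_pt, ev_pt]
  congr 1
  ring

theorem inv_win_R_list (l : List ℤ) (r : ℕ) :
    inv_win_R ((l.map (box r)).prod) ((l.map fun g => box r (-g)).prod) := by
  induction l with
  | nil => simpa using inv_win_R_one
  | cons g l ih =>
    rw [List.map_cons, List.prod_cons, List.map_cons, List.prod_cons]
    exact inv_win_R_mul (inv_win_R_box r g) ih

theorem inv_win_R_prod (s : Finset ℕ) (β β' : ℕ → Law) (h : ∀ w, inv_win_R (β w) (β' w)) :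
    inv_win_R (∏ w ∈ s, β w) (∏ w ∈ s, β' w) := by
  classical
  induction s using Finset.induction_on with
  | empty => simpa using inv_win_R_one
  | insert a s ha ih =>
    rw [Finset.prod_insert ha, Finset.prod_insert ha]
    exact inv_win_R_mul (h a) ih

theorem hlf_refl (gen : ℕ → κ → List ℤ) (k : ℕ → ℕ) (ω : ℕ → ℕ × κ) (a b : ℕ) (f : ℤ → ℂ) :
    ev (hlf' gen k ω a b) f = ev (hlf gen k ω a b) fun n => f (-n) :=
  inv_win_R_prod _ _ _ (fun w => inv_win_R_list _ _) f

theorem inv_subP (gen : ℕ → κ → List ℤ) (m k : ℕ → ℕ) (hm : ∀ w x, (gen w x).length ≤ m w)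
    (ω : ℕ → ℕ × κ) (a b M : ℕ) (hb : b ≤ M) :
    Inv (subP gen k ω a b) (lawP gen ω 0 M) (∑ w ∈ Finset.Ico a b, 2 * (m w : ℝ) / 2 ^ k w) := by
  apply inv_win_sub (Finset.Ico a b) (Finset.Ico 0 M)
    (Finset.Ico_subset_Ico (Nat.zero_le a) hb)
  · intro w _
    have h1 := inv_win_list (gen w (ω w).2) (tri ((ω w).1 - k w)) (tri (ω w).1) (2 / 2 ^ k w)
      (fun g b hb => tri_shift _ _ _ _ hb) (fun g => (tri_pos _ _).prob)
    apply inv_win_mono h1
    have h2 : ((gen w (ω w).2).length : ℝ) ≤ m w := by exact_mod_cast hm w _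
    calc ((gen w (ω w).2).length : ℝ) * (2 / 2 ^ k w) ≤ (m w : ℝ) * (2 / 2 ^ k w) := by gcongr
      _ = 2 * (m w : ℝ) / 2 ^ k w := by ring
  · intro w _
    exact (win_pos gen w (ω w)).prob

theorem inv_hlf (gen : ℕ → κ → List ℤ) (m k : ℕ → ℕ) (hm : ∀ w x, (gen w x).length ≤ m w)
    (ω : ℕ → ℕ × κ) (a b M : ℕ) (hb : b ≤ M) :
    Inv (hlf gen k ω a b) (lawP gen ω 0 M) (∑ w ∈ Finset.Ico a b, 2 * (m w : ℝ) / 2 ^ k w) := by
  apply inv_win_sub (Finset.Ico a b) (Finset.Ico 0 M)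
    (Finset.Ico_subset_Ico (Nat.zero_le a) hb)
  · intro w _
    have h1 := inv_win_list (gen w (ω w).2) (box ((ω w).1 - k w)) (tri (ω w).1) (2 / 2 ^ k w)
      (fun g b hb => tri_shift_box _ _ _ _ hb) (fun g => (tri_pos _ _).prob)
    apply inv_win_mono h1
    have h2 : ((gen w (ω w).2).length : ℝ) ≤ m w := by exact_mod_cast hm w _
    calc ((gen w (ω w).2).length : ℝ) * (2 / 2 ^ k w) ≤ (m w : ℝ) * (2 / 2 ^ k w) := by gcongr
      _ = 2 * (m w : ℝ) / 2 ^ k w := by ring
  · intro w _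
    exact (win_pos gen w (ω w)).prob

end

end Pool.NilAvg
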