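import Pool.Agent.Helper986.NilAvg.Defs
import Pool.Agent.Helper986.NilAvg.ApiEv
import Pool.Agent.Helper986.NilAvg.ApiNrm
import Pool.Agent.Helper986.NilAvg.ApiHat
import Pool.Agent.Helper986.NilAvg.Inv

set_option autoImplicit false

namespace Pool.NilAvg

open Filter Topology
open scoped ComplexConjugate

noncomputable section

variable {κ : Type}



theorem near_ev_sub_law {E : Type*} [AddCommGroup E] [Module ℝ E] (μ ν : Law) (f : ℤ → E) :
    ev (μ - ν) f = ev μ f - ev ν f := by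
  have : μ - ν = μ + (-1:ℝ) • ν := by rw [neg_one_smul, sub_eq_add_neg]
  rw [this, ev_add_law, ev_smul_law, neg_one_smul, sub_eq_add_neg]

theorem near_ev_sub_fun {E : Type*} [AddCommGroup E] [Module ℝ E] (μ : Law) (f g : ℤ → E) :
    ev μ (fun n => f n - g n) = ev μ f - ev μ g := by
  have h := ev_add_fun μ (fun n => f n - g n) g
  simp only [sub_add_cancel] at h
  exact eq_sub_of_add_eq h.symm

theorem near_ev_const_mul (μ : Law) (c : ℝ) (f : ℤ → ℝ) :
    ev μ (fun n => c * f n) = c * ev μ f :=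
  (ev_map (LinearMap.mulLeft ℝ c) μ f).symm

theorem near_ev_mul_const (μ : Law) (c : ℂ) (f : ℤ → ℂ) :
    ev μ (fun n => f n * c) = ev μ f * c := by
  rw [mul_comm, ← ev_const_mul]
  congr 1
  funext n
  exact mul_comm _ _

theorem near_re (μ : Law) (f : ℤ → ℂ) : (ev μ f).re = ev μ (fun n => (f n).re) :=
  ev_map Complex.reLm μ f

theorem near_conj (μ : Law) (f : ℤ → ℂ) : conj (ev μ f) = ev μ (fun n => conj (f n)) :=
  ev_map Complex.conjAe.toLinearMap μ f

theorem near_shift {b : ℤ} {ν : Law} {δ : ℝ} (h : nrm (pt b * ν - ν) ≤ δ) (f : ℤ → ℝ) (C : ℝ)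
    (hC : ∀ n, |f n| ≤ C) : |ev ν (fun n => f (b + n)) - ev ν f| ≤ δ * C := by
  have hC0 : 0 ≤ C := (abs_nonneg _).trans (hC 0)
  have h1 := norm_ev_le (pt b * ν - ν) f C (fun n => by rw [Real.norm_eq_abs]; exact hC n)
  rw [near_ev_sub_law, ev_mul, ev_pt, Real.norm_eq_abs] at h1
  exact h1.trans (mul_le_mul_of_nonneg_right h hC0)

theorem near_refl_real {β β' : Law} (hrefl : ∀ f : ℤ → ℂ, ev β' f = ev β fun n => f (-n))
    (f : ℤ → ℝ) : ev β' f = ev β fun n => f (-n) := by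
  have h := hrefl (fun n => (f n : ℂ))
  rw [ev_ofReal, ev_ofReal β (fun n => f (-n))] at h
  exact_mod_cast h

theorem near_energy (β ν : Law) (g : ℤ → ℂ) :
    ev β (fun b => ev β (fun b' => ev ν (fun n => (g (n + b) * conj (g (n + b'))).re))) =
      ev ν (fun n => ‖av β g n‖ ^ 2) := by
  have h1 : ∀ n, ‖av β g n‖ ^ 2 =
      ev β (fun b => ev β (fun b' => (g (n + b) * conj (g (n + b'))).re)) := by
    intro n
    have h2 : ((‖av β g n‖ ^ 2 : ℝ) : ℂ) = av β g n * conj (av β g n) := by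
      rw [Complex.mul_conj, Complex.normSq_eq_norm_sq]
    have h3 : ‖av β g n‖ ^ 2 = (av β g n * conj (av β g n)).re := by
      rw [← h2, Complex.ofReal_re]
    rw [h3]
    unfold av
    rw [near_conj, ← near_ev_mul_const, near_re]
    congr 1
    funext b
    rw [← ev_const_mul, near_re]
  simp only [h1]
  rw [ev_comm ν β]
  congr 1
  funext b
  rw [ev_comm ν β]

theorem near_av {β β' : Law} (g : ℤ → ℂ) (n : ℤ) :
    av (β * β') g n = ev β' (fun k => av β g (n + k)) := by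
  unfold av
  rw [ev_mul, ev_comm β β']
  congr 1
  funext k
  congr 1
  funext m
  congr 1
  ring

theorem near_norm_ev_le_one {β : Law} (hβ : IsProb β) (f : ℤ → ℂ) (hf : ∀ n, ‖f n‖ ≤ 1) :
    ‖ev β f‖ ≤ 1 := by
  have h := norm_ev_le β f 1 hf
  rw [hβ.nrm_eq, one_mul] at h
  exact h

theorem near_point {β ν : Law} {δ : ℝ} (hδ : 0 ≤ δ) (hinv : Inv β ν δ)
    (g : ℤ → ℂ) (hg : ∀ n, ‖g n‖ ≤ 1) (b : ℤ) (hb : b ∈ β.coeff.support) (b' : ℤ)
    (hb' : b' ∈ β.coeff.support) :
    ev ν (fun n => ‖g (n + (b + -b')) - g n‖ ^ 2) ≤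
      (2 * ev ν (fun n => ‖g n‖ ^ 2) + 4 * δ) -
        2 * ev ν (fun n => (g (n + b) * conj (g (n + b'))).re) := by
  have hsq : ∀ n, |‖g n‖ ^ 2| ≤ 1 := by
    intro n
    rw [abs_of_nonneg (by positivity)]
    exact pow_le_one₀ (norm_nonneg _) (hg n)
  have e1 : ev ν (fun n => ‖g (n + (b + -b')) - g n‖ ^ 2) =
      ev ν (fun n => ‖g (n + (b + -b'))‖ ^ 2) + ev ν (fun n => ‖g n‖ ^ 2) -
        2 * ev ν (fun n => (g (n + (b + -b')) * conj (g n)).re) := by
    rw [← ev_add_fun, ← near_ev_const_mul, ← near_ev_sub_fun]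
    congr 1
    funext n
    rw [← Complex.normSq_eq_norm_sq, ← Complex.normSq_eq_norm_sq, ← Complex.normSq_eq_norm_sq,
      Complex.normSq_sub]
  have e2 : |ev ν (fun n => ‖g (n + (b + -b'))‖ ^ 2) - ev ν (fun n => ‖g (n + -b')‖ ^ 2)| ≤
      δ * 1 := by
    have h := near_shift (hinv b hb) (fun n => ‖g (n + -b')‖ ^ 2) 1 (fun n => hsq _)
    have h2 : (fun n => ‖g (n + (b + -b'))‖ ^ 2) = fun n => ‖g (b + n + -b')‖ ^ 2 := by
      funext n
      congr 3
      ring
    rw [h2]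
    exact h
  have e3 : |ev ν (fun n => ‖g (n + -b')‖ ^ 2) - ev ν (fun n => ‖g n‖ ^ 2)| ≤ δ * 1 := by
    have h := near_shift (hinv.neg_shift b' hb') (fun n => ‖g n‖ ^ 2) 1 hsq
    have h2 : (fun n => ‖g (n + -b')‖ ^ 2) = fun n => ‖g (-b' + n)‖ ^ 2 := by
      funext n
      congr 3
      ring
    rw [h2]
    exact h
  have e4 : |ev ν (fun n => (g (n + (b + -b')) * conj (g n)).re) -
      ev ν (fun n => (g (n + b) * conj (g (n + b'))).re)| ≤ δ * 1 := by
    have h := near_shift (hinv.neg_shift b' hb')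
      (fun n => (g (n + b) * conj (g (n + b'))).re) 1 (fun n => by
        refine (Complex.abs_re_le_norm _).trans ?_
        rw [norm_mul, RCLike.norm_conj]
        exact mul_le_one₀ (hg _) (norm_nonneg _) (hg _))
    have h2 : (fun n => (g (n + (b + -b')) * conj (g n)).re) =
        fun n => (g (-b' + n + b) * conj (g (-b' + n + b'))).re := by
      funext n
      have h3 : n + (b + -b') = -b' + n + b := by ring
      have h4 : -b' + n + b' = n := by ring
      rw [h3, h4]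
    rw [h2]
    exact h
  rw [e1]
  have f2 := abs_le.1 e2
  have f3 := abs_le.1 e3
  have f4 := abs_le.1 e4
  linarith [f2.1, f2.2, f3.1, f3.2, f4.1, f4.2]

/-- if averaging along `β * β'` does not change the energy much, the function is almost
invariant under its shifts -/
theorem near {β β' ν : Law} {δ : ℝ} (hβ : IsProb β) (hβ' : IsProb β') (hν : IsProb ν)
    (hrefl : ∀ f : ℤ → ℂ, ev β' f = ev β fun n => f (-n)) (hδ : 0 ≤ δ) (hinv : Inv β ν δ)
    (g : ℤ → ℂ) (hg : ∀ n, ‖g n‖ ≤ 1) :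
    ev (β * β') (fun u => ev ν fun n => ‖g (n + u) - g n‖ ^ 2) ≤
      2 * (ev ν (fun n => ‖g n‖ ^ 2) - ev ν (fun n => ‖av (β * β') g n‖ ^ 2)) + 10 * δ := by
  have hrr := near_refl_real hrefl
  -- the left side
  have h1 : ev (β * β') (fun u => ev ν fun n => ‖g (n + u) - g n‖ ^ 2) =
      ev β (fun b => ev β (fun b' => ev ν (fun n => ‖g (n + (b + -b')) - g n‖ ^ 2))) := by
    rw [ev_mul]
    congr 1
    funext b
    rw [hrr]
  have h2 : ev β (fun b => ev β (fun b' => ev ν (fun n => ‖g (n + (b + -b')) - g n‖ ^ 2))) ≤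
      ev β (fun b => ev β (fun b' => (2 * ev ν (fun n => ‖g n‖ ^ 2) + 4 * δ) -
        2 * ev ν (fun n => (g (n + b) * conj (g (n + b'))).re))) := by
    apply hβ.ev_mono
    intro b hb
    apply hβ.ev_mono
    intro b' hb'
    exact near_point hδ hinv g hg b hb b' hb'
  have h3 : ev β (fun b => ev β (fun b' => (2 * ev ν (fun n => ‖g n‖ ^ 2) + 4 * δ) -
        2 * ev ν (fun n => (g (n + b) * conj (g (n + b'))).re))) =
      (2 * ev ν (fun n => ‖g n‖ ^ 2) + 4 * δ) - 2 * ev ν (fun n => ‖av β g n‖ ^ 2) := by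
    have h4 : ∀ b, ev β (fun b' => (2 * ev ν (fun n => ‖g n‖ ^ 2) + 4 * δ) -
        2 * ev ν (fun n => (g (n + b) * conj (g (n + b'))).re)) =
        (2 * ev ν (fun n => ‖g n‖ ^ 2) + 4 * δ) -
        2 * ev β (fun b' => ev ν (fun n => (g (n + b) * conj (g (n + b'))).re)) := by
      intro b
      rw [near_ev_sub_fun, hβ.ev_const, near_ev_const_mul]
    simp only [h4]
    rw [near_ev_sub_fun, hβ.ev_const, near_ev_const_mul, near_energy]
  -- the energy of the average
  have h5 : ev ν (fun n => ‖av (β * β') g n‖ ^ 2) ≤ ev ν (fun n => ‖av β g n‖ ^ 2) + δ := by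
    have h6 : ev ν (fun n => ‖av (β * β') g n‖ ^ 2) ≤
        ev ν (fun n => ev β' (fun k => ‖av β g (n + k)‖ ^ 2)) := by
      apply hν.ev_mono
      intro n _
      rw [near_av]
      exact hβ'.sq_ev_le _
    have h7 : ev ν (fun n => ev β' (fun k => ‖av β g (n + k)‖ ^ 2)) =
        ev β (fun b => ev ν (fun n => ‖av β g (n + -b)‖ ^ 2)) := by
      rw [ev_comm ν β', hrr]
    have hav : ∀ n, ‖av β g n‖ ≤ 1 := fun n => near_norm_ev_le_one hβ _ (fun k => hg _)
    have h8 : ev β (fun b => ev ν (fun n => ‖av β g (n + -b)‖ ^ 2)) ≤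
        ev β (fun _ => ev ν (fun n => ‖av β g n‖ ^ 2) + δ) := by
      apply hβ.ev_mono
      intro b hb
      have h := near_shift (hinv.neg_shift b hb) (fun n => ‖av β g n‖ ^ 2) 1 (fun n => by
        rw [abs_of_nonneg (by positivity)]
        exact pow_le_one₀ (norm_nonneg _) (hav n))
      have h9 : (fun n => ‖av β g (n + -b)‖ ^ 2) = fun n => ‖av β g (-b + n)‖ ^ 2 := by
        funext n
        congr 3
        ring
      rw [h9]
      have h10 := (abs_le.1 h).2
      linarith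
    rw [hβ.ev_const] at h8
    rw [h7] at h6
    exact h6.trans h8
  rw [h1]
  rw [h3] at h2
  linarith

end

end Pool.NilAvg
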