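import Pool.Agent.Helper986.NilAvg.Defs
import Pool.Agent.Helper986.NilAvg.ApiEv
import Pool.Agent.Helper986.NilAvg.ApiNrm
import Pool.Agent.Helper986.NilAvg.ApiHat
import Pool.Agent.Helper986.NilAvg.TriPos
import Pool.Agent.Helper986.NilAvg.WinPos
import Pool.Agent.Helper986.NilAvg.Inv
import Pool.Agent.Helper986.NilAvg.InvWin
import Pool.Agent.Helper986.NilAvg.Near

set_option autoImplicit false

namespace Pool.NilAvg

open Filter Topology
open scoped ComplexConjugate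

noncomputable section

variable {κ : Type}


theorem energy_av_le {μ : Law} (h : IsProb μ) (f : ℤ → ℂ) (hf : ∀ n, ‖f n‖ ≤ 1) (n : ℤ) :
    ‖av μ f n‖ ≤ 1 := by
  have h1 := norm_ev_le μ (fun k => f (n + k)) 1 (fun k => hf _)
  rw [h.nrm_eq, one_mul] at h1
  exact h1

theorem energy_av_mul {E : Type*} [AddCommGroup E] [Module ℝ E] (μ ν : Law) (f : ℤ → E) :
    av (μ * ν) f = av μ (av ν f) := by
  funext n
  show ev (μ * ν) (fun k => f (n + k)) = ev μ fun k => ev ν fun l => f (n + k + l)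
  rw [ev_mul]
  congr 1
  funext a
  congr 1
  funext b
  rw [add_assoc]

theorem energy_subP_up (gen : ℕ → κ → List ℤ) (k : ℕ → ℕ) (ω : ℕ → ℕ × κ) (D D' : ℕ) :
    subP gen k (upP k ω D) D D' = lawP gen ω D D' := by
  unfold subP lawP
  apply Finset.prod_congr rfl
  intro w hw
  have h1 : D ≤ w := (Finset.mem_Ico.1 hw).1
  have h2 : upP k ω D w = ((ω w).1 + k w, (ω w).2) := by
    unfold upP
    rw [if_pos h1]
  rw [h2]
  simp

theorem energy_subP_low (gen : ℕ → κ → List ℤ) (k : ℕ → ℕ) (ω : ℕ → ℕ × κ) (j D₁ D : ℕ)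
    (h2 : D₁ ≤ D) : subP gen k (upP k ω D) j D₁ = subP gen k ω j D₁ := by
  unfold subP
  apply Finset.prod_congr rfl
  intro w hw
  have h1 : ¬ D ≤ w := by
    have := (Finset.mem_Ico.1 hw).2
    omega
  have h2 : upP k ω D w = ω w := by
    unfold upP
    rw [if_neg h1]
  rw [h2]

/-- energy of the averaged function at level `M` -/
def en (gen : ℕ → κ → List ℤ) (k : ℕ → ℕ) (f : ℤ → ℂ) (j D M : ℕ) (ω : ℕ → ℕ × κ) : ℝ :=
  ev (lawP gen ω 0 M) fun n => ‖av (subP gen k ω j D) f n‖ ^ 2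

theorem en_mem (gen : ℕ → κ → List ℤ) (k : ℕ → ℕ) (f : ℤ → ℂ) (hf1 : ∀ n, ‖f n‖ ≤ 1)
    (j D M : ℕ) (ω : ℕ → ℕ × κ) : 0 ≤ en gen k f j D M ω ∧ en gen k f j D M ω ≤ 1 := by
  have hp := (lawP_pos gen ω 0 M).prob
  have hs := (subP_pos gen k ω j D).prob
  unfold en
  constructor
  · have h0 := hp.ev_mono (f := fun _ => (0 : ℝ))
      (g := fun n => ‖av (subP gen k ω j D) f n‖ ^ 2) (fun n _ => sq_nonneg _)
    rw [hp.ev_const] at h0
    exact h0
  · have h0 := hp.ev_mono (g := fun _ => (1 : ℝ))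
      (f := fun n => ‖av (subP gen k ω j D) f n‖ ^ 2)
      (fun n _ => pow_le_one₀ (norm_nonneg _) (energy_av_le hs f hf1 n))
    rw [hp.ev_const] at h0
    exact h0

theorem en_up (gen : ℕ → κ → List ℤ) (m k : ℕ → ℕ) (hm : ∀ w x, (gen w x).length ≤ m w)
    (f : ℤ → ℂ) (hf1 : ∀ n, ‖f n‖ ≤ 1) (ω : ℕ → ℕ × κ) (j D₁ D D' M : ℕ) (h1 : j ≤ D₁)
    (h2 : D₁ ≤ D) (h3 : D ≤ D') (h4 : D' ≤ M) :
    ev (lawP gen ω D D') (fun u => ev (lawP gen (upP k ω D) 0 M) fun n =>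
        ‖av (subP gen k ω j D₁) f (n + u) - av (subP gen k ω j D₁) f n‖ ^ 2) ≤
      2 * (en gen k f j D₁ M (upP k ω D) - en gen k f j D' M (upP k ω D)) +
        12 * ∑ w ∈ Finset.Ico D₁ M, 2 * (m w : ℝ) / 2 ^ k w := by
  obtain ⟨O, hO⟩ : ∃ O, O = upP k ω D := ⟨_, rfl⟩
  have hup : subP gen k O D D' = lawP gen ω D D' := by rw [hO]; exact energy_subP_up gen k ω D D'
  have hlow : subP gen k O j D₁ = subP gen k ω j D₁ := by
    rw [hO]; exact energy_subP_low gen k ω j D₁ D h2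
  rw [← hO]
  have hν := (lawP_pos gen O 0 M).prob
  obtain ⟨g, hg⟩ : ∃ g, g = av (subP gen k O j D₁) f := ⟨_, rfl⟩
  have hg1 : ∀ n, ‖g n‖ ≤ 1 := by
    intro n
    rw [hg]
    exact energy_av_le (subP_pos gen k O j D₁).prob f hf1 n
  have hterm : ∀ w, 0 ≤ 2 * (m w : ℝ) / 2 ^ k w := fun w => by positivity
  have hnear := near (hlf_prob gen k O D D').1 (hlf_prob gen k O D D').2 hν
    (hlf_refl gen k O D D') (Finset.sum_nonneg fun w _ => hterm w)
    (inv_hlf gen m k hm O D D' M h4) g hg1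
  rw [← subP_eq, hup] at hnear
  rw [← hlow, ← hg]
  have hen1 : en gen k f j D₁ M O = ev (lawP gen O 0 M) fun n => ‖g n‖ ^ 2 := by
    unfold en
    rw [hg]
  obtain ⟨G, hG⟩ : ∃ G, G = av (lawP gen ω D D') g := ⟨_, rfl⟩
  have hG1 : ∀ n, ‖G n‖ ≤ 1 := by
    intro n
    rw [hG]
    exact energy_av_le (lawP_pos gen ω D D').prob g hg1 n
  have hen2 : en gen k f j D' M O = ev (lawP gen O 0 M) fun n =>
      ‖av (subP gen k O D₁ D) G n‖ ^ 2 := by
    unfold en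
    have e1 : subP gen k O j D' = subP gen k O D₁ D * (subP gen k O D D' * subP gen k O j D₁) := by
      rw [← subP_mul gen k O h1 (h2.trans h3), ← subP_mul gen k O h2 h3]
      ring
    rw [e1, energy_av_mul, energy_av_mul, ← hg, hup, ← hG]
  have hJ : en gen k f j D' M O ≤
      ev (lawP gen O 0 M) (av (subP gen k O D₁ D) (fun n => ‖G n‖ ^ 2)) := by
    rw [hen2]
    apply hν.ev_mono
    intro n _
    exact (subP_pos gen k O D₁ D).prob.sq_ev_le (fun l => G (n + l))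
  have hI := (inv_subP gen m k hm O D₁ D M (h3.trans h4)).ev (subP_pos gen k O D₁ D).prob
    (fun n => ‖G n‖ ^ 2) 1 (fun n => by
      rw [Real.norm_eq_abs, abs_of_nonneg (sq_nonneg _)]
      exact pow_le_one₀ (norm_nonneg _) (hG1 n))
  rw [Real.norm_eq_abs, mul_one] at hI
  have hI2 := (abs_le.1 hI).2
  have hsum : ∑ w ∈ Finset.Ico D₁ D, 2 * (m w : ℝ) / 2 ^ k w +
      ∑ w ∈ Finset.Ico D D', 2 * (m w : ℝ) / 2 ^ k w ≤
      ∑ w ∈ Finset.Ico D₁ M, 2 * (m w : ℝ) / 2 ^ k w := by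
    rw [Finset.sum_Ico_consecutive _ h2 h3]
    exact Finset.sum_le_sum_of_subset_of_nonneg (Finset.Ico_subset_Ico_right h4)
      (fun w _ _ => hterm w)
  have hs1 : 0 ≤ ∑ w ∈ Finset.Ico D₁ D, 2 * (m w : ℝ) / 2 ^ k w :=
    Finset.sum_nonneg fun w _ => hterm w
  have hs2 : 0 ≤ ∑ w ∈ Finset.Ico D D', 2 * (m w : ℝ) / 2 ^ k w :=
    Finset.sum_nonneg fun w _ => hterm w
  rw [← hG, ← hen1] at hnear
  linarith

end

end Pool.NilAvg
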