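import Pool.Agent.Helper986.NilAvg.Defs

set_option autoImplicit false

namespace Pool.NilAvg

open Filter Topology
open scoped ComplexConjugate

noncomputable section

variable {κ : Type}


/-- the first `M` coordinates of the path are admissible -/
def Ok (H : ℕ → ℕ) (S : ℕ → Finset κ) (M : ℕ) (ω : ℕ → ℕ × κ) : Prop :=
  ∀ w < M, 1 ≤ (ω w).1 ∧ (ω w).1 ≤ H w ∧ (ω w).2 ∈ S w

/-- auxiliary -/
theorem Ex_api_Ok_update (H : ℕ → ℕ) (S : ℕ → Finset κ) (M : ℕ) (ω : ℕ → ℕ × κ)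
    (hω : Ok H S M ω) (r : ℕ) (hr : r ∈ Finset.Icc 1 (H M)) (x : κ) (hx : x ∈ S M) :
    Ok H S (M + 1) (Function.update ω M (r, x)) := by
  intro w hw
  rw [Finset.mem_Icc] at hr
  rcases Nat.lt_succ_iff_lt_or_eq.mp hw with h | h
  · rw [Function.update_of_ne (Nat.ne_of_lt h)]
    exact hω w h
  · subst h
    rw [Function.update_self]
    exact ⟨hr.1, hr.2, hx⟩

theorem Ex_mono (H : ℕ → ℕ) (S : ℕ → Finset κ) (M : ℕ) {F G : (ℕ → ℕ × κ) → ℝ}
    (ω₀ : ℕ → ℕ × κ) (h : ∀ ω, Ok H S M ω → F ω ≤ G ω) : Ex H S M F ω₀ ≤ Ex H S M G ω₀ := by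
  induction M generalizing F G with
  | zero => exact h ω₀ (fun w hw => absurd hw (Nat.not_lt_zero w))
  | succ M ih =>
    show Ex H S M (avg H S M F) ω₀ ≤ Ex H S M (avg H S M G) ω₀
    refine ih (fun ω hω => ?_)
    unfold avg
    rw [smul_eq_mul, smul_eq_mul]
    refine mul_le_mul_of_nonneg_left ?_ (by positivity)
    refine Finset.sum_le_sum fun r hr => Finset.sum_le_sum fun x hx => ?_
    exact h _ (Ex_api_Ok_update H S M ω hω r hr x hx)

theorem Ex_add {E : Type*} [AddCommGroup E] [Module ℝ E] (H : ℕ → ℕ) (S : ℕ → Finset κ) (M : ℕ)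
    (F G : (ℕ → ℕ × κ) → E) (ω₀ : ℕ → ℕ × κ) :
    Ex H S M (fun ω => F ω + G ω) ω₀ = Ex H S M F ω₀ + Ex H S M G ω₀ := by
  induction M generalizing F G with
  | zero => rfl
  | succ M ih =>
    show Ex H S M (avg H S M (fun ω => F ω + G ω)) ω₀
      = Ex H S M (avg H S M F) ω₀ + Ex H S M (avg H S M G) ω₀
    rw [← ih]
    congr 1
    funext ω
    unfold avg
    simp only [Finset.sum_add_distrib, smul_add]

theorem Ex_smul {E : Type*} [AddCommGroup E] [Module ℝ E] (H : ℕ → ℕ) (S : ℕ → Finset κ)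
    (M : ℕ) (c : ℝ) (F : (ℕ → ℕ × κ) → E) (ω₀ : ℕ → ℕ × κ) :
    Ex H S M (fun ω => c • F ω) ω₀ = c • Ex H S M F ω₀ := by
  induction M generalizing F with
  | zero => rfl
  | succ M ih =>
    show Ex H S M (avg H S M (fun ω => c • F ω)) ω₀ = c • Ex H S M (avg H S M F) ω₀
    rw [← ih]
    congr 1
    funext ω
    unfold avg
    simp only [← Finset.smul_sum]
    rw [smul_comm]

theorem Ex_map {E E' : Type*} [AddCommGroup E] [Module ℝ E] [AddCommGroup E'] [Module ℝ E']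
    (L : E →ₗ[ℝ] E') (H : ℕ → ℕ) (S : ℕ → Finset κ) (M : ℕ)
    (F : (ℕ → ℕ × κ) → E) (ω₀ : ℕ → ℕ × κ) :
    L (Ex H S M F ω₀) = Ex H S M (fun ω => L (F ω)) ω₀ := by
  induction M generalizing F with
  | zero => rfl
  | succ M ih =>
    show L (Ex H S M (avg H S M F) ω₀) = Ex H S M (avg H S M (fun ω => L (F ω))) ω₀
    rw [ih]
    congr 1
    funext ω
    unfold avg
    simp only [map_smul, map_sum]

theorem Ex_const {E : Type*} [AddCommGroup E] [Module ℝ E] (H : ℕ → ℕ) (S : ℕ → Finset κ)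
    (hH : ∀ w, 1 ≤ H w) (hS : ∀ w, (S w).Nonempty) (M : ℕ) (c : E) (ω₀ : ℕ → ℕ × κ) :
    Ex H S M (fun _ => c) ω₀ = c := by
  induction M with
  | zero => rfl
  | succ M ih =>
    show Ex H S M (avg H S M (fun _ => c)) ω₀ = c
    have h1 : avg H S M (fun _ : ℕ → ℕ × κ => c) = fun _ => c := by
      funext ω
      unfold avg
      simp only [Finset.sum_const, Nat.card_Icc, Nat.add_sub_cancel]
      rw [← Nat.cast_smul_eq_nsmul ℝ, ← Nat.cast_smul_eq_nsmul ℝ, smul_smul, smul_smul,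
        mul_assoc, inv_mul_cancel₀, one_smul]
      have h2 : (0 : ℝ) < H M := by exact_mod_cast hH M
      have h3 : (0 : ℝ) < (S M).card := by exact_mod_cast (hS M).card_pos
      positivity
    rw [h1, ih]

theorem norm_Ex_le {E : Type*} [SeminormedAddCommGroup E] [NormedSpace ℝ E] (H : ℕ → ℕ)
    (S : ℕ → Finset κ) (M : ℕ) (F : (ℕ → ℕ × κ) → E) (ω₀ : ℕ → ℕ × κ) :
    ‖Ex H S M F ω₀‖ ≤ Ex H S M (fun ω => ‖F ω‖) ω₀ := by
  induction M generalizing F with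
  | zero => exact le_rfl
  | succ M ih =>
    show ‖Ex H S M (avg H S M F) ω₀‖ ≤ Ex H S M (avg H S M (fun ω => ‖F ω‖)) ω₀
    refine (ih _).trans (Ex_mono H S M ω₀ fun ω _ => ?_)
    unfold avg
    rw [norm_smul, smul_eq_mul, Real.norm_of_nonneg (by positivity)]
    refine mul_le_mul_of_nonneg_left ?_ (by positivity)
    refine (norm_sum_le _ _).trans (Finset.sum_le_sum fun r _ => ?_)
    exact norm_sum_le _ _

theorem Ex_sq_le (H : ℕ → ℕ) (S : ℕ → Finset κ) (hH : ∀ w, 1 ≤ H w) (hS : ∀ w, (S w).Nonempty)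
    (M : ℕ) (F : (ℕ → ℕ × κ) → ℝ) (ω₀ : ℕ → ℕ × κ) :
    (Ex H S M F ω₀) ^ 2 ≤ Ex H S M (fun ω => F ω ^ 2) ω₀ := by
  induction M generalizing F with
  | zero => exact le_rfl
  | succ M ih =>
    show (Ex H S M (avg H S M F) ω₀) ^ 2 ≤ Ex H S M (avg H S M (fun ω => F ω ^ 2)) ω₀
    refine (ih _).trans (Ex_mono H S M ω₀ fun ω _ => ?_)
    unfold avg
    rw [smul_eq_mul, smul_eq_mul, ← Finset.sum_product', ← Finset.sum_product']
    have h2 : (0 : ℝ) < H M := by exact_mod_cast hH M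
    have h3 : (0 : ℝ) < (S M).card := by exact_mod_cast (hS M).card_pos
    have h4 : (0 : ℝ) < (H M : ℝ) * (S M).card := by positivity
    have h5 := sq_sum_le_card_mul_sum_sq (s := Finset.Icc 1 (H M) ×ˢ S M)
      (f := fun p : ℕ × κ => F (Function.update ω M (p.1, p.2)))
    have h6 : (((Finset.Icc 1 (H M) ×ˢ S M).card : ℕ) : ℝ) = (H M : ℝ) * (S M).card := by
      rw [Finset.card_product, Nat.card_Icc, Nat.add_sub_cancel]
      push_cast
      rfl
    rw [h6] at h5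
    rw [mul_pow, inv_pow]
    calc (((H M : ℝ) * (S M).card) ^ 2)⁻¹ *
          (∑ x ∈ Finset.Icc 1 (H M) ×ˢ S M, F (Function.update ω M (x.1, x.2))) ^ 2
        ≤ (((H M : ℝ) * (S M).card) ^ 2)⁻¹ * ((H M : ℝ) * (S M).card *
          ∑ x ∈ Finset.Icc 1 (H M) ×ˢ S M, F (Function.update ω M (x.1, x.2)) ^ 2) :=
          mul_le_mul_of_nonneg_left h5 (by positivity)
      _ = ((H M : ℝ) * (S M).card)⁻¹ *
          ∑ x ∈ Finset.Icc 1 (H M) ×ˢ S M, F (Function.update ω M (x.1, x.2)) ^ 2 := by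
          field_simp

end

end Pool.NilAvg
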