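import Pool.Agent.Helper986.NilAvg.Defs
import Pool.Agent.Helper986.NilAvg.ExApi

set_option autoImplicit false

namespace Pool.NilAvg

open Filter Topology
open scoped ComplexConjugate

noncomputable section

variable {κ : Type}


theorem Ex_prod_succ {E : Type*} [AddCommGroup E] [Module ℝ E] (H : ℕ → ℕ) (S : ℕ → Finset κ)
    (M : ℕ) (F : (ℕ → ℕ × κ) → E) (ω : ℕ → ℕ × κ) :
    Ex H S (M + 1) F ω = Ex H S M (avg H S M F) ω := rfl

/-- expectation of a product of functions of separate coordinates -/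
theorem Ex_prod {A : Type*} [CommRing A] [Algebra ℝ A] (H : ℕ → ℕ) (S : ℕ → Finset κ) (M : ℕ)
    (φ : ℕ → ℕ × κ → A) (ω₀ : ℕ → ℕ × κ) :
    Ex H S M (fun ω => ∏ w ∈ Finset.range M, φ w (ω w)) ω₀ =
      ∏ w ∈ Finset.range M, ((H w : ℝ) * (S w).card)⁻¹ •
        ∑ r ∈ Finset.Icc 1 (H w), ∑ x ∈ S w, φ w (r, x) := by
  induction M with
  | zero => simp [Ex]
  | succ M ih =>
    rw [Ex_prod_succ, Finset.prod_range_succ, ← ih]
    have h1 : avg H S M (fun ω => ∏ w ∈ Finset.range (M + 1), φ w (ω w)) =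
        fun ω => LinearMap.mulRight ℝ (((H M : ℝ) * (S M).card)⁻¹ •
          ∑ r ∈ Finset.Icc 1 (H M), ∑ x ∈ S M, φ M (r, x))
            (∏ w ∈ Finset.range M, φ w (ω w)) := by
      funext ω
      unfold avg
      rw [LinearMap.mulRight_apply, mul_smul_comm, Finset.mul_sum]
      congr 1
      refine Finset.sum_congr rfl fun r _ => ?_
      rw [Finset.mul_sum]
      refine Finset.sum_congr rfl fun x _ => ?_
      show (∏ w ∈ Finset.range (M + 1), φ w (Function.update ω M (r, x) w)) = _
      rw [Finset.prod_range_succ, Function.update_self]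
      congr 1
      refine Finset.prod_congr rfl fun w hw => ?_
      rw [Function.update_of_ne]
      have := Finset.mem_range.1 hw
      omega
    rw [h1, ← Ex_map, LinearMap.mulRight_apply]

/-- functions of the first `D` coordinates -/
theorem Ex_of_dep {E : Type*} [AddCommGroup E] [Module ℝ E] (H : ℕ → ℕ) (S : ℕ → Finset κ)
    (hH : ∀ w, 1 ≤ H w) (hS : ∀ w, (S w).Nonempty) (D M : ℕ) (h : D ≤ M)
    (F : (ℕ → ℕ × κ) → E) (hF : ∀ ω ω', (∀ w < D, ω w = ω' w) → F ω = F ω')
    (ω₀ : ℕ → ℕ × κ) : Ex H S M F ω₀ = Ex H S D F ω₀ := by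
  induction M, h using Nat.le_induction with
  | base => rfl
  | succ M hM ih =>
    rw [Ex_prod_succ, ← ih]
    congr 1
    funext ω
    unfold avg
    have h1 : ∀ r x, F (Function.update ω M (r, x)) = F ω := by
      intro r x
      apply hF
      intro w hw
      rw [Function.update_of_ne]
      omega
    simp only [h1, Finset.sum_const, Nat.card_Icc, Nat.add_sub_cancel]
    rw [← Nat.cast_smul_eq_nsmul ℝ, ← Nat.cast_smul_eq_nsmul ℝ, smul_smul, smul_smul]
    have h2 : (H M : ℝ) ≠ 0 := by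
      have := hH M
      positivity
    have h3 : ((S M).card : ℝ) ≠ 0 := by
      have := (hS M).card_pos
      positivity
    have h4 : ((H M : ℝ) * ((S M).card : ℝ))⁻¹ * (H M : ℝ) * ((S M).card : ℝ) = 1 := by
      field_simp
    rw [h4, one_smul]

end

end Pool.NilAvg
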