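import Pool.Agent.Helper986.NilAvg.Defs
import Pool.Agent.Helper986.NilAvg.ExApi
import Pool.Agent.Helper986.NilAvg.Energy

set_option autoImplicit false

namespace Pool.NilAvg

open Filter Topology
open scoped ComplexConjugate

noncomputable section

variable {κ : Type}


theorem pigeon (gen : ℕ → κ → List ℤ) (H k : ℕ → ℕ) (S : ℕ → Finset κ) (hH : ∀ w, 1 ≤ H w)
    (hS : ∀ w, (S w).Nonempty) (f : ℤ → ℂ) (hf1 : ∀ n, ‖f n‖ ≤ 1) (ω₀ : ℕ → ℕ × κ)
    (j D₀ : ℕ) (ε : ℝ) (hε : 0 < ε) :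
    ∃ D₁ ≥ D₀, ∀ D' ≥ D₁, ∃ᶠ M in atTop,
      Ex H S M (en gen k f j D₁ M) ω₀ - Ex H S M (en gen k f j D' M) ω₀ ≤ ε := by
  by_contra hcon
  push Not at hcon
  have h0 : ∀ D M, 0 ≤ Ex H S M (en gen k f j D M) ω₀ := by
    intro D M
    have h1 := Ex_mono H S M (F := fun _ => (0 : ℝ)) (G := en gen k f j D M) ω₀
      (fun ω _ => (en_mem gen k f hf1 j D M ω).1)
    rwa [Ex_const H S hH hS M (0 : ℝ) ω₀] at h1
  have h1 : ∀ D M, Ex H S M (en gen k f j D M) ω₀ ≤ 1 := by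
    intro D M
    have h1 := Ex_mono H S M (F := en gen k f j D M) (G := fun _ => (1 : ℝ)) ω₀
      (fun ω _ => (en_mem gen k f hf1 j D M ω).2)
    rwa [Ex_const H S hH hS M (1 : ℝ) ω₀] at h1
  have hcon' : ∀ D₁, ∃ D', D₀ ≤ D₁ → (D₁ ≤ D' ∧ ∀ᶠ M in atTop,
      ε < Ex H S M (en gen k f j D₁ M) ω₀ - Ex H S M (en gen k f j D' M) ω₀) := by
    intro D₁
    by_cases h : D₀ ≤ D₁
    · obtain ⟨D', hD', hM⟩ := hcon D₁ h
      exact ⟨D', fun _ => ⟨hD', hM⟩⟩
    · exact ⟨0, fun h' => absurd h' h⟩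
  choose nx hnx using hcon'
  have hE : ∀ i, D₀ ≤ nx^[i] D₀ := by
    intro i
    induction i with
    | zero => exact le_rfl
    | succ i ih =>
      rw [Function.iterate_succ_apply']
      exact ih.trans (hnx _ ih).1
  obtain ⟨n, hn⟩ := exists_nat_gt (1 / ε)
  have hn1 : 1 < n * ε := by rwa [div_lt_iff₀ hε] at hn
  have hev : ∀ᶠ M in atTop, ∀ i ∈ Finset.range n,
      ε < Ex H S M (en gen k f j (nx^[i] D₀) M) ω₀ -
        Ex H S M (en gen k f j (nx^[i + 1] D₀) M) ω₀ := by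
    rw [Filter.eventually_all_finset]
    intro i _
    have h2 := (hnx _ (hE i)).2
    rw [Function.iterate_succ_apply']
    exact h2
  obtain ⟨M, hM⟩ := hev.exists
  have htel : ∀ m, m ≤ n → m * ε ≤ Ex H S M (en gen k f j (nx^[0] D₀) M) ω₀ -
      Ex H S M (en gen k f j (nx^[m] D₀) M) ω₀ := by
    intro m
    induction m with
    | zero => intro _; simp
    | succ m ih =>
      intro hm
      have h2 := ih (by omega)
      have h3 := hM m (Finset.mem_range.2 (by omega))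
      push_cast
      linarith
  have h2 := htel n le_rfl
  have h3 := h0 (nx^[n] D₀) M
  have h4 := h1 (nx^[0] D₀) M
  linarith

end

end Pool.NilAvg
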