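import Pool.Agent.Helper986.NilAvg.Defs
import Pool.Agent.Helper986.NilAvg.ApiEv
import Pool.Agent.Helper986.NilAvg.ApiNrm
import Pool.Agent.Helper986.NilAvg.ApiHat
import Pool.Agent.Helper986.NilAvg.TriPos
import Pool.Agent.Helper986.NilAvg.WinPos
import Pool.Agent.Helper986.NilAvg.ExApi
import Pool.Agent.Helper986.NilAvg.ExProd

set_option autoImplicit false

namespace Pool.NilAvg

open Filter Topology
open scoped ComplexConjugate

noncomputable section

variable {κ : Type}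


theorem freq_hatprod (s : Finset ℕ) (μ : ℕ → Law) (hμ : ∀ w, Pos (μ w)) (z : ℝ) :
    (hat (∏ w ∈ s, μ w) z).re = ∏ w ∈ s, (hat (μ w) z).re := by
  classical
  induction s using Finset.induction_on with
  | empty => simp [hat_one]
  | insert a s ha ih =>
    rw [Finset.prod_insert ha, Finset.prod_insert ha, hat_mul, Complex.mul_re, (hμ a).im z, ih]
    ring

theorem freq_tel1 (v : ℕ → ℝ) (h0 : ∀ r, 0 ≤ v r) (h1 : ∀ r, v r ≤ 1) (H : ℕ) :
    ∑ r ∈ Finset.Icc 1 H, v (r + 1) ≤ ∑ r ∈ Finset.Icc 1 H, v r + 1 := by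
  have h : ∀ H : ℕ, ∑ r ∈ Finset.Icc 1 H, v (r + 1) = ∑ r ∈ Finset.Icc 1 H, v r
      + v (H + 1) - v 1 := by
    intro H
    induction H with
    | zero => simp
    | succ n ih =>
      rw [Finset.sum_Icc_succ_top (by omega), Finset.sum_Icc_succ_top (by omega), ih]
      ring
  rw [h]
  linarith [h0 1, h1 (H + 1)]

theorem freq_tel2 (v : ℕ → ℝ) (h0 : ∀ r, 0 ≤ v r) (h1 : ∀ r, v r ≤ 1) (H : ℕ) :
    ∑ r ∈ Finset.Icc 1 H, v r - 1 ≤ ∑ r ∈ Finset.Icc 1 H, v (r - 1) := by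
  have h : ∀ H : ℕ, ∑ r ∈ Finset.Icc 1 H, v (r - 1) = ∑ r ∈ Finset.Icc 1 H, v r
      + v 0 - v H := by
    intro H
    induction H with
    | zero => simp
    | succ n ih =>
      rw [Finset.sum_Icc_succ_top (by omega), Finset.sum_Icc_succ_top (by omega), ih,
        Nat.add_sub_cancel]
      ring
  rw [h]
  linarith [h0 0, h1 H]

theorem freq_shift1 (v : ℕ → ℝ) (h0 : ∀ r, 0 ≤ v r) (h1 : ∀ r, v r ≤ 1) (H k : ℕ) :
    ∑ r ∈ Finset.Icc 1 H, v (r + k) ≤ ∑ r ∈ Finset.Icc 1 H, v r + k := by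
  induction k with
  | zero => simp
  | succ k ih =>
    have h := freq_tel1 (fun r => v (r + k)) (fun r => h0 _) (fun r => h1 _) H
    have e : ∀ r : ℕ, r + (k + 1) = r + 1 + k := fun r => by ring
    simp only [e]
    push_cast
    linarith

theorem freq_shift2 (v : ℕ → ℝ) (h0 : ∀ r, 0 ≤ v r) (h1 : ∀ r, v r ≤ 1) (H k : ℕ) :
    ∑ r ∈ Finset.Icc 1 H, v r - k ≤ ∑ r ∈ Finset.Icc 1 H, v (r - k) := by
  induction k with
  | zero => simp
  | succ k ih =>
    have h := freq_tel2 (fun r => v (r - k)) (fun r => h0 _) (fun r => h1 _) H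
    have e : ∀ r : ℕ, r - (k + 1) = r - 1 - k := fun r => by omega
    simp only [e]
    push_cast
    linarith

theorem freq_one_sub (s : Finset ℕ) (B : ℕ → ℝ) (h0 : ∀ w, 0 ≤ B w) (h1 : ∀ w, B w ≤ 1) :
    1 - ∏ w ∈ s, (1 - B w) ≤ ∑ w ∈ s, B w := by
  classical
  induction s using Finset.induction_on with
  | empty => simp
  | insert a s ha ih =>
    rw [Finset.prod_insert ha, Finset.sum_insert ha]
    have hp1 : ∏ w ∈ s, (1 - B w) ≤ 1 :=
      Finset.prod_le_one (fun w _ => by linarith [h1 w]) (fun w _ => by linarith [h0 w])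
    nlinarith [h0 a]

theorem freq_exp (s : Finset ℕ) (B : ℕ → ℝ) (h1 : ∀ w, B w ≤ 1) :
    ∏ w ∈ s, (1 - B w) ≤ Real.exp (-∑ w ∈ s, B w) := by
  rw [← Finset.sum_neg_distrib, Real.exp_sum]
  apply Finset.prod_le_prod (fun w _ => by linarith [h1 w])
  intro w _
  have := Real.add_one_le_exp (-B w)
  linarith

/-- average over the parameter of one minus the Fourier transform -/
def freq_U (gen : ℕ → κ → List ℤ) (S : ℕ → Finset κ) (z : ℝ) (w r : ℕ) : ℝ :=
  ((S w).card : ℝ)⁻¹ * ∑ x ∈ S w, (1 - (hat (win gen w (r, x)) z).re)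

theorem freq_U_nonneg (gen : ℕ → κ → List ℤ) (S : ℕ → Finset κ) (z : ℝ) (w r : ℕ) :
    0 ≤ freq_U gen S z w r := by
  unfold freq_U
  apply mul_nonneg (by positivity)
  apply Finset.sum_nonneg
  intro x _
  linarith [(win_pos gen w (r, x)).le_one z]

theorem freq_U_le (gen : ℕ → κ → List ℤ) (S : ℕ → Finset κ) (hS : ∀ w, (S w).Nonempty) (z : ℝ)
    (w r : ℕ) : freq_U gen S z w r ≤ 1 := by
  unfold freq_U
  have hc : (0:ℝ) < (S w).card := by exact_mod_cast (hS w).card_pos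
  have h : ∑ x ∈ S w, (1 - (hat (win gen w (r, x)) z).re) ≤ ∑ _x ∈ S w, (1:ℝ) :=
    Finset.sum_le_sum fun x _ => by linarith [(win_pos gen w (r, x)).re z]
  rw [Finset.sum_const, nsmul_eq_mul, mul_one] at h
  calc ((S w).card : ℝ)⁻¹ * ∑ x ∈ S w, (1 - (hat (win gen w (r, x)) z).re)
      ≤ ((S w).card : ℝ)⁻¹ * (S w).card := mul_le_mul_of_nonneg_left h (by positivity)
    _ = 1 := inv_mul_cancel₀ hc.ne'

theorem freq_avg (gen : ℕ → κ → List ℤ) (H : ℕ → ℕ) (S : ℕ → Finset κ) (hH : ∀ w, 1 ≤ H w)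
    (hS : ∀ w, (S w).Nonempty) (z : ℝ) (w : ℕ) (σ : ℕ → ℕ) :
    ((H w : ℝ) * (S w).card)⁻¹ • ∑ r ∈ Finset.Icc 1 (H w), ∑ x ∈ S w,
      (hat (win gen w (σ r, x)) z).re =
      1 - (H w : ℝ)⁻¹ * ∑ r ∈ Finset.Icc 1 (H w), freq_U gen S z w (σ r) := by
  have hc : (0:ℝ) < (S w).card := by exact_mod_cast (hS w).card_pos
  have hHw : (0:ℝ) < H w := by exact_mod_cast hH w
  have h1 : ∀ r, ∑ x ∈ S w, (hat (win gen w (σ r, x)) z).re =
      (S w).card - (S w).card * freq_U gen S z w (σ r) := by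
    intro r
    unfold freq_U
    rw [Finset.sum_sub_distrib, Finset.sum_const, nsmul_eq_mul, mul_one]
    field_simp
    ring
  simp only [h1]
  rw [Finset.sum_sub_distrib, Finset.sum_const, ← Finset.mul_sum, Nat.card_Icc, smul_eq_mul,
    nsmul_eq_mul, Nat.add_sub_cancel]
  field_simp

theorem freq_avg_one (H : ℕ → ℕ) (S : ℕ → Finset κ) (hH : ∀ w, 1 ≤ H w)
    (hS : ∀ w, (S w).Nonempty) (w : ℕ) :
    ((H w : ℝ) * (S w).card)⁻¹ • ∑ _r ∈ Finset.Icc 1 (H w), ∑ _x ∈ S w, (1:ℝ) = 1 := by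
  have hc : (0:ℝ) < (S w).card := by exact_mod_cast (hS w).card_pos
  have hHw : (0:ℝ) < H w := by exact_mod_cast hH w
  rw [Finset.sum_const, Finset.sum_const, Nat.card_Icc, smul_eq_mul, nsmul_eq_mul, nsmul_eq_mul,
    Nat.add_sub_cancel]
  field_simp

theorem freq_ico (M j D : ℕ) (hDM : D ≤ M) (f : ℕ → ℝ) :
    ∏ w ∈ Finset.range M, (if j ≤ w ∧ w < D then f w else 1) = ∏ w ∈ Finset.Ico j D, f w := by
  rw [← Finset.prod_filter]
  congr 1
  ext w
  simp only [Finset.mem_filter, Finset.mem_range, Finset.mem_Ico]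
  omega

/-- a fixed frequency is either killed early or does not see the tail -/
theorem freq (gen : ℕ → κ → List ℤ) (H k : ℕ → ℕ) (S : ℕ → Finset κ) (hH : ∀ w, 1 ≤ H w)
    (hS : ∀ w, (S w).Nonempty) (h2 : Summable fun w => (k w : ℝ) / H w)
    (ω₀ : ℕ → ℕ × κ) (j : ℕ) (z ε : ℝ) (hε : 0 < ε) :
    ∃ D₂, ∀ D ≥ D₂, ∀ M ≥ D, Ex H S M (fun ω => (hat (subP gen k ω j D) z).re *
      (1 - (hat (lawP gen (upP k ω D) D M) z).re)) ω₀ ≤ ε := by
  classical
  -- averages
  set A : ℕ → ℝ := fun w => (H w : ℝ)⁻¹ * ∑ r ∈ Finset.Icc 1 (H w), freq_U gen S z w r with hA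
  set A' : ℕ → ℝ := fun w => (H w : ℝ)⁻¹ * ∑ r ∈ Finset.Icc 1 (H w),
    freq_U gen S z w (r - k w) with hA'
  set B : ℕ → ℝ := fun w => (H w : ℝ)⁻¹ * ∑ r ∈ Finset.Icc 1 (H w),
    freq_U gen S z w (r + k w) with hB
  have hHr : ∀ w, (0:ℝ) < H w := fun w => by exact_mod_cast hH w
  have hbd : ∀ (w : ℕ) (σ : ℕ → ℕ), 0 ≤ (H w : ℝ)⁻¹ * ∑ r ∈ Finset.Icc 1 (H w),
      freq_U gen S z w (σ r) ∧ (H w : ℝ)⁻¹ * ∑ r ∈ Finset.Icc 1 (H w),
      freq_U gen S z w (σ r) ≤ 1 := by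
    intro w σ
    have hp := hHr w
    constructor
    · exact mul_nonneg (by positivity) (Finset.sum_nonneg fun r _ => freq_U_nonneg _ _ _ _ _)
    · have h : ∑ r ∈ Finset.Icc 1 (H w), freq_U gen S z w (σ r) ≤
          ∑ _r ∈ Finset.Icc 1 (H w), (1:ℝ) :=
        Finset.sum_le_sum fun r _ => freq_U_le gen S hS z w _
      rw [Finset.sum_const, Nat.card_Icc, nsmul_eq_mul, mul_one, Nat.add_sub_cancel] at h
      calc (H w : ℝ)⁻¹ * ∑ r ∈ Finset.Icc 1 (H w), freq_U gen S z w (σ r)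
          ≤ (H w : ℝ)⁻¹ * H w := mul_le_mul_of_nonneg_left h (by positivity)
        _ = 1 := inv_mul_cancel₀ hp.ne'
  have hA0 : ∀ w, 0 ≤ A w := fun w => (hbd w id).1
  have hA'0 : ∀ w, 0 ≤ A' w := fun w => (hbd w (fun r => r - k w)).1
  have hA'1 : ∀ w, A' w ≤ 1 := fun w => (hbd w (fun r => r - k w)).2
  have hB0 : ∀ w, 0 ≤ B w := fun w => (hbd w (fun r => r + k w)).1
  have hB1 : ∀ w, B w ≤ 1 := fun w => (hbd w (fun r => r + k w)).2
  have hAA' : ∀ w, A w - (k w : ℝ) / H w ≤ A' w := by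
    intro w
    have h := freq_shift2 (freq_U gen S z w) (freq_U_nonneg gen S z w) (freq_U_le gen S hS z w)
      (H w) (k w)
    have h3 := mul_le_mul_of_nonneg_left h (inv_nonneg.2 (hHr w).le)
    rw [mul_sub] at h3
    simp only [hA, hA', div_eq_inv_mul]
    exact h3
  have hBA : ∀ w, B w ≤ A w + (k w : ℝ) / H w := by
    intro w
    have h := freq_shift1 (freq_U gen S z w) (freq_U_nonneg gen S z w) (freq_U_le gen S hS z w)
      (H w) (k w)
    have h3 := mul_le_mul_of_nonneg_left h (inv_nonneg.2 (hHr w).le)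
    rw [mul_add] at h3
    simp only [hA, hB, div_eq_inv_mul]
    exact h3
  -- the expectation
  have hEx : ∀ D M, j ≤ D → D ≤ M → Ex H S M (fun ω => (hat (subP gen k ω j D) z).re *
      (1 - (hat (lawP gen (upP k ω D) D M) z).re)) ω₀ =
      (∏ w ∈ Finset.Ico j D, (1 - A' w)) * (1 - ∏ w ∈ Finset.Ico D M, (1 - B w)) := by
    intro D M hjD hDM
    have hP : ∀ ω : ℕ → ℕ × κ, (hat (subP gen k ω j D) z).re =
        ∏ w ∈ Finset.range M, (if j ≤ w ∧ w < D then
          (hat (win gen w ((ω w).1 - k w, (ω w).2)) z).re else 1) := by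
      intro ω
      rw [freq_ico M j D hDM (fun w => (hat (win gen w ((ω w).1 - k w, (ω w).2)) z).re)]
      exact freq_hatprod _ _ (fun w => win_pos gen w _) z
    have hQ : ∀ ω : ℕ → ℕ × κ, (hat (lawP gen (upP k ω D) D M) z).re =
        ∏ w ∈ Finset.range M, (if D ≤ w ∧ w < M then
          (hat (win gen w ((ω w).1 + k w, (ω w).2)) z).re else 1) := by
      intro ω
      rw [freq_ico M D M le_rfl (fun w => (hat (win gen w ((ω w).1 + k w, (ω w).2)) z).re)]
      unfold lawP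
      rw [freq_hatprod _ _ (fun w => win_pos gen w _) z]
      apply Finset.prod_congr rfl
      intro w hw
      rw [Finset.mem_Ico] at hw
      simp only [upP, if_pos hw.1]
    have hF : (fun ω : ℕ → ℕ × κ => (hat (subP gen k ω j D) z).re *
        (1 - (hat (lawP gen (upP k ω D) D M) z).re)) =
        fun ω => (∏ w ∈ Finset.range M, (if j ≤ w ∧ w < D then
          (hat (win gen w ((ω w).1 - k w, (ω w).2)) z).re else 1)) + (-1 : ℝ) •
          (∏ w ∈ Finset.range M, ((if j ≤ w ∧ w < D then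
          (hat (win gen w ((ω w).1 - k w, (ω w).2)) z).re else 1) * (if D ≤ w ∧ w < M then
          (hat (win gen w ((ω w).1 + k w, (ω w).2)) z).re else 1))) := by
      funext ω
      rw [hP, hQ]
      simp only [Finset.prod_mul_distrib, smul_eq_mul]
      ring
    have e1 : ∏ w ∈ Finset.range M, ((H w : ℝ) * (S w).card)⁻¹ •
        ∑ r ∈ Finset.Icc 1 (H w), ∑ x ∈ S w, (if j ≤ w ∧ w < D then
          (hat (win gen w ((r, x).1 - k w, (r, x).2)) z).re else 1) =
        ∏ w ∈ Finset.Ico j D, (1 - A' w) := by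
      rw [← freq_ico M j D hDM (fun w => 1 - A' w)]
      apply Finset.prod_congr rfl
      intro w _
      split_ifs with h
      · exact freq_avg gen H S hH hS z w (fun r => r - k w)
      · exact freq_avg_one H S hH hS w
    have e2 : ∏ w ∈ Finset.range M, ((H w : ℝ) * (S w).card)⁻¹ •
        ∑ r ∈ Finset.Icc 1 (H w), ∑ x ∈ S w, ((if j ≤ w ∧ w < D then
          (hat (win gen w ((r, x).1 - k w, (r, x).2)) z).re else 1) * (if D ≤ w ∧ w < M then
          (hat (win gen w ((r, x).1 + k w, (r, x).2)) z).re else 1)) =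
        (∏ w ∈ Finset.Ico j D, (1 - A' w)) * ∏ w ∈ Finset.Ico D M, (1 - B w) := by
      rw [← freq_ico M j D hDM (fun w => 1 - A' w), ← freq_ico M D M le_rfl (fun w => 1 - B w),
        ← Finset.prod_mul_distrib]
      apply Finset.prod_congr rfl
      intro w _
      by_cases h1 : j ≤ w ∧ w < D
      · have h3 : ¬ (D ≤ w ∧ w < M) := by omega
        simp only [if_pos h1, if_neg h3, mul_one]
        exact freq_avg gen H S hH hS z w (fun r => r - k w)
      · by_cases h3 : D ≤ w ∧ w < M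
        · simp only [if_neg h1, if_pos h3, one_mul]
          exact freq_avg gen H S hH hS z w (fun r => r + k w)
        · simp only [if_neg h1, if_neg h3, one_mul]
          exact freq_avg_one H S hH hS w
    have x1 : Ex H S M (fun ω => ∏ w ∈ Finset.range M, (if j ≤ w ∧ w < D then
          (hat (win gen w ((ω w).1 - k w, (ω w).2)) z).re else 1)) ω₀ =
          ∏ w ∈ Finset.Ico j D, (1 - A' w) :=
      (Ex_prod (A := ℝ) H S M (fun w p => if j ≤ w ∧ w < D then
          (hat (win gen w (p.1 - k w, p.2)) z).re else 1) ω₀).trans e1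
    have x2 : Ex H S M (fun ω => ∏ w ∈ Finset.range M, ((if j ≤ w ∧ w < D then
          (hat (win gen w ((ω w).1 - k w, (ω w).2)) z).re else 1) * (if D ≤ w ∧ w < M then
          (hat (win gen w ((ω w).1 + k w, (ω w).2)) z).re else 1))) ω₀ =
        (∏ w ∈ Finset.Ico j D, (1 - A' w)) * ∏ w ∈ Finset.Ico D M, (1 - B w) :=
      (Ex_prod (A := ℝ) H S M (fun w p => (if j ≤ w ∧ w < D then
          (hat (win gen w (p.1 - k w, p.2)) z).re else 1) * (if D ≤ w ∧ w < M then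
          (hat (win gen w (p.1 + k w, p.2)) z).re else 1)) ω₀).trans e2
    rw [hF, Ex_add, Ex_smul, x1, x2, smul_eq_mul]
    ring
  have hP0 : ∀ s : Finset ℕ, 0 ≤ ∏ w ∈ s, (1 - A' w) := fun s =>
    Finset.prod_nonneg fun w _ => by linarith [hA'1 w]
  have hP1 : ∀ s : Finset ℕ, ∏ w ∈ s, (1 - A' w) ≤ 1 := fun s =>
    Finset.prod_le_one (fun w _ => by linarith [hA'1 w]) (fun w _ => by linarith [hA'0 w])
  have hQ0 : ∀ s : Finset ℕ, 0 ≤ ∏ w ∈ s, (1 - B w) := fun s =>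
    Finset.prod_nonneg fun w _ => by linarith [hB1 w]
  have hQ1 : ∀ s : Finset ℕ, ∏ w ∈ s, (1 - B w) ≤ 1 := fun s =>
    Finset.prod_le_one (fun w _ => by linarith [hB1 w]) (fun w _ => by linarith [hB0 w])
  by_cases hsum : Summable A
  · have hs := hsum.add h2
    have hcau := hs.hasSum.tendsto_sum_nat.cauchySeq
    obtain ⟨N, hN⟩ := Metric.cauchySeq_iff.1 hcau ε hε
    refine ⟨max j N, fun D hD M hM => ?_⟩
    have hjD : j ≤ D := (le_max_left _ _).trans hD
    have hND : N ≤ D := (le_max_right _ _).trans hD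
    rw [hEx D M hjD hM]
    have h3 : 1 - ∏ w ∈ Finset.Ico D M, (1 - B w) ≤ ε := by
      calc 1 - ∏ w ∈ Finset.Ico D M, (1 - B w) ≤ ∑ w ∈ Finset.Ico D M, B w :=
            freq_one_sub _ _ hB0 hB1
        _ ≤ ∑ w ∈ Finset.Ico D M, (A w + (k w : ℝ) / H w) :=
            Finset.sum_le_sum fun w _ => hBA w
        _ = (∑ w ∈ Finset.range M, (A w + (k w : ℝ) / H w)) -
            ∑ w ∈ Finset.range D, (A w + (k w : ℝ) / H w) := Finset.sum_Ico_eq_sub _ hM
        _ ≤ ε := by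
            have h4 := hN M (hND.trans hM) D hND
            rw [Real.dist_eq] at h4
            exact (le_abs_self _).trans h4.le
    calc (∏ w ∈ Finset.Ico j D, (1 - A' w)) * (1 - ∏ w ∈ Finset.Ico D M, (1 - B w))
        ≤ 1 * (1 - ∏ w ∈ Finset.Ico D M, (1 - B w)) :=
          mul_le_mul_of_nonneg_right (hP1 _) (by linarith [hQ1 (Finset.Ico D M)])
      _ ≤ ε := by rw [one_mul]; exact h3
  · rw [not_summable_iff_tendsto_nat_atTop_of_nonneg hA0] at hsum
    obtain ⟨N, hN⟩ := eventually_atTop.1 (hsum.eventually_ge_atTop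
      ((∑ w ∈ Finset.range j, A w) + (∑' w, (k w : ℝ) / H w) - Real.log ε))
    refine ⟨max j N, fun D hD M hM => ?_⟩
    have hjD : j ≤ D := (le_max_left _ _).trans hD
    have hND : N ≤ D := (le_max_right _ _).trans hD
    rw [hEx D M hjD hM]
    have h4 := hN D hND
    have h5 : ∑ w ∈ Finset.Ico j D, (A w - (k w : ℝ) / H w) ≤ ∑ w ∈ Finset.Ico j D, A' w :=
      Finset.sum_le_sum fun w _ => hAA' w
    rw [Finset.sum_sub_distrib, Finset.sum_Ico_eq_sub _ hjD] at h5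
    have h6 : ∑ w ∈ Finset.Ico j D, (k w : ℝ) / H w ≤ ∑' w, (k w : ℝ) / H w :=
      h2.sum_le_tsum _ (fun w _ => by positivity)
    have h7 : -Real.log ε ≤ ∑ w ∈ Finset.Ico j D, A' w := by linarith
    have h3 : ∏ w ∈ Finset.Ico j D, (1 - A' w) ≤ ε := by
      refine (freq_exp _ _ hA'1).trans ?_
      rw [← Real.le_log_iff_exp_le hε]
      linarith
    calc (∏ w ∈ Finset.Ico j D, (1 - A' w)) * (1 - ∏ w ∈ Finset.Ico D M, (1 - B w))
        ≤ (∏ w ∈ Finset.Ico j D, (1 - A' w)) * 1 :=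
          mul_le_mul_of_nonneg_left (by linarith [hQ0 (Finset.Ico D M)]) (hP0 _)
      _ ≤ ε := by rw [mul_one]; exact h3

end

end Pool.NilAvg
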