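import Pool.Agent.Helper986.NilAvg.Defs
import Pool.Agent.Helper986.NilAvg.ApiEv
import Pool.Agent.Helper986.NilAvg.ApiNrm
import Pool.Agent.Helper986.NilAvg.TriShift
import Pool.Agent.Helper986.NilAvg.WinPos
import Pool.Agent.Helper986.NilAvg.ExApi

set_option autoImplicit false

namespace Pool.NilAvg

open Filter Topology
open scoped ComplexConjugate

noncomputable section

variable {κ : Type}


theorem supp_bound_mul {μ ν : Law} {A B : ℕ} (hμ : ∀ n ∈ μ.coeff.support, |n| ≤ A)
    (hν : ∀ n ∈ ν.coeff.support, |n| ≤ B) : ∀ n ∈ (μ * ν).coeff.support, |n| ≤ (A + B : ℕ) := by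
  intro n hn
  have h := AddMonoidAlgebra.support_coeff_mul_subset μ ν hn
  obtain ⟨a, ha, b, hb, rfl⟩ := Finset.mem_add.1 h
  push_cast
  exact (abs_add_le a b).trans (add_le_add (hμ a ha) (hν b hb))

theorem supp_bound_one : ∀ n ∈ (1 : Law).coeff.support, |n| ≤ (0 : ℕ) := by
  intro n hn
  have h := AddMonoidAlgebra.support_coeff_one_subset hn
  simp at h
  simp [h]

theorem supp_bound_win (gen : ℕ → κ → List ℤ) (w : ℕ) (p : ℕ × κ) :
    ∃ R : ℕ, ∀ n ∈ (win gen w p).coeff.support, |n| ≤ R := by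
  unfold win
  induction gen w p.2 with
  | nil => exact ⟨0, by simp⟩
  | cons g l ih =>
    obtain ⟨R, hR⟩ := ih
    refine ⟨2 ^ p.1 * g.natAbs + R, ?_⟩
    rw [List.map_cons, List.prod_cons]
    refine supp_bound_mul ?_ hR
    intro n hn
    obtain ⟨t, ht, rfl⟩ := tri_support p.1 g n hn
    rw [abs_mul]
    push_cast
    exact mul_le_mul_of_nonneg_right ht.le (abs_nonneg g)

theorem supp_bound (gen : ℕ → κ → List ℤ) (H k : ℕ → ℕ) (S : ℕ → Finset κ) (j D : ℕ) :
    ∃ R : ℕ, ∀ ω, Ok H S D ω → ∀ n ∈ (subP gen k ω j D).coeff.support, |n| ≤ R := by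
  classical
  choose B hB using fun (w : ℕ) (p : ℕ × κ) => supp_bound_win gen w p
  refine ⟨∑ w ∈ Finset.Ico j D, ∑ r ∈ Finset.range (H w + 1), ∑ x ∈ S w, B w (r, x), ?_⟩
  intro ω hω
  unfold subP
  have key : ∀ s : Finset ℕ, (∀ w ∈ s, w < D) →
      ∀ n ∈ (∏ w ∈ s, win gen w ((ω w).1 - k w, (ω w).2)).coeff.support,
        |n| ≤ ((∑ w ∈ s, ∑ r ∈ Finset.range (H w + 1), ∑ x ∈ S w, B w (r, x) : ℕ) : ℤ) := by
    intro s
    induction s using Finset.induction_on with
    | empty =>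
      intro _
      rw [Finset.prod_empty, Finset.sum_empty]
      exact supp_bound_one
    | insert a s ha ih =>
      intro hs
      rw [Finset.prod_insert ha, Finset.sum_insert ha]
      refine supp_bound_mul ?_ (ih fun w hw => hs w (Finset.mem_insert_of_mem hw))
      intro n hn
      refine (hB a _ n hn).trans ?_
      obtain ⟨-, h2, h3⟩ := hω a (hs a (Finset.mem_insert_self _ _))
      have h4 : B a ((ω a).1 - k a, (ω a).2) ≤
          ∑ x ∈ S a, B a ((ω a).1 - k a, x) :=
        Finset.single_le_sum (f := fun x => B a ((ω a).1 - k a, x)) (fun _ _ => Nat.zero_le _) h3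
      have h5 : ∑ x ∈ S a, B a ((ω a).1 - k a, x) ≤
          ∑ r ∈ Finset.range (H a + 1), ∑ x ∈ S a, B a (r, x) :=
        Finset.single_le_sum (f := fun r => ∑ x ∈ S a, B a (r, x)) (fun _ _ => Nat.zero_le _)
          (Finset.mem_range.2 (by omega))
      exact_mod_cast h4.trans h5
  exact key _ fun w hw => (Finset.mem_Ico.1 hw).2

end

end Pool.NilAvg
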