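import Pool.Agent.Helper986.NilAvg.Defs
import Pool.Agent.Helper986.NilAvg.ApiEv
import Pool.Agent.Helper986.NilAvg.ApiNrm
import Pool.Agent.Helper986.NilAvg.ApiHat

set_option autoImplicit false

namespace Pool.NilAvg

open Filter Topology
open scoped ComplexConjugate

noncomputable section

variable {κ : Type}


theorem transfer_det_sub {E : Type*} [AddCommGroup E] [Module ℝ E] (μ : Law) (a b : ℤ → E) :
    ev μ a - ev μ b = ev μ (fun n => a n - b n) := by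
  have h := ev_add_fun μ (fun n => a n - b n) b
  simp only [sub_add_cancel] at h
  rw [h, add_sub_cancel_right]

theorem transfer_det_approx {μ : Law} (hμ : IsProb μ) {a b : ℤ → ℂ} {ε : ℝ}
    (h : ∀ n, ‖a n - b n‖ ≤ ε) : ‖ev μ a - ev μ b‖ ≤ ε := by
  rw [transfer_det_sub]
  have := norm_ev_le μ (fun n => a n - b n) ε h
  rwa [hμ.nrm_eq, one_mul] at this

theorem transfer_det_poly (μ : Law) (Ξ : Finset ℝ) (q : ℝ → ℂ) (ζ : ℝ → ℝ) (u : ℤ) :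
    ev μ (fun n => ∑ ξ ∈ Ξ, q ξ * e (((n + u : ℤ) : ℝ) * ζ ξ)) =
      ∑ ξ ∈ Ξ, q ξ * (e (u * ζ ξ) * hat μ (ζ ξ)) := by
  rw [ev_sum_fun]
  refine Finset.sum_congr rfl fun ξ _ => ?_
  rw [ev_const_mul, ev_e_add]

theorem transfer_det_sq {ν ρ : Law} (hν : Pos ν) (hρ : Pos ρ) {η ε K : ℝ}
    (hη : 0 ≤ η) (g : ℤ → ℂ) (Ξ₀ : Finset ℝ) (p₀ : ℝ → ℂ)
    (hp₀ : ∑ ξ ∈ Ξ₀, ‖p₀ ξ‖ ≤ K)
    (h₀ : ∀ n : ℤ, ‖((‖g n‖ ^ 2 : ℝ) : ℂ) - ∑ ξ ∈ Ξ₀, p₀ ξ * e (n * ξ)‖ ≤ ε)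
    (ha : ∀ ξ ∈ Ξ₀, (hat ν ξ).re * (1 - (hat ρ ξ).re) ≤ η) (v : ℤ) :
    |ev ν (fun n => ‖g (n + v)‖ ^ 2) - ev (ν * ρ) (fun n => ‖g (n + v)‖ ^ 2)| ≤ K * η + 2 * ε := by
  have hνρ : IsProb (ν * ρ) := hν.prob.mul hρ.prob
  set b : ℤ → ℂ := fun n => ∑ ξ ∈ Ξ₀, p₀ ξ * e (((n + v : ℤ) : ℝ) * ξ) with hb
  have h1 : ∀ μ : Law, IsProb μ →
      ‖((ev μ (fun n => ‖g (n + v)‖ ^ 2) : ℝ) : ℂ) - ev μ b‖ ≤ ε := by
    intro μ hμ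
    rw [← ev_ofReal]
    exact transfer_det_approx hμ fun n => h₀ (n + v)
  have h2 : ‖ev ν b - ev (ν * ρ) b‖ ≤ K * η := by
    rw [hb, transfer_det_poly ν Ξ₀ p₀ (fun x => x) v,
      transfer_det_poly (ν * ρ) Ξ₀ p₀ (fun x => x) v, ← Finset.sum_sub_distrib]
    refine (norm_sum_le _ _).trans ?_
    refine le_trans (Finset.sum_le_sum (g := fun ξ => ‖p₀ ξ‖ * η) fun ξ hξ => ?_) ?_
    · have e1 : p₀ ξ * (e (v * ξ) * hat ν ξ) - p₀ ξ * (e (v * ξ) * hat (ν * ρ) ξ) =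
          p₀ ξ * e (v * ξ) * (((hat ν ξ).re * (1 - (hat ρ ξ).re) : ℝ) : ℂ) := by
        rw [hat_mul]
        push_cast
        rw [← hν.hat_eq, ← hρ.hat_eq]
        ring
      rw [e1, norm_mul, norm_mul, norm_e, mul_one, Complex.norm_real, Real.norm_eq_abs,
        abs_of_nonneg (mul_nonneg (hν.re ξ) (sub_nonneg.2 (hρ.le_one ξ)))]
      exact mul_le_mul_of_nonneg_left (ha ξ hξ) (norm_nonneg _)
    · rw [← Finset.sum_mul]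
      exact mul_le_mul_of_nonneg_right hp₀ hη
  have h3 := h1 ν hν.prob
  have h4 := h1 (ν * ρ) hνρ
  set A : ℝ := ev ν (fun n => ‖g (n + v)‖ ^ 2)
  set B : ℝ := ev (ν * ρ) (fun n => ‖g (n + v)‖ ^ 2)
  have h5 : |A - B| = ‖((A : ℂ) - ev ν b) + (ev ν b - ev (ν * ρ) b) -
      ((B : ℂ) - ev (ν * ρ) b)‖ := by
    rw [← Real.norm_eq_abs, ← Complex.norm_real]
    congr 1
    push_cast
    ring
  rw [h5]
  calc _ ≤ ‖((A : ℂ) - ev ν b) + (ev ν b - ev (ν * ρ) b)‖ + ‖(B : ℂ) - ev (ν * ρ) b‖ :=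
        norm_sub_le _ _
    _ ≤ ‖(A : ℂ) - ev ν b‖ + ‖ev ν b - ev (ν * ρ) b‖ + ‖(B : ℂ) - ev (ν * ρ) b‖ :=
        add_le_add_left (norm_add_le _ _) _
    _ ≤ K * η + 2 * ε := by linarith

theorem transfer_det_expand (μ : Law) (g : ℤ → ℂ) (u : ℤ) :
    ev μ (fun n => ‖g (n + u) - g n‖ ^ 2) =
      ev μ (fun n => ‖g (n + u)‖ ^ 2) + ev μ (fun n => ‖g n‖ ^ 2) -
        2 * (ev μ (fun n => g (n + u) * conj (g n))).re := by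
  have h1 : (fun n => ‖g (n + u) - g n‖ ^ 2) = fun n : ℤ =>
      (‖g (n + u)‖ ^ 2 + ‖g n‖ ^ 2) + ((-2 : ℝ) • Complex.reLm) (g (n + u) * conj (g n)) := by
    funext n
    rw [← Complex.normSq_eq_norm_sq, ← Complex.normSq_eq_norm_sq, ← Complex.normSq_eq_norm_sq,
      Complex.normSq_sub]
    simp
    ring
  rw [h1, ev_add_fun μ (fun n => ‖g (n + u)‖ ^ 2 + ‖g n‖ ^ 2), ev_add_fun, ← ev_map]
  simp
  ring

/-- deterministic transfer from the level `ν * ρ` to the level `ν` -/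
theorem transfer_det {ν σ ρ : Law} (hν : Pos ν) (hσ : Pos σ) (hρ : Pos ρ) {δ τ η ε K : ℝ}
    (hδ : ∀ x, (hat ν x).re * (1 - (hat σ x).re) ≤ δ) (hτ : 0 < τ) (hδτ : 8 * δ ≤ τ)
    (hη : 0 ≤ η) (hε : 0 ≤ ε) (hK : 0 ≤ K) (g : ℤ → ℂ) (u : ℤ) (Ξ₀ Ξ : Finset ℝ)
    (p₀ p : ℝ → ℂ) (ϑ : ℝ)
    (hp₀ : ∑ ξ ∈ Ξ₀, ‖p₀ ξ‖ ≤ K) (hp : ∑ ξ ∈ Ξ, ‖p ξ‖ ≤ K)
    (h₀ : ∀ n : ℤ, ‖((‖g n‖ ^ 2 : ℝ) : ℂ) - ∑ ξ ∈ Ξ₀, p₀ ξ * e (n * ξ)‖ ≤ ε)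
    (h₁ : ∀ n : ℤ, ‖g (n + u) * conj (g n) - e (n * ϑ) * ∑ ξ ∈ Ξ, p ξ * e (n * ξ)‖ ≤ ε)
    (ha : ∀ ξ ∈ Ξ₀, (hat ν ξ).re * (1 - (hat ρ ξ).re) ≤ η)
    (hb : ∀ ξ ∈ Ξ, ∀ ξ' ∈ Ξ, 1 / 2 ≤ (hat σ (ξ - ξ')).re → 1 - (hat ρ (ξ - ξ')).re ≤ η) :
    ev ν (fun n => ‖g (n + u) - g n‖ ^ 2) ≤
      2 * ev (ν * ρ) (fun n => ‖g (n + u) - g n‖ ^ 2) + 12 * ε +
        4 * K * (τ + Real.sqrt (2 * η) + η) := by
  classical
  have hνρ : IsProb (ν * ρ) := hν.prob.mul hρ.prob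
  have hu := transfer_det_sq hν hρ hη g Ξ₀ p₀ hp₀ h₀ ha u
  have hz := transfer_det_sq hν hρ hη g Ξ₀ p₀ hp₀ h₀ ha 0
  simp only [add_zero] at hz
  -- the correlations
  set b : ℤ → ℂ := fun n => ∑ ξ ∈ Ξ, p ξ * e (((n + 0 : ℤ) : ℝ) * (ϑ + ξ)) with hbdef
  have hbn : ∀ n : ℤ, b n = e (n * ϑ) * ∑ ξ ∈ Ξ, p ξ * e (n * ξ) := by
    intro n
    rw [hbdef, Finset.mul_sum]
    refine Finset.sum_congr rfl fun ξ _ => ?_
    rw [add_zero, _root_.mul_add, e_add]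
    ring
  have happ : ∀ μ : Law, IsProb μ →
      ‖ev μ (fun n => g (n + u) * conj (g n)) - ev μ b‖ ≤ ε := by
    intro μ hμ
    exact transfer_det_approx hμ fun n => by rw [hbn]; exact h₁ n
  have hX' : ev ν b = ∑ ξ ∈ Ξ, p ξ * ((hat ν (ϑ + ξ)).re : ℂ) := by
    rw [hbdef, transfer_det_poly ν Ξ p (fun x => ϑ + x) 0]
    refine Finset.sum_congr rfl fun ξ _ => ?_
    have e0 : e (((0 : ℤ) : ℝ) * (ϑ + ξ)) = 1 := by
      have := e_int 0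
      simpa using this
    rw [e0, one_mul, ← hν.hat_eq]
  have hY' : ev (ν * ρ) b =
      ∑ ξ ∈ Ξ, p ξ * (((hat ν (ϑ + ξ)).re * (hat ρ (ϑ + ξ)).re : ℝ) : ℂ) := by
    rw [hbdef, transfer_det_poly (ν * ρ) Ξ p (fun x => ϑ + x) 0]
    refine Finset.sum_congr rfl fun ξ _ => ?_
    have e0 : e (((0 : ℤ) : ℝ) * (ϑ + ξ)) = 1 := by
      have := e_int 0
      simpa using this
    rw [e0, one_mul, hat_mul]
    push_cast
    rw [← hν.hat_eq, ← hρ.hat_eq]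
  set s : ℝ := τ + Real.sqrt (2 * η) with hs
  have hs0 : 0 ≤ Real.sqrt (2 * η) := Real.sqrt_nonneg _
  -- the comparison constant
  have hσc : ∀ ξ, τ ≤ (hat ν (ϑ + ξ)).re → 1 - (hat σ (ϑ + ξ)).re ≤ 1 / 8 := by
    intro ξ hξ
    have h1 := hδ (ϑ + ξ)
    have h2 : 0 ≤ 1 - (hat σ (ϑ + ξ)).re := sub_nonneg.2 (hσ.le_one _)
    have h3 : τ * (1 - (hat σ (ϑ + ξ)).re) ≤ δ :=
      (mul_le_mul_of_nonneg_right hξ h2).trans h1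
    have h4 : τ * (8 * (1 - (hat σ (ϑ + ξ)).re)) ≤ τ * 1 := by linarith
    have h5 := le_of_mul_le_mul_left h4 hτ
    linarith
  have hclose : ∀ ξ ∈ Ξ, ∀ ξ' ∈ Ξ, τ ≤ (hat ν (ϑ + ξ)).re → τ ≤ (hat ν (ϑ + ξ')).re →
      |(hat ρ (ϑ + ξ)).re - (hat ρ (ϑ + ξ')).re| ≤ Real.sqrt (2 * η) := by
    intro ξ hξ ξ' hξ' h1 h2
    have h3 := one_sub_hat_sub_le hσ.prob (ϑ + ξ) (ϑ + ξ')
    have h4 := hσc ξ h1
    have h5 := hσc ξ' h2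
    have h6 : ϑ + ξ - (ϑ + ξ') = ξ - ξ' := by ring
    rw [h6] at h3
    have h7 := hb ξ hξ ξ' hξ' (by linarith)
    have h8 := norm_hat_sub_hat_le hρ.prob (ϑ + ξ) (ϑ + ξ')
    rw [h6] at h8
    have h9 : |(hat ρ (ϑ + ξ)).re - (hat ρ (ϑ + ξ')).re| ≤
        ‖hat ρ (ϑ + ξ) - hat ρ (ϑ + ξ')‖ := by
      rw [← Complex.sub_re]
      exact Complex.abs_re_le_norm _
    refine h9.trans (h8.trans (Real.sqrt_le_sqrt ?_))
    linarith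
  obtain ⟨t, ht0, ht1, ht⟩ : ∃ t : ℝ, 0 ≤ t ∧ t ≤ 1 ∧ ∀ ξ ∈ Ξ,
      (hat ν (ϑ + ξ)).re * |(hat ρ (ϑ + ξ)).re - t| ≤ s := by
    by_cases hc : ∃ ξ₀ ∈ Ξ, τ ≤ (hat ν (ϑ + ξ₀)).re
    · obtain ⟨ξ₀, hξ₀, hτξ⟩ := hc
      refine ⟨(hat ρ (ϑ + ξ₀)).re, hρ.re _, hρ.le_one _, fun ξ hξ => ?_⟩
      by_cases hτ' : τ ≤ (hat ν (ϑ + ξ)).re
      · have h1 := hclose ξ hξ ξ₀ hξ₀ hτ' hτξ
        have h2 := hν.le_one (ϑ + ξ)
        have h3 := hν.re (ϑ + ξ)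
        have h4 : (hat ν (ϑ + ξ)).re * |(hat ρ (ϑ + ξ)).re - (hat ρ (ϑ + ξ₀)).re| ≤
            1 * Real.sqrt (2 * η) := mul_le_mul h2 h1 (abs_nonneg _) zero_le_one
        linarith
      · have h1 : |(hat ρ (ϑ + ξ)).re - (hat ρ (ϑ + ξ₀)).re| ≤ 1 := by
          have a1 := hρ.re (ϑ + ξ)
          have a2 := hρ.re (ϑ + ξ₀)
          have a3 := hρ.le_one (ϑ + ξ)
          have a4 := hρ.le_one (ϑ + ξ₀)
          rw [abs_le]; constructor <;> linarith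
        have h4 : (hat ν (ϑ + ξ)).re * |(hat ρ (ϑ + ξ)).re - (hat ρ (ϑ + ξ₀)).re| ≤
            τ * 1 := mul_le_mul (not_le.1 hτ').le h1 (abs_nonneg _) hτ.le
        linarith
    · push Not at hc
      refine ⟨0, le_rfl, zero_le_one, fun ξ hξ => ?_⟩
      have h1 : |(hat ρ (ϑ + ξ)).re - 0| ≤ 1 := by
        rw [sub_zero, abs_of_nonneg (hρ.re _)]
        exact hρ.le_one _
      have h4 : (hat ν (ϑ + ξ)).re * |(hat ρ (ϑ + ξ)).re - 0| ≤ τ * 1 :=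
        mul_le_mul (hc ξ hξ).le h1 (abs_nonneg _) hτ.le
      linarith
  have hYX : ‖ev (ν * ρ) b - (t : ℂ) * ev ν b‖ ≤ K * s := by
    rw [hX', hY', Finset.mul_sum, ← Finset.sum_sub_distrib]
    refine (norm_sum_le _ _).trans ?_
    refine le_trans (Finset.sum_le_sum (g := fun ξ => ‖p ξ‖ * s) fun ξ hξ => ?_) ?_
    · have e1 : p ξ * (((hat ν (ϑ + ξ)).re * (hat ρ (ϑ + ξ)).re : ℝ) : ℂ) -
          (t : ℂ) * (p ξ * ((hat ν (ϑ + ξ)).re : ℂ)) =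
          p ξ * (((hat ν (ϑ + ξ)).re * ((hat ρ (ϑ + ξ)).re - t) : ℝ) : ℂ) := by
        push_cast
        ring
      rw [e1, norm_mul, Complex.norm_real, Real.norm_eq_abs, abs_mul, abs_of_nonneg (hν.re _)]
      exact mul_le_mul_of_nonneg_left (ht ξ hξ) (norm_nonneg _)
    · rw [← Finset.sum_mul]
      exact mul_le_mul_of_nonneg_right hp (by positivity)
  have hYXre : |(ev (ν * ρ) b).re - t * (ev ν b).re| ≤ K * s := by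
    refine le_trans ?_ hYX
    have h1 : (ev (ν * ρ) b).re - t * (ev ν b).re = (ev (ν * ρ) b - (t : ℂ) * ev ν b).re := by
      rw [Complex.sub_re, Complex.re_ofReal_mul]
    rw [h1]
    exact Complex.abs_re_le_norm _
  have hre : ∀ μ : Law, IsProb μ →
      |(ev μ (fun n => g (n + u) * conj (g n))).re - (ev μ b).re| ≤ ε := by
    intro μ hμ
    rw [← Complex.sub_re]
    exact (Complex.abs_re_le_norm _).trans (happ μ hμ)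
  have hXre := hre ν hν.prob
  have hYre := hre (ν * ρ) hνρ
  have hexp := transfer_det_expand ν g u
  have hexp' := transfer_det_expand (ν * ρ) g u
  have hΔ : 0 ≤ ev (ν * ρ) (fun n => ‖g (n + u) - g n‖ ^ 2) := by
    have h1 := hνρ.ev_mono (f := fun _ => (0 : ℝ)) (g := fun n => ‖g (n + u) - g n‖ ^ 2)
      (fun n _ => by positivity)
    rwa [hνρ.ev_const] at h1
  have hpar : ev ν (fun n => ‖g (n + u) - g n‖ ^ 2) ≤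
      2 * (ev ν (fun n => ‖g (n + u)‖ ^ 2) + ev ν (fun n => ‖g n‖ ^ 2)) := by
    have h1 := hν.prob.ev_mono (f := fun n => ‖g (n + u) - g n‖ ^ 2)
      (g := fun n => (‖g (n + u)‖ ^ 2 + ‖g n‖ ^ 2) + (‖g (n + u)‖ ^ 2 + ‖g n‖ ^ 2))
      (fun n _ => by
        have h2 := norm_sub_le (g (n + u)) (g n)
        have h3 := norm_nonneg (g (n + u) - g n)
        have h4 : ‖g (n + u) - g n‖ ^ 2 ≤ (‖g (n + u)‖ + ‖g n‖) ^ 2 :=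
          pow_le_pow_left₀ h3 h2 2
        nlinarith [sq_nonneg (‖g (n + u)‖ - ‖g n‖)])
    rw [ev_add_fun ν (fun n => ‖g (n + u)‖ ^ 2 + ‖g n‖ ^ 2),
      ev_add_fun ν (fun n => ‖g (n + u)‖ ^ 2)] at h1
    linarith
  rw [abs_le] at hu hz hXre hYre hYXre
  have hKs : 0 ≤ K * s := by positivity
  have hKη : 0 ≤ K * η := by positivity
  have hgoal : 4 * K * (τ + Real.sqrt (2 * η) + η) = 4 * (K * s) + 4 * (K * η) := by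
    rw [hs]; ring
  rw [hgoal]
  rcases le_total 0 (ev ν b).re with hcase | hcase
  · have h1 : t * (ev ν b).re ≤ (ev ν b).re := mul_le_of_le_one_left hcase ht1
    rw [hexp]
    rw [hexp'] at hΔ ⊢
    linarith [hu.1, hu.2, hz.1, hz.2, hXre.1, hXre.2, hYre.1, hYre.2, hYXre.1, hYXre.2]
  · have h1 : t * (ev ν b).re ≤ 0 := mul_nonpos_of_nonneg_of_nonpos ht0 hcase
    refine hpar.trans ?_
    rw [hexp'] at hΔ ⊢
    linarith [hu.1, hu.2, hz.1, hz.2, hXre.1, hXre.2, hYre.1, hYre.2, hYXre.1, hYXre.2]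

end

end Pool.NilAvg
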