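import Pool.Agent.Helper986.NilAvg.Defs
import Pool.Agent.Helper986.NilAvg.ApiEv
import Pool.Agent.Helper986.NilAvg.ApiNrm
import Pool.Agent.Helper986.NilAvg.ApiHat
import Pool.Agent.Helper986.NilAvg.TriPos
import Pool.Agent.Helper986.NilAvg.WinPos
import Pool.Agent.Helper986.NilAvg.Inv
import Pool.Agent.Helper986.NilAvg.InvWin
import Pool.Agent.Helper986.NilAvg.ExApi
import Pool.Agent.Helper986.NilAvg.ExProd
import Pool.Agent.Helper986.NilAvg.TameAv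
import Pool.Agent.Helper986.NilAvg.TransferDet
import Pool.Agent.Helper986.NilAvg.Freq
import Pool.Agent.Helper986.NilAvg.SuppBound

set_option autoImplicit false

namespace Pool.NilAvg

open Filter Topology
open scoped ComplexConjugate

noncomputable section

variable {κ : Type}


theorem transfer_ev_nonneg {μ : Law} (h : IsProb μ) {F : ℤ → ℝ} (hF : ∀ n, 0 ≤ F n) :
    0 ≤ ev μ F := by
  have := h.ev_mono (f := fun _ => (0 : ℝ)) (g := F) (fun n _ => hF n)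
  rwa [h.ev_const] at this

theorem transfer_ev_le {μ : Law} (h : IsProb μ) {F : ℤ → ℝ} {C : ℝ} (hF : ∀ n, F n ≤ C) :
    ev μ F ≤ C := by
  have := h.ev_mono (f := F) (g := fun _ => C) (fun n _ => hF n)
  rwa [h.ev_const] at this

/-- pointwise version with the failure term -/
theorem transfer_pw {ν σ ρ : Law} (hν : Pos ν) (hσ : Pos σ) (hρ : Pos ρ) {δ τ η ε K : ℝ}
    (hδ : ∀ x, (hat ν x).re * (1 - (hat σ x).re) ≤ δ) (hτ : 0 < τ) (hδτ : 8 * δ ≤ τ)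
    (hη : 0 < η) (hε : 0 ≤ ε) (hK : 0 ≤ K) (g : ℤ → ℂ) (hg : ∀ n, ‖g n‖ ≤ 1) (u : ℤ)
    (Ξ₀ Ξ Z : Finset ℝ) (hZ₀ : Ξ₀ ⊆ Z) (hZ : ∀ ξ ∈ Ξ, ∀ ξ' ∈ Ξ, ξ - ξ' ∈ Z)
    (hνσ : ∀ x, (hat ν x).re ≤ (hat σ x).re)
    (p₀ p : ℝ → ℂ) (ϑ : ℝ)
    (hp₀ : ∑ ξ ∈ Ξ₀, ‖p₀ ξ‖ ≤ K) (hp : ∑ ξ ∈ Ξ, ‖p ξ‖ ≤ K)
    (h₀ : ∀ n : ℤ, ‖((‖g n‖ ^ 2 : ℝ) : ℂ) - ∑ ξ ∈ Ξ₀, p₀ ξ * e (n * ξ)‖ ≤ ε)
    (h₁ : ∀ n : ℤ, ‖g (n + u) * conj (g n) - e (n * ϑ) * ∑ ξ ∈ Ξ, p ξ * e (n * ξ)‖ ≤ ε) :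
    ev ν (fun n => ‖g (n + u) - g n‖ ^ 2) ≤
      2 * ev (ν * ρ) (fun n => ‖g (n + u) - g n‖ ^ 2) + (12 * ε +
        4 * K * (τ + Real.sqrt (2 * η) + η)) +
        8 / η * ∑ z ∈ Z, (hat σ z).re * (1 - (hat ρ z).re) := by
  have ht0 : ∀ z ∈ Z, 0 ≤ (hat σ z).re * (1 - (hat ρ z).re) := fun z _ =>
    mul_nonneg (hσ.re z) (sub_nonneg.2 (hρ.le_one z))
  have hs0 : 0 ≤ ∑ z ∈ Z, (hat σ z).re * (1 - (hat ρ z).re) := Finset.sum_nonneg ht0
  have hf0 : 0 ≤ 8 / η * ∑ z ∈ Z, (hat σ z).re * (1 - (hat ρ z).re) :=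
    mul_nonneg (by positivity) hs0
  have he0 : 0 ≤ 12 * ε + 4 * K * (τ + Real.sqrt (2 * η) + η) := by positivity
  have hm0 : 0 ≤ ev (ν * ρ) (fun n => ‖g (n + u) - g n‖ ^ 2) :=
    transfer_ev_nonneg (hν.prob.mul hρ.prob) fun n => sq_nonneg _
  by_cases hgood : (∀ ξ ∈ Ξ₀, (hat ν ξ).re * (1 - (hat ρ ξ).re) ≤ η) ∧
      ∀ ξ ∈ Ξ, ∀ ξ' ∈ Ξ, 1 / 2 ≤ (hat σ (ξ - ξ')).re → 1 - (hat ρ (ξ - ξ')).re ≤ η
  · have := transfer_det hν hσ hρ hδ hτ hδτ hη.le hε hK g u Ξ₀ Ξ p₀ p ϑ hp₀ hp h₀ h₁ hgood.1 hgood.2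
    linarith
  · have hex : ∃ z ∈ Z, η / 2 ≤ (hat σ z).re * (1 - (hat ρ z).re) := by
      rw [not_and_or] at hgood
      rcases hgood with h | h
      · push Not at h
        obtain ⟨ξ, hξ, hlt⟩ := h
        refine ⟨ξ, hZ₀ hξ, ?_⟩
        have h1 := mul_le_mul_of_nonneg_right (hνσ ξ) (sub_nonneg.2 (hρ.le_one ξ))
        linarith
      · push Not at h
        obtain ⟨ξ, hξ, ξ', hξ', h2, h3⟩ := h
        refine ⟨ξ - ξ', hZ ξ hξ ξ' hξ', ?_⟩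
        nlinarith
    obtain ⟨z, hz, hzη⟩ := hex
    have h4 : η / 2 ≤ ∑ z ∈ Z, (hat σ z).re * (1 - (hat ρ z).re) :=
      hzη.trans (Finset.single_le_sum ht0 hz)
    have h5 : 4 ≤ 8 / η * ∑ z ∈ Z, (hat σ z).re * (1 - (hat ρ z).re) := by
      have h6 : 8 / η * (η / 2) ≤ 8 / η * ∑ z ∈ Z, (hat σ z).re * (1 - (hat ρ z).re) :=
        mul_le_mul_of_nonneg_left h4 (by positivity)
      have h7 : 8 / η * (η / 2) = 4 := by field_simp; norm_num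
      linarith
    have h8 : ev ν (fun n => ‖g (n + u) - g n‖ ^ 2) ≤ 4 := by
      refine transfer_ev_le hν.prob fun n => ?_
      have h9 : ‖g (n + u) - g n‖ ≤ 2 := (norm_sub_le _ _).trans (by linarith [hg (n + u), hg n])
      nlinarith [norm_nonneg (g (n + u) - g n)]
    linarith

theorem transfer_Ex_sum (H : ℕ → ℕ) (S : ℕ → Finset κ) (M : ℕ) (ω₀ : ℕ → ℕ × κ)
    (Z : Finset ℝ) (T : ℝ → (ℕ → ℕ × κ) → ℝ) :
    Ex H S M (fun ω => ∑ z ∈ Z, T z ω) ω₀ = ∑ z ∈ Z, Ex H S M (T z) ω₀ := by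
  classical
  induction Z using Finset.induction_on with
  | empty =>
    have := Ex_smul H S M (0 : ℝ) (fun _ => (0 : ℝ)) ω₀
    simpa using this
  | insert a Z ha ih =>
    simp only [Finset.sum_insert ha]
    rw [Ex_add, ih]

theorem transfer_upP (gen : ℕ → κ → List ℤ) (k : ℕ → ℕ) (ω : ℕ → ℕ × κ) (D M : ℕ) (h : D ≤ M) :
    lawP gen (upP k ω D) 0 M = lawP gen ω 0 D * lawP gen (upP k ω D) D M := by
  rw [← lawP_mul gen (upP k ω D) (Nat.zero_le D) h]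
  congr 1
  unfold lawP
  refine Finset.prod_congr rfl fun w hw => ?_
  have : ¬ D ≤ w := not_le.2 (Finset.mem_Ico.1 hw).2
  simp [upP, this]

/-- transfer from the level `M` (with increased scales) to the level `D` -/
theorem transfer (gen : ℕ → κ → List ℤ) (H k m : ℕ → ℕ) (S : ℕ → Finset κ)
    (hH : ∀ w, 1 ≤ H w) (hS : ∀ w, (S w).Nonempty) (hm : ∀ w x, (gen w x).length ≤ m w)
    (h1 : Summable fun w => (m w : ℝ) / 2 ^ k w) (h2 : Summable fun w => (k w : ℝ) / H w)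
    {θ : ℤ → ℝ} {Λ : Finset ℝ} {f : ℤ → ℂ} (hf : TameWith θ Λ f) (hf1 : ∀ n, ‖f n‖ ≤ 1)
    (ω₀ : ℕ → ℕ × κ) (j D₁ : ℕ) (ε : ℝ) (hε : 0 < ε) :
    ∃ D₂ ≥ D₁, ∀ D ≥ D₂, ∀ D' ≥ D, ∀ M ≥ D',
      Ex H S M (fun ω => ev (lawP gen ω D D') fun u => ev (lawP gen ω 0 D) fun n =>
        ‖av (subP gen k ω j D₁) f (n + u) - av (subP gen k ω j D₁) f n‖ ^ 2) ω₀ ≤
      2 * Ex H S M (fun ω => ev (lawP gen ω D D') fun u =>
        ev (lawP gen (upP k ω D) 0 M) fun n =>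
        ‖av (subP gen k ω j D₁) f (n + u) - av (subP gen k ω j D₁) f n‖ ^ 2) ω₀ + ε := by
  classical
  obtain ⟨R, hR⟩ := supp_bound gen H k S j D₁
  obtain ⟨Ξ, K, hK, htame⟩ := tame_av hf R (ε / 48) (by positivity)
  obtain ⟨a, ha⟩ : ∃ a : ℝ, a = ε / (64 * (K + 1)) := ⟨_, rfl⟩
  have ha0 : 0 < a := by rw [ha]; positivity
  have haK : (K + 1) * a = ε / 64 := by
    rw [ha]; field_simp
  obtain ⟨η, hη⟩ : ∃ η : ℝ, η = min (a ^ 2 / 2) a := ⟨_, rfl⟩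
  have hη0 : 0 < η := by rw [hη]; exact lt_min (by positivity) ha0
  have hηa : η ≤ a := by rw [hη]; exact min_le_right _ _
  have hηs : Real.sqrt (2 * η) ≤ a := by
    have h3 : 2 * η ≤ a ^ 2 := by
      have := min_le_left (a ^ 2 / 2) a
      rw [← hη] at this
      linarith
    calc Real.sqrt (2 * η) ≤ Real.sqrt (a ^ 2) := Real.sqrt_le_sqrt h3
      _ = a := Real.sqrt_sq ha0.le
  have herr : 12 * (ε / 48) + 4 * K * (a + Real.sqrt (2 * η) + η) ≤ ε / 2 := by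
    have h3 : 4 * K * (a + Real.sqrt (2 * η) + η) ≤ 4 * K * (3 * a) :=
      mul_le_mul_of_nonneg_left (by linarith) (by positivity)
    nlinarith
  -- the level j'
  obtain ⟨j', hj'⟩ : ∃ j' : ℕ, ∀ D ≥ j', ∑ w ∈ Finset.Ico j' D, 2 * (m w : ℝ) / 2 ^ k w ≤ a / 8 := by
    have h3 : Summable fun w => 2 * ((m w : ℝ) / 2 ^ k w) := h1.mul_left 2
    have h4 := (summable_iff_vanishing.1 h3) (Set.Iic (a / 8)) (Iic_mem_nhds (by positivity))
    obtain ⟨s, hs⟩ := h4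
    refine ⟨s.sup id + 1, fun D _ => ?_⟩
    have h5 := hs (Finset.Ico (s.sup id + 1) D) (by
      rw [Finset.disjoint_left]
      intro w hw hws
      have h6 : w ≤ s.sup id := Finset.le_sup (f := id) hws
      have h7 := (Finset.mem_Ico.1 hw).1
      omega)
    have h6 : ∑ w ∈ Finset.Ico (s.sup id + 1) D, 2 * (m w : ℝ) / 2 ^ k w =
        ∑ w ∈ Finset.Ico (s.sup id + 1) D, 2 * ((m w : ℝ) / 2 ^ k w) :=
      Finset.sum_congr rfl fun w _ => by ring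
    rw [h6]
    exact h5
  -- the frequencies
  obtain ⟨Ξ₀, hΞ₀⟩ : ∃ Ξ₀ : Finset ℝ, Ξ₀ = Ξ.image (fun ξ => ξ + θ 0) := ⟨_, rfl⟩
  obtain ⟨Z, hZdef⟩ : ∃ Z : Finset ℝ, Z = Ξ₀ ∪ (Ξ ×ˢ Ξ).image (fun q => q.1 - q.2) := ⟨_, rfl⟩
  have hZ₀ : Ξ₀ ⊆ Z := by rw [hZdef]; exact Finset.subset_union_left
  have hZ : ∀ ξ ∈ Ξ, ∀ ξ' ∈ Ξ, ξ - ξ' ∈ Z := by
    intro ξ hξ ξ' hξ'
    rw [hZdef]
    exact Finset.mem_union_right _ (Finset.mem_image.2 ⟨(ξ, ξ'), Finset.mem_product.2 ⟨hξ, hξ'⟩, rfl⟩)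
  obtain ⟨ε', hε'⟩ : ∃ ε' : ℝ, ε' = ε * η / (16 * ((Z.card : ℝ) + 1)) := ⟨_, rfl⟩
  have hε'0 : 0 < ε' := by rw [hε']; positivity
  choose Df hDf using fun z : ℝ => freq gen H k S hH hS h2 ω₀ j' z ε' hε'0
  refine ⟨max (max D₁ j') (Z.sup Df), (le_max_left _ _).trans (le_max_left _ _), ?_⟩
  intro D hD D' hD' M hM
  have hDD₁ : D₁ ≤ D := ((le_max_left _ _).trans (le_max_left _ _)).trans hD
  have hDj' : j' ≤ D := ((le_max_right _ _).trans (le_max_left _ _)).trans hD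
  have hDZ : ∀ z ∈ Z, Df z ≤ D := fun z hz =>
    ((Finset.le_sup hz).trans (le_max_right _ _)).trans hD
  have hDM : D ≤ M := hD'.trans hM
  -- pointwise bound
  have hpw : ∀ ω, Ok H S M ω →
      (ev (lawP gen ω D D') fun u => ev (lawP gen ω 0 D) fun n =>
        ‖av (subP gen k ω j D₁) f (n + u) - av (subP gen k ω j D₁) f n‖ ^ 2) ≤
      2 * (ev (lawP gen ω D D') fun u => ev (lawP gen (upP k ω D) 0 M) fun n =>
        ‖av (subP gen k ω j D₁) f (n + u) - av (subP gen k ω j D₁) f n‖ ^ 2) + (ε / 2 +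
        8 / η * ∑ z ∈ Z, (hat (subP gen k ω j' D) z).re *
          (1 - (hat (lawP gen (upP k ω D) D M) z).re)) := by
    intro ω hω
    have hωD₁ : Ok H S D₁ ω := fun w hw => hω w (lt_of_lt_of_le hw (hDD₁.trans hDM))
    have hμ : IsProb (subP gen k ω j D₁) := (subP_pos gen k ω j D₁).prob
    have hsupp := hR ω hωD₁
    obtain ⟨g, hgdef⟩ : ∃ g : ℤ → ℂ, g = av (subP gen k ω j D₁) f := ⟨_, rfl⟩
    have hg1 : ∀ n, ‖g n‖ ≤ 1 := by
      intro n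
      rw [hgdef]
      have := norm_ev_le (subP gen k ω j D₁) (fun l => f (n + l)) 1 (fun l => hf1 _)
      rw [hμ.nrm_eq] at this
      simpa [av] using this
    have htm := htame (subP gen k ω j D₁) hμ hsupp
    rw [← hgdef] at htm ⊢
    have hν := lawP_pos gen ω 0 D
    have hσ := subP_pos gen k ω j' D
    have hρ := lawP_pos gen (upP k ω D) D M
    have hδ : ∀ x, (hat (lawP gen ω 0 D) x).re * (1 - (hat (subP gen k ω j' D) x).re) ≤ a / 8 := by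
      intro x
      have h3 := (inv_subP gen m k hm ω j' D D le_rfl).hat hσ.prob x
      have h4 := h3.trans (hj' D hDj')
      have h5 : hat (lawP gen ω 0 D) x * hat (subP gen k ω j' D) x - hat (lawP gen ω 0 D) x =
          ((-((hat (lawP gen ω 0 D) x).re * (1 - (hat (subP gen k ω j' D) x).re)) : ℝ) : ℂ) := by
        rw [hν.hat_eq x, hσ.hat_eq x]
        push_cast
        simp only [Complex.ofReal_re]
        ring
      rw [h5, Complex.norm_real, Real.norm_eq_abs, abs_neg] at h4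
      exact (le_abs_self _).trans h4
    have hνσ : ∀ x, (hat (lawP gen ω 0 D) x).re ≤ (hat (subP gen k ω j' D) x).re :=
      fun x => lawP_le_subP gen k ω j' D hDj' x
    obtain ⟨p, hp, hpn⟩ := htm 0
    have hp₀ : ∑ ξ ∈ Ξ₀, ‖p (ξ - θ 0)‖ ≤ K := by
      rw [hΞ₀, Finset.sum_image (fun x _ y _ h => add_right_cancel h)]
      simpa using hp
    have h₀ : ∀ n : ℤ, ‖((‖g n‖ ^ 2 : ℝ) : ℂ) - ∑ ξ ∈ Ξ₀, p (ξ - θ 0) * e (n * ξ)‖ ≤ ε / 48 := by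
      intro n
      have h3 := hpn n
      rw [add_zero, Complex.mul_conj'] at h3
      have h4 : e (n * θ 0) * ∑ ξ ∈ Ξ, p ξ * e (n * ξ) = ∑ ξ ∈ Ξ₀, p (ξ - θ 0) * e (n * ξ) := by
        rw [hΞ₀, Finset.sum_image (fun x _ y _ h => add_right_cancel h), Finset.mul_sum]
        refine Finset.sum_congr rfl fun ξ _ => ?_
        rw [add_sub_cancel_right, mul_add, e_add]
        ring
      rw [h4] at h3
      push_cast
      exact h3
    rw [transfer_upP gen k ω D M hDM]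
    have hPD : IsProb (lawP gen ω D D') := (lawP_pos gen ω D D').prob
    have hu : ∀ u : ℤ, ev (lawP gen ω 0 D) (fun n => ‖g (n + u) - g n‖ ^ 2) ≤
        2 * ev (lawP gen ω 0 D * lawP gen (upP k ω D) D M) (fun n => ‖g (n + u) - g n‖ ^ 2) +
          (ε / 2 + 8 / η * ∑ z ∈ Z, (hat (subP gen k ω j' D) z).re *
            (1 - (hat (lawP gen (upP k ω D) D M) z).re)) := by
      intro u
      obtain ⟨q, hq, hqn⟩ := htm u
      have := transfer_pw hν hσ hρ hδ ha0 (by linarith) hη0 (by positivity : 0 ≤ ε / 48) hK g hg1 u Ξ₀ Ξ Z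
        hZ₀ hZ hνσ (fun ξ => p (ξ - θ 0)) q (θ u) hp₀ hq h₀ hqn
      linarith
    have h6 := hPD.ev_mono (fun u _ => hu u)
    refine h6.trans (le_of_eq ?_)
    rw [ev_add_fun, hPD.ev_const]
    congr 1
    have h7 := ev_map (LinearMap.mulLeft ℝ (2 : ℝ)) (lawP gen ω D D')
      (fun u => ev (lawP gen ω 0 D * lawP gen (upP k ω D) D M) (fun n => ‖g (n + u) - g n‖ ^ 2))
    simpa using h7.symm
  refine (Ex_mono H S M ω₀ hpw).trans ?_
  rw [Ex_add, Ex_add, Ex_const H S hH hS]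
  have e1 := Ex_smul H S M (2 : ℝ) (fun ω => ev (lawP gen ω D D') fun u =>
        ev (lawP gen (upP k ω D) 0 M) fun n =>
        ‖av (subP gen k ω j D₁) f (n + u) - av (subP gen k ω j D₁) f n‖ ^ 2) ω₀
  have e2 := Ex_smul H S M (8 / η) (fun ω => ∑ z ∈ Z, (hat (subP gen k ω j' D) z).re *
          (1 - (hat (lawP gen (upP k ω D) D M) z).re)) ω₀
  simp only [smul_eq_mul] at e1 e2
  rw [e1, e2, transfer_Ex_sum H S M ω₀ Z (fun z ω => (hat (subP gen k ω j' D) z).re *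
          (1 - (hat (lawP gen (upP k ω D) D M) z).re))]
  have h3 : ∑ z ∈ Z, Ex H S M (fun ω => (hat (subP gen k ω j' D) z).re *
          (1 - (hat (lawP gen (upP k ω D) D M) z).re)) ω₀ ≤ Z.card * ε' := by
    have := Finset.sum_le_sum (fun z hz => hDf z D (hDZ z hz) M hDM)
    refine this.trans (le_of_eq ?_)
    rw [Finset.sum_const, nsmul_eq_mul]
  have h4 : 8 / η * (Z.card * ε') ≤ ε / 2 := by
    have h5 : 8 / η * (Z.card * ε') = ε / 2 * (Z.card / (Z.card + 1)) := by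
      rw [hε']
      field_simp
      ring
    rw [h5]
    have h6 : (Z.card : ℝ) / (Z.card + 1) ≤ 1 := by
      rw [div_le_one (by positivity)]
      linarith
    nlinarith
  have h5 := mul_le_mul_of_nonneg_left h3 (by positivity : 0 ≤ 8 / η)
  linarith

end

end Pool.NilAvg
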