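import Pool.Agent.Helper986.NilAvg.Defs
import Pool.Agent.Helper986.NilAvg.ApiEv
import Pool.Agent.Helper986.NilAvg.ApiNrm
import Pool.Agent.Helper986.NilAvg.ApiHat
import Pool.Agent.Helper986.NilAvg.TriPos
import Pool.Agent.Helper986.NilAvg.WinPos
import Pool.Agent.Helper986.NilAvg.Inv
import Pool.Agent.Helper986.NilAvg.InvWin
import Pool.Agent.Helper986.NilAvg.ExApi
import Pool.Agent.Helper986.NilAvg.ExProd
import Pool.Agent.Helper986.NilAvg.ExUp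
import Pool.Agent.Helper986.NilAvg.Transfer
import Pool.Agent.Helper986.NilAvg.Energy
import Pool.Agent.Helper986.NilAvg.Pigeon

set_option autoImplicit false

namespace Pool.NilAvg

open Filter Topology
open scoped ComplexConjugate

noncomputable section

variable {κ : Type}


theorem convC_lawP_range (gen : ℕ → κ → List ℤ) (ω : ℕ → ℕ × κ) (D : ℕ) :
    lawP gen ω 0 D = ∏ w ∈ Finset.range D, win gen w (ω w) := by
  unfold lawP
  rw [Finset.range_eq_Ico]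

theorem convC_lawP_dep (gen : ℕ → κ → List ℤ) (ω ω' : ℕ → ℕ × κ) (a D : ℕ)
    (h : ∀ w < D, ω w = ω' w) : lawP gen ω a D = lawP gen ω' a D := by
  unfold lawP
  refine Finset.prod_congr rfl (fun w hw => ?_)
  rw [h w (Finset.mem_Ico.mp hw).2]

theorem convC_subP_dep (gen : ℕ → κ → List ℤ) (k : ℕ → ℕ) (ω ω' : ℕ → ℕ × κ) (a D : ℕ)
    (h : ∀ w < D, ω w = ω' w) : subP gen k ω a D = subP gen k ω' a D := by
  unfold subP
  refine Finset.prod_congr rfl (fun w hw => ?_)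
  rw [h w (Finset.mem_Ico.mp hw).2]

/-- evaluation as a linear map -/
def convC_L (f : ℤ → ℂ) : Law →ₗ[ℝ] ℂ where
  toFun μ := ev μ f
  map_add' μ ν := ev_add_law μ ν f
  map_smul' c μ := ev_smul_law c μ f

theorem ev_W (gen : ℕ → κ → List ℤ) (H : ℕ → ℕ) (S : ℕ → Finset κ)
    (hH : ∀ w, 1 ≤ H w) (hS : ∀ w, (S w).Nonempty) (f : ℤ → ℂ) (D M : ℕ) (h : D ≤ M)
    (ω₀ : ℕ → ℕ × κ) :
    ev (∏ w ∈ Finset.range D, W gen H S w) f = Ex H S M (fun ω => ev (lawP gen ω 0 D) f) ω₀ := by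
  rw [Ex_of_dep H S hH hS D M h (fun ω => ev (lawP gen ω 0 D) f) (fun ω ω' hω => by
    show ev (lawP gen ω 0 D) f = ev (lawP gen ω' 0 D) f
    rw [convC_lawP_dep gen ω ω' 0 D hω]) ω₀]
  have h1 := Ex_prod (A := Law) H S D (fun w p => win gen w p) ω₀
  have h2 := Ex_map (convC_L f) H S D (fun ω => ∏ w ∈ Finset.range D, win gen w (ω w)) ω₀
  rw [h1] at h2
  have h3 : (fun ω : ℕ → ℕ × κ => ev (lawP gen ω 0 D) f) =
      fun ω => convC_L f (∏ w ∈ Finset.range D, win gen w (ω w)) := by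
    funext ω
    rw [convC_lawP_range]
    rfl
  rw [h3, ← h2]
  rfl

theorem convC_tail (s : ℕ → ℝ) (hs0 : ∀ w, 0 ≤ s w) (hs : Summable s) (ε : ℝ) (hε : 0 < ε) :
    ∃ j, ∀ a ≥ j, ∀ b, ∑ w ∈ Finset.Ico a b, s w ≤ ε := by
  have h1 := hs.hasSum.tendsto_sum_nat
  rw [Metric.tendsto_atTop] at h1
  obtain ⟨j, hj⟩ := h1 ε hε
  refine ⟨j, fun a ha b => ?_⟩
  rcases le_or_gt a b with hab | hab
  · rw [Finset.sum_Ico_eq_sub _ hab]
    have h2 := hj a ha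
    rw [Real.dist_eq, abs_lt] at h2
    have h3 : ∑ w ∈ Finset.range b, s w ≤ ∑' w, s w := hs.sum_le_tsum _ (fun w _ => hs0 w)
    linarith [h2.1]
  · rw [Finset.Ico_eq_empty (not_lt.mpr hab.le), Finset.sum_empty]
    exact hε.le

theorem convC_sub_eq (gen : ℕ → κ → List ℤ) (ω : ℕ → ℕ × κ) (D D' : ℕ) (h : D ≤ D') (g : ℤ → ℂ) :
    ev (lawP gen ω 0 D') g - ev (lawP gen ω 0 D) g =
      ev (lawP gen ω D D') fun u => ev (lawP gen ω 0 D) fun n => (g (n + u) - g n) := by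
  have h1 : ev (lawP gen ω 0 D') g =
      ev (lawP gen ω D D') fun u => ev (lawP gen ω 0 D) fun n => g (n + u) := by
    rw [← lawP_mul gen ω (Nat.zero_le D) h, ev_mul, ev_comm]
  have h2 : ev (lawP gen ω 0 D) g = ev (lawP gen ω D D') fun _ => ev (lawP gen ω 0 D) g :=
    ((lawP_pos gen ω D D').prob.ev_const _).symm
  have h3 : ev (lawP gen ω 0 D') g =
      ev (lawP gen ω D D') (fun u => ev (lawP gen ω 0 D) fun n => (g (n + u) - g n)) +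
        ev (lawP gen ω D D') fun _ => ev (lawP gen ω 0 D) g := by
    rw [h1, ← ev_add_fun]
    congr 1
    funext u
    rw [← ev_add_fun]
    congr 1
    funext n
    ring
  rw [h3, ← h2]
  ring

theorem convC_sq (gen : ℕ → κ → List ℤ) (ω : ℕ → ℕ × κ) (D D' : ℕ) (h : D ≤ D') (g : ℤ → ℂ) :
    ‖ev (lawP gen ω 0 D') g - ev (lawP gen ω 0 D) g‖ ^ 2 ≤
      ev (lawP gen ω D D') fun u => ev (lawP gen ω 0 D) fun n => ‖g (n + u) - g n‖ ^ 2 := by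
  rw [convC_sub_eq gen ω D D' h g]
  refine ((lawP_pos gen ω D D').prob.sq_ev_le _).trans ?_
  refine (lawP_pos gen ω D D').prob.ev_mono (fun u _ => ?_)
  exact (lawP_pos gen ω 0 D).prob.sq_ev_le _

theorem convC_Ex_lin (H : ℕ → ℕ) (S : ℕ → Finset κ) (hH : ∀ w, 1 ≤ H w) (hS : ∀ w, (S w).Nonempty)
    (M : ℕ) (ω₀ : ℕ → ℕ × κ) (A B : (ℕ → ℕ × κ) → ℝ) (c : ℝ) :
    Ex H S M (fun ω => 2 * (A ω - B ω) + c) ω₀ = 2 * (Ex H S M A ω₀ - Ex H S M B ω₀) + c := by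
  have h1 : (fun ω => 2 * (A ω - B ω) + c) =
      fun ω => ((fun ω => (2:ℝ) • A ω) ω + (fun ω => ((-2:ℝ) • B ω + (fun _ => c) ω)) ω) := by
    funext ω
    simp only [smul_eq_mul]
    ring
  rw [h1, Ex_add, Ex_smul, Ex_add H S M (fun ω => (-2:ℝ) • B ω) (fun _ => c), Ex_smul,
    Ex_const H S hH hS]
  simp only [smul_eq_mul]
  ring

theorem convC_Ex_add_const (H : ℕ → ℕ) (S : ℕ → Finset κ) (hH : ∀ w, 1 ≤ H w)
    (hS : ∀ w, (S w).Nonempty)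
    (M : ℕ) (ω₀ : ℕ → ℕ × κ) (A : (ℕ → ℕ × κ) → ℝ) (c : ℝ) :
    Ex H S M (fun ω => c + A ω) ω₀ = c + Ex H S M A ω₀ := by
  rw [Ex_add H S M (fun _ => c) A, Ex_const H S hH hS]

theorem convC_en_dep (gen : ℕ → κ → List ℤ) (k : ℕ → ℕ) (f : ℤ → ℂ) (j D M : ℕ) (hDM : D ≤ M)
    (ω ω' : ℕ → ℕ × κ) (h : ∀ w < M, ω w = ω' w) : en gen k f j D M ω = en gen k f j D M ω' := by
  unfold en
  rw [convC_lawP_dep gen ω ω' 0 M h, convC_subP_dep gen k ω ω' j D (fun w hw => h w (hw.trans_le hDM))]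

theorem convC_main (gen : ℕ → κ → List ℤ) (H k m : ℕ → ℕ) (S : ℕ → Finset κ)
    (hH : ∀ w, 1 ≤ H w) (hS : ∀ w, (S w).Nonempty) (hm : ∀ w x, (gen w x).length ≤ m w)
    (h1 : Summable fun w => (m w : ℝ) / 2 ^ k w) (h2 : Summable fun w => (k w : ℝ) / H w)
    {θ : ℤ → ℝ} {Λ : Finset ℝ} {f : ℤ → ℂ} (hf : TameWith θ Λ f) (hf1 : ∀ n, ‖f n‖ ≤ 1)
    (ω₀ : ℕ → ℕ × κ) (η : ℝ) (hη : 0 < η) :
    ∃ N, ∀ D' ≥ N, ∃ y : ℝ, 0 ≤ y ∧ y ^ 2 ≤ 45 * η ∧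
      ‖ev (∏ w ∈ Finset.range D', W gen H S w) f - ev (∏ w ∈ Finset.range N, W gen H S w) f‖ ≤
        2 * η + y := by
  have hs1 : Summable (fun w => 2 * (m w : ℝ) / 2 ^ k w) := by
    refine (h1.mul_left 2).congr (fun w => ?_)
    ring
  obtain ⟨j, hj⟩ := convC_tail _ (fun w => by positivity) hs1 η hη
  obtain ⟨D₁, hD₁, hpig⟩ := pigeon gen H k S hH hS f hf1 ω₀ j j η hη
  obtain ⟨D₂, hD₂, htr⟩ := transfer gen H k m S hH hS hm h1 h2 hf hf1 ω₀ j D₁ η hη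
  obtain ⟨D₃, hD₃⟩ := convC_tail _ (fun w => by positivity) h2 η hη
  refine ⟨max D₂ D₃, fun D' hD' => ?_⟩
  set D := max D₂ D₃ with hD
  have hD2 : D₂ ≤ D := le_max_left _ _
  have hD3 : D₃ ≤ D := le_max_right _ _
  have hD1D : D₁ ≤ D := hD₂.trans hD2
  obtain ⟨M, hM1, hM2⟩ := ((hpig D' (hD1D.trans hD')).and_eventually (eventually_ge_atTop D')).exists
  have hDM : D ≤ M := le_trans hD' hM2
  -- pointwise functions
  set g : (ℕ → ℕ × κ) → ℤ → ℂ := fun ω => av (subP gen k ω j D₁) f with hg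
  set Y : (ℕ → ℕ × κ) → ℝ := fun ω => ‖ev (lawP gen ω 0 D') (g ω) - ev (lawP gen ω 0 D) (g ω)‖ with hY
  set Q : (ℕ → ℕ × κ) → ℝ := fun ω => ev (lawP gen ω D D') fun u => ev (lawP gen ω 0 D) fun n =>
        ‖av (subP gen k ω j D₁) f (n + u) - av (subP gen k ω j D₁) f n‖ ^ 2 with hQ
  have hYQ : ∀ ω, Y ω ^ 2 ≤ Q ω := fun ω => convC_sq gen ω D D' hD' (g ω)
  -- the two energies
  set A : (ℕ → ℕ × κ) → ℝ := en gen k f j D₁ M with hA
  set B : (ℕ → ℕ × κ) → ℝ := en gen k f j D' M with hB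
  have hA1 := Ex_up H k S hH hS D M A 1 (fun ω => by
      have := en_mem gen k f hf1 j D₁ M ω
      rw [abs_of_nonneg this.1]; exact this.2)
    (fun ω ω' h => convC_en_dep gen k f j D₁ M (hD1D.trans hDM) ω ω' h) ω₀
  have hB1 := Ex_up H k S hH hS D M B 1 (fun ω => by
      have := en_mem gen k f hf1 j D' M ω
      rw [abs_of_nonneg this.1]; exact this.2)
    (fun ω ω' h => convC_en_dep gen k f j D' M hM2 ω ω' h) ω₀
  have hkH : ∑ w ∈ Finset.Ico D M, (k w : ℝ) / H w ≤ η := hD₃ D hD3 M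
  have hA2 := (abs_le.mp hA1).2
  have hB2 := (abs_le.mp hB1).1
  -- expectation of Q
  have hQ1 := htr D hD2 D' hD' M hM2
  have hQ2 : Ex H S M (fun ω => ev (lawP gen ω D D') fun u =>
        ev (lawP gen (upP k ω D) 0 M) fun n =>
        ‖av (subP gen k ω j D₁) f (n + u) - av (subP gen k ω j D₁) f n‖ ^ 2) ω₀ ≤
      Ex H S M (fun ω => 2 * ((fun ω => A (upP k ω D)) ω - (fun ω => B (upP k ω D)) ω) + 12 * η) ω₀ := by
    refine Ex_mono H S M ω₀ (fun ω _ => ?_)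
    refine (en_up gen m k hm f hf1 ω j D₁ D D' M hD₁ hD1D hD' hM2).trans ?_
    have := hj D₁ hD₁ M
    show 2 * (A (upP k ω D) - B (upP k ω D)) + 12 * ∑ w ∈ Finset.Ico D₁ M, 2 * (m w : ℝ) / 2 ^ k w ≤
      2 * (A (upP k ω D) - B (upP k ω D)) + 12 * η
    linarith
  rw [convC_Ex_lin H S hH hS] at hQ2
  have hQ3 : Ex H S M Q ω₀ ≤ 45 * η := by
    have hM1' : Ex H S M A ω₀ - Ex H S M B ω₀ ≤ η := hM1
    have hQ1' : Ex H S M Q ω₀ ≤ 2 * Ex H S M (fun ω => ev (lawP gen ω D D') fun u =>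
        ev (lawP gen (upP k ω D) 0 M) fun n =>
        ‖av (subP gen k ω j D₁) f (n + u) - av (subP gen k ω j D₁) f n‖ ^ 2) ω₀ + η := hQ1
    linarith
  have hYsq : (Ex H S M Y ω₀) ^ 2 ≤ 45 * η := by
    refine (Ex_sq_le H S hH hS M Y ω₀).trans (le_trans ?_ hQ3)
    exact Ex_mono H S M ω₀ (fun ω _ => hYQ ω)
  have hY0 : 0 ≤ Ex H S M Y ω₀ := by
    have h5 := Ex_mono H S M (F := fun _ => 0) (G := Y) ω₀ (fun ω _ => norm_nonneg _)
    rwa [Ex_const H S hH hS] at h5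
  refine ⟨Ex H S M Y ω₀, hY0, hYsq, ?_⟩
  rw [ev_W gen H S hH hS f D' M hM2 ω₀, ev_W gen H S hH hS f D M hDM ω₀]
  have hdiff : Ex H S M (fun ω => ev (lawP gen ω 0 D') f) ω₀ - Ex H S M (fun ω => ev (lawP gen ω 0 D) f) ω₀ =
      Ex H S M (fun ω => ev (lawP gen ω 0 D') f - ev (lawP gen ω 0 D) f) ω₀ := by
    have h6 := Ex_add H S M (fun ω => ev (lawP gen ω 0 D') f - ev (lawP gen ω 0 D) f)
      (fun ω => ev (lawP gen ω 0 D) f) ω₀
    simp only [sub_add_cancel] at h6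
    rw [h6]; ring
  rw [hdiff]
  refine (norm_Ex_le H S M _ ω₀).trans ?_
  rw [← convC_Ex_add_const H S hH hS]
  refine Ex_mono H S M ω₀ (fun ω _ => ?_)
  have hinv : ∀ E, D₁ ≤ E → ‖ev (lawP gen ω 0 E) (g ω) - ev (lawP gen ω 0 E) f‖ ≤ η := by
    intro E hE
    have h7 := (inv_subP gen m k hm ω j D₁ E hE).ev (subP_pos gen k ω j D₁).prob f 1 hf1
    rw [mul_one] at h7
    exact h7.trans (hj j le_rfl D₁)
  have h8 := hinv D' (hD1D.trans hD')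
  have h9 := hinv D hD1D
  have h10 : ev (lawP gen ω 0 D') f - ev (lawP gen ω 0 D) f =
      (ev (lawP gen ω 0 D') (g ω) - ev (lawP gen ω 0 D) (g ω)) -
        (ev (lawP gen ω 0 D') (g ω) - ev (lawP gen ω 0 D') f) +
        (ev (lawP gen ω 0 D) (g ω) - ev (lawP gen ω 0 D) f) := by ring
  rw [h10]
  refine (norm_add_le _ _).trans ?_
  have h11 := norm_sub_le (ev (lawP gen ω 0 D') (g ω) - ev (lawP gen ω 0 D) (g ω))
    (ev (lawP gen ω 0 D') (g ω) - ev (lawP gen ω 0 D') f)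
  show _ ≤ 2 * η + ‖ev (lawP gen ω 0 D') (g ω) - ev (lawP gen ω 0 D) (g ω)‖
  linarith

theorem convC_one (gen : ℕ → κ → List ℤ) (H k m : ℕ → ℕ) (S : ℕ → Finset κ)
    (hH : ∀ w, 1 ≤ H w) (hS : ∀ w, (S w).Nonempty) (hm : ∀ w x, (gen w x).length ≤ m w)
    (h1 : Summable fun w => (m w : ℝ) / 2 ^ k w) (h2 : Summable fun w => (k w : ℝ) / H w)
    {θ : ℤ → ℝ} {Λ : Finset ℝ} {f : ℤ → ℂ} (hf : TameWith θ Λ f) (hf1 : ∀ n, ‖f n‖ ≤ 1) :
    ∃ L, Tendsto (fun D => ev (∏ w ∈ Finset.range D, W gen H S w) f) atTop (𝓝 L) := by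
  obtain ⟨x₀, _⟩ := hS 0
  refine cauchySeq_tendsto_of_complete ?_
  rw [Metric.cauchySeq_iff']
  intro δ hδ
  set η := min (δ / 8) (δ ^ 2 / 720) with hη
  have hη0 : 0 < η := lt_min (by positivity) (by positivity)
  obtain ⟨N, hN⟩ := convC_main gen H k m S hH hS hm h1 h2 hf hf1 (fun _ => (0, x₀)) η hη0
  refine ⟨N, fun D' hD' => ?_⟩
  obtain ⟨y, hy0, hy, hle⟩ := hN D' hD'
  rw [dist_eq_norm]
  have e1 : η ≤ δ / 8 := min_le_left _ _
  have e2 : η ≤ δ ^ 2 / 720 := min_le_right _ _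
  have e3 : y ≤ δ / 4 := by
    have : y ^ 2 ≤ (δ / 4) ^ 2 := by nlinarith
    exact (sq_le_sq₀ hy0 (by positivity)).mp this
  linarith

/-- convergence of the averages of tame sequences along the products of window laws -/
theorem convC (gen : ℕ → κ → List ℤ) (H k m : ℕ → ℕ) (S : ℕ → Finset κ)
    (hH : ∀ w, 1 ≤ H w) (hS : ∀ w, (S w).Nonempty) (hm : ∀ w x, (gen w x).length ≤ m w)
    (h1 : Summable fun w => (m w : ℝ) / 2 ^ k w) (h2 : Summable fun w => (k w : ℝ) / H w)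
    {f : ℤ → ℂ} (hf : Tame f) :
    ∃ L, Tendsto (fun D => ev (∏ w ∈ Finset.range D, W gen H S w) f) atTop (𝓝 L) := by
  obtain ⟨θ, Λ, ⟨⟨C, hC⟩, hadd, happr⟩⟩ := hf
  set c : ℝ := (|C| + 1)⁻¹ with hc
  have hC0 : 0 < |C| + 1 := by positivity
  have hc0 : 0 < c := inv_pos.mpr hC0
  have hf1 : ∀ n, ‖(c : ℂ) * f n‖ ≤ 1 := by
    intro n
    rw [norm_mul, Complex.norm_real, Real.norm_eq_abs, abs_of_pos hc0, hc, inv_mul_le_iff₀ hC0, mul_one]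
    exact (hC n).trans ((le_abs_self C).trans (by linarith))
  have hf' : TameWith θ Λ (fun n => (c : ℂ) * f n) := by
    refine ⟨⟨1, hf1⟩, hadd, fun ε hε => ?_⟩
    obtain ⟨Ξ, K, hK⟩ := happr (ε / c ^ 2) (by positivity)
    refine ⟨Ξ, c ^ 2 * K, fun u => ?_⟩
    obtain ⟨p, hp1, hp2⟩ := hK u
    refine ⟨fun ξ => (c : ℂ) ^ 2 * p ξ, ?_, fun n => ?_⟩
    · have h3 : ∑ ξ ∈ Ξ, ‖(c : ℂ) ^ 2 * p ξ‖ = c ^ 2 * ∑ ξ ∈ Ξ, ‖p ξ‖ := by
        rw [Finset.mul_sum]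
        refine Finset.sum_congr rfl (fun ξ _ => ?_)
        rw [norm_mul, norm_pow, Complex.norm_real, Real.norm_eq_abs, abs_of_pos hc0]
      rw [h3]
      exact mul_le_mul_of_nonneg_left hp1 (by positivity)
    · have h4 : (c : ℂ) * f (n + u) * conj ((c : ℂ) * f n) -
          e (n * θ u) * ∑ ξ ∈ Ξ, (c : ℂ) ^ 2 * p ξ * e (n * ξ) =
          (c : ℂ) ^ 2 * (f (n + u) * conj (f n) - e (n * θ u) * ∑ ξ ∈ Ξ, p ξ * e (n * ξ)) := by
        have h5 : ∑ ξ ∈ Ξ, (c : ℂ) ^ 2 * p ξ * e (n * ξ) = (c : ℂ) ^ 2 * ∑ ξ ∈ Ξ, p ξ * e (n * ξ) := by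
          rw [Finset.mul_sum]
          refine Finset.sum_congr rfl (fun ξ _ => ?_)
          ring
        rw [h5, map_mul, Complex.conj_ofReal]
        ring
      rw [h4, norm_mul, norm_pow, Complex.norm_real, Real.norm_eq_abs, abs_of_pos hc0]
      calc c ^ 2 * ‖f (n + u) * conj (f n) - e (n * θ u) * ∑ ξ ∈ Ξ, p ξ * e (n * ξ)‖
          ≤ c ^ 2 * (ε / c ^ 2) := mul_le_mul_of_nonneg_left (hp2 n) (by positivity)
        _ = ε := by field_simp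
  obtain ⟨L, hL⟩ := convC_one gen H k m S hH hS hm h1 h2 hf' hf1
  refine ⟨(c : ℂ)⁻¹ * L, ?_⟩
  have h6 := hL.const_mul ((c : ℂ)⁻¹)
  refine h6.congr (fun D => ?_)
  rw [ev_const_mul, ← mul_assoc, inv_mul_cancel₀ (by exact_mod_cast hc0.ne'), one_mul]

end

end Pool.NilAvg
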