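import Pool.Agent.Helper986.NilAvg.Defs

set_option autoImplicit false

namespace Pool.NilAvg

open Filter Topology
open scoped ComplexConjugate

noncomputable section

variable {κ : Type}

/-- half number of places of the window `w` -/
def ell (w : ℕ) : ℕ := 16 ^ w
/-- loss of scale -/
def kk (w : ℕ) : ℕ := 6 * w
/-- number of scales -/
def HH (w : ℕ) : ℕ := (6 * w + 1) * 2 ^ w
/-- bits per place -/
def aa (w : ℕ) : ℕ := HH w + 6 * w + 20
/-- starting exponent of the window `w` -/
def st (w : ℕ) : ℕ := ∑ v ∈ Finset.range w, 2 * ell v * aa v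

end

end Pool.NilAvg
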