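import Pool.Agent.Helper986.NilAvg.Defs
import Pool.Agent.Helper986.NilAvg.ApiHat
import Pool.Agent.Helper986.NilAvg.DefsB
import Pool.Agent.Helper986.NilAvg.BoundOfGood
import Pool.Agent.Helper986.NilAvg.Params

set_option autoImplicit false

namespace Pool.NilAvg

open Filter Topology
open scoped ComplexConjugate

noncomputable section

variable {κ : Type}


theorem core (Bm : ℕ → ℕ → ℕ → Bool) (hBm : ∀ᶠ w in atTop, GoodMat w (aa w) (ell w) (Bm w))
    {f : ℤ → ℂ} (hf : Tame f) (ε : ℝ) (hε : 0 < ε) :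
    ∀ᶠ w in atTop, ∀ m t : ℤ,
      ‖(4 ^ (ell w) : ℂ)⁻¹ * ∑ y ∈ (Finset.range (ell w)).powerset,
        ∑ z ∈ (Finset.range (ell w)).powerset, (sgn (Bm w) y z : ℂ) *
          f (m + t * (pos (aa w) y + 2 ^ (aa w * ell w) * pos (aa w) z))‖ ≤ ε := by
  obtain ⟨θ, Λ, hT⟩ := hf
  obtain ⟨Ξ, K0, happ⟩ := hT.appr (ε ^ 2 / 2) (by positivity)
  have hK : 0 ≤ max K0 0 := le_max_right _ _
  obtain ⟨N, hN⟩ := exists_nat_gt (4 * max K0 0 / ε ^ 2)
  filter_upwards [hBm, eventually_ge_atTop Λ.card, eventually_ge_atTop Ξ.card,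
    eventually_ge_atTop 1, eventually_ge_atTop N] with w hB hw1 hw2 hw3 hw4 m t
  have hw0 : (0 : ℝ) < w := by exact_mod_cast hw3
  have h1 := bound_of_good w (aa w) (ell w) hw3 (Bm w) hB f θ Λ Ξ (max K0 0) (ε ^ 2 / 2) hK
    hw1 hw2 hT.add (fun u => by
      obtain ⟨p, h1, h2⟩ := happ u
      exact ⟨p, h1.trans (le_max_left _ _), h2⟩) m t
  have hN' : 4 * max K0 0 / ε ^ 2 ≤ w := hN.le.trans (by exact_mod_cast hw4)
  rw [div_le_iff₀ (by positivity)] at hN'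
  have h2 : 2 * max K0 0 / w ≤ ε ^ 2 / 2 := by
    rw [div_le_iff₀ hw0]
    linarith
  rw [← pow_le_pow_iff_left₀ (norm_nonneg _) hε.le two_ne_zero]
  linarith

end

end Pool.NilAvg
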