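import Pool.Agent.Helper986.NilAvg.Defs
import Pool.Agent.Helper986.NilAvg.DefsB
import Pool.Agent.Helper986.NilAvg.Params

set_option autoImplicit false

namespace Pool.NilAvg

open Filter Topology
open scoped ComplexConjugate

noncomputable section

variable {κ : Type}

/-- generators of the window `w` with parameter `x = (y, z)` -/
def gen (w : ℕ) (x : Finset ℕ × Finset ℕ) : List ℤ :=
  (2 ^ st w * (pos (aa w) x.1 + 2 ^ (aa w * ell w) * pos (aa w) x.2)) ::
    (List.range (2 * ell w)).map fun i => 2 * 2 ^ (st w + aa w * i)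

open Classical in
/-- parameters with `sgn = σ` -/
def Spar (Bm : ℕ → ℕ → ℕ → Bool) (σ : ℝ) (w : ℕ) : Finset (Finset ℕ × Finset ℕ) :=
  ((Finset.range (ell w)).powerset ×ˢ (Finset.range (ell w)).powerset).filter fun x =>
    sgn (Bm w) x.1 x.2 = σ

/-- the older windows -/
def nuP (Bm : ℕ → ℕ → ℕ → Bool) (D : ℕ) : Law :=
  ∏ w ∈ Finset.range D, W gen HH (Spar Bm 1) w

/-- the law with last window of sign `σ` -/
def nuS (Bm : ℕ → ℕ → ℕ → Bool) (σ : ℝ) (D : ℕ) : Law := nuP Bm D * W gen HH (Spar Bm σ) D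

end

end Pool.NilAvg
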