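import Pool.Agent.Helper986.NilAvg.Defs
import Pool.Agent.Helper986.NilAvg.ApiEv
import Pool.Agent.Helper986.NilAvg.ApiNrm
import Pool.Agent.Helper986.NilAvg.ApiHat
import Pool.Agent.Helper986.NilAvg.TriPos
import Pool.Agent.Helper986.NilAvg.WinPos
import Pool.Agent.Helper986.NilAvg.ConvC
import Pool.Agent.Helper986.NilAvg.DefsB
import Pool.Agent.Helper986.NilAvg.Params
import Pool.Agent.Helper986.NilAvg.Windows
import Pool.Agent.Helper986.NilAvg.WindowsFacts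
import Pool.Agent.Helper986.NilAvg.Core

set_option autoImplicit false

namespace Pool.NilAvg

open Filter Topology
open scoped ComplexConjugate

noncomputable section

variable {κ : Type}


theorem convNu_tame_one : Tame (fun _ => (1 : ℂ)) := by
  refine ⟨fun _ => 0, {0}, ⟨⟨1, by simp⟩, fun u v => ⟨0, by simp, 0, by simp⟩, ?_⟩⟩
  intro ε hε
  refine ⟨{0}, 1, fun u => ⟨fun _ => 1, by simp, fun n => ?_⟩⟩
  have h0 : e 0 = 1 := by simpa using e_int 0
  simp [h0, hε.le]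

open Classical in
theorem convNu_split {X : Type*} (T : Finset X) (s : X → ℝ)
    (hs : ∀ x ∈ T, s x = 1 ∨ s x = -1) (G : X → ℂ) :
    ∑ x ∈ T, (s x : ℂ) * G x = (∑ x ∈ T.filter (fun x => s x = 1), G x) -
      ∑ x ∈ T.filter (fun x => s x = -1), G x := by
  have h1 : T.filter (fun x => ¬ s x = 1) = T.filter (fun x => s x = -1) := by
    refine Finset.filter_congr fun x hx => ?_
    rcases hs x hx with h | h <;> rw [h] <;> norm_num
  rw [← Finset.sum_filter_add_sum_filter_not T (fun x => s x = 1), h1, sub_eq_add_neg,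
    ← Finset.sum_neg_distrib]
  congr 1
  · refine Finset.sum_congr rfl fun x hx => ?_
    rw [(Finset.mem_filter.1 hx).2]; simp
  · refine Finset.sum_congr rfl fun x hx => ?_
    rw [(Finset.mem_filter.1 hx).2]; simp

open Classical in
theorem convNu_cards {X : Type*} (T : Finset X) (s : X → ℝ)
    (hs : ∀ x ∈ T, s x = 1 ∨ s x = -1) (ε N : ℝ)
    (hN : (T.card : ℝ) = N) (hN0 : 0 < N)
    (h2 : ‖∑ x ∈ T, (s x : ℂ) * 1‖ ≤ ε * N) (hε : ε ≤ 1 / 2) :
    N / 4 ≤ ((T.filter fun x => s x = 1).card : ℝ) ∧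
    N / 4 ≤ ((T.filter fun x => s x = -1).card : ℝ) ∧
    |((T.filter fun x => s x = 1).card : ℝ) - (T.filter fun x => s x = -1).card| ≤ ε * N := by
  have h1 : T.filter (fun x => ¬ s x = 1) = T.filter (fun x => s x = -1) := by
    refine Finset.filter_congr fun x hx => ?_
    rcases hs x hx with h | h <;> rw [h] <;> norm_num
  have h3 : ((T.filter fun x => s x = 1).card : ℝ) + (T.filter fun x => s x = -1).card = N := by
    rw [← hN, ← h1]
    exact_mod_cast Finset.card_filter_add_card_filter_not (s := T) (fun x => s x = 1)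
  have h4 : |((T.filter fun x => s x = 1).card : ℝ) - (T.filter fun x => s x = -1).card| ≤ ε * N := by
    rw [convNu_split T s hs] at h2
    simp only [Finset.sum_const, nsmul_eq_mul, mul_one] at h2
    have h5 : (((((T.filter fun x => s x = 1).card : ℝ) -
        (T.filter fun x => s x = -1).card : ℝ)) : ℂ) =
        ((T.filter fun x => s x = 1).card : ℂ) - (T.filter fun x => s x = -1).card := by
      push_cast; ring
    rw [← h5, Complex.norm_real, Real.norm_eq_abs] at h2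
    exact h2
  have h5 := abs_le.1 h4
  have h6 : ε * N ≤ 1 / 2 * N := mul_le_mul_of_nonneg_right hε hN0.le
  refine ⟨?_, ?_, h4⟩
  · linarith [h5.1]
  · linarith [h5.2]

open Classical in
theorem convNu_avg {X : Type*} (T : Finset X) (s : X → ℝ)
    (hs : ∀ x ∈ T, s x = 1 ∨ s x = -1) (G : X → ℂ) (C ε N : ℝ) (hC : 0 ≤ C)
    (hG : ∀ x, ‖G x‖ ≤ C)
    (hN : (T.card : ℝ) = N) (hN0 : 0 < N) (h1 : ‖∑ x ∈ T, (s x : ℂ) * G x‖ ≤ ε * N)
    (h2 : ‖∑ x ∈ T, (s x : ℂ) * 1‖ ≤ ε * N) (hε : ε ≤ 1 / 2) :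
    ‖((T.filter fun x => s x = -1).card : ℝ)⁻¹ • (∑ x ∈ T.filter (fun x => s x = -1), G x) -
      ((T.filter fun x => s x = 1).card : ℝ)⁻¹ • ∑ x ∈ T.filter (fun x => s x = 1), G x‖
      ≤ 4 * (1 + C) * ε := by
  obtain ⟨hp, hm, hpm⟩ := convNu_cards T s hs ε N hN hN0 h2 hε
  rw [convNu_split T s hs] at h1
  have hM : ‖∑ x ∈ T.filter (fun x => s x = -1), G x‖ ≤
      ((T.filter fun x => s x = -1).card : ℝ) * C := by
    refine (norm_sum_le _ _).trans ?_
    rw [← nsmul_eq_mul]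
    exact Finset.sum_le_card_nsmul _ _ _ fun x _ => hG x
  generalize (∑ x ∈ T.filter (fun x => s x = 1), G x) = P at *
  generalize (∑ x ∈ T.filter (fun x => s x = -1), G x) = M at *
  generalize ((T.filter fun x => s x = 1).card : ℝ) = p at *
  generalize ((T.filter fun x => s x = -1).card : ℝ) = m at *
  have hp0 : 0 < p := by linarith
  have hm0 : 0 < m := by linarith
  have e1 : m⁻¹ • M - p⁻¹ • P = -(p⁻¹ • (P - M)) + ((p - m) / (p * m)) • M := by
    have : (p - m) / (p * m) = m⁻¹ - p⁻¹ := by field_simp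
    rw [this, sub_smul, smul_sub]
    abel
  rw [e1]
  have e2 : ‖-(p⁻¹ • (P - M)) + ((p - m) / (p * m)) • M‖ ≤ p⁻¹ * (ε * N) + p⁻¹ * (C * (ε * N)) := by
    refine (norm_add_le _ _).trans (add_le_add ?_ ?_)
    · rw [norm_neg, norm_smul, Real.norm_of_nonneg (inv_pos.2 hp0).le]
      exact mul_le_mul_of_nonneg_left h1 (inv_pos.2 hp0).le
    · rw [norm_smul, Real.norm_eq_abs, abs_div, abs_of_pos (mul_pos hp0 hm0)]
      calc |p - m| / (p * m) * ‖M‖ ≤ |p - m| / (p * m) * (m * C) :=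
            mul_le_mul_of_nonneg_left hM (by positivity)
        _ = p⁻¹ * (C * |p - m|) := by field_simp
        _ ≤ p⁻¹ * (C * (ε * N)) := by
            refine mul_le_mul_of_nonneg_left (mul_le_mul_of_nonneg_left hpm hC) (inv_pos.2 hp0).le
  refine e2.trans ?_
  have hεN : 0 ≤ ε * N := (abs_nonneg _).trans hpm
  have e3 : p⁻¹ ≤ (N / 4)⁻¹ := inv_anti₀ (by positivity) hp
  calc p⁻¹ * (ε * N) + p⁻¹ * (C * (ε * N)) = p⁻¹ * ((1 + C) * (ε * N)) := by ring
    _ ≤ (N / 4)⁻¹ * ((1 + C) * (ε * N)) :=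
        mul_le_mul_of_nonneg_right e3 (mul_nonneg (by linarith) hεN)
    _ = 4 * (1 + C) * ε := by field_simp

theorem convNu_tri (r : ℕ) (g : ℤ) (h : ℤ → ℂ) :
    ev (tri r g) h = ((2 : ℝ) ^ r)⁻¹ • ∑ i ∈ Finset.range (2 ^ r),
      ((2 : ℝ) ^ r)⁻¹ • ∑ j ∈ Finset.range (2 ^ r), h (i * g + j * (-g)) := by
  unfold tri
  rw [ev_mul]
  unfold box
  simp only [ev_smul_law, ev_sum_law, ev_pt]

theorem convNu_norm_avg {ι : Type*} (s : Finset ι) (c ε : ℝ) (hc : (s.card : ℝ) = c) (hc0 : 0 < c)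
    (F : ι → ℂ) (h : ∀ i ∈ s, ‖F i‖ ≤ ε) : ‖c⁻¹ • ∑ i ∈ s, F i‖ ≤ ε := by
  rw [norm_smul, Real.norm_of_nonneg (inv_pos.2 hc0).le]
  have h1 : ‖∑ i ∈ s, F i‖ ≤ c * ε := by
    refine (norm_sum_le _ _).trans ?_
    rw [← hc, ← nsmul_eq_mul]
    exact Finset.sum_le_card_nsmul _ _ _ h
  calc c⁻¹ * ‖∑ i ∈ s, F i‖ ≤ c⁻¹ * (c * ε) := mul_le_mul_of_nonneg_left h1 (inv_pos.2 hc0).le
    _ = ε := by field_simp

/-- the set of all parameters -/
def convNu_X (w : ℕ) : Finset (Finset ℕ × Finset ℕ) :=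
  (Finset.range (ell w)).powerset ×ˢ (Finset.range (ell w)).powerset

theorem convNu_card (w : ℕ) : ((convNu_X w).card : ℝ) = 4 ^ ell w := by
  unfold convNu_X
  rw [Finset.card_product, Finset.card_powerset, Finset.card_range]
  push_cast
  rw [← mul_pow]; norm_num

theorem convNu_sgn (B : ℕ → ℕ → Bool) (y z : Finset ℕ) : sgn B y z = 1 ∨ sgn B y z = -1 := by
  unfold sgn
  exact neg_one_pow_eq_or ℝ _

/-- core, for triangular laws -/
theorem convNu_coreTri {w : ℕ} {B : ℕ → ℕ → Bool} {f : ℤ → ℂ} {ε : ℝ}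
    (hcore : ∀ m t : ℤ, ‖∑ x ∈ convNu_X w, (sgn B x.1 x.2 : ℂ) *
      f (m + t * (pos (aa w) x.1 + 2 ^ (aa w * ell w) * pos (aa w) x.2))‖ ≤ ε)
    (r : ℕ) (m : ℤ) :
    ‖∑ x ∈ convNu_X w, (sgn B x.1 x.2 : ℂ) * ev (tri r (2 ^ st w *
      (pos (aa w) x.1 + 2 ^ (aa w * ell w) * pos (aa w) x.2))) (fun n => f (m + n))‖ ≤ ε := by
  have h1 : ∑ x ∈ convNu_X w, (sgn B x.1 x.2 : ℂ) * ev (tri r (2 ^ st w *
      (pos (aa w) x.1 + 2 ^ (aa w * ell w) * pos (aa w) x.2))) (fun n => f (m + n)) =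
      ((2 : ℝ) ^ r)⁻¹ • ∑ i ∈ Finset.range (2 ^ r), ((2 : ℝ) ^ r)⁻¹ •
        ∑ j ∈ Finset.range (2 ^ r), ∑ x ∈ convNu_X w, (sgn B x.1 x.2 : ℂ) *
          f (m + ((i : ℤ) - j) * 2 ^ st w *
            (pos (aa w) x.1 + 2 ^ (aa w * ell w) * pos (aa w) x.2)) := by
    simp only [convNu_tri, Finset.smul_sum, Finset.mul_sum]
    rw [Finset.sum_comm]
    refine Finset.sum_congr rfl fun i _ => ?_
    rw [Finset.sum_comm]
    refine Finset.sum_congr rfl fun j _ => Finset.sum_congr rfl fun x _ => ?_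
    rw [mul_smul_comm, mul_smul_comm]
    congr 5
    ring
  rw [h1]
  have hc : ((Finset.range (2 ^ r)).card : ℝ) = 2 ^ r := by simp
  refine convNu_norm_avg _ _ _ hc (by positivity) _ fun i _ => ?_
  refine convNu_norm_avg _ _ _ hc (by positivity) _ fun j _ => ?_
  exact hcore m _

/-- the window law splits -/
theorem convNu_win (w r : ℕ) (x : Finset ℕ × Finset ℕ) :
    win gen w (r, x) = tri r (2 ^ st w *
      (pos (aa w) x.1 + 2 ^ (aa w * ell w) * pos (aa w) x.2)) *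
      win (fun _ (_ : Unit) => (List.range (2 * ell w)).map fun i => 2 * 2 ^ (st w + aa w * i)) w
        (r, ()) := by
  unfold win gen
  simp

theorem convNu_coreWin {w : ℕ} {B : ℕ → ℕ → Bool} {f : ℤ → ℂ} {ε : ℝ}
    (hcore : ∀ m t : ℤ, ‖∑ x ∈ convNu_X w, (sgn B x.1 x.2 : ℂ) *
      f (m + t * (pos (aa w) x.1 + 2 ^ (aa w * ell w) * pos (aa w) x.2))‖ ≤ ε)
    (r : ℕ) (m : ℤ) :
    ‖∑ x ∈ convNu_X w, (sgn B x.1 x.2 : ℂ) * ev (win gen w (r, x)) (fun n => f (m + n))‖ ≤ ε := by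
  have h1 : ∑ x ∈ convNu_X w, (sgn B x.1 x.2 : ℂ) * ev (win gen w (r, x)) (fun n => f (m + n)) =
      ev (win (fun _ (_ : Unit) => (List.range (2 * ell w)).map
        fun i => 2 * 2 ^ (st w + aa w * i)) w (r, ())) (fun b => ∑ x ∈ convNu_X w,
          (sgn B x.1 x.2 : ℂ) * ev (tri r (2 ^ st w *
            (pos (aa w) x.1 + 2 ^ (aa w * ell w) * pos (aa w) x.2)))
              (fun n => f ((m + b) + n))) := by
    rw [ev_sum_fun]
    refine Finset.sum_congr rfl fun x _ => ?_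
    rw [ev_const_mul, convNu_win, ev_mul, ev_comm]
    congr 2
    funext b
    congr 1
    funext a
    congr 1
    ring
  rw [h1]
  refine (norm_ev_le _ _ ε fun b => convNu_coreTri hcore r (m + b)).trans ?_
  rw [(win_pos _ w (r, ())).prob.nrm_eq, one_mul]

theorem convNu_W (S : ℕ → Finset (Finset ℕ × Finset ℕ)) (w : ℕ) (h : ℤ → ℂ) :
    ev (W gen HH S w) h = (HH w : ℝ)⁻¹ • ∑ r ∈ Finset.Icc 1 (HH w),
      ((S w).card : ℝ)⁻¹ • ∑ x ∈ S w, ev (win gen w (r, x)) h := by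
  unfold W
  rw [ev_smul_law, ev_sum_law, mul_inv, ← smul_smul, Finset.smul_sum]
  simp only [ev_sum_law]

/-- facts true for large `w` -/
theorem convNu_large (Bm : ℕ → ℕ → ℕ → Bool)
    (hBm : ∀ᶠ w in atTop, GoodMat w (aa w) (ell w) (Bm w)) {f : ℤ → ℂ} (hf : Tame f)
    (ε : ℝ) (hε : 0 < ε) :
    ∀ᶠ w in atTop, ∀ m t : ℤ, ‖∑ x ∈ convNu_X w, (sgn (Bm w) x.1 x.2 : ℂ) *
      f (m + t * (pos (aa w) x.1 + 2 ^ (aa w * ell w) * pos (aa w) x.2))‖ ≤ ε * 4 ^ ell w := by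
  filter_upwards [core Bm hBm hf ε hε] with w hw m t
  have h := hw m t
  rw [norm_mul, norm_inv, norm_pow] at h
  have h4 : ‖(4 : ℂ)‖ = 4 := by norm_num
  rw [h4] at h
  have h5 : (0 : ℝ) < 4 ^ ell w := by positivity
  rw [inv_mul_le_iff₀ h5] at h
  unfold convNu_X
  rw [Finset.sum_product]
  linarith

theorem convNu_diff (Bm : ℕ → ℕ → ℕ → Bool)
    (hBm : ∀ᶠ w in atTop, GoodMat w (aa w) (ell w) (Bm w)) {f : ℤ → ℂ} (hf : Tame f)
    (ε : ℝ) (hε : 0 < ε) (hε2 : ε ≤ 1 / 2) (C : ℝ) (hC : ∀ n, ‖f n‖ ≤ C) :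
    ∀ᶠ w in atTop, ∀ m : ℤ, ‖ev (W gen HH (Spar Bm (-1)) w) (fun n => f (m + n)) -
      ev (W gen HH (Spar Bm 1) w) (fun n => f (m + n))‖ ≤ 4 * (1 + C) * ε := by
  filter_upwards [convNu_large Bm hBm hf ε hε, convNu_large Bm hBm convNu_tame_one ε hε] with
    w h1 h2 m
  have hC0 : 0 ≤ C := (norm_nonneg _).trans (hC 0)
  rw [convNu_W, convNu_W, ← smul_sub, ← Finset.sum_sub_distrib]
  have hc : ((Finset.Icc 1 (HH w)).card : ℝ) = HH w := by simp
  have hH : (0 : ℝ) < HH w := by exact_mod_cast HH_pos w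
  refine convNu_norm_avg _ _ _ hc hH _ fun r _ => ?_
  refine convNu_avg (convNu_X w) (fun x => sgn (Bm w) x.1 x.2) (fun x _ => convNu_sgn _ _ _)
    (fun x => ev (win gen w (r, x)) (fun n => f (m + n))) C ε (4 ^ ell w) hC0 ?_
    (convNu_card w) (by positivity) (convNu_coreWin h1 r m) (h2 0 0) hε2
  intro x
  refine (norm_ev_le _ _ C fun n => hC _).trans ?_
  rw [(win_pos _ w (r, x)).prob.nrm_eq, one_mul]

theorem convNu_W_prob (S : ℕ → Finset (Finset ℕ × Finset ℕ)) (w : ℕ) (hS : (S w).Nonempty) :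
    IsProb (W gen HH S w) := by
  have h1 : W gen HH S w = (((Finset.Icc 1 (HH w) ×ˢ S w).card : ℝ))⁻¹ •
      ∑ p ∈ Finset.Icc 1 (HH w) ×ˢ S w, win gen w p := by
    unfold W
    rw [Finset.card_product, Finset.sum_product]
    simp
  rw [h1]
  refine IsProb.avg _ ?_ _ fun p _ => (win_pos _ w p).prob
  exact Finset.Nonempty.product ⟨1, Finset.mem_Icc.2 ⟨le_rfl, HH_pos w⟩⟩ hS

theorem convNu_nuP_prob (Bm : ℕ → ℕ → ℕ → Bool) (D : ℕ) : IsProb (nuP Bm D) := by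
  unfold nuP
  exact Finset.prod_induction _ IsProb (fun _ _ => IsProb.mul) IsProb.one
    fun w _ => convNu_W_prob _ w (Spar_nonempty Bm w)

theorem convNu_nonempty (Bm : ℕ → ℕ → ℕ → Bool)
    (hBm : ∀ᶠ w in atTop, GoodMat w (aa w) (ell w) (Bm w)) :
    ∀ᶠ w in atTop, (Spar Bm (-1) w).Nonempty := by
  filter_upwards [convNu_large Bm hBm convNu_tame_one (1 / 2) (by norm_num)] with w h2
  have h := (convNu_cards (convNu_X w) (fun x => sgn (Bm w) x.1 x.2)
    (fun x _ => convNu_sgn _ _ _) (1 / 2) (4 ^ ell w) (convNu_card w) (by positivity)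
    (h2 0 0) le_rfl).2.1
  have h4 : (0 : ℝ) < 4 ^ ell w / 4 := by positivity
  have h5 : 0 < (Spar Bm (-1) w).card := by
    have := h4.trans_le h
    exact_mod_cast this
  exact Finset.card_pos.1 h5

/-- both families of laws converge to the same limit on every tame sequence -/
theorem convNu (Bm : ℕ → ℕ → ℕ → Bool)
    (hBm : ∀ᶠ w in atTop, GoodMat w (aa w) (ell w) (Bm w)) {f : ℤ → ℂ} (hf : Tame f) :
    ∃ L, Tendsto (fun D => ev (nuS Bm 1 D) f) atTop (𝓝 L) ∧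
      Tendsto (fun D => ev (nuS Bm (-1) D) f) atTop (𝓝 L) := by
  obtain ⟨L, hL⟩ := convC gen HH kk (fun w => 2 * ell w + 1) (Spar Bm 1) HH_pos
    (Spar_nonempty Bm) gen_length summable1 summable2 hf
  have h1 : Tendsto (fun D => ev (nuS Bm 1 D) f) atTop (𝓝 L) := by
    have := hL.comp (tendsto_add_atTop_nat 1)
    refine this.congr fun D => ?_
    simp only [Function.comp_apply, nuS, nuP]
    rw [Finset.prod_range_succ]
  refine ⟨L, h1, ?_⟩
  have h2 : Tendsto (fun D => ev (nuS Bm (-1) D) f - ev (nuS Bm 1 D) f) atTop (𝓝 0) := by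
    obtain ⟨θ, Λ, hT⟩ := id hf
    obtain ⟨C, hC⟩ := hT.bdd
    have hC0 : 0 ≤ C := (norm_nonneg _).trans (hC 0)
    rw [Metric.tendsto_atTop']
    intro δ hδ
    set ε := min (1 / 2) (δ / (8 * (1 + C))) with hεd
    have hε : 0 < ε := lt_min (by norm_num) (by positivity)
    obtain ⟨D0, hD0⟩ := eventually_atTop.1
      (convNu_diff Bm hBm hf ε hε (min_le_left _ _) C hC)
    refine ⟨D0, fun D hD => ?_⟩
    rw [dist_zero_right]
    have h3 : ev (nuS Bm (-1) D) f - ev (nuS Bm 1 D) f = ev (nuP Bm D) (fun m =>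
        ev (W gen HH (Spar Bm (-1)) D) (fun n => f (m + n)) -
          ev (W gen HH (Spar Bm 1) D) (fun n => f (m + n))) := by
      unfold nuS
      rw [ev_mul, ev_mul, sub_eq_iff_eq_add, ← ev_add_fun]
      simp
    rw [h3]
    refine (norm_ev_le _ _ _ (hD0 D hD.le)).trans_lt ?_
    rw [(convNu_nuP_prob Bm D).nrm_eq, one_mul]
    have h4 : ε ≤ δ / (8 * (1 + C)) := min_le_right _ _
    have h5 : 4 * (1 + C) * ε ≤ δ / 2 := by
      calc 4 * (1 + C) * ε ≤ 4 * (1 + C) * (δ / (8 * (1 + C))) :=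
            mul_le_mul_of_nonneg_left h4 (by positivity)
        _ = δ / 2 := by field_simp; norm_num
    linarith
  have h3 := h2.add h1
  simpa using h3

theorem nuS_prob (Bm : ℕ → ℕ → ℕ → Bool)
    (hBm : ∀ᶠ w in atTop, GoodMat w (aa w) (ell w) (Bm w)) :
    ∀ᶠ D in atTop, IsProb (nuS Bm 1 D) ∧ IsProb (nuS Bm (-1) D) := by
  filter_upwards [convNu_nonempty Bm hBm] with D hD
  exact ⟨(convNu_nuP_prob Bm D).mul (convNu_W_prob _ D (Spar_nonempty Bm D)),
    (convNu_nuP_prob Bm D).mul (convNu_W_prob _ D hD)⟩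

end

end Pool.NilAvg
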