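import Pool.Agent.Helper986.NilAvg.Defs
import Pool.Agent.Helper986.NilAvg.DefsB
import Pool.Agent.Helper986.NilAvg.Params
import Pool.Agent.Helper986.NilAvg.Windows
import Pool.Agent.Helper986.NilAvg.DefsA
import Pool.Agent.Helper986.NilAvg.ResFacts

set_option autoImplicit false

namespace Pool.NilAvg

open Filter Topology
open scoped ComplexConjugate

noncomputable section

variable {κ : Type}

open MeasureTheory


theorem nocarry_period (s : ℕ) (y : ℤ_[2]) (m : ℤ) :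
    res s (y + ((2 ^ s * m : ℤ) : ℤ_[2])) = res s y := by
  unfold res
  congr 1
  rw [map_add, map_intCast]
  push_cast
  have h : ((2 : ZMod (2 ^ s)) ^ s) = 0 := by exact_mod_cast ZMod.natCast_self (2 ^ s)
  rw [h, zero_mul, add_zero]

theorem nocarry_split (s a : ℕ) (x : ℤ_[2]) :
    (res (s + a) x : ℤ) = res s x + 2 ^ s * dg s a x := by
  have h1 := res_mod s (s + a) (Nat.le_add_right s a) x
  have h2 := Nat.mod_add_div (res (s + a) x) (2 ^ s)
  unfold dg
  rw [← h1] at h2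
  exact_mod_cast h2.symm

theorem nocarry_step (s a : ℕ) (x : ℤ_[2]) (N t : ℤ)
    (h : 0 ≤ (res s x : ℤ) + N ∧ (res s x : ℤ) + N < 2 ^ s)
    (h' : 0 ≤ (dg s a x : ℤ) + t ∧ (dg s a x : ℤ) + t < 2 ^ a) :
    0 ≤ (res (s + a) x : ℤ) + (N + t * 2 ^ s) ∧
      (res (s + a) x : ℤ) + (N + t * 2 ^ s) < 2 ^ (s + a) := by
  have e1 : (res (s + a) x : ℤ) + (N + t * 2 ^ s) =
      ((res s x : ℤ) + N) + 2 ^ s * ((dg s a x : ℤ) + t) := by
    rw [nocarry_split]
    ring
  have hp : (0 : ℤ) < 2 ^ s := by positivity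
  rw [e1, pow_add]
  constructor
  · have := mul_nonneg hp.le h'.1
    linarith [h.1]
  · have h1 : (dg s a x : ℤ) + t ≤ 2 ^ a - 1 := by linarith [h'.2]
    have h2 := mul_le_mul_of_nonneg_left h1 hp.le
    have h3 : (2 : ℤ) ^ s * (2 ^ a - 1) = 2 ^ s * 2 ^ a - 2 ^ s := by ring
    linarith [h.2]

theorem nocarry_digit (s a : ℕ) (x : ℤ_[2]) (N t m n : ℤ)
    (hn : n = N + t * 2 ^ s + 2 ^ (s + a) * m)
    (h : 0 ≤ (res s x : ℤ) + N ∧ (res s x : ℤ) + N < 2 ^ s)
    (h' : 0 ≤ (dg s a x : ℤ) + t ∧ (dg s a x : ℤ) + t < 2 ^ a) :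
    (dg s a (x + n) : ℤ) = dg s a x + t := by
  obtain ⟨h1, h2⟩ := nocarry_step s a x N t h h'
  have h3 := res_add (s + a) x (N + t * 2 ^ s) h1 h2
  have h4 := nocarry_period (s + a) (x + ((N + t * 2 ^ s : ℤ) : ℤ_[2])) m
  have h5 : x + ((N + t * 2 ^ s : ℤ) : ℤ_[2]) + ((2 ^ (s + a) * m : ℤ) : ℤ_[2]) = x + (n : ℤ_[2]) := by
    rw [hn]
    push_cast
    ring
  rw [h5] at h4
  have h6 : (res (s + a) (x + n) : ℤ) = ((res s x : ℤ) + N) + 2 ^ s * ((dg s a x : ℤ) + t) := by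
    rw [h4, h3, nocarry_split]
    ring
  have hp : (0 : ℤ) < 2 ^ s := by positivity
  have h7 : (dg s a (x + n) : ℤ) = (res (s + a) (x + n) : ℤ) / 2 ^ s := by
    unfold dg
    push_cast
    rfl
  rw [h7, h6, Int.add_mul_ediv_left _ _ hp.ne', Int.ediv_eq_zero_of_lt h.1 h.2, zero_add]

theorem nocarry_st (w : ℕ) : st (w + 1) = st w + aa w * (2 * ell w) := by
  unfold st
  rw [Finset.sum_range_succ]
  ring

theorem nocarry_inner (w : ℕ) (t : ℕ → ℤ) (x : ℤ_[2]) (N : ℤ)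
    (h0 : 0 ≤ (res (st w) x : ℤ) + N ∧ (res (st w) x : ℤ) + N < 2 ^ st w)
    (h : ∀ i < 2 * ell w, 0 ≤ (dg (st w + aa w * i) (aa w) x : ℤ) + t i ∧
      (dg (st w + aa w * i) (aa w) x : ℤ) + t i < 2 ^ aa w) (i : ℕ) (hi : i ≤ 2 * ell w) :
    0 ≤ (res (st w + aa w * i) x : ℤ) +
        (N + ∑ j ∈ Finset.range i, t j * 2 ^ (st w + aa w * j)) ∧
      (res (st w + aa w * i) x : ℤ) +
        (N + ∑ j ∈ Finset.range i, t j * 2 ^ (st w + aa w * j)) < 2 ^ (st w + aa w * i) := by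
  induction i with
  | zero => simpa using h0
  | succ i ih =>
    have h1 := nocarry_step (st w + aa w * i) (aa w) x _ (t i) (ih (by omega)) (h i (by omega))
    have e1 : st w + aa w * (i + 1) = st w + aa w * i + aa w := by ring
    rw [Finset.sum_range_succ, e1, ← add_assoc N]
    exact h1

theorem nocarry_outer (D : ℕ) (t : ℕ → ℕ → ℤ) (x : ℤ_[2])
    (h : ∀ w < D, ∀ i < 2 * ell w, 0 ≤ (dg (st w + aa w * i) (aa w) x : ℤ) + t w i ∧
      (dg (st w + aa w * i) (aa w) x : ℤ) + t w i < 2 ^ aa w) (w : ℕ) (hw : w ≤ D) :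
    0 ≤ (res (st w) x : ℤ) + (∑ v ∈ Finset.range w, ∑ i ∈ Finset.range (2 * ell v),
        t v i * 2 ^ (st v + aa v * i)) ∧
      (res (st w) x : ℤ) + (∑ v ∈ Finset.range w, ∑ i ∈ Finset.range (2 * ell v),
        t v i * 2 ^ (st v + aa v * i)) < 2 ^ st w := by
  induction w with
  | zero =>
    have h1 : st 0 = 0 := by simp [st]
    have h2 := res_lt 0 x
    rw [h1]
    simp only [pow_zero, Nat.lt_one_iff] at h2
    simp [h2]
  | succ w ih =>
    have h1 := nocarry_inner w (t w) x _ (ih (by omega)) (h w (by omega)) (2 * ell w) le_rfl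
    rw [nocarry_st, Finset.sum_range_succ]
    exact h1

theorem nocarry_dvd (t : ℕ → ℕ → ℤ) (w D : ℕ) (hw : w ≤ D) :
    (2 : ℤ) ^ st w ∣ (∑ v ∈ Finset.range D, ∑ i ∈ Finset.range (2 * ell v),
        t v i * 2 ^ (st v + aa v * i)) - ∑ v ∈ Finset.range w, ∑ i ∈ Finset.range (2 * ell v),
        t v i * 2 ^ (st v + aa v * i) := by
  have hmono : Monotone st := monotone_nat_of_le_succ fun w => by
    rw [nocarry_st]
    exact Nat.le_add_right _ _
  rw [← Finset.sum_Ico_eq_sub _ hw]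
  apply Finset.dvd_sum
  intro v hv
  rw [Finset.mem_Ico] at hv
  apply Finset.dvd_sum
  intro i _
  apply Dvd.dvd.mul_left
  apply pow_dvd_pow
  exact (hmono hv.1).trans (Nat.le_add_right _ _)

/-- digits of `x + n` when no carry occurs -/
theorem nocarry (D : ℕ) (t : ℕ → ℕ → ℤ) (n : ℤ)
    (hn : n = ∑ w ∈ Finset.range D, ∑ i ∈ Finset.range (2 * ell w),
      t w i * 2 ^ (st w + aa w * i)) (x : ℤ_[2])
    (h : ∀ w < D, ∀ i < 2 * ell w, 0 ≤ (dg (st w + aa w * i) (aa w) x : ℤ) + t w i ∧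
      (dg (st w + aa w * i) (aa w) x : ℤ) + t w i < 2 ^ aa w) :
    (∀ w < D, ∀ i < 2 * ell w, (dg (st w + aa w * i) (aa w) (x + n) : ℤ) =
      dg (st w + aa w * i) (aa w) x + t w i) ∧
    (0 ≤ (res (st D) x : ℤ) + n ∧ (res (st D) x : ℤ) + n < 2 ^ st D) ∧
    ∀ w ≥ D, ∀ i, dg (st w + aa w * i) (aa w) (x + n) = dg (st w + aa w * i) (aa w) x := by
  have hD := nocarry_outer D t x h D le_rfl
  rw [← hn] at hD
  refine ⟨fun w hw i hi => ?_, hD, fun w hw i => ?_⟩
  · have h1 := nocarry_inner w (t w) x _ (nocarry_outer D t x h w hw.le) (h w hw) i hi.le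
    obtain ⟨m1, hm1⟩ := nocarry_dvd t (w + 1) D hw
    have h2 : (2 : ℤ) ^ (st w + aa w * i + aa w) ∣
        ∑ j ∈ Finset.Ico (i + 1) (2 * ell w), t w j * 2 ^ (st w + aa w * j) := by
      apply Finset.dvd_sum
      intro j hj
      rw [Finset.mem_Ico] at hj
      apply Dvd.dvd.mul_left
      apply pow_dvd_pow
      have h3 : aa w * (i + 1) ≤ aa w * j := Nat.mul_le_mul_left _ hj.1
      have h4 : aa w * (i + 1) = aa w * i + aa w := by ring
      omega
    obtain ⟨m2, hm2⟩ := h2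
    have h3 : st (w + 1) = st w + aa w * i + aa w + aa w * (2 * ell w - (i + 1)) := by
      rw [nocarry_st]
      have h4 : aa w * (2 * ell w) = aa w * (i + 1 + (2 * ell w - (i + 1))) := by
        congr 1
        omega
      rw [h4]
      ring
    refine nocarry_digit (st w + aa w * i) (aa w) x _ (t w i)
      (2 ^ (aa w * (2 * ell w - (i + 1))) * m1 + m2) n ?_ h1 (h w hw i hi)
    have h5 : ∑ j ∈ Finset.range (2 * ell w), t w j * 2 ^ (st w + aa w * j) =
        ∑ j ∈ Finset.range i, t w j * 2 ^ (st w + aa w * j) + t w i * 2 ^ (st w + aa w * i) +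
          2 ^ (st w + aa w * i + aa w) * m2 := by
      rw [← hm2, ← Finset.sum_range_succ, Finset.sum_range_add_sum_Ico _ hi]
    rw [h3, pow_add _ (st w + aa w * i + aa w), ← hn, Finset.sum_range_succ, h5] at hm1
    linear_combination hm1
  · have hmono : Monotone st := monotone_nat_of_le_succ fun w => by
      rw [nocarry_st]
      exact Nat.le_add_right _ _
    have hs : st D ≤ st w + aa w * i := (hmono hw).trans (Nat.le_add_right _ _)
    have h1 := res_div (st D) (st w + aa w * i + aa w) (hs.trans (Nat.le_add_right _ _)) x n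
      hD.1 hD.2
    unfold dg
    obtain ⟨d, hd⟩ := Nat.exists_eq_add_of_le hs
    rw [hd] at h1 ⊢
    rw [pow_add, ← Nat.div_div_eq_div_mul, ← Nat.div_div_eq_div_mul, h1]

end

end Pool.NilAvg
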