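import Pool.Agent.Helper986.NilAvg.Defs
import Pool.Agent.Helper986.NilAvg.DefsB
import Pool.Agent.Helper986.NilAvg.Params
import Pool.Agent.Helper986.NilAvg.DefsA
import Pool.Agent.Helper986.NilAvg.ResFacts

set_option autoImplicit false

namespace Pool.NilAvg

open Filter Topology
open scoped ComplexConjugate

noncomputable section

variable {κ : Type}

open MeasureTheory


theorem psi_facts_dg_meas (s a : ℕ) : Measurable (dg s a) := by
  have h : Measurable (fun k : ℕ => k / 2 ^ s) := measurable_from_nat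
  exact h.comp (measurable_res (s + a))

theorem psi_meas (s a l : ℕ) (B : ℕ → ℕ → Bool) : Measurable (psi s a l B) := by
  unfold psi
  apply Finset.measurable_fun_prod
  intro i _
  apply Finset.measurable_fun_prod
  intro j _
  by_cases hB : B i j = true
  · simp only [if_pos hB]
    have h1 : Measurable (fun k : ℕ => iC ^ k) := measurable_from_nat
    have h2 : Measurable (fun x => dg (s + a * i) a x * dg (s + a * (l + j)) a x) :=
      (psi_facts_dg_meas _ _).mul (psi_facts_dg_meas _ _)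
    exact h1.comp h2
  · simp only [if_neg hB]
    exact measurable_const

theorem psi_facts_dg_inv (s s' a : ℕ) (h : s ≤ s') (x : ℤ_[2]) (n : ℤ)
    (h0 : 0 ≤ (res s x : ℤ) + n) (h1 : (res s x : ℤ) + n < 2 ^ s) :
    dg s' a (x + n) = dg s' a x := by
  unfold dg
  obtain ⟨d, rfl⟩ := Nat.exists_eq_add_of_le h
  rw [pow_add, ← Nat.div_div_eq_div_mul, ← Nat.div_div_eq_div_mul,
    res_div s (s + d + a) (by omega) x n h0 h1]

theorem psi_inv (w : ℕ) (B : ℕ → ℕ → Bool) (x : ℤ_[2]) (n : ℤ)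
    (h0 : 0 ≤ (res (st w) x : ℤ) + n) (h1 : (res (st w) x : ℤ) + n < 2 ^ st w) :
    psi (st w) (aa w) (ell w) B (x + n) = psi (st w) (aa w) (ell w) B x := by
  unfold psi
  apply Finset.prod_congr rfl
  intro i _
  apply Finset.prod_congr rfl
  intro j _
  rw [psi_facts_dg_inv (st w) (st w + aa w * i) (aa w) (Nat.le_add_right _ _) x n h0 h1,
    psi_facts_dg_inv (st w) (st w + aa w * (ell w + j)) (aa w) (Nat.le_add_right _ _) x n h0 h1]

theorem psi_facts_zsum (c : Circle) (s : Finset ℕ) (f : ℕ → ℤ) :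
    ∏ i ∈ s, c ^ f i = c ^ ∑ i ∈ s, f i := by
  classical
  induction s using Finset.induction_on with
  | empty => simp
  | insert a s ha ih => rw [Finset.prod_insert ha, Finset.sum_insert ha, ih, zpow_add]

theorem psi_facts_iC : ((iC ^ 2 : Circle) : ℂ) = -1 := by
  unfold iC
  rw [Circle.coe_pow, Circle.coe_exp, ← Complex.exp_nat_mul, ← Complex.exp_pi_mul_I]
  congr 1
  push_cast
  ring

theorem psi_facts_factor (d d' d'' f f' f'' : ℕ) (t u : ℤ) (h1 : (d' : ℤ) = d + t)
    (h2 : (d'' : ℤ) = d + 2 * t) (h3 : (f' : ℤ) = f + u) (h4 : (f'' : ℤ) = f + 2 * u) :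
    iC ^ (d'' * f'') * iC ^ (d * f) * (iC ^ (d' * f'))⁻¹ ^ 2 = (iC ^ 2) ^ (t * u) := by
  have e1 : iC ^ (d'' * f'') = iC ^ ((d + 2 * t) * (f + 2 * u) : ℤ) := by
    rw [← h2, ← h4, ← Nat.cast_mul, zpow_natCast]
  have e2 : iC ^ (d * f) = iC ^ ((d : ℤ) * (f : ℤ)) := by
    rw [← Nat.cast_mul, zpow_natCast]
  have e3 : iC ^ (d' * f') = iC ^ ((d + t) * (f + u) : ℤ) := by
    rw [← h1, ← h3, ← Nat.cast_mul, zpow_natCast]
  have e4 : iC ^ 2 = iC ^ (2 : ℤ) := by
    rw [← zpow_natCast]
    rfl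
  rw [e1, e2, e3, ← zpow_neg, ← zpow_natCast (iC ^ (-((d + t) * (f + u) : ℤ))) 2, ← zpow_mul,
    ← zpow_add, ← zpow_add, e4, ← zpow_mul]
  congr 1
  push_cast
  ring

/-- second difference of the quadratic phase -/
theorem psi_second (s a l : ℕ) (B : ℕ → ℕ → Bool) (x x' x'' : ℤ_[2]) (t : ℕ → ℤ)
    (h' : ∀ i < 2 * l, (dg (s + a * i) a x' : ℤ) = dg (s + a * i) a x + t i)
    (h'' : ∀ i < 2 * l, (dg (s + a * i) a x'' : ℤ) = dg (s + a * i) a x + 2 * t i) :
    ((psi s a l B x'' * psi s a l B x * (psi s a l B x')⁻¹ ^ 2 : Circle) : ℂ) =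
      (-1) ^ (∑ i ∈ Finset.range l, ∑ j ∈ Finset.range l,
        if B i j then t i * t (l + j) else 0) := by
  have key : psi s a l B x'' * psi s a l B x * (psi s a l B x')⁻¹ ^ 2 =
      (iC ^ 2) ^ (∑ i ∈ Finset.range l, ∑ j ∈ Finset.range l,
        if B i j then t i * t (l + j) else 0) := by
    unfold psi
    rw [← psi_facts_zsum, ← Finset.prod_mul_distrib, ← Finset.prod_inv_distrib,
      ← Finset.prod_pow, ← Finset.prod_mul_distrib]
    apply Finset.prod_congr rfl
    intro i hi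
    rw [← psi_facts_zsum, ← Finset.prod_mul_distrib, ← Finset.prod_inv_distrib,
      ← Finset.prod_pow, ← Finset.prod_mul_distrib]
    apply Finset.prod_congr rfl
    intro j hj
    rw [Finset.mem_range] at hi hj
    by_cases hB : B i j = true
    · simp only [if_pos hB]
      exact psi_facts_factor _ _ _ _ _ _ _ _ (h' i (by omega)) (h'' i (by omega))
        (h' (l + j) (by omega)) (h'' (l + j) (by omega))
    · simp only [if_neg hB]
      simp
  rw [key, Circle.coe_zpow, psi_facts_iC]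

end

end Pool.NilAvg
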