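import Pool.Agent.Helper986.NilAvg.Defs
import Pool.Agent.Helper986.NilAvg.DefsB
import Pool.Agent.Helper986.NilAvg.Params
import Pool.Agent.Helper986.NilAvg.Windows
import Pool.Agent.Helper986.NilAvg.DefsA
import Pool.Agent.Helper986.NilAvg.ResFacts
import Pool.Agent.Helper986.NilAvg.Nocarry
import Pool.Agent.Helper986.NilAvg.PsiFacts

set_option autoImplicit false

namespace Pool.NilAvg

open Filter Topology
open scoped ComplexConjugate

noncomputable section

variable {κ : Type}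

open MeasureTheory



/-- digits that are too close to the ends -/
def corr_est_A (w : ℕ) : Finset ℕ :=
  Finset.range (6 * 2 ^ HH w) ∪ Finset.Ico (2 ^ aa w - 6 * 2 ^ HH w) (2 ^ aa w)

theorem corr_est_le (w : ℕ) : 6 * 2 ^ HH w ≤ 2 ^ aa w := by
  have : aa w = HH w + (6 * w + 17) + 3 := by unfold aa; ring
  rw [this, pow_add, pow_add]
  have h1 : 1 ≤ 2 ^ (6 * w + 17) := Nat.one_le_two_pow
  have h2 : 2 ^ HH w * 1 ≤ 2 ^ HH w * 2 ^ (6 * w + 17) := Nat.mul_le_mul_left _ h1
  omega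

theorem corr_est_sub (w : ℕ) : corr_est_A w ⊆ Finset.range (2 ^ aa w) := by
  intro k hk
  have := corr_est_le w
  simp only [corr_est_A, Finset.mem_union, Finset.mem_range, Finset.mem_Ico] at hk ⊢
  omega

theorem corr_est_card (w : ℕ) : (corr_est_A w).card ≤ 12 * 2 ^ HH w := by
  refine (Finset.card_union_le _ _).trans ?_
  have := corr_est_le w
  rw [Finset.card_range, Nat.card_Ico]
  omega

theorem corr_est_dglt (s a : ℕ) (x : ℤ_[2]) : dg s a x < 2 ^ a := by
  unfold dg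
  rw [Nat.div_lt_iff_lt_mul (by positivity), ← pow_add, add_comm a s]
  exact res_lt _ _

/-- exceptional set -/
def corr_est_bad (D : ℕ) : Set ℤ_[2] :=
  ⋃ w ∈ Finset.range D, ⋃ i ∈ Finset.range (2 * ell w),
    {x | dg (st w + aa w * i) (aa w) x ∈ corr_est_A w}

theorem corr_est_small (D : ℕ) :
    ∑ w ∈ Finset.range D, (2 * ell w : ℝ) * (12 * 2 ^ HH w / 2 ^ aa w) ≤ 32 / 2 ^ 20 := by
  have h1 : ∀ w ∈ Finset.range D, (2 * ell w : ℝ) * (12 * 2 ^ HH w / 2 ^ aa w) =
      24 / 2 ^ 20 * (1 / 4 : ℝ) ^ w := by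
    intro w _
    have h2 : aa w = HH w + (6 * w + 20) := by unfold aa; ring
    rw [h2, pow_add, pow_add, pow_mul]
    unfold ell
    push_cast
    have h3 : ((2 : ℝ) ^ 6) ^ w = 16 ^ w * 4 ^ w := by
      rw [← mul_pow]; norm_num
    rw [h3, one_div, inv_pow]
    field_simp
    norm_num
  rw [Finset.sum_congr rfl h1, ← Finset.mul_sum, geom_sum_eq (by norm_num)]
  have h4 : (0 : ℝ) ≤ (1 / 4) ^ D := by positivity
  have h5 : (((1 / 4 : ℝ) ^ D - 1) / (1 / 4 - 1)) = 4 / 3 * (1 - (1 / 4) ^ D) := by ring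
  rw [h5]
  have h6 : 4 / 3 * (1 - (1 / 4 : ℝ) ^ D) ≤ 4 / 3 := by linarith
  calc (24 : ℝ) / 2 ^ 20 * (4 / 3 * (1 - (1 / 4) ^ D)) ≤ 24 / 2 ^ 20 * (4 / 3) :=
        mul_le_mul_of_nonneg_left h6 (by norm_num)
    _ = 32 / 2 ^ 20 := by norm_num

theorem corr_est_mu (D : ℕ) : mu2 (corr_est_bad D) ≤ ENNReal.ofReal (32 / 2 ^ 20) := by
  refine le_trans ?_ (ENNReal.ofReal_le_ofReal (corr_est_small D))
  unfold corr_est_bad
  refine (measure_biUnion_finset_le _ _).trans ?_
  rw [ENNReal.ofReal_sum_of_nonneg (fun w _ => by positivity)]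
  refine Finset.sum_le_sum fun w _ => ?_
  refine (measure_biUnion_finset_le _ _).trans ?_
  have h1 : ∀ i ∈ Finset.range (2 * ell w),
      mu2 {x | dg (st w + aa w * i) (aa w) x ∈ corr_est_A w} ≤
        ENNReal.ofReal (12 * 2 ^ HH w / 2 ^ aa w) := by
    intro i _
    rw [mu2_dg _ _ _ (corr_est_sub w)]
    refine ENNReal.ofReal_le_ofReal ?_
    have h2 : ((corr_est_A w).card : ℝ) ≤ 12 * 2 ^ HH w := by
      exact_mod_cast corr_est_card w
    gcongr
  refine (Finset.sum_le_card_nsmul _ _ _ h1).trans ?_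
  rw [Finset.card_range, nsmul_eq_mul, ENNReal.ofReal_mul (by positivity)]
  refine le_of_eq ?_
  congr 1
  rw [← Nat.cast_ofNat (R := ℝ), ← Nat.cast_mul, ENNReal.ofReal_natCast]

theorem corr_est_grp (a b c : Circle) : a * b * c⁻¹ ^ 2 = a / b * (c / b)⁻¹ ^ 2 := by
  have hb := Circle.coe_ne_zero b
  have hc := Circle.coe_ne_zero c
  apply Circle.ext
  push_cast
  field_simp

theorem corr_est_mbad (D : ℕ) : MeasurableSet (corr_est_bad D) := by
  unfold corr_est_bad
  refine Finset.measurableSet_biUnion _ fun w _ => Finset.measurableSet_biUnion _ fun i _ => ?_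
  have h : Measurable (dg (st w + aa w * i) (aa w)) := by
    unfold dg
    exact (measurable_from_top (f := fun k : ℕ => k / 2 ^ (st w + aa w * i))).comp
      (measurable_res _)
  exact h (MeasurableSet.of_discrete (s := {k : ℕ | k ∈ corr_est_A w}))

theorem corr_est_pt (Bm : ℕ → ℕ → ℕ → Bool) (Φ : ℤ → ℤ_[2] → Circle) (D : ℕ) (t : ℕ → ℕ → ℤ)
    (ht : ∀ w < D, ∀ i < 2 * ell w, |t w i| ≤ 3 * 2 ^ HH w) (n : ℤ)
    (hn : n = ∑ w ∈ Finset.range D, ∑ i ∈ Finset.range (2 * ell w),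
      t w i * 2 ^ (st w + aa w * i)) (x : ℤ_[2]) (hx : x ∉ corr_est_bad D)
    (h1 : ∀ᶠ V in atTop, Φ n x = ∏ w ∈ Finset.range V,
      psi (st w) (aa w) (ell w) (Bm w) (x + n) / psi (st w) (aa w) (ell w) (Bm w) x)
    (h2 : ∀ᶠ V in atTop, Φ (2 * n) x = ∏ w ∈ Finset.range V,
      psi (st w) (aa w) (ell w) (Bm w) (x + (2 * n : ℤ)) / psi (st w) (aa w) (ell w) (Bm w) x) :
    ((Φ (2 * n) x * (Φ n x)⁻¹ ^ 2 : Circle) : ℂ) =
      ∏ w ∈ Finset.range D, (-1 : ℂ) ^ (∑ i ∈ Finset.range (ell w),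
        ∑ j ∈ Finset.range (ell w), if Bm w i j then t w i * t w (ell w + j) else 0) := by
  have hg : ∀ w < D, ∀ i < 2 * ell w,
      6 * 2 ^ HH w ≤ dg (st w + aa w * i) (aa w) x ∧
        dg (st w + aa w * i) (aa w) x < 2 ^ aa w - 6 * 2 ^ HH w := by
    intro w hw i hi
    have h3 : dg (st w + aa w * i) (aa w) x ∉ corr_est_A w := by
      intro h4
      apply hx
      unfold corr_est_bad
      simp only [Set.mem_iUnion, Set.mem_ofPred_eq, Finset.mem_range]
      exact ⟨w, hw, i, hi, h4⟩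
    have h5 := corr_est_dglt (st w + aa w * i) (aa w) x
    simp only [corr_est_A, Finset.mem_union, Finset.mem_range, Finset.mem_Ico, not_or, not_lt,
      not_and] at h3
    omega
  have hle : ∀ w, (6 * 2 ^ HH w : ℤ) ≤ 2 ^ aa w := fun w => by exact_mod_cast corr_est_le w
  have hg' : ∀ w < D, ∀ i < 2 * ell w,
      (6 * 2 ^ HH w : ℤ) ≤ (dg (st w + aa w * i) (aa w) x : ℤ) ∧
        (dg (st w + aa w * i) (aa w) x : ℤ) < 2 ^ aa w - 6 * 2 ^ HH w := by
    intro w hw i hi
    obtain ⟨h3, h4⟩ := hg w hw i hi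
    refine ⟨by exact_mod_cast h3, ?_⟩
    have h5 := corr_est_le w
    zify [h5] at h4
    exact h4
  obtain ⟨a1, -, a3⟩ := nocarry D t n hn x (by
    intro w hw i hi
    have h3 := hg' w hw i hi
    have h4 := abs_le.1 (ht w hw i hi)
    have h5 : (0 : ℤ) < 2 ^ HH w := by positivity
    constructor <;> linarith [h3.1, h3.2, h4.1, h4.2])
  obtain ⟨b1, -, b3⟩ := nocarry D (fun w i => 2 * t w i) (2 * n) (by
    rw [hn, Finset.mul_sum]
    refine Finset.sum_congr rfl fun w _ => ?_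
    rw [Finset.mul_sum]
    refine Finset.sum_congr rfl fun i _ => ?_
    ring) x (by
    intro w hw i hi
    have h3 := hg' w hw i hi
    have h4 := abs_le.1 (ht w hw i hi)
    have h5 : (0 : ℤ) < 2 ^ HH w := by positivity
    constructor <;> linarith [h3.1, h3.2, h4.1, h4.2])
  obtain ⟨V, hV1, hV2, hVD⟩ := (h1.and (h2.and (eventually_ge_atTop D))).exists
  rw [hV1, hV2]
  have key : (∏ w ∈ Finset.range V, psi (st w) (aa w) (ell w) (Bm w) (x + (2 * n : ℤ)) /
        psi (st w) (aa w) (ell w) (Bm w) x) *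
      (∏ w ∈ Finset.range V, psi (st w) (aa w) (ell w) (Bm w) (x + n) /
        psi (st w) (aa w) (ell w) (Bm w) x)⁻¹ ^ 2 =
      ∏ w ∈ Finset.range D, (psi (st w) (aa w) (ell w) (Bm w) (x + (2 * n : ℤ)) *
        psi (st w) (aa w) (ell w) (Bm w) x *
          (psi (st w) (aa w) (ell w) (Bm w) (x + n))⁻¹ ^ 2) := by
    rw [← Finset.prod_inv_distrib, ← Finset.prod_pow, ← Finset.prod_mul_distrib]
    symm
    rw [← Finset.prod_subset (Finset.range_mono hVD)]
    · refine Finset.prod_congr rfl fun w _ => ?_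
      exact corr_est_grp _ _ _
    · intro w hw hwD
      have hwD' : D ≤ w := by simpa using hwD
      have e1 : psi (st w) (aa w) (ell w) (Bm w) (x + n) =
          psi (st w) (aa w) (ell w) (Bm w) x := by
        unfold psi
        simp only [a3 w hwD']
      have e2 : psi (st w) (aa w) (ell w) (Bm w) (x + (2 * n : ℤ)) =
          psi (st w) (aa w) (ell w) (Bm w) x := by
        unfold psi
        simp only [b3 w hwD']
      rw [e1, e2]
      simp
  rw [key]
  refine (map_prod Circle.coeHom _ _).trans ?_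
  refine Finset.prod_congr rfl fun w hw => ?_
  rw [Finset.mem_range] at hw
  refine psi_second (st w) (aa w) (ell w) (Bm w) x (x + n) (x + (2 * n : ℤ)) (t w) ?_ ?_
  · intro i hi
    exact a1 w hw i hi
  · intro i hi
    exact b1 w hw i hi

/-- value of the correlation sequence at integers with small digits -/
theorem corr_est (Bm : ℕ → ℕ → ℕ → Bool) (Φ : ℤ → ℤ_[2] → Circle)
    (hΦ : IsCoc (fun w => psi (st w) (aa w) (ell w) (Bm w)) Φ) (D : ℕ) (t : ℕ → ℕ → ℤ)
    (ht : ∀ w < D, ∀ i < 2 * ell w, |t w i| ≤ 3 * 2 ^ HH w) :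
    ‖corr Φ (∑ w ∈ Finset.range D, ∑ i ∈ Finset.range (2 * ell w),
        t w i * 2 ^ (st w + aa w * i)) -
      ∏ w ∈ Finset.range D, (-1 : ℂ) ^ (∑ i ∈ Finset.range (ell w),
        ∑ j ∈ Finset.range (ell w), if Bm w i j then t w i * t w (ell w + j) else 0)‖ ≤
      1 / 100 := by
  have := mu2_prob
  set n : ℤ := ∑ w ∈ Finset.range D, ∑ i ∈ Finset.range (2 * ell w),
        t w i * 2 ^ (st w + aa w * i) with hn
  set c : ℂ := ∏ w ∈ Finset.range D, (-1 : ℂ) ^ (∑ i ∈ Finset.range (ell w),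
        ∑ j ∈ Finset.range (ell w), if Bm w i j then t w i * t w (ell w + j) else 0) with hc
  have hcn : ‖c‖ = 1 := by
    rw [hc, norm_prod]
    refine Finset.prod_eq_one fun w _ => ?_
    rw [norm_zpow, norm_neg, norm_one, one_zpow]
  have hmeas : Measurable fun x => ((Φ (2 * n) x * (Φ n x)⁻¹ ^ 2 : Circle) : ℂ) := by
    have h1 : Measurable fun x => (Φ (2 * n) x * (Φ n x)⁻¹ ^ 2 : Circle) :=
      (hΦ.meas (2 * n)).mul (((hΦ.meas n).inv).pow_const 2)
    have h0 : Continuous (fun z : Circle => (z : ℂ)) := continuous_subtype_val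
    have h2 : Measurable (fun z : Circle => (z : ℂ)) := h0.measurable
    exact h2.comp h1
  have hint : Integrable (fun x => ((Φ (2 * n) x * (Φ n x)⁻¹ ^ 2 : Circle) : ℂ)) mu2 := by
    refine Integrable.of_bound hmeas.aestronglyMeasurable 1 (Filter.Eventually.of_forall fun x => ?_)
    exact le_of_eq (Circle.norm_coe _)
  have hsub : corr Φ n - c = ∫ x, (((Φ (2 * n) x * (Φ n x)⁻¹ ^ 2 : Circle) : ℂ) - c) ∂mu2 := by
    rw [integral_sub hint (integrable_const c), integral_const]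
    simp [corr]
  rw [hsub]
  have hms : MeasurableSet (corr_est_bad D) := corr_est_mbad D
  have hae : ∀ᵐ x ∂mu2, ‖((Φ (2 * n) x * (Φ n x)⁻¹ ^ 2 : Circle) : ℂ) - c‖ ≤
      (corr_est_bad D).indicator (fun _ => (2 : ℝ)) x := by
    filter_upwards [hΦ.lim n, hΦ.lim (2 * n)] with x h1 h2
    by_cases hx : x ∈ corr_est_bad D
    · rw [Set.indicator_of_mem hx]
      refine (norm_sub_le _ _).trans ?_
      rw [hcn, Circle.norm_coe]
      norm_num
    · rw [Set.indicator_of_notMem hx, corr_est_pt Bm Φ D t ht n hn x hx h1 h2, ← hc, sub_self,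
        norm_zero]
  refine (norm_integral_le_integral_norm _).trans ?_
  have hind : Integrable ((corr_est_bad D).indicator (fun _ => (2 : ℝ))) mu2 :=
    (integrable_const (2 : ℝ)).indicator hms
  refine (integral_mono_ae ((hint.sub (integrable_const c)).norm) hind hae).trans ?_
  rw [integral_indicator hms, setIntegral_const, smul_eq_mul]
  have hle : mu2.real (corr_est_bad D) ≤ 32 / 2 ^ 20 := by
    refine ENNReal.toReal_le_of_le_ofReal (by norm_num) (corr_est_mu D)
  calc mu2.real (corr_est_bad D) * 2 ≤ 32 / 2 ^ 20 * 2 := by gcongr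
    _ ≤ 1 / 100 := by norm_num

end

end Pool.NilAvg
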