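import Pool.Agent.Helper986.NilAvg.Defs
import Pool.Agent.Helper986.NilAvg.ApiEv
import Pool.Agent.Helper986.NilAvg.ApiNrm
import Pool.Agent.Helper986.NilAvg.TriPos
import Pool.Agent.Helper986.NilAvg.TriShift
import Pool.Agent.Helper986.NilAvg.DefsB
import Pool.Agent.Helper986.NilAvg.Params
import Pool.Agent.Helper986.NilAvg.Windows
import Pool.Agent.Helper986.NilAvg.DefsA

set_option autoImplicit false

namespace Pool.NilAvg

open Filter Topology
open scoped ComplexConjugate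

noncomputable section

variable {κ : Type}

open MeasureTheory


/-- integers whose digits in the window `w` are small with sign `ε` -/
def Dig (Bm : ℕ → ℕ → ℕ → Bool) (w : ℕ) (σ : ℂ) : Set ℤ :=
  {n | ∃ t : ℕ → ℤ, (∀ i < 2 * ell w, |t i| ≤ 3 * 2 ^ HH w) ∧
    n = ∑ i ∈ Finset.range (2 * ell w), t i * 2 ^ (st w + aa w * i) ∧
    (-1 : ℂ) ^ (∑ i ∈ Finset.range (ell w), ∑ j ∈ Finset.range (ell w),
      if Bm w i j then t i * t (ell w + j) else 0) = σ}

theorem supp_W_mul {μ ν : Law} {n : ℤ} (h : n ∈ (μ * ν).coeff.support) :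
    ∃ a ∈ μ.coeff.support, ∃ b ∈ ν.coeff.support, n = a + b := by
  classical
  have h1 := AddMonoidAlgebra.support_coeff_mul_subset μ ν h
  obtain ⟨a, ha, b, hb, hab⟩ := Finset.mem_add.1 h1
  exact ⟨a, ha, b, hb, hab.symm⟩

theorem supp_W_sum {ι : Type*} (s : Finset ι) (c : ℝ) (μ : ι → Law) {n : ℤ}
    (h : n ∈ (c • ∑ i ∈ s, μ i).coeff.support) : ∃ i ∈ s, n ∈ (μ i).coeff.support := by
  classical
  by_contra hcon
  push Not at hcon
  rw [Finsupp.mem_support_iff] at h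
  apply h
  rw [AddMonoidAlgebra.coeff_smul, Finsupp.smul_apply, AddMonoidAlgebra.coeff_sum,
    Finsupp.finset_sum_apply, Finset.sum_eq_zero, smul_zero]
  intro i hi
  exact Finsupp.notMem_support_iff.1 (hcon i hi)

theorem supp_W_add {μ ν : Law} (c : ℝ) {n : ℤ} (h : n ∈ (c • (μ + ν)).coeff.support) :
    n ∈ μ.coeff.support ∨ n ∈ ν.coeff.support := by
  by_contra hcon
  push Not at hcon
  rw [Finsupp.mem_support_iff] at h
  apply h
  rw [AddMonoidAlgebra.coeff_smul, Finsupp.smul_apply, AddMonoidAlgebra.coeff_add,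
    Finsupp.add_apply, Finsupp.notMem_support_iff.1 hcon.1, Finsupp.notMem_support_iff.1 hcon.2,
    add_zero, smul_zero]

theorem supp_W_pt {m n : ℤ} (h : n ∈ (pt m).coeff.support) : n = m := by
  unfold pt at h
  rw [AddMonoidAlgebra.coeff_single] at h
  exact Finset.mem_singleton.1 (Finsupp.support_single_subset h)

theorem supp_W_pt_zero : pt 0 = 1 := rfl

theorem supp_W_pt_mul (a b : ℤ) : pt a * pt b = pt (a + b) := by
  unfold pt
  rw [AddMonoidAlgebra.single_mul_single, mul_one]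

theorem supp_W_list (r : ℕ) (c : ℕ → ℤ) (m : ℕ) {n : ℤ}
    (h : n ∈ (((List.range m).map fun i => tri r (c i)).prod : Law).coeff.support) :
    ∃ τ : ℕ → ℤ, (∀ i < m, |τ i| < 2 ^ r) ∧ n = ∑ i ∈ Finset.range m, τ i * c i := by
  induction m generalizing n with
  | zero =>
    refine ⟨fun _ => 0, fun i hi => absurd hi (by omega), ?_⟩
    have h1 : n ∈ (pt 0).coeff.support := h
    rw [supp_W_pt h1]
    simp
  | succ m ih =>
    rw [List.range_succ, List.map_append, List.prod_append] at h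
    obtain ⟨a, ha, b, hb, rfl⟩ := supp_W_mul h
    obtain ⟨τ, h1, rfl⟩ := ih ha
    simp only [List.map_cons, List.map_nil, List.prod_cons, List.prod_nil, mul_one] at hb
    obtain ⟨t, ht, rfl⟩ := tri_support r (c m) b hb
    refine ⟨fun i => if i = m then t else τ i, ?_, ?_⟩
    · intro i hi
      by_cases him : i = m
      · simp only [if_pos him]; exact ht
      · simp only [if_neg him]; exact h1 i (by omega)
    · rw [Finset.sum_range_succ]
      dsimp only
      rw [if_pos rfl]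
      congr 1
      apply Finset.sum_congr rfl
      intro i hi
      have := Finset.mem_range.1 hi
      have h2 : ¬ (i = m) := by omega
      rw [if_neg h2]

theorem supp_W_list_prob (r : ℕ) (c : ℕ → ℤ) (m : ℕ) :
    IsProb (((List.range m).map fun i => tri r (c i)).prod) := by
  induction m with
  | zero => exact IsProb.one
  | succ m ih =>
    rw [List.range_succ, List.map_append, List.prod_append]
    simp only [List.map_cons, List.map_nil, List.prod_cons, List.prod_nil, mul_one]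
    exact ih.mul (tri_pos r (c m)).prob

/-- the small generators -/
def supp_W_P (w r : ℕ) : Law :=
  ((List.range (2 * ell w)).map fun i => tri r (2 * 2 ^ (st w + aa w * i))).prod

/-- the big generator -/
def supp_W_g (w : ℕ) (x : Finset ℕ × Finset ℕ) : ℤ :=
  2 ^ st w * (pos (aa w) x.1 + 2 ^ (aa w * ell w) * pos (aa w) x.2)

theorem supp_W_win (w : ℕ) (p : ℕ × (Finset ℕ × Finset ℕ)) :
    win gen w p = tri p.1 (supp_W_g w p.2) * supp_W_P w p.1 := by
  unfold win gen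
  rw [List.map_cons, List.prod_cons, List.map_map]
  rfl

theorem supp_W_eq (S : ℕ → Finset (Finset ℕ × Finset ℕ)) (w : ℕ) :
    W gen HH S w = ((Finset.Icc 1 (HH w) ×ˢ S w).card : ℝ)⁻¹ •
      ∑ p ∈ Finset.Icc 1 (HH w) ×ˢ S w, win gen w p := by
  unfold W
  rw [Finset.sum_product, Finset.card_product, Nat.card_Icc, Nat.add_sub_cancel]
  push_cast
  rfl

/-- the digits of the big generator -/
def supp_W_d (w : ℕ) (y z : Finset ℕ) (i : ℕ) : ℤ :=
  if i < ell w then (if i ∈ y then 1 else 0) else (if i - ell w ∈ z then 1 else 0)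

theorem supp_W_pos (a l : ℕ) (y : Finset ℕ) (hy : y ⊆ Finset.range l) :
    pos a y = ∑ i ∈ Finset.range l, (if i ∈ y then 1 else 0) * 2 ^ (a * i) := by
  unfold pos
  simp only [ite_mul, one_mul, zero_mul]
  rw [Finset.sum_ite_mem, Finset.inter_eq_right.2 hy]

theorem supp_W_g_eq (w : ℕ) (y z : Finset ℕ) (hy : y ⊆ Finset.range (ell w))
    (hz : z ⊆ Finset.range (ell w)) : supp_W_g w (y, z) =
      ∑ i ∈ Finset.range (2 * ell w), supp_W_d w y z i * 2 ^ (st w + aa w * i) := by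
  unfold supp_W_g
  rw [two_mul, Finset.sum_range_add, supp_W_pos _ _ y hy, supp_W_pos _ _ z hz, mul_add,
    Finset.mul_sum, Finset.mul_sum, Finset.mul_sum]
  congr 1
  · apply Finset.sum_congr rfl
    intro i hi
    have := Finset.mem_range.1 hi
    unfold supp_W_d
    rw [if_pos this, pow_add]
    ring
  · apply Finset.sum_congr rfl
    intro i hi
    unfold supp_W_d
    have h1 : ¬ (ell w + i < ell w) := by omega
    rw [if_neg h1, Nat.add_sub_cancel_left, pow_add, mul_add, pow_add]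
    ring

theorem supp_W_zmod (a : ZMod 2) : a * a = a := by
  revert a
  decide

theorem supp_W_par (B : ℕ → ℕ → Bool) (l : ℕ) (y z : Finset ℕ) (hy : y ⊆ Finset.range l)
    (hz : z ⊆ Finset.range l) (τ : ℤ) (t : ℕ → ℤ)
    (h1 : ∀ i < l, ∃ s : ℤ, t i = τ * (if i ∈ y then 1 else 0) + 2 * s)
    (h2 : ∀ j < l, ∃ s : ℤ, t (l + j) = τ * (if j ∈ z then 1 else 0) + 2 * s) :
    (-1 : ℂ) ^ (∑ i ∈ Finset.range l, ∑ j ∈ Finset.range l,
      if B i j then t i * t (l + j) else 0) =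
    (-1 : ℂ) ^ (τ * (((y ×ˢ z).filter fun p => B p.1 p.2 = true).card : ℤ)) := by
  have two0 : (2 : ZMod 2) = 0 := rfl
  have h3 : ∀ i < l, ((t i : ℤ) : ZMod 2) = (τ : ZMod 2) * (if i ∈ y then 1 else 0) := by
    intro i hi
    obtain ⟨s, hs⟩ := h1 i hi
    rw [hs]
    push_cast
    rw [two0, zero_mul, add_zero]
  have h4 : ∀ i < l, ((t (l + i) : ℤ) : ZMod 2) = (τ : ZMod 2) * (if i ∈ z then 1 else 0) := by
    intro i hi
    obtain ⟨s, hs⟩ := h2 i hi
    rw [hs]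
    push_cast
    rw [two0, zero_mul, add_zero]
  have key : ((∑ i ∈ Finset.range l, ∑ j ∈ Finset.range l,
      if B i j then t i * t (l + j) else 0 : ℤ) : ZMod 2) =
      ((τ * (((y ×ˢ z).filter fun p => B p.1 p.2 = true).card : ℤ) : ℤ) : ZMod 2) := by
    have e1 : ((y ×ˢ z).filter fun p => B p.1 p.2 = true) =
        ((Finset.range l ×ˢ Finset.range l).filter fun p =>
          (B p.1 p.2 = true ∧ p.1 ∈ y ∧ p.2 ∈ z)) := by
      ext p
      simp only [Finset.mem_filter, Finset.mem_product]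
      constructor
      · rintro ⟨⟨h5, h6⟩, h7⟩
        exact ⟨⟨hy h5, hz h6⟩, h7, h5, h6⟩
      · rintro ⟨-, h7, h5, h6⟩
        exact ⟨⟨h5, h6⟩, h7⟩
    rw [e1]
    push_cast
    rw [Finset.natCast_card_filter, Finset.sum_product, Finset.mul_sum]
    apply Finset.sum_congr rfl
    intro i hi
    rw [Finset.mul_sum]
    apply Finset.sum_congr rfl
    intro j hj
    rw [h3 i (Finset.mem_range.1 hi), h4 j (Finset.mem_range.1 hj)]
    by_cases hB : B i j = true
    · by_cases hiy : i ∈ y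
      · by_cases hjz : j ∈ z
        · simp only [hB, hiy, hjz, if_true, and_self, mul_one]
          exact supp_W_zmod _
        · simp [hjz]
      · simp [hiy]
    · simp [hB]
  have h5 := (ZMod.intCast_eq_intCast_iff _ _ 2).1 key
  have h6 : ∀ a b : ℤ, a ≡ b [ZMOD ((2 : ℕ) : ℤ)] → ((-1 : ℂ) ^ a = (-1 : ℂ) ^ b) := by
    intro a b hab
    have h7 : a % 2 = b % 2 := hab
    have h8 : Even a ↔ Even b := by rw [Int.even_iff, Int.even_iff, h7]
    by_cases ha : Even a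
    · rw [ha.neg_one_zpow, (h8.1 ha).neg_one_zpow]
    · rw [(Int.not_even_iff_odd.1 ha).neg_one_zpow,
        (Int.not_even_iff_odd.1 (fun hb => ha (h8.2 hb))).neg_one_zpow]
  exact h6 _ _ h5

theorem supp_W_dig (Bm : ℕ → ℕ → ℕ → Bool) (w r : ℕ) (hr : r ≤ HH w) (y z : Finset ℕ)
    (hy : y ⊆ Finset.range (ell w)) (hz : z ⊆ Finset.range (ell w)) (τ : ℤ) (hτ : |τ| < 2 ^ r)
    (s : ℕ → ℤ) (hs : ∀ i < 2 * ell w, |s i| < 2 ^ r) (σ : ℂ)
    (hσ : (-1 : ℂ) ^ (τ * (((y ×ˢ z).filter fun p => Bm w p.1 p.2 = true).card : ℤ)) = σ) :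
    τ * supp_W_g w (y, z) + ∑ i ∈ Finset.range (2 * ell w), s i * (2 * 2 ^ (st w + aa w * i)) ∈
      Dig Bm w σ := by
  refine ⟨fun i => τ * supp_W_d w y z i + 2 * s i, ?_, ?_, ?_⟩
  · intro i hi
    have h1 : |supp_W_d w y z i| ≤ 1 := by
      unfold supp_W_d
      split_ifs <;> simp
    have h2 := hs i hi
    have h3 : (2 : ℤ) ^ r ≤ 2 ^ HH w := pow_le_pow_right₀ (by norm_num) hr
    have h4 : |τ * supp_W_d w y z i| ≤ |τ| := by
      rw [abs_mul]
      exact mul_le_of_le_one_right (abs_nonneg _) h1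
    have h5 : |2 * s i| = 2 * |s i| := by
      rw [abs_mul]
      rfl
    have h6 := abs_add_le (τ * supp_W_d w y z i) (2 * s i)
    linarith
  · rw [supp_W_g_eq w y z hy hz, Finset.mul_sum, ← Finset.sum_add_distrib]
    apply Finset.sum_congr rfl
    intro i _
    ring
  · rw [← hσ]
    apply supp_W_par (Bm w) (ell w) y z hy hz τ
    · intro i hi
      refine ⟨s i, ?_⟩
      simp only [supp_W_d, if_pos hi]
    · intro j hj
      refine ⟨s (ell w + j), ?_⟩
      have h1 : ¬ (ell w + j < ell w) := by omega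
      simp only [supp_W_d, if_neg h1, Nat.add_sub_cancel_left]

theorem supp_plus (Bm : ℕ → ℕ → ℕ → Bool) (w : ℕ) :
    ∀ n ∈ (W gen HH (Spar Bm 1) w).coeff.support, n ∈ Dig Bm w 1 := by
  intro n hn
  rw [supp_W_eq] at hn
  obtain ⟨⟨r, y, z⟩, hp, hn⟩ := supp_W_sum _ _ _ hn
  rw [supp_W_win] at hn
  obtain ⟨a, ha, b, hb, rfl⟩ := supp_W_mul hn
  obtain ⟨τ, hτ, rfl⟩ := tri_support _ _ _ ha
  obtain ⟨s, hs, rfl⟩ := supp_W_list _ _ _ hb
  rw [Finset.mem_product] at hp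
  obtain ⟨hr, hx⟩ := hp
  have hr2 := (Finset.mem_Icc.1 hr).2
  unfold Spar at hx
  rw [Finset.mem_filter, Finset.mem_product, Finset.mem_powerset, Finset.mem_powerset] at hx
  obtain ⟨⟨hy, hz⟩, hsg⟩ := hx
  refine supp_W_dig Bm w r hr2 y z hy hz τ hτ s hs 1 ?_
  have h1 : Even ((y ×ˢ z).filter fun p => Bm w p.1 p.2 = true).card := by
    by_contra hodd
    rw [Nat.not_even_iff_odd] at hodd
    have h2 : sgn (Bm w) y z = -1 := hodd.neg_one_pow
    have h3 : sgn (Bm w) y z = 1 := hsg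
    rw [h2] at h3
    norm_num at h3
  apply Even.neg_one_zpow
  exact Even.mul_left (by exact_mod_cast h1) τ

/-! splitting -/

theorem supp_W_half {μ ν : Law} (hμ : IsProb μ) (hν : IsProb ν) :
    IsProb ((2 : ℝ)⁻¹ • (μ + ν)) := by
  have h := IsProb.avg (Finset.univ : Finset Bool) ⟨true, Finset.mem_univ _⟩
    (fun b => if b then μ else ν) (fun b _ => by cases b <;> simpa)
  simpa [Fintype.sum_bool] using h

theorem supp_W_sum_two {M : Type*} [AddCommMonoid M] (f : ℕ → M) (m : ℕ) :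
    ∑ i ∈ Finset.range (2 * m), f i = ∑ j ∈ Finset.range m, (f (2 * j) + f (2 * j + 1)) := by
  induction m with
  | zero => simp
  | succ m ih =>
    rw [mul_add, mul_one, Finset.sum_range_succ, Finset.sum_range_succ, ih,
      Finset.sum_range_succ, add_assoc]

theorem supp_W_box (r : ℕ) (g : ℤ) :
    box (r + 1) g = (2 : ℝ)⁻¹ • ((1 + pt g) * box r (2 * g)) := by
  unfold box
  rw [mul_smul_comm, smul_smul, Finset.mul_sum,
    show (2 : ℕ) ^ (r + 1) = 2 * 2 ^ r from pow_succ' 2 r, supp_W_sum_two]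
  congr 1
  · rw [pow_succ', mul_inv]
  · apply Finset.sum_congr rfl
    intro j _
    rw [add_mul, one_mul, supp_W_pt_mul]
    congr 1
    · congr 1
      push_cast
      ring
    · congr 1
      push_cast
      ring

/-- even part -/
def supp_W_E (r : ℕ) (g : ℤ) : Law := tri (r - 1) (2 * g)

/-- odd part -/
def supp_W_O (r : ℕ) (g : ℤ) : Law :=
  (2 : ℝ)⁻¹ • (pt g * tri (r - 1) (2 * g) + pt (-g) * tri (r - 1) (2 * g))

theorem supp_W_tri (r : ℕ) (hr : 1 ≤ r) (g : ℤ) :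
    tri r g = (2 : ℝ)⁻¹ • (supp_W_E r g + supp_W_O r g) := by
  obtain ⟨r, rfl⟩ : ∃ k, r = k + 1 := ⟨r - 1, by omega⟩
  unfold supp_W_E supp_W_O
  rw [Nat.add_sub_cancel]
  unfold tri
  rw [supp_W_box, supp_W_box, mul_neg]
  have hab : pt g * pt (-g) = 1 := by
    rw [supp_W_pt_mul, add_neg_cancel]
    rfl
  generalize pt g = a at hab
  generalize pt (-g) = b at hab
  generalize box r (2 * g) = X
  generalize box r (-(2 * g)) = Y
  have h1 : (1 + a) * X * ((1 + b) * Y) = (2 : ℝ) • (X * Y) + (a * (X * Y) + b * (X * Y)) := by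
    rw [two_smul]
    calc (1 + a) * X * ((1 + b) * Y) = (1 + a + b + a * b) * (X * Y) := by ring
      _ = _ := by rw [hab]; ring
  rw [smul_mul_smul_comm, h1]
  module

theorem supp_W_E_prob (r : ℕ) (g : ℤ) : IsProb (supp_W_E r g) := (tri_pos _ _).prob

theorem supp_W_O_prob (r : ℕ) (g : ℤ) : IsProb (supp_W_O r g) :=
  supp_W_half ((IsProb.pt g).mul (tri_pos _ _).prob) ((IsProb.pt (-g)).mul (tri_pos _ _).prob)

theorem supp_W_E_supp (r : ℕ) (hr : 1 ≤ r) (g n : ℤ) (h : n ∈ (supp_W_E r g).coeff.support) :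
    ∃ τ : ℤ, |τ| < 2 ^ r ∧ Even τ ∧ n = τ * g := by
  obtain ⟨r, rfl⟩ : ∃ k, r = k + 1 := ⟨r - 1, by omega⟩
  obtain ⟨t, ht, rfl⟩ := tri_support _ _ _ h
  rw [Nat.add_sub_cancel] at ht
  refine ⟨2 * t, ?_, even_two_mul t, by ring⟩
  rw [abs_lt] at ht ⊢
  rw [pow_succ]
  omega

theorem supp_W_O_supp (r : ℕ) (hr : 1 ≤ r) (g n : ℤ) (h : n ∈ (supp_W_O r g).coeff.support) :
    ∃ τ : ℤ, |τ| < 2 ^ r ∧ Odd τ ∧ n = τ * g := by
  obtain ⟨r, rfl⟩ : ∃ k, r = k + 1 := ⟨r - 1, by omega⟩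
  rcases supp_W_add _ h with h | h
  · obtain ⟨a, ha, b, hb, rfl⟩ := supp_W_mul h
    obtain ⟨t, ht, rfl⟩ := tri_support _ _ _ hb
    rw [Nat.add_sub_cancel] at ht
    rw [supp_W_pt ha]
    refine ⟨2 * t + 1, ?_, ⟨t, rfl⟩, by ring⟩
    rw [abs_lt] at ht ⊢
    rw [pow_succ]
    omega
  · obtain ⟨a, ha, b, hb, rfl⟩ := supp_W_mul h
    obtain ⟨t, ht, rfl⟩ := tri_support _ _ _ hb
    rw [Nat.add_sub_cancel] at ht
    rw [supp_W_pt ha]
    refine ⟨2 * t - 1, ?_, ⟨t - 1, by ring⟩, by ring⟩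
    rw [abs_lt] at ht ⊢
    rw [pow_succ]
    omega

/-- the law of a window of sign `-1` is half a law with sign `1` and half a law with sign `-1` -/
theorem supp_minus (Bm : ℕ → ℕ → ℕ → Bool) (w : ℕ) (h : (Spar Bm (-1) w).Nonempty) :
    ∃ μ₀ μ₁ : Law, IsProb μ₀ ∧ IsProb μ₁ ∧
      W gen HH (Spar Bm (-1)) w = (2 : ℝ)⁻¹ • (μ₀ + μ₁) ∧
      (∀ n ∈ μ₀.coeff.support, n ∈ Dig Bm w 1) ∧
      (∀ n ∈ μ₁.coeff.support, n ∈ Dig Bm w (-1)) := by
  have hH : 1 ≤ HH w := by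
    unfold HH
    exact Nat.mul_pos (by omega) (by positivity)
  have hne : (Finset.Icc 1 (HH w) ×ˢ Spar Bm (-1) w).Nonempty :=
    Finset.Nonempty.product ⟨1, Finset.mem_Icc.2 ⟨le_rfl, hH⟩⟩ h
  have hPp : ∀ r, IsProb (supp_W_P w r) := fun r => supp_W_list_prob _ _ _
  have hcard : ∀ y z : Finset ℕ, (y, z) ∈ Spar Bm (-1) w → y ⊆ Finset.range (ell w) ∧
      z ⊆ Finset.range (ell w) ∧
      Odd ((y ×ˢ z).filter fun p => Bm w p.1 p.2 = true).card := by
    intro y z hx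
    unfold Spar at hx
    rw [Finset.mem_filter, Finset.mem_product, Finset.mem_powerset, Finset.mem_powerset] at hx
    obtain ⟨⟨hy, hz⟩, hsg⟩ := hx
    refine ⟨hy, hz, ?_⟩
    by_contra hev
    rw [Nat.not_odd_iff_even] at hev
    have h2 : sgn (Bm w) y z = 1 := hev.neg_one_pow
    have h3 : sgn (Bm w) y z = -1 := hsg
    rw [h2] at h3
    norm_num at h3
  refine ⟨((Finset.Icc 1 (HH w) ×ˢ Spar Bm (-1) w).card : ℝ)⁻¹ •
      ∑ p ∈ Finset.Icc 1 (HH w) ×ˢ Spar Bm (-1) w,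
        supp_W_E p.1 (supp_W_g w p.2) * supp_W_P w p.1,
    ((Finset.Icc 1 (HH w) ×ˢ Spar Bm (-1) w).card : ℝ)⁻¹ •
      ∑ p ∈ Finset.Icc 1 (HH w) ×ˢ Spar Bm (-1) w,
        supp_W_O p.1 (supp_W_g w p.2) * supp_W_P w p.1, ?_, ?_, ?_, ?_, ?_⟩
  · exact IsProb.avg _ hne _ (fun p _ => (supp_W_E_prob _ _).mul (hPp _))
  · exact IsProb.avg _ hne _ (fun p _ => (supp_W_O_prob _ _).mul (hPp _))
  · rw [supp_W_eq, ← smul_add, ← Finset.sum_add_distrib, smul_comm]
    congr 1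
    rw [Finset.smul_sum]
    apply Finset.sum_congr rfl
    intro p hp
    rw [Finset.mem_product] at hp
    rw [supp_W_win, supp_W_tri p.1 (Finset.mem_Icc.1 hp.1).1, smul_mul_assoc, add_mul]
  · intro n hn
    obtain ⟨⟨r, y, z⟩, hp, hn⟩ := supp_W_sum _ _ _ hn
    rw [Finset.mem_product] at hp
    have hr := Finset.mem_Icc.1 hp.1
    obtain ⟨hy, hz, hodd⟩ := hcard y z hp.2
    obtain ⟨a, ha, b, hb, rfl⟩ := supp_W_mul hn
    obtain ⟨τ, hτ, hev, rfl⟩ := supp_W_E_supp _ hr.1 _ _ ha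
    obtain ⟨s, hs, rfl⟩ := supp_W_list _ _ _ hb
    refine supp_W_dig Bm w r hr.2 y z hy hz τ hτ s hs 1 ?_
    apply Even.neg_one_zpow
    exact Even.mul_right hev _
  · intro n hn
    obtain ⟨⟨r, y, z⟩, hp, hn⟩ := supp_W_sum _ _ _ hn
    rw [Finset.mem_product] at hp
    have hr := Finset.mem_Icc.1 hp.1
    obtain ⟨hy, hz, hodd⟩ := hcard y z hp.2
    obtain ⟨a, ha, b, hb, rfl⟩ := supp_W_mul hn
    obtain ⟨τ, hτ, hod, rfl⟩ := supp_W_O_supp _ hr.1 _ _ ha
    obtain ⟨s, hs, rfl⟩ := supp_W_list _ _ _ hb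
    refine supp_W_dig Bm w r hr.2 y z hy hz τ hτ s hs (-1) ?_
    apply Odd.neg_one_zpow
    exact Odd.mul hod (by exact_mod_cast hodd)

end

end Pool.NilAvg
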