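import Pool.Agent.Helper986.NilAvg.Defs
import Pool.Agent.Helper986.NilAvg.DefsB
import Pool.Agent.Helper986.NilAvg.Params
import Pool.Agent.Helper986.NilAvg.Windows

set_option autoImplicit false

namespace Pool.NilAvg

open Filter Topology
open scoped ComplexConjugate

noncomputable section

variable {κ : Type}


theorem gen_length (w : ℕ) (x : Finset ℕ × Finset ℕ) : (gen w x).length ≤ 2 * ell w + 1 := by
  simp [gen]

theorem HH_pos (w : ℕ) : 1 ≤ HH w := by
  unfold HH
  exact Nat.mul_pos (Nat.succ_pos _) (by positivity)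

theorem Spar_nonempty (Bm : ℕ → ℕ → ℕ → Bool) (w : ℕ) : (Spar Bm 1 w).Nonempty := by
  classical
  refine ⟨(∅, ∅), ?_⟩
  unfold Spar
  rw [Finset.mem_filter]
  refine ⟨by simp, ?_⟩
  simp [sgn]

theorem summable1 : Summable fun w => ((2 * ell w + 1 : ℕ) : ℝ) / 2 ^ kk w := by
  have h : ∀ w : ℕ, ((2 * ell w + 1 : ℕ) : ℝ) / 2 ^ kk w ≤ 3 * (1 / 4 : ℝ) ^ w := by
    intro w
    unfold ell kk
    push_cast
    have h1 : (2 : ℝ) ^ (6 * w) = 16 ^ w * 4 ^ w := by
      rw [pow_mul, ← mul_pow]; norm_num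
    have h2 : (1 : ℝ) ≤ 16 ^ w := one_le_pow₀ (by norm_num)
    have h3 : (0 : ℝ) < 4 ^ w := by positivity
    rw [h1, div_le_iff₀ (by positivity)]
    have h4 : 3 * (1 / 4 : ℝ) ^ w * (16 ^ w * 4 ^ w) = 3 * 16 ^ w := by
      rw [one_div, inv_pow]
      field_simp
    rw [h4]
    linarith
  refine Summable.of_nonneg_of_le (fun w => by positivity) h ?_
  exact (summable_geometric_of_lt_one (by norm_num) (by norm_num)).mul_left 3

theorem summable2 : Summable fun w => (kk w : ℝ) / HH w := by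
  have h : ∀ w : ℕ, (kk w : ℝ) / HH w ≤ (1 / 2 : ℝ) ^ w := by
    intro w
    unfold kk HH
    push_cast
    rw [one_div, inv_pow, div_le_iff₀ (by positivity)]
    have h3 : (0 : ℝ) < 2 ^ w := by positivity
    have : ((2 : ℝ) ^ w)⁻¹ * ((6 * (w : ℝ) + 1) * 2 ^ w) = 6 * w + 1 := by
      field_simp
    rw [this]
    linarith
  refine Summable.of_nonneg_of_le (fun w => by positivity) h ?_
  exact summable_geometric_of_lt_one (by norm_num) (by norm_num)

end

end Pool.NilAvg
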