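import Pool.Agent.Helper986.NilAvg.Defs
import Pool.Agent.Helper986.NilAvg.ApiEv
import Pool.Agent.Helper986.NilAvg.ApiNrm
import Pool.Agent.Helper986.NilAvg.TriPos
import Pool.Agent.Helper986.NilAvg.WinPos
import Pool.Agent.Helper986.NilAvg.DefsB
import Pool.Agent.Helper986.NilAvg.Params
import Pool.Agent.Helper986.NilAvg.Windows
import Pool.Agent.Helper986.NilAvg.WindowsFacts
import Pool.Agent.Helper986.NilAvg.DefsA
import Pool.Agent.Helper986.NilAvg.CorrEst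
import Pool.Agent.Helper986.NilAvg.SuppW

set_option autoImplicit false

namespace Pool.NilAvg

open Filter Topology
open scoped ComplexConjugate

noncomputable section

variable {κ : Type}

open MeasureTheory


def corr_nu_MS (Bm : ℕ → ℕ → ℕ → Bool) (D : ℕ) (σ : ℂ) : Set ℤ :=
  {n | ∃ t : ℕ → ℕ → ℤ, (∀ w < D, ∀ i < 2 * ell w, |t w i| ≤ 3 * 2 ^ HH w) ∧
    n = ∑ w ∈ Finset.range D, ∑ i ∈ Finset.range (2 * ell w), t w i * 2 ^ (st w + aa w * i) ∧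
    (∏ w ∈ Finset.range D, (-1 : ℂ) ^ (∑ i ∈ Finset.range (ell w),
        ∑ j ∈ Finset.range (ell w), if Bm w i j then t w i * t w (ell w + j) else 0)) = σ}

theorem corr_nu_comb (Bm : ℕ → ℕ → ℕ → Bool) (D : ℕ) (σ1 σ2 : ℂ) (n1 n2 : ℤ)
    (h1 : n1 ∈ corr_nu_MS Bm D σ1) (h2 : n2 ∈ Dig Bm D σ2) : n1 + n2 ∈ corr_nu_MS Bm (D + 1) (σ1 * σ2) := by
  obtain ⟨t, ht, hn, hs⟩ := h1
  obtain ⟨t2, ht2, hn2, hs2⟩ := h2
  have hlt : ∀ w ∈ Finset.range D, Function.update t D t2 w = t w := by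
    intro w hw
    rw [Function.update_of_ne (Finset.mem_range.mp hw).ne]
  refine ⟨Function.update t D t2, ?_, ?_, ?_⟩
  · intro w hw i hi
    by_cases hwD : w = D
    · subst hwD
      rw [Function.update_self]; exact ht2 i hi
    · rw [Function.update_of_ne hwD]
      exact ht w (by omega) i hi
  · rw [Finset.sum_range_succ, Function.update_self, hn, hn2]
    congr 1
    refine Finset.sum_congr rfl (fun w hw => ?_)
    rw [hlt w hw]
  · rw [Finset.prod_range_succ, Function.update_self, hs2, ← hs]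
    congr 1
    refine Finset.prod_congr rfl (fun w hw => ?_)
    rw [hlt w hw]

theorem corr_nu_supp_mul (μ ν : Law) (n : ℤ) (h : n ∈ (μ * ν).coeff.support) :
    ∃ n1 ∈ μ.coeff.support, ∃ n2 ∈ ν.coeff.support, n1 + n2 = n := by
  have := AddMonoidAlgebra.support_coeff_mul_subset μ ν h
  exact Finset.mem_add.mp this

theorem corr_nu_supp (Bm : ℕ → ℕ → ℕ → Bool) (D : ℕ) :
    ∀ n ∈ (nuP Bm D).coeff.support, n ∈ corr_nu_MS Bm D 1 := by
  induction D with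
  | zero =>
    intro n hn
    have h1 : nuP Bm 0 = 1 := by unfold nuP; simp
    rw [h1, AddMonoidAlgebra.one_def, AddMonoidAlgebra.coeff_single] at hn
    have h2 := Finsupp.support_single_subset hn
    rw [Finset.mem_singleton] at h2
    exact ⟨fun _ _ => 0, fun w hw => absurd hw (by omega), by simp [h2], by simp⟩
  | succ D ih =>
    intro n hn
    have h1 : nuP Bm (D + 1) = nuP Bm D * W gen HH (Spar Bm 1) D := by
      unfold nuP; rw [Finset.prod_range_succ]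
    rw [h1] at hn
    obtain ⟨n1, hn1, n2, hn2, rfl⟩ := corr_nu_supp_mul _ _ _ hn
    have := corr_nu_comb Bm D 1 1 n1 n2 (ih n1 hn1) (supp_plus Bm D n2 hn2)
    rwa [one_mul] at this

theorem corr_nu_corr (Bm : ℕ → ℕ → ℕ → Bool) (Φ : ℤ → ℤ_[2] → Circle)
    (hΦ : IsCoc (fun w => psi (st w) (aa w) (ell w) (Bm w)) Φ) (D : ℕ) (σ : ℂ) (n : ℤ)
    (hn : n ∈ corr_nu_MS Bm D σ) : ‖corr Φ n - σ‖ ≤ 1 / 100 := by
  obtain ⟨t, ht, hn, hs⟩ := hn
  rw [hn, ← hs]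
  exact corr_est Bm Φ hΦ D t ht

theorem corr_nu_W (Bm : ℕ → ℕ → ℕ → Bool) (w : ℕ) : IsProb (W gen HH (Spar Bm 1) w) := by
  have h := IsProb.avg (Finset.Icc 1 (HH w) ×ˢ Spar Bm 1 w)
    (Finset.Nonempty.product ⟨1, Finset.mem_Icc.mpr ⟨le_rfl, HH_pos w⟩⟩ (Spar_nonempty Bm w))
    (fun q => win gen w (q.1, q.2)) (fun q _ => (win_pos gen w _).prob)
  rw [Finset.card_product, Nat.card_Icc, Finset.sum_product] at h
  unfold W
  have e : ((HH w + 1 - 1 : ℕ) : ℝ) = (HH w : ℝ) := by simp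
  rw [Nat.cast_mul, e] at h
  exact h

theorem corr_nu_P (Bm : ℕ → ℕ → ℕ → Bool) (D : ℕ) : IsProb (nuP Bm D) := by
  induction D with
  | zero =>
    have h1 : nuP Bm 0 = 1 := by unfold nuP; simp
    rw [h1]; exact IsProb.one
  | succ D ih =>
    have h1 : nuP Bm (D + 1) = nuP Bm D * W gen HH (Spar Bm 1) D := by
      unfold nuP; rw [Finset.prod_range_succ]
    rw [h1]
    exact ih.mul (corr_nu_W Bm D)

theorem corr_nu_ev {μ : Law} (hμ : IsProb μ) (f : ℤ → ℂ) (c : ℂ) (ε : ℝ)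
    (h : ∀ n ∈ μ.coeff.support, ‖f n - c‖ ≤ ε) : ‖ev μ f - c‖ ≤ ε := by
  have h1 : ev μ (fun n => f n - c) = ev μ f - c := by
    have h2 := ev_add_fun μ f (fun _ => -c)
    rw [hμ.ev_const] at h2
    simp only [← sub_eq_add_neg] at h2
    exact h2
  rw [← h1]
  calc ‖ev μ (fun n => f n - c)‖ ≤ ev μ (fun n => ‖f n - c‖) := hμ.norm_ev_le_ev _
    _ ≤ ev μ (fun _ => ε) := hμ.ev_mono h
    _ = ε := hμ.ev_const ε



theorem corr_plus (Bm : ℕ → ℕ → ℕ → Bool) (Φ : ℤ → ℤ_[2] → Circle)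
    (hΦ : IsCoc (fun w => psi (st w) (aa w) (ell w) (Bm w)) Φ) (D : ℕ) :
    ‖ev (nuS Bm 1 D) (corr Φ) - 1‖ ≤ 1 / 100 := by
  have h1 : nuS Bm 1 D = nuP Bm (D + 1) := by
    unfold nuS nuP; rw [Finset.prod_range_succ]
  rw [h1]
  exact corr_nu_ev (corr_nu_P Bm (D + 1)) _ 1 _
    (fun n hn => corr_nu_corr Bm Φ hΦ (D + 1) 1 n (corr_nu_supp Bm (D + 1) n hn))


theorem corr_minus (Bm : ℕ → ℕ → ℕ → Bool) (Φ : ℤ → ℤ_[2] → Circle)
    (hΦ : IsCoc (fun w => psi (st w) (aa w) (ell w) (Bm w)) Φ) (D : ℕ)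
    (hD : (Spar Bm (-1) D).Nonempty) :
    ‖ev (nuS Bm (-1) D) (corr Φ)‖ ≤ 1 / 100 := by
  obtain ⟨μ₀, μ₁, hp0, hp1, hW, hs0, hs1⟩ := supp_minus Bm D hD
  have h0 : ‖ev (nuP Bm D * μ₀) (corr Φ) - 1‖ ≤ 1 / 100 := by
    refine corr_nu_ev ((corr_nu_P Bm D).mul hp0) _ 1 _ (fun n hn => ?_)
    obtain ⟨n1, hn1, n2, hn2, rfl⟩ := corr_nu_supp_mul _ _ _ hn
    have := corr_nu_comb Bm D 1 1 n1 n2 (corr_nu_supp Bm D n1 hn1) (hs0 n2 hn2)
    rw [one_mul] at this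
    exact corr_nu_corr Bm Φ hΦ (D + 1) 1 _ this
  have h1 : ‖ev (nuP Bm D * μ₁) (corr Φ) - (-1)‖ ≤ 1 / 100 := by
    refine corr_nu_ev ((corr_nu_P Bm D).mul hp1) _ (-1) _ (fun n hn => ?_)
    obtain ⟨n1, hn1, n2, hn2, rfl⟩ := corr_nu_supp_mul _ _ _ hn
    have := corr_nu_comb Bm D 1 (-1) n1 n2 (corr_nu_supp Bm D n1 hn1) (hs1 n2 hn2)
    rw [one_mul] at this
    exact corr_nu_corr Bm Φ hΦ (D + 1) (-1) _ this
  have e : nuS Bm (-1) D = (2 : ℝ)⁻¹ • (nuP Bm D * μ₀ + nuP Bm D * μ₁) := by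
    unfold nuS
    rw [hW, mul_smul_comm, mul_add]
  rw [e, ev_smul_law, ev_add_law]
  have e2 : (2 : ℝ)⁻¹ • (ev (nuP Bm D * μ₀) (corr Φ) + ev (nuP Bm D * μ₁) (corr Φ))
      = (2 : ℝ)⁻¹ • ((ev (nuP Bm D * μ₀) (corr Φ) - 1) + (ev (nuP Bm D * μ₁) (corr Φ) - (-1))) := by
    congr 1; ring
  rw [e2, norm_smul]
  have h3 : ‖(2:ℝ)⁻¹‖ = 1 / 2 := by norm_num
  rw [h3]
  have h4 := norm_add_le (ev (nuP Bm D * μ₀) (corr Φ) - 1) (ev (nuP Bm D * μ₁) (corr Φ) - (-1))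
  linarith

end

end Pool.NilAvg
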