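import Pool.Agent.Helper986.NilAvg.Defs
import Pool.Agent.Helper986.NilAvg.DefsB

set_option autoImplicit false

namespace Pool.NilAvg

open Filter Topology
open scoped ComplexConjugate

noncomputable section

variable {κ : Type}


/-- parity sums -/
def count_S (B : ℕ → ℕ → Bool) (A : Finset ℕ) (j : ℕ) : ZMod 2 :=
  ∑ r ∈ A, if B r j = true then 1 else 0

theorem count_S_symmDiff (B : ℕ → ℕ → Bool) (A A' : Finset ℕ) (j : ℕ) :
    count_S B (symmDiff A A') j = count_S B A j + count_S B A' j := by
  have h1 : count_S B A j = count_S B (A \ A') j + count_S B (A ∩ A') j := by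
    unfold count_S
    rw [← Finset.sum_union (Finset.disjoint_sdiff_inter A A'), Finset.sdiff_union_inter]
  have h2 : count_S B A' j = count_S B (A' \ A) j + count_S B (A' ∩ A) j := by
    unfold count_S
    rw [← Finset.sum_union (Finset.disjoint_sdiff_inter A' A), Finset.sdiff_union_inter]
  have h3 : count_S B (symmDiff A A') j = count_S B (A \ A') j + count_S B (A' \ A) j := by
    unfold count_S
    rw [symmDiff_def, Finset.sup_eq_union, Finset.sum_union disjoint_sdiff_sdiff]
  have h4 : count_S B (A ∩ A') j + count_S B (A ∩ A') j = 0 := CharTwo.add_self_eq_zero _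
  rw [h1, h2, h3, Finset.inter_comm A' A]
  linear_combination -h4

theorem count_cnt (B : ℕ → ℕ → Bool) (y y' : Finset ℕ) (j : ℕ) :
    ((cnt B y y' j : ℕ) : ZMod 2) = count_S B (symmDiff y y') j := by
  classical
  unfold cnt count_S
  rw [Finset.natCast_card_filter]

theorem count_parity {a b : ℕ} (h : decide (Odd a) = decide (Odd b)) :
    (a : ZMod 2) = (b : ZMod 2) := by
  have h1 : Odd a ↔ Odd b := decide_eq_decide.1 h
  rw [ZMod.natCast_eq_natCast_iff]
  rcases Nat.even_or_odd a with ha | ha
  · have hb : Even b := by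
      rw [← Nat.not_odd_iff_even] at ha ⊢
      rwa [← h1]
    exact (Nat.even_iff.1 ha).trans (Nat.even_iff.1 hb).symm
  · have hb : Odd b := h1.1 ha
    exact (Nat.odd_iff.1 ha).trans (Nat.odd_iff.1 hb).symm

/-- the number of small subsets -/
theorem count_small (l k : ℕ) :
    (((Finset.range l).powerset).filter fun s => s.card ≤ k).card ≤ (l + 1) ^ k := by
  classical
  have h1 : (((Finset.range l).powerset).filter fun s => s.card ≤ k) ⊆
      (Fintype.piFinset (fun _ : Fin k => Finset.range (l + 1))).image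
        (fun g => (Finset.univ.image g).filter (· < l)) := by
    intro s hs
    rw [Finset.mem_filter, Finset.mem_powerset] at hs
    rw [Finset.mem_image]
    have hget : ∀ i : ℕ, s.toList.getD i l = l ∨ s.toList.getD i l ∈ s := by
      intro i
      by_cases hi : i < s.toList.length
      · right
        rw [List.getD_eq_getElem _ _ hi, ← Finset.mem_toList]
        exact List.getElem_mem hi
      · left
        exact List.getD_eq_default _ _ (not_lt.1 hi)
    refine ⟨fun i => s.toList.getD i l, ?_, ?_⟩
    · rw [Fintype.mem_piFinset]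
      intro i
      rcases hget i with h | h
      · rw [h, Finset.mem_range]
        exact Nat.lt_succ_self l
      · have := Finset.mem_range.1 (hs.1 h)
        rw [Finset.mem_range]
        omega
    · ext x
      rw [Finset.mem_filter, Finset.mem_image]
      constructor
      · rintro ⟨⟨i, _, rfl⟩, hx⟩
        rcases hget i with h | h
        · rw [h] at hx
          exact absurd hx (lt_irrefl l)
        · exact h
      · intro hx
        refine ⟨?_, Finset.mem_range.1 (hs.1 hx)⟩
        obtain ⟨i, hi, hix⟩ := List.getElem_of_mem (Finset.mem_toList.2 hx)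
        have hi' : i < k := by
          rw [Finset.length_toList] at hi
          exact lt_of_lt_of_le hi hs.2
        exact ⟨⟨i, hi'⟩, Finset.mem_univ _, by
          rw [← hix]
          exact List.getD_eq_getElem _ _ hi⟩
  refine (Finset.card_le_card h1).trans (Finset.card_image_le.trans ?_)
  rw [Fintype.card_piFinset]
  simp

/-- extension of a matrix -/
def count_ext {l : ℕ} (B : Fin l → Fin l → Bool) (i j : ℕ) : Bool :=
  if h : i < l ∧ j < l then B ⟨i, h.1⟩ ⟨j, h.2⟩ else false

theorem count_det {l : ℕ} (B B' : Fin l → Fin l → Bool) (y₀ y' I : Finset ℕ)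
    (hI : I ⊆ Finset.range l)
    (hpar : ∀ i ∈ I, ∀ j < l, decide (Odd (cnt (count_ext B)
      (symmDiff y₀ (Finset.range i)) y' j)) = decide (Odd (cnt (count_ext B')
      (symmDiff y₀ (Finset.range i)) y' j)))
    (hrow : ∀ i : Fin l, (i.1 ∉ I ∨ ∀ i' ∈ I, i' ≤ i.1) → B i = B' i) : B = B' := by
  classical
  have hS : ∀ i ∈ I, ∀ j < l, count_S (count_ext B) (symmDiff (symmDiff y₀ (Finset.range i)) y') j
      = count_S (count_ext B') (symmDiff (symmDiff y₀ (Finset.range i)) y') j := by
    intro i hi j hj
    rw [← count_cnt, ← count_cnt]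
    exact count_parity (hpar i hi j hj)
  have key : ∀ d : ℕ, ∀ i : ℕ, l ≤ i + d → ∀ j < l, count_ext B i j = count_ext B' i j := by
    intro d
    induction d with
    | zero =>
      intro i hi j _
      have h1 : ¬ (i < l ∧ j < l) := by omega
      rw [count_ext, count_ext, dif_neg h1, dif_neg h1]
    | succ d ih =>
      intro i hi j hj
      by_cases hid : l ≤ i + d
      · exact ih i hid j hj
      have hil : i < l := by omega
      by_cases hiI : i ∉ I ∨ ∀ i' ∈ I, i' ≤ i
      · have h1 : i < l ∧ j < l := ⟨hil, hj⟩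
        rw [count_ext, count_ext, dif_pos h1, dif_pos h1, hrow ⟨i, hil⟩ hiI]
      · push Not at hiI
        obtain ⟨hi1, i', hi', hlt⟩ := hiI
        have h2 := hS i hi1 j hj
        have h3 := hS i' hi' j hj
        have h4 : symmDiff (symmDiff (symmDiff y₀ (Finset.range i)) y')
            (symmDiff (symmDiff y₀ (Finset.range i')) y') = Finset.Ico i i' := by
          ext x
          simp only [Finset.mem_symmDiff, Finset.mem_range, Finset.mem_Ico]
          by_cases hx1 : x ∈ y₀ <;> by_cases hx2 : x ∈ y' <;> by_cases hx3 : x < i <;>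
            by_cases hx4 : x < i' <;> simp [hx1, hx2, hx3, hx4] <;> omega
        have h5 : count_S (count_ext B) (Finset.Ico i i') j =
            count_S (count_ext B') (Finset.Ico i i') j := by
          rw [← h4,
            count_S_symmDiff _ (symmDiff (symmDiff y₀ (Finset.range i)) y')
              (symmDiff (symmDiff y₀ (Finset.range i')) y') j,
            count_S_symmDiff _ (symmDiff (symmDiff y₀ (Finset.range i)) y')
              (symmDiff (symmDiff y₀ (Finset.range i')) y') j, h2, h3]
        have h6 : ∀ B'' : ℕ → ℕ → Bool, count_S B'' (Finset.Ico i i') j =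
            (if B'' i j = true then 1 else 0) + count_S B'' (Finset.Ico (i + 1) i') j := by
          intro B''
          unfold count_S
          rw [Finset.sum_eq_sum_Ico_succ_bot hlt]
        have h7 : count_S (count_ext B) (Finset.Ico (i + 1) i') j =
            count_S (count_ext B') (Finset.Ico (i + 1) i') j := by
          unfold count_S
          refine Finset.sum_congr rfl fun r hr => ?_
          rw [Finset.mem_Ico] at hr
          rw [ih r (by omega) j hj]
        rw [h6, h6, h7] at h5
        have h8 := add_right_cancel h5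
        cases hb : count_ext B i j <;> cases hb' : count_ext B' i j
        · rfl
        · rw [hb, hb'] at h8
          simp at h8
        · rw [hb, hb'] at h8
          simp at h8
        · rfl
  funext i j
  have h1 := key l i (by omega) j j.2
  have h2 : (i : ℕ) < l ∧ (j : ℕ) < l := ⟨i.2, j.2⟩
  rw [count_ext, count_ext, dif_pos h2, dif_pos h2] at h1
  exact h1

/-- counting matrices compatible with a prediction along a chain -/
theorem count {C : Type} [Fintype C] (l t k₀ : ℕ) (ht : 1 ≤ t) (pred : C → ℕ → ℕ → Bool)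
    (𝓑 : Finset (Fin l → Fin l → Bool))
    (h𝓑 : ∀ B ∈ 𝓑, ∃ (c : C) (y₀ y' I : Finset ℕ), y₀ ⊆ Finset.range l ∧
      y' ⊆ Finset.range l ∧ I ⊆ Finset.range l ∧ t ≤ I.card ∧
      ∀ i ∈ I, ((Finset.range l).filter fun j =>
        decide (Odd (cnt (fun i j => if h : i < l ∧ j < l then B ⟨i, h.1⟩ ⟨j, h.2⟩ else false)
          (symmDiff y₀ (Finset.range i)) y' j)) ≠ pred c i j).card ≤ k₀) :
    𝓑.card ≤ Fintype.card C * 2 ^ (3 * l) * (l + 1) ^ (k₀ * l) * 2 ^ (l * (l + 1 - t)) := by
  classical
  -- the error sets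
  let J : (Fin l → Fin l → Bool) → C → Finset ℕ → Finset ℕ → ℕ → Finset ℕ :=
    fun B c y₀ y' i => (Finset.range l).filter fun j =>
      decide (Odd (cnt (count_ext B) (symmDiff y₀ (Finset.range i)) y' j)) ≠ pred c i j
  have h𝓑' : ∀ B : Fin l → Fin l → Bool, B ∈ 𝓑 → ∃ q : C × Finset ℕ × Finset ℕ × Finset ℕ,
      q.2.1 ⊆ Finset.range l ∧ q.2.2.1 ⊆ Finset.range l ∧ q.2.2.2 ⊆ Finset.range l ∧
      t ≤ q.2.2.2.card ∧ ∀ i ∈ q.2.2.2, (J B q.1 q.2.1 q.2.2.1 i).card ≤ k₀ := by
    intro B hB
    obtain ⟨c, y₀, y', I, h1, h2, h3, h4, h5⟩ := h𝓑 B hB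
    exact ⟨(c, y₀, y', I), h1, h2, h3, h4, h5⟩
  by_cases hne : 𝓑.Nonempty
  swap
  · rw [Finset.not_nonempty_iff_eq_empty] at hne
    rw [hne]
    simp
  obtain ⟨B₀, hB₀⟩ := hne
  obtain ⟨q₀, -⟩ := h𝓑' B₀ hB₀
  have : Nonempty (C × Finset ℕ × Finset ℕ × Finset ℕ) := ⟨q₀⟩
  choose! q hq using h𝓑'
  let Tk : Finset (Finset ℕ) := ((Finset.range l).powerset).filter fun s => s.card ≤ k₀
  let P : Finset ((C × Finset ℕ × Finset ℕ × Finset ℕ) × (Fin l → Finset ℕ)) :=
    (Finset.univ ×ˢ ((Finset.range l).powerset ×ˢ ((Finset.range l).powerset ×ˢ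
      (Finset.range l).powerset))) ×ˢ Fintype.piFinset (fun _ : Fin l => Tk)
  let f : (Fin l → Fin l → Bool) → (C × Finset ℕ × Finset ℕ × Finset ℕ) × (Fin l → Finset ℕ) :=
    fun B => (q B, fun i => if i.1 ∈ (q B).2.2.2 then
      J B (q B).1 (q B).2.1 (q B).2.2.1 i.1 else ∅)
  have hmaps : ∀ B ∈ 𝓑, f B ∈ P := by
    intro B hB
    obtain ⟨h1, h2, h3, h4, h5⟩ := hq B hB
    rw [Finset.mem_product, Finset.mem_product, Finset.mem_product, Finset.mem_product]
    refine ⟨⟨Finset.mem_univ _, Finset.mem_powerset.2 h1, Finset.mem_powerset.2 h2,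
      Finset.mem_powerset.2 h3⟩, ?_⟩
    rw [Fintype.mem_piFinset]
    intro i
    show (if i.1 ∈ (q B).2.2.2 then J B (q B).1 (q B).2.1 (q B).2.2.1 i.1 else ∅) ∈ Tk
    rw [Finset.mem_filter, Finset.mem_powerset]
    split
    · rename_i hi
      exact ⟨Finset.filter_subset _ _, h5 _ hi⟩
    · exact ⟨Finset.empty_subset _, by simp⟩
  have hfib : ∀ p ∈ P, (𝓑.filter fun B => f B = p).card ≤ 2 ^ (l * (l + 1 - t)) := by
    intro p _
    by_cases hne : (𝓑.filter fun B => f B = p).Nonempty
    swap
    · rw [Finset.not_nonempty_iff_eq_empty] at hne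
      rw [hne]
      simp
    obtain ⟨B₁, hB₁⟩ := hne
    rw [Finset.mem_filter] at hB₁
    obtain ⟨hB₁, hfp⟩ := hB₁
    obtain ⟨h1, h2, h3, h4, h5⟩ := hq B₁ hB₁
    have hq1 : q B₁ = p.1 := congrArg Prod.fst hfp
    rw [hq1] at h3 h4
    have hIne : p.1.2.2.2.Nonempty := by
      rw [← Finset.card_pos]
      omega
    let M := p.1.2.2.2.max' hIne
    have hM : M ∈ p.1.2.2.2 := Finset.max'_mem _ _
    let Z : Finset (Fin l) := Finset.univ.filter fun i => i.1 ∉ p.1.2.2.2.erase M
    have hZ : Z.card ≤ l + 1 - t := by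
      have h6 : (Finset.univ.filter fun i : Fin l => i.1 ∈ p.1.2.2.2.erase M).card =
          (p.1.2.2.2.erase M).card := by
        rw [← Finset.card_image_of_injective _ Fin.val_injective]
        congr 1
        ext x
        rw [Finset.mem_image]
        constructor
        · rintro ⟨i, hi, rfl⟩
          exact (Finset.mem_filter.1 hi).2
        · intro hx
          have hxl : x < l := Finset.mem_range.1 (h3 (Finset.mem_of_mem_erase hx))
          exact ⟨⟨x, hxl⟩, Finset.mem_filter.2 ⟨Finset.mem_univ _, hx⟩, rfl⟩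
      have h7 := Finset.card_filter_add_card_filter_not (s := (Finset.univ : Finset (Fin l)))
        (fun i : Fin l => i.1 ∈ p.1.2.2.2.erase M)
      rw [h6, Finset.card_erase_of_mem hM, Finset.card_univ, Fintype.card_fin] at h7
      have h8 : Z.card = (Finset.univ.filter fun i : Fin l => ¬ i.1 ∈ p.1.2.2.2.erase M).card := rfl
      omega
    have hinj : Set.InjOn (fun B : Fin l → Fin l → Bool => fun i : Z => B i.1)
        (𝓑.filter fun B => f B = p : Finset _) := by
      intro B hB B' hB' hBB
      rw [Finset.mem_coe, Finset.mem_filter] at hB hB'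
      have hqB : q B = p.1 := congrArg Prod.fst hB.2
      have hqB' : q B' = p.1 := congrArg Prod.fst hB'.2
      apply count_det B B' p.1.2.1 p.1.2.2.1 p.1.2.2.2 h3
      · intro i hi j hj
        have hil : i < l := Finset.mem_range.1 (h3 hi)
        have e1 : J B p.1.1 p.1.2.1 p.1.2.2.1 i = p.2 ⟨i, hil⟩ := by
          have := congrFun (congrArg Prod.snd hB.2) ⟨i, hil⟩
          rw [← this]
          show _ = if i ∈ (q B).2.2.2 then J B (q B).1 (q B).2.1 (q B).2.2.1 i else ∅
          rw [hqB, if_pos hi]
        have e2 : J B' p.1.1 p.1.2.1 p.1.2.2.1 i = p.2 ⟨i, hil⟩ := by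
          have := congrFun (congrArg Prod.snd hB'.2) ⟨i, hil⟩
          rw [← this]
          show _ = if i ∈ (q B').2.2.2 then J B' (q B').1 (q B').2.1 (q B').2.2.1 i else ∅
          rw [hqB', if_pos hi]
        have e3 : j ∈ J B p.1.1 p.1.2.1 p.1.2.2.1 i ↔ j ∈ J B' p.1.1 p.1.2.1 p.1.2.2.1 i := by
          rw [e1, e2]
        have e4 : ∀ B'' : Fin l → Fin l → Bool, j ∈ J B'' p.1.1 p.1.2.1 p.1.2.2.1 i ↔
            decide (Odd (cnt (count_ext B'') (symmDiff p.1.2.1 (Finset.range i)) p.1.2.2.1 j)) ≠
              pred p.1.1 i j := by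
          intro B''
          rw [Finset.mem_filter, Finset.mem_range]
          exact ⟨fun h => h.2, fun h => ⟨hj, h⟩⟩
        rw [e4, e4] at e3
        revert e3
        generalize decide (Odd (cnt (count_ext B) (symmDiff p.1.2.1 (Finset.range i))
          p.1.2.2.1 j)) = b1
        generalize decide (Odd (cnt (count_ext B') (symmDiff p.1.2.1 (Finset.range i))
          p.1.2.2.1 j)) = b2
        generalize pred p.1.1 i j = b3
        revert b1 b2 b3
        decide
      · intro i hi
        have hiZ : i ∈ Z := by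
          rw [Finset.mem_filter]
          refine ⟨Finset.mem_univ _, ?_⟩
          rw [Finset.mem_erase]
          rintro ⟨hne, hmem⟩
          rcases hi with hi | hi
          · exact hi hmem
          · have h9 := hi M hM
            have h10 : i.1 ≤ M := Finset.le_max' _ _ hmem
            exact hne (le_antisymm h10 h9)
        exact congrFun hBB ⟨i, hiZ⟩
    have hcard := Finset.card_le_card_of_injOn (t := (Finset.univ : Finset (Z → Fin l → Bool)))
      _ (fun _ _ => Finset.mem_univ _) hinj
    refine hcard.trans ?_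
    rw [Finset.card_univ]
    simp only [Fintype.card_fun, Fintype.card_bool, Fintype.card_fin, Fintype.card_coe]
    rw [← pow_mul]
    exact Nat.pow_le_pow_right (by norm_num) (Nat.mul_le_mul_left l hZ)
  have hmain := Finset.card_le_mul_card_image_of_maps_to hmaps _ hfib
  refine hmain.trans ?_
  have hP : P.card ≤ Fintype.card C * 2 ^ (3 * l) * (l + 1) ^ (k₀ * l) := by
    simp only [P, Finset.card_product, Finset.card_univ, Finset.card_powerset, Finset.card_range,
      Fintype.card_piFinset, Finset.prod_const, Fintype.card_fin]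
    have h6 : Tk.card ^ l ≤ (l + 1) ^ (k₀ * l) := by
      rw [pow_mul]
      exact Nat.pow_le_pow_left (count_small l k₀) l
    have h7 : Fintype.card C * (2 ^ l * (2 ^ l * 2 ^ l)) = Fintype.card C * 2 ^ (3 * l) := by
      congr 1
      rw [← pow_add, ← pow_add]
      congr 1
      ring
    rw [h7]
    exact Nat.mul_le_mul_left _ h6
  calc 2 ^ (l * (l + 1 - t)) * P.card ≤
      2 ^ (l * (l + 1 - t)) * (Fintype.card C * 2 ^ (3 * l) * (l + 1) ^ (k₀ * l)) :=
        Nat.mul_le_mul_left _ hP
    _ = _ := by ring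

end

end Pool.NilAvg
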