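import Mathlib

set_option autoImplicit false

namespace Pool.NilAvg

open Filter Topology
open scoped ComplexConjugate

noncomputable section

/-- `e x = exp (2 π i x)` -/
def e (x : ℝ) : ℂ := Complex.exp (2 * (Real.pi : ℂ) * Complex.I * (x : ℂ))

/-- signed measures with finite support on `ℤ`; the product is convolution -/
abbrev Law : Type := AddMonoidAlgebra ℝ ℤ

/-- integral of a (vector valued) function -/
def ev {E : Type*} [AddCommGroup E] [Module ℝ E] (μ : Law) (f : ℤ → E) : E :=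
  μ.coeff.sum fun n a => a • f n

/-- the function averaged along `μ` -/
def av {E : Type*} [AddCommGroup E] [Module ℝ E] (μ : Law) (f : ℤ → E) : ℤ → E :=
  fun n => ev μ fun k => f (n + k)

/-- total variation norm -/
def nrm (μ : Law) : ℝ := μ.coeff.sum fun _ a => |a|

/-- probability laws -/
structure IsProb (μ : Law) : Prop where
  nonneg : ∀ n, 0 ≤ μ.coeff n
  sum_eq : (μ.coeff.sum fun _ a => a) = 1

/-- point mass -/
def pt (n : ℤ) : Law := AddMonoidAlgebra.single n 1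

/-- Fourier transform -/
def hat (μ : Law) (x : ℝ) : ℂ := ev μ fun n => e (n * x)

/-- uniform law on `0, g, 2g, …, (2^r - 1) g` -/
def box (r : ℕ) (g : ℤ) : Law := ((2 : ℝ) ^ r)⁻¹ • ∑ i ∈ Finset.range (2 ^ r), pt (i * g)

/-- triangular law of scale `2^r` on the multiples of `g` -/
def tri (r : ℕ) (g : ℤ) : Law := box r g * box r (-g)

/-- a probability law with nonnegative Fourier transform -/
structure Pos (μ : Law) : Prop where
  prob : IsProb μ
  im : ∀ x, (hat μ x).im = 0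
  re : ∀ x, 0 ≤ (hat μ x).re

/-- a bounded sequence with quadratic behaviour governed by `θ`: derivatives are, uniformly in the
shift `u`, close to a character times a trigonometric polynomial with a fixed finite spectrum, and
`θ` is additive up to a finite set -/
structure TameWith (θ : ℤ → ℝ) (Λ : Finset ℝ) (f : ℤ → ℂ) : Prop where
  bdd : ∃ C : ℝ, ∀ n, ‖f n‖ ≤ C
  add : ∀ u v : ℤ, ∃ l ∈ Λ, ∃ m : ℤ, θ (u + v) = θ u + θ v + l + m
  appr : ∀ ε : ℝ, 0 < ε → ∃ (Ξ : Finset ℝ) (K : ℝ), ∀ u : ℤ, ∃ p : ℝ → ℂ,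
    (∑ ξ ∈ Ξ, ‖p ξ‖) ≤ K ∧
      ∀ n : ℤ, ‖f (n + u) * conj (f n) - e (n * θ u) * ∑ ξ ∈ Ξ, p ξ * e (n * ξ)‖ ≤ ε

def Tame (f : ℤ → ℂ) : Prop := ∃ θ Λ, TameWith θ Λ f

/-! ### windows -/

variable {κ : Type}

/-- the law of a window with scale `p.1` and parameter `p.2` -/
def win (gen : ℕ → κ → List ℤ) (w : ℕ) (p : ℕ × κ) : Law := ((gen w p.2).map (tri p.1)).prod

/-- product of the windows `a ≤ w < b` along a path -/
def lawP (gen : ℕ → κ → List ℤ) (ω : ℕ → ℕ × κ) (a b : ℕ) : Law :=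
  ∏ w ∈ Finset.Ico a b, win gen w (ω w)

/-- the same at the smaller scales `r - k w` -/
def subP (gen : ℕ → κ → List ℤ) (k : ℕ → ℕ) (ω : ℕ → ℕ × κ) (a b : ℕ) : Law :=
  ∏ w ∈ Finset.Ico a b, win gen w ((ω w).1 - k w, (ω w).2)

/-- the path with scales increased by `k w` for the windows `D ≤ w` -/
def upP (k : ℕ → ℕ) (ω : ℕ → ℕ × κ) (D : ℕ) : ℕ → ℕ × κ :=
  fun w => if D ≤ w then ((ω w).1 + k w, (ω w).2) else ω w

/-- the mixture of window laws: scale uniform in `1 … H w`, parameter uniform in `S w` -/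
def W (gen : ℕ → κ → List ℤ) (H : ℕ → ℕ) (S : ℕ → Finset κ) (w : ℕ) : Law :=
  ((H w : ℝ) * (S w).card)⁻¹ • ∑ r ∈ Finset.Icc 1 (H w), ∑ x ∈ S w, win gen w (r, x)

/-- average over the coordinate `w` of a path -/
def avg {E : Type*} [AddCommGroup E] [Module ℝ E] (H : ℕ → ℕ) (S : ℕ → Finset κ) (w : ℕ)
    (F : (ℕ → ℕ × κ) → E) : (ℕ → ℕ × κ) → E :=
  fun ω => ((H w : ℝ) * (S w).card)⁻¹ •
    ∑ r ∈ Finset.Icc 1 (H w), ∑ x ∈ S w, F (Function.update ω w (r, x))

/-- average over the first `M` coordinates of a path -/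
def Ex {E : Type*} [AddCommGroup E] [Module ℝ E] (H : ℕ → ℕ) (S : ℕ → Finset κ) :
    ℕ → ((ℕ → ℕ × κ) → E) → (ℕ → ℕ × κ) → E
  | 0, F, ω => F ω
  | M + 1, F, ω => Ex H S M (avg H S M F) ω

end

end Pool.NilAvg
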