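import Pool.Agent.Helper986.NilAvg.Defs

set_option autoImplicit false

namespace Pool.NilAvg

open Filter Topology
open scoped ComplexConjugate

noncomputable section

variable {κ : Type}


universe u

open scoped commutatorElement

section grp

variable {G : Type u} [Group G] [TopologicalSpace G] [IsTopologicalGroup G]

/-- the closed subgroup generated by the commutators and `Γ` -/
def Hs (Γ : Subgroup G) : Subgroup G := (commutator G ⊔ Γ).topologicalClosure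

/-- isotypic functions on `G ⧸ Γ` -/
def IsoFn (Γ : Subgroup G) (F : G ⧸ Γ → ℂ) : Prop :=
  ∃ χ : Hs Γ →* Circle, ∀ (g : G) (h : Hs Γ), F ((g * h : G) : G ⧸ Γ) = χ h * F (g : G ⧸ Γ)

theorem comm_central (h2 : ∀ a b c : G, ⁅⁅a, b⁆, c⁆ = 1) :
    ∀ z ∈ commutator G, ∀ g : G, z * g = g * z := by
  have h : commutator G ≤ Subgroup.center G := by
    rw [commutator_eq_closure, Subgroup.closure_le]
    rintro _ ⟨a, b, rfl⟩
    refine Subgroup.mem_center_iff.2 fun g => ?_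
    exact (commutatorElement_eq_one_iff_mul_comm.1 (h2 a b g)).symm
  intro z hz g
  exact (Subgroup.mem_center_iff.1 (h hz) g).symm

theorem grp_comm_mem (a b : G) : ⁅a, b⁆ ∈ commutator G := by
  rw [commutator_def]
  exact Subgroup.commutator_mem_commutator (Subgroup.mem_top a) (Subgroup.mem_top b)

theorem comm_mul_left (h2 : ∀ a b c : G, ⁅⁅a, b⁆, c⁆ = 1) (a b c : G) :
    ⁅a * b, c⁆ = ⁅a, c⁆ * ⁅b, c⁆ := by
  have h1 := comm_central h2 _ (grp_comm_mem b c) a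
  have h3 := comm_central h2 _ (grp_comm_mem b c) ⁅a, c⁆
  calc ⁅a * b, c⁆ = a * ⁅b, c⁆ * (c * a⁻¹ * c⁻¹) := by
        simp only [commutatorElement_def]; group
    _ = ⁅b, c⁆ * a * (c * a⁻¹ * c⁻¹) := by rw [h1]
    _ = ⁅b, c⁆ * ⁅a, c⁆ := by
        simp only [commutatorElement_def]; group
    _ = ⁅a, c⁆ * ⁅b, c⁆ := h3

theorem comm_mul_right (h2 : ∀ a b c : G, ⁅⁅a, b⁆, c⁆ = 1) (a b c : G) :
    ⁅a, b * c⁆ = ⁅a, b⁆ * ⁅a, c⁆ := by
  have h1 := comm_central h2 _ (grp_comm_mem a c) b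
  calc ⁅a, b * c⁆ = ⁅a, b⁆ * (b * ⁅a, c⁆) * b⁻¹ := by
        simp only [commutatorElement_def]; group
    _ = ⁅a, b⁆ * (⁅a, c⁆ * b) * b⁻¹ := by rw [h1]
    _ = ⁅a, b⁆ * ⁅a, c⁆ := by group

theorem grp_le (Γ : Subgroup G) : commutator G ⊔ Γ ≤ Hs Γ :=
  Subgroup.le_topologicalClosure _

theorem comm_mem_Hs (Γ : Subgroup G) (a b : G) : ⁅a, b⁆ ∈ Hs Γ :=
  grp_le Γ (Subgroup.mem_sup_left (grp_comm_mem a b))

theorem le_Hs (Γ : Subgroup G) : Γ ≤ Hs Γ :=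
  le_sup_right.trans (grp_le Γ)

theorem Hs_closed (Γ : Subgroup G) : IsClosed (Hs Γ : Set G) :=
  Subgroup.isClosed_topologicalClosure _

theorem Hs_normal (Γ : Subgroup G) : (Hs Γ).Normal := by
  refine ⟨fun n hn g => ?_⟩
  have h : g * n * g⁻¹ = ⁅g, n⁆ * n := by
    simp only [commutatorElement_def]; group
  rw [h]
  exact (Hs Γ).mul_mem (comm_mem_Hs Γ g n) hn

theorem grp_mem_sup (Γ : Subgroup G) {h : G} (hh : h ∈ commutator G ⊔ Γ) :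
    ∃ z ∈ commutator G, ∃ γ ∈ Γ, h = z * γ := by
  obtain ⟨z, hz, γ, hγ, hzγ⟩ := Subgroup.mem_sup_of_normal_left.1 hh
  exact ⟨z, hz, γ, hγ, hzγ.symm⟩

theorem grp_closure_ind (Γ : Subgroup G) {S : Set G} (hS : IsClosed S)
    (h : ∀ x ∈ commutator G ⊔ Γ, x ∈ S) : ∀ x ∈ Hs Γ, x ∈ S := by
  intro x hx
  have hx' : x ∈ closure ((commutator G ⊔ Γ : Subgroup G) : Set G) := hx
  exact closure_minimal (fun y hy => h y hy) hS hx'

theorem Hs_conj (h2 : ∀ a b c : G, ⁅⁅a, b⁆, c⁆ = 1) (Γ : Subgroup G)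
    (hΓ : IsClosed (Γ : Set G)) : ∀ h ∈ Hs Γ, ∀ γ ∈ Γ, h * γ * h⁻¹ ∈ Γ := by
  intro h hh γ hγ
  have hS : IsClosed {x : G | x * γ * x⁻¹ ∈ Γ} :=
    hΓ.preimage (by fun_prop : Continuous fun x : G => x * γ * x⁻¹)
  refine grp_closure_ind Γ hS (fun x hx => ?_) h hh
  obtain ⟨z, hz, δ, hδ, rfl⟩ := grp_mem_sup Γ hx
  show z * δ * γ * (z * δ)⁻¹ ∈ Γ
  have hc := comm_central h2 z hz (δ * γ * δ⁻¹)
  have : z * δ * γ * (z * δ)⁻¹ = δ * γ * δ⁻¹ := by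
    calc z * δ * γ * (z * δ)⁻¹ = (z * (δ * γ * δ⁻¹)) * z⁻¹ := by group
      _ = (δ * γ * δ⁻¹ * z) * z⁻¹ := by rw [hc]
      _ = δ * γ * δ⁻¹ := by group
  rw [this]
  exact Γ.mul_mem (Γ.mul_mem hδ hγ) (Γ.inv_mem hδ)

theorem grp_comm_zero_left (h2 : ∀ a b c : G, ⁅⁅a, b⁆, c⁆ = 1) {z : G} (hz : z ∈ commutator G)
    (g : G) : ⁅z, g⁆ = 1 :=
  commutatorElement_eq_one_iff_mul_comm.2 (comm_central h2 z hz g)

theorem grp_comm_zero_right (h2 : ∀ a b c : G, ⁅⁅a, b⁆, c⁆ = 1) {z : G} (hz : z ∈ commutator G)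
    (g : G) : ⁅g, z⁆ = 1 :=
  commutatorElement_eq_one_iff_mul_comm.2 (comm_central h2 z hz g).symm

theorem grp_comm_cont (b : G) : Continuous fun x : G => ⁅x, b⁆ := by
  simp only [commutatorElement_def]
  fun_prop

theorem grp_comm_cont' (b : G) : Continuous fun x : G => ⁅b, x⁆ := by
  simp only [commutatorElement_def]
  fun_prop

theorem Hs_comm (h2 : ∀ a b c : G, ⁅⁅a, b⁆, c⁆ = 1) (Γ : Subgroup G)
    (hΓ : IsClosed (Γ : Set G)) : ∀ h ∈ Hs Γ, ∀ h' ∈ Hs Γ, ⁅h, h'⁆ ∈ Γ := by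
  have h1 : ∀ h ∈ commutator G ⊔ Γ, ∀ h' ∈ Hs Γ, ⁅h, h'⁆ ∈ Γ := by
    intro h hh
    refine grp_closure_ind Γ (S := {x | ⁅h, x⁆ ∈ Γ}) (hΓ.preimage (grp_comm_cont' h))
      (fun x hx => ?_)
    obtain ⟨z, hz, δ, hδ, rfl⟩ := grp_mem_sup Γ hh
    obtain ⟨z', hz', δ', hδ', rfl⟩ := grp_mem_sup Γ hx
    show ⁅z * δ, z' * δ'⁆ ∈ Γ
    rw [comm_mul_left h2, grp_comm_zero_left h2 hz, one_mul, comm_mul_right h2,
      grp_comm_zero_right h2 hz', one_mul, commutatorElement_def]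
    exact Γ.mul_mem (Γ.mul_mem (Γ.mul_mem hδ hδ') (Γ.inv_mem hδ)) (Γ.inv_mem hδ')
  intro h hh h' hh'
  exact grp_closure_ind Γ (S := {x | ⁅x, h'⁆ ∈ Γ}) (hΓ.preimage (grp_comm_cont h'))
    (fun x hx => h1 x hx h' hh') h hh

end grp

end

end Pool.NilAvg
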