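import Pool.Agent.Helper986.NilAvg.Defs
import Pool.Agent.Helper986.NilAvg.Grp

set_option autoImplicit false

namespace Pool.NilAvg

open Filter Topology
open scoped ComplexConjugate

noncomputable section

variable {κ : Type}

universe u

open scoped commutatorElement

open scoped Manifold ContDiff in
/-- basic 2-step nilsequences: `N m = F (b ^ m y)` with `F` continuous on a nilmanifold `G ⧸ Γ`,
`G` a nilpotent Lie group of step at most `2`, `Γ` discrete and cocompact -/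
def IsBasicNilseq (N : ℤ → ℂ) : Prop :=
  ∃ (d : ℕ) (G : Type u) (_ : Group G) (_ : TopologicalSpace G) (_ : T2Space G)
    (_ : ChartedSpace (EuclideanSpace ℝ (Fin d)) G)
    (_ : LieGroup (modelWithCornersSelf ℝ (EuclideanSpace ℝ (Fin d))) ∞ G)
    (_ : Group.IsNilpotent G) (Γ : Subgroup G) (_ : DiscreteTopology Γ)
    (_ : CompactSpace (G ⧸ Γ)) (F : G ⧸ Γ → ℂ) (b : G) (y : G ⧸ Γ),
    Group.nilpotencyClass G ≤ 2 ∧ Continuous F ∧ ∀ m : ℤ, N m = F (b ^ m • y)

/-- 2-step nilsequences: uniform limits of basic ones -/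
def IsNilseq (N : ℤ → ℂ) : Prop :=
  ∀ ε : ℝ, 0 < ε → ∃ N' : ℤ → ℂ, IsBasicNilseq.{u} N' ∧ ∀ m, ‖N m - N' m‖ ≤ ε

end

end Pool.NilAvg
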