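import Pool.Agent.Helper986.NilAvg.Defs
import Pool.Agent.Helper986.NilAvg.ExApi
import Pool.Agent.Helper986.NilAvg.ExProd

set_option autoImplicit false

namespace Pool.NilAvg

open Filter Topology
open scoped ComplexConjugate

noncomputable section

variable {κ : Type}


theorem Ex_up_sub (H : ℕ → ℕ) (S : ℕ → Finset κ) (hH : ∀ w, 1 ≤ H w)
    (hS : ∀ w, (S w).Nonempty) (M : ℕ) (A B : (ℕ → ℕ × κ) → ℝ) (c : ℝ)
    (h : ∀ ω, |A ω - B ω| ≤ c) (ω₀ : ℕ → ℕ × κ) :
    |Ex H S M A ω₀ - Ex H S M B ω₀| ≤ c := by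
  have h1 : Ex H S M A ω₀ - Ex H S M B ω₀ = Ex H S M (fun ω => A ω - B ω) ω₀ := by
    have h2 := Ex_add H S M A (fun ω => (-1 : ℝ) • B ω) ω₀
    rw [Ex_smul H S M (-1) B ω₀] at h2
    have h3 : (fun ω => A ω + (-1 : ℝ) • B ω) = fun ω => A ω - B ω := by
      funext ω
      simp [sub_eq_add_neg]
    rw [h3] at h2
    rw [h2]
    simp [sub_eq_add_neg]
  rw [h1]
  have h4 := norm_Ex_le H S M (fun ω => A ω - B ω) ω₀
  have h5 := Ex_mono H S M (F := fun ω => ‖A ω - B ω‖) (G := fun _ => c) ω₀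
    (fun ω _ => by rw [Real.norm_eq_abs]; exact h ω)
  rw [Ex_const H S hH hS M c ω₀] at h5
  rw [← Real.norm_eq_abs]
  exact h4.trans h5

theorem Ex_up_shift (g : ℕ → ℝ) (B : ℝ) (hg : ∀ r, |g r| ≤ B) (H : ℕ) (k : ℕ) :
    |∑ r ∈ Finset.Icc 1 H, g (r + k) - ∑ r ∈ Finset.Icc 1 H, g r| ≤ 2 * k * B := by
  induction k with
  | zero => simp
  | succ k ih =>
    have h1 : ∑ r ∈ Finset.Icc 1 H, g (r + (k + 1)) - ∑ r ∈ Finset.Icc 1 H, g (r + k)
        = g (H + (k + 1)) - g (0 + (k + 1)) := by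
      clear ih
      induction H with
      | zero => simp
      | succ H ih =>
        rw [Finset.sum_Icc_succ_top (by omega), Finset.sum_Icc_succ_top (by omega)]
        have e1 : H + 1 + k = H + (k + 1) := by ring
        rw [e1]
        linarith
    have h2 : |g (H + (k + 1)) - g (0 + (k + 1))| ≤ 2 * B := by
      have := abs_sub (g (H + (k + 1))) (g (0 + (k + 1)))
      have a1 := hg (H + (k + 1))
      have a2 := hg (0 + (k + 1))
      linarith
    rw [← h1] at h2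
    have h3 := abs_add_le
      (∑ r ∈ Finset.Icc 1 H, g (r + (k + 1)) - ∑ r ∈ Finset.Icc 1 H, g (r + k))
      (∑ r ∈ Finset.Icc 1 H, g (r + k) - ∑ r ∈ Finset.Icc 1 H, g r)
    rw [sub_add_sub_cancel] at h3
    push_cast
    linarith

theorem Ex_up_avg (H : ℕ → ℕ) (S : ℕ → Finset κ) (hH : ∀ w, 1 ≤ H w)
    (hS : ∀ w, (S w).Nonempty) (w : ℕ) (F : (ℕ → ℕ × κ) → ℝ) (C : ℝ)
    (hF : ∀ ω, |F ω| ≤ C) (ω : ℕ → ℕ × κ) : |avg H S w F ω| ≤ C := by
  have h1 : (0 : ℝ) < H w := by exact_mod_cast hH w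
  have h2 : (0 : ℝ) < (S w).card := by exact_mod_cast (hS w).card_pos
  unfold avg
  rw [smul_eq_mul, abs_mul, abs_of_pos (by positivity), inv_mul_le_iff₀ (by positivity)]
  refine (Finset.abs_sum_le_sum_abs _ _).trans ?_
  have h3 : ∀ r ∈ Finset.Icc 1 (H w), |∑ x ∈ S w, F (Function.update ω w (r, x))| ≤
      (S w).card * C := by
    intro r _
    refine (Finset.abs_sum_le_sum_abs _ _).trans ?_
    refine (Finset.sum_le_card_nsmul _ _ C (fun x _ => hF _)).trans ?_
    rw [nsmul_eq_mul]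
  refine (Finset.sum_le_card_nsmul _ _ _ h3).trans ?_
  rw [nsmul_eq_mul, Nat.card_Icc]
  simp only [Nat.add_sub_cancel]
  rw [mul_assoc]

theorem Ex_up_step (H k : ℕ → ℕ) (S : ℕ → Finset κ) (hH : ∀ w, 1 ≤ H w)
    (hS : ∀ w, (S w).Nonempty) (D M : ℕ) (hDM : D ≤ M) (F : (ℕ → ℕ × κ) → ℝ) (C : ℝ)
    (hF : ∀ ω, |F ω| ≤ C) (ω : ℕ → ℕ × κ) :
    |avg H S M (fun ω => F (upP k ω D)) ω - avg H S M F (upP k ω D)| ≤
      2 * C * ((k M : ℝ) / H M) := by
  have h1 : (0 : ℝ) < H M := by exact_mod_cast hH M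
  have h2 : (0 : ℝ) < (S M).card := by exact_mod_cast (hS M).card_pos
  have hup : ∀ r x, upP k (Function.update ω M (r, x)) D =
      Function.update (upP k ω D) M (r + k M, x) := by
    intro r x
    funext w
    by_cases hw : w = M
    · subst hw
      simp [upP, hDM]
    · simp [upP, hw]
  unfold avg
  simp only [hup]
  have h3 := Ex_up_shift (fun r => ∑ x ∈ S M, F (Function.update (upP k ω D) M (r, x)))
    ((S M).card * C) (by
      intro r
      refine (Finset.abs_sum_le_sum_abs _ _).trans ?_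
      refine (Finset.sum_le_card_nsmul _ _ C (fun x _ => hF _)).trans ?_
      rw [nsmul_eq_mul]) (H M) (k M)
  rw [← smul_sub, smul_eq_mul, abs_mul, abs_of_pos (by positivity), inv_mul_le_iff₀ (by positivity)]
  refine h3.trans (le_of_eq ?_)
  field_simp

theorem Ex_up_dep (H : ℕ → ℕ) (S : ℕ → Finset κ) (M : ℕ) (F : (ℕ → ℕ × κ) → ℝ)
    (hdep : ∀ ω ω', (∀ w < M + 1, ω w = ω' w) → F ω = F ω') (ω ω' : ℕ → ℕ × κ)
    (h : ∀ w < M, ω w = ω' w) : avg H S M F ω = avg H S M F ω' := by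
  unfold avg
  congr 1
  refine Finset.sum_congr rfl (fun r _ => Finset.sum_congr rfl (fun x _ => ?_))
  apply hdep
  intro w hw
  by_cases hwM : w = M
  · subst hwM; simp
  · rw [Function.update_of_ne hwM, Function.update_of_ne hwM]
    exact h w (by omega)

/-- increasing the scales by `k w` costs at most `2 k w / H w` for every window -/
theorem Ex_up (H k : ℕ → ℕ) (S : ℕ → Finset κ) (hH : ∀ w, 1 ≤ H w)
    (hS : ∀ w, (S w).Nonempty) (D M : ℕ) (F : (ℕ → ℕ × κ) → ℝ) (C : ℝ)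
    (hF : ∀ ω, |F ω| ≤ C) (hdep : ∀ ω ω', (∀ w < M, ω w = ω' w) → F ω = F ω')
    (ω₀ : ℕ → ℕ × κ) :
    |Ex H S M (fun ω => F (upP k ω D)) ω₀ - Ex H S M F ω₀| ≤
      2 * C * ∑ w ∈ Finset.Ico D M, (k w : ℝ) / H w := by
  induction M generalizing F with
  | zero =>
    have h1 : F (upP k ω₀ D) = F ω₀ := hdep _ _ (fun w hw => absurd hw (Nat.not_lt_zero w))
    simp [Ex, h1]
  | succ M ih =>
    have hF' : ∀ ω, |avg H S M F ω| ≤ C := Ex_up_avg H S hH hS M F C hF
    have h1 := ih (avg H S M F) hF' (Ex_up_dep H S M F hdep)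
    by_cases hD : D ≤ M
    · have h2 := Ex_up_sub H S hH hS M (avg H S M (fun ω => F (upP k ω D)))
        (fun ω => avg H S M F (upP k ω D)) _ (Ex_up_step H k S hH hS D M hD F C hF) ω₀
      have h3 := abs_add_le
        (Ex H S M (avg H S M (fun ω => F (upP k ω D))) ω₀ -
          Ex H S M (fun ω => avg H S M F (upP k ω D)) ω₀)
        (Ex H S M (fun ω => avg H S M F (upP k ω D)) ω₀ - Ex H S M (avg H S M F) ω₀)
      rw [sub_add_sub_cancel] at h3
      rw [Finset.sum_Ico_succ_top hD, mul_add]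
      change |Ex H S M (avg H S M (fun ω => F (upP k ω D))) ω₀ - Ex H S M (avg H S M F) ω₀| ≤ _
      linarith
    · have hup : ∀ (ω : ℕ → ℕ × κ) r x, upP k (Function.update ω M (r, x)) D =
          Function.update (upP k ω D) M (r, x) := by
        intro ω r x
        funext w
        by_cases hw : w = M
        · subst hw
          simp [upP, hD]
        · simp [upP, hw]
      have h2 : avg H S M (fun ω => F (upP k ω D)) = fun ω => avg H S M F (upP k ω D) := by
        funext ω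
        unfold avg
        simp only [hup]
      have h3 : Finset.Ico D (M + 1) = ∅ := Finset.Ico_eq_empty (by omega)
      have h4 : Finset.Ico D M = ∅ := Finset.Ico_eq_empty (by omega)
      rw [h3]
      rw [h4] at h1
      change |Ex H S M (avg H S M (fun ω => F (upP k ω D))) ω₀ - Ex H S M (avg H S M F) ω₀| ≤ _
      rw [h2]
      exact h1

end

end Pool.NilAvg
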