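import Pool.Agent.Helper986.NilAvg.Defs
import Pool.Agent.Helper986.NilAvg.DefsB
import Pool.Agent.Helper986.NilAvg.Count
import Pool.Agent.Helper986.NilAvg.Coding

set_option autoImplicit false

namespace Pool.NilAvg

open Filter Topology
open scoped ComplexConjugate

noncomputable section

variable {κ : Type}


open Classical in
theorem exists_good_avg (l M : ℕ) (hl : 1 ≤ l) (Q : Finset ℕ → Finset ℕ → Prop)
    (hQ : 4 ^ l < M * (((Finset.range l).powerset ×ˢ (Finset.range l).powerset).filter fun p =>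
      Q p.1 p.2).card) :
    ∃ y₀ y' : Finset ℕ, y₀ ⊆ Finset.range l ∧ y' ⊆ Finset.range l ∧
      l < M * ((Finset.range l).filter (fun i => Q (symmDiff y₀ (Finset.range i)) y')).card := by
  by_contra hcon
  push Not at hcon
  set PP := (Finset.range l).powerset ×ˢ (Finset.range l).powerset with hPP
  have hcard : PP.card = 4 ^ l := by
    rw [hPP, Finset.card_product, Finset.card_powerset, Finset.card_range, ← mul_pow]
    norm_num
  have h1 : ∀ i ∈ Finset.range l, ∑ p ∈ PP, (if Q (symmDiff p.1 (Finset.range i)) p.2 then 1 else 0)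
      = (PP.filter fun p => Q p.1 p.2).card := by
    intro i hi
    have hi' : Finset.range i ⊆ Finset.range l := by
      rw [Finset.range_subset_range]
      exact (Finset.mem_range.1 hi).le
    have hsd : ∀ y : Finset ℕ, y ⊆ Finset.range l →
        symmDiff y (Finset.range i) ⊆ Finset.range l := by
      intro y hy x hx
      rw [Finset.mem_symmDiff] at hx
      rcases hx with hx | hx
      · exact hy hx.1
      · exact hi' hx.1
    rw [Finset.card_filter]
    apply Finset.sum_nbij' (fun p => (symmDiff p.1 (Finset.range i), p.2))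
      (fun p => (symmDiff p.1 (Finset.range i), p.2))
    · intro p hp
      rw [hPP, Finset.mem_product, Finset.mem_powerset, Finset.mem_powerset] at hp ⊢
      exact ⟨hsd _ hp.1, hp.2⟩
    · intro p hp
      rw [hPP, Finset.mem_product, Finset.mem_powerset, Finset.mem_powerset] at hp ⊢
      exact ⟨hsd _ hp.1, hp.2⟩
    · intro p _
      simp
    · intro p _
      simp
    · intro p _
      rfl
  have h2 : ∑ p ∈ PP, M * ((Finset.range l).filter
      (fun i => Q (symmDiff p.1 (Finset.range i)) p.2)).card ≤ ∑ _p ∈ PP, l := by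
    apply Finset.sum_le_sum
    intro p hp
    rw [hPP, Finset.mem_product, Finset.mem_powerset, Finset.mem_powerset] at hp
    exact hcon p.1 p.2 hp.1 hp.2
  rw [Finset.sum_const, hcard, smul_eq_mul, ← Finset.mul_sum] at h2
  have h3 : ∑ p ∈ PP, ((Finset.range l).filter
      (fun i => Q (symmDiff p.1 (Finset.range i)) p.2)).card =
      l * (PP.filter fun p => Q p.1 p.2).card := by
    simp only [Finset.card_filter (fun i => Q (symmDiff _ (Finset.range i)) _)]
    rw [Finset.sum_comm, Finset.sum_congr rfl h1, Finset.sum_const, Finset.card_range, smul_eq_mul]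
  rw [h3] at h2
  have h4 : l * (M * (PP.filter fun p => Q p.1 p.2).card) ≤ l * 4 ^ l := by
    calc l * (M * (PP.filter fun p => Q p.1 p.2).card)
        = M * (l * (PP.filter fun p => Q p.1 p.2).card) := by ring
      _ ≤ 4 ^ l * l := h2
      _ = l * 4 ^ l := by ring
  have h5 := Nat.le_of_mul_le_mul_left h4 hl
  exact absurd hQ (not_lt.2 h5)

theorem exists_good_cos (M l : ℕ) (hM : 1 ≤ M) (x : ℕ → ℝ) (h0 : ∀ j, 0 ≤ x j)
    (h1 : ∀ j, x j ≤ 1) (h : (1:ℝ) / M ≤ ∏ j ∈ Finset.range l, x j) :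
    ((Finset.range l).filter (fun j => x j ≤ 9 / 10)).card ≤ 10 * M := by
  by_contra hc
  push Not at hc
  have hMr : (1:ℝ) ≤ M := by exact_mod_cast hM
  have h2 : ∏ j ∈ Finset.range l, x j ≤
      (9 / 10 : ℝ) ^ ((Finset.range l).filter (fun j => x j ≤ 9 / 10)).card := by
    rw [← Finset.prod_filter_mul_prod_filter_not (Finset.range l) (fun j => x j ≤ 9 / 10)]
    calc (∏ j ∈ (Finset.range l).filter (fun j => x j ≤ 9 / 10), x j) *
          ∏ j ∈ (Finset.range l).filter (fun j => ¬ x j ≤ 9 / 10), x j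
        ≤ (∏ j ∈ (Finset.range l).filter (fun j => x j ≤ 9 / 10), x j) * 1 :=
          mul_le_mul_of_nonneg_left (Finset.prod_le_one (fun j _ => h0 j) (fun j _ => h1 j))
            (Finset.prod_nonneg fun j _ => h0 j)
      _ = ∏ j ∈ (Finset.range l).filter (fun j => x j ≤ 9 / 10), x j := mul_one _
      _ ≤ ∏ _j ∈ (Finset.range l).filter (fun j => x j ≤ 9 / 10), (9 / 10 : ℝ) :=
          Finset.prod_le_prod (fun j _ => h0 j) (fun j hj => (Finset.mem_filter.1 hj).2)
      _ = _ := by rw [Finset.prod_const]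
  have h3 : (9 / 10 : ℝ) ^ ((Finset.range l).filter (fun j => x j ≤ 9 / 10)).card ≤
      (9 / 10 : ℝ) ^ (10 * M + 1) :=
    pow_le_pow_of_le_one (by norm_num) (by norm_num) hc
  have h4 : (M : ℝ) < (10 / 9 : ℝ) ^ (10 * M + 1) := by
    have h5 := one_add_mul_le_pow (by norm_num : (-2 : ℝ) ≤ 1 / 9) (10 * M + 1)
    have e : (1 + 1 / 9 : ℝ) = 10 / 9 := by norm_num
    rw [e] at h5
    push_cast at h5
    linarith
  have h6 : (9 / 10 : ℝ) ^ (10 * M + 1) < 1 / M := by
    have e : (9 / 10 : ℝ) = (10 / 9)⁻¹ := by norm_num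
    rw [e, inv_pow, one_div]
    exact inv_strictAnti₀ (by linarith) h4
  linarith

theorem exists_good (M a l b : ℕ) (hM : 1 ≤ M) (hl : 1 ≤ l) (hb : l + 1 ≤ 2 ^ b)
    (h : M * ((3 * a * l + l + 10) * (2 * M + 3) + (2 * l + 2 * a * l) * M + 5 * l +
      10 * M * b * l) < l ^ 2) : ∃ B, GoodMat M a l B := by
  classical
  obtain ⟨C, hC, pred, hCcard, hcode⟩ := coding M a l hM hl
  by_contra hno
  push Not at hno
  have hcount := count (C := C) l (l / M + 1) (10 * M) (Nat.le_add_left 1 _) pred Finset.univ (by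
    intro B _
    have hB := hno (fun i j => if h : i < l ∧ j < l then B ⟨i, h.1⟩ ⟨j, h.2⟩ else false)
    generalize (fun i j => if h : i < l ∧ j < l then B ⟨i, h.1⟩ ⟨j, h.2⟩ else false) = B' at hB ⊢
    unfold GoodMat at hB
    push Not at hB
    obtain ⟨ϑ, Λ, Ξ, hΛ, hΞ, hadd, hbad⟩ := hB
    obtain ⟨y₀, y', hy₀, hy', hI⟩ := exists_good_avg l M hl
      (fun y z => BadPair a l B' ϑ Ξ (1 / M) y z) hbad
    set I := (Finset.range l).filter
      (fun i => BadPair a l B' ϑ Ξ (1 / M) (symmDiff y₀ (Finset.range i)) y') with hIdef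
    have hIt : l / M + 1 ≤ I.card := by
      by_contra hc
      push Not at hc
      have h1 : I.card ≤ l / M := Nat.lt_succ_iff.1 hc
      have h2 : M * I.card ≤ M * (l / M) := Nat.mul_le_mul_left M h1
      have h3 : M * (l / M) ≤ l := Nat.mul_div_le l M
      omega
    have hIne : I.Nonempty := Finset.card_pos.1 (lt_of_lt_of_le (Nat.succ_pos _) hIt)
    obtain ⟨i0, hi0⟩ := hIne
    obtain ⟨ξ0, hξ0, -⟩ := (Finset.mem_filter.1 hi0).2
    have hch : ∀ i : ℕ, ∃ x ∈ Ξ, i ∈ I → (1 : ℝ) / M ≤ ∏ j ∈ Finset.range l,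
        |Real.cos (Real.pi * (2 ^ (a * (l + j)) *
          (ϑ (pos a (symmDiff y₀ (Finset.range i)) - pos a y') + x) +
          (cnt B' (symmDiff y₀ (Finset.range i)) y' j : ℝ) / 2))| := by
      intro i
      by_cases hi : i ∈ I
      · obtain ⟨x, hx, hx2⟩ := (Finset.mem_filter.1 hi).2
        exact ⟨x, hx, fun _ => hx2⟩
      · exact ⟨ξ0, hξ0, fun h => absurd h hi⟩
    choose ξ hξ1 hξ2 using hch
    obtain ⟨c, hc⟩ := hcode ϑ Λ Ξ hΛ hΞ hadd y₀ y' hy₀ hy' ξ hξ1
    refine ⟨c, y₀, y', I, hy₀, hy', Finset.filter_subset _ _, hIt, fun i hi => ?_⟩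
    refine (Finset.card_le_card ?_).trans (exists_good_cos M l hM
      (fun j => |Real.cos (Real.pi * (2 ^ (a * (l + j)) *
          (ϑ (pos a (symmDiff y₀ (Finset.range i)) - pos a y') + ξ i) +
          (cnt B' (symmDiff y₀ (Finset.range i)) y' j : ℝ) / 2))|)
      (fun j => abs_nonneg _) (fun j => Real.abs_cos_le_one _) (hξ2 i hi))
    intro j hj
    rw [Finset.mem_filter] at hj ⊢
    refine ⟨hj.1, ?_⟩
    by_contra hcon
    push Not at hcon
    exact hj.2 (hc i (Finset.mem_range.1 (Finset.mem_filter.1 hi).1) j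
      (Finset.mem_range.1 hj.1) _ hcon).symm)
  have hcardB : (Finset.univ : Finset (Fin l → Fin l → Bool)).card = 2 ^ (l * l) := by
    rw [Finset.card_univ, Fintype.card_fun, Fintype.card_fun, Fintype.card_bool, Fintype.card_fin,
      ← pow_mul]
  rw [hcardB] at hcount
  set E := (3 * a * l + l + 10) * (2 * M + 3) + (2 * l + 2 * a * l) * M with hE
  have h1 : (l + 1) ^ (10 * M * l) ≤ 2 ^ (b * (10 * M * l)) := by
    rw [pow_mul 2 b]
    exact Nat.pow_le_pow_left hb _
  have h2 : 2 ^ (l * l) ≤ 2 ^ (E + 3 * l + b * (10 * M * l) + l * (l + 1 - (l / M + 1))) := by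
    refine hcount.trans ?_
    rw [pow_add, pow_add, pow_add]
    gcongr
  have h3 : l * l ≤ E + 3 * l + b * (10 * M * l) + l * (l + 1 - (l / M + 1)) :=
    (Nat.pow_le_pow_iff_right (by norm_num)).1 h2
  have h4 : l + 1 - (l / M + 1) = l - l / M := Nat.add_sub_add_right l 1 _
  rw [h4] at h3
  have h5 : l / M ≤ l := Nat.div_le_self l M
  have h6 : l * (l - l / M) + l * (l / M) = l * l := by
    rw [← mul_add, Nat.sub_add_cancel h5]
  have h7 : l * (l / M) ≤ E + 3 * l + b * (10 * M * l) := by omega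
  have h8 : l < M * (l / M) + M := by
    have := Nat.div_add_mod l M
    have h9 := Nat.mod_lt l (show 0 < M by omega)
    omega
  have h10 : l * l < M * (E + 3 * l + b * (10 * M * l)) + l * M := by
    calc l * l < l * (M * (l / M) + M) := Nat.mul_lt_mul_of_pos_left h8 (by omega)
      _ = M * (l * (l / M)) + l * M := by ring
      _ ≤ _ := Nat.add_le_add_right (Nat.mul_le_mul_left M h7) _
  have h11 : M * (E + 3 * l + b * (10 * M * l)) + l * M ≤
      M * (E + 5 * l + 10 * M * b * l) := by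
    have e : M * (E + 5 * l + 10 * M * b * l) =
        M * (E + 3 * l + b * (10 * M * l)) + l * M + l * M := by ring
    rw [e]
    exact Nat.le_add_right _ _
  have h12 : l ^ 2 = l * l := by ring
  omega

end

end Pool.NilAvg
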