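import Pool.Agent.Helper986.NilAvg.Defs
import Pool.Agent.Helper986.NilAvg.DefsB
import Pool.Agent.Helper986.NilAvg.ExistsGood
import Pool.Agent.Helper986.NilAvg.Params

set_option autoImplicit false

namespace Pool.NilAvg

open Filter Topology
open scoped ComplexConjugate

noncomputable section

variable {κ : Type}


theorem exists_mats_pow (w : ℕ) (hw : 8 ≤ w) : 20 * (w + 1) ≤ 2 ^ w := by
  induction w, hw using Nat.le_induction with
  | base => norm_num
  | succ n hn ih => rw [pow_succ]; omega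

theorem exists_mats_ineq (w : ℕ) (hw : 8 ≤ w) :
    w * ((3 * aa w * ell w + ell w + 10) * (2 * w + 3) + (2 * ell w + 2 * aa w * ell w) * w +
      5 * ell w + 10 * w * (4 * w + 1) * ell w) < ell w ^ 2 := by
  have ht := exists_mats_pow w hw
  have hl : ell w = (2 ^ w) ^ 4 := by
    unfold ell
    rw [← pow_mul, mul_comm, pow_mul]
    norm_num
  have ha : aa w ≤ 21 * (w + 1) * 2 ^ w := by
    unfold aa HH
    nlinarith [Nat.one_le_two_pow (n := w)]
  have hl1 : 1 ≤ ell w := by rw [hl]; exact Nat.one_le_pow _ _ (by positivity)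
  generalize aa w = a at ha
  generalize ell w = l at hl hl1
  generalize 2 ^ w = t at ht hl ha
  obtain ⟨s, rfl⟩ : ∃ s, s = w + 1 := ⟨_, rfl⟩
  have hs : 1 ≤ w + 1 := by omega
  generalize hse : w + 1 = s at ht ha hs
  have hws : w ≤ s := by omega
  have ht1 : 1 ≤ t := by omega
  have h1 : (3 * a * l + l + 10) ≤ (63 * s * t + 11) * l := by
    calc 3 * a * l + l + 10 ≤ 3 * a * l + l + 10 * l := by omega
      _ = (3 * a + 11) * l := by ring
      _ ≤ (63 * s * t + 11) * l := Nat.mul_le_mul_right _ (by nlinarith)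
  have h2 : 2 * w + 3 ≤ 3 * s := by omega
  have h3 : (2 * l + 2 * a * l) ≤ (2 + 42 * s * t) * l := by
    calc 2 * l + 2 * a * l = (2 + 2 * a) * l := by ring
      _ ≤ (2 + 42 * s * t) * l := Nat.mul_le_mul_right _ (by nlinarith)
  have h4 : w * (4 * w + 1) ≤ s * (4 * s) := Nat.mul_le_mul hws (by omega)
  have hst : 1 ≤ s * t := Nat.mul_pos hs ht1
  have hss : s ≤ s * s := Nat.le_mul_of_pos_left s hs
  have h5 : (3 * a * l + l + 10) * (2 * w + 3) + (2 * l + 2 * a * l) * w +
      5 * l + 10 * w * (4 * w + 1) * l ≤ (321 * (s * s * t)) * l := by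
    calc (3 * a * l + l + 10) * (2 * w + 3) + (2 * l + 2 * a * l) * w +
      5 * l + 10 * w * (4 * w + 1) * l
        ≤ (63 * s * t + 11) * l * (3 * s) + (2 + 42 * s * t) * l * s + 5 * l +
          10 * (s * (4 * s)) * l := by
          refine Nat.add_le_add (Nat.add_le_add (Nat.add_le_add (Nat.mul_le_mul h1 h2)
            (Nat.mul_le_mul h3 hws)) le_rfl) ?_
          rw [mul_assoc 10 w]
          exact Nat.mul_le_mul_right _ (Nat.mul_le_mul_left _ h4)
      _ = (231 * (s * s * t) + 35 * s + 5 + 40 * (s * s)) * l := by ring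
      _ ≤ (321 * (s * s * t)) * l := by
          apply Nat.mul_le_mul_right
          have h6 : s * s ≤ s * s * t := Nat.le_mul_of_pos_right _ ht1
          nlinarith
  calc w * ((3 * a * l + l + 10) * (2 * w + 3) + (2 * l + 2 * a * l) * w +
      5 * l + 10 * w * (4 * w + 1) * l) ≤ s * ((321 * (s * s * t)) * l) := Nat.mul_le_mul hws h5
    _ = (321 * (s ^ 3) * t) * l := by ring
    _ < l * l := by
        apply Nat.mul_lt_mul_of_pos_right _ hl1
        have h7 : (20 * s) ^ 3 ≤ t ^ 3 := Nat.pow_le_pow_left ht 3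
        have h8 : (20 * s) ^ 3 = 8000 * s ^ 3 := by ring
        have h9 : 321 * s ^ 3 < t ^ 3 := by
          have : 1 ≤ s ^ 3 := Nat.one_le_pow _ _ hs
          omega
        calc 321 * s ^ 3 * t < t ^ 3 * t := Nat.mul_lt_mul_of_pos_right h9 ht1
          _ = l := by rw [hl]; ring
    _ = l ^ 2 := by ring

theorem exists_mats : ∃ Bm : ℕ → ℕ → ℕ → Bool, ∀ᶠ w in atTop, GoodMat w (aa w) (ell w) (Bm w) := by
  have key : ∀ w : ℕ, 8 ≤ w → ∃ B, GoodMat w (aa w) (ell w) B := by
    intro w hw
    refine exists_good w (aa w) (ell w) (4 * w + 1) (by omega) ?_ ?_ (exists_mats_ineq w hw)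
    · exact Nat.one_le_pow _ _ (by norm_num)
    · have h1 : (2 : ℕ) ^ (4 * w + 1) = 2 * 16 ^ w := by
        rw [pow_succ, pow_mul]; norm_num; ring
      have h2 : 1 ≤ 16 ^ w := Nat.one_le_pow _ _ (by norm_num)
      unfold ell
      omega
  classical
  refine ⟨fun w => if h : 8 ≤ w then (key w h).choose else fun _ _ => true, ?_⟩
  filter_upwards [eventually_ge_atTop 8] with w hw
  simp only [hw, dif_pos]
  exact (key w hw).choose_spec

end

end Pool.NilAvg
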