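import Pool.Agent.Helper986.NilAvg.Defs
import Pool.Agent.Helper986.NilAvg.Grp
import Pool.Agent.Helper986.NilAvg.Chars

set_option autoImplicit false

namespace Pool.NilAvg

open Filter Topology
open scoped ComplexConjugate

noncomputable section

variable {κ : Type}

universe u

open scoped commutatorElement


theorem iso_dense_avg {X K : Type u} [TopologicalSpace X]
    [CommGroup K] [TopologicalSpace K] [IsTopologicalGroup K] [CompactSpace K]
    [MeasurableSpace K] [BorelSpace K] (μ : MeasureTheory.Measure K)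
    [μ.IsMulLeftInvariant] [MeasureTheory.IsFiniteMeasure μ]
    (act : X → K → X)
    (hact : Continuous (fun p : X × K => act p.1 p.2))
    (hmul : ∀ x k k', act (act x k) k' = act x (k * k'))
    (f : C(X, ℂ)) (χ : ContinuousMonoidHom K Circle) :
    ∃ F : C(X, ℂ), (∀ y, F y = ∫ k, f (act y k) * conj (χ k : ℂ) ∂μ) ∧
      ∀ y k, F (act y k) = χ k * F y := by
  have hχ : Continuous (fun k : K => (χ k : ℂ)) := continuous_subtype_val.comp χ.continuous_toFun
  let H : C(X × K, ℂ) := ⟨fun p => f (act p.1 p.2) * conj (χ p.2 : ℂ),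
    (f.continuous.comp hact).mul (Complex.continuous_conj.comp (hχ.comp continuous_snd))⟩
  have hint : ∀ g : C(K, ℂ), MeasureTheory.Integrable (fun k => g k) μ := by
    intro g
    refine MeasureTheory.Integrable.mono' (g := fun _ => ‖g‖)
      (MeasureTheory.integrable_const _) g.continuous.aestronglyMeasurable ?_
    exact Filter.Eventually.of_forall (fun k => g.norm_coe_le_norm k)
  have hL : Continuous (fun g : C(K, ℂ) => ∫ k, g k ∂μ) := by
    refine LipschitzWith.continuous (K := (μ.real Set.univ).toNNReal) ?_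
    refine LipschitzWith.of_dist_le_mul (fun g g' => ?_)
    rw [dist_eq_norm, dist_eq_norm, ← MeasureTheory.integral_sub (hint g) (hint g'),
      Real.coe_toNNReal _ MeasureTheory.measureReal_nonneg, mul_comm]
    refine MeasureTheory.norm_integral_le_of_norm_le_const ?_
    exact Filter.Eventually.of_forall (fun k => (g - g').norm_coe_le_norm k)
  refine ⟨⟨fun y => ∫ k, (H.curry y) k ∂μ, hL.comp H.curry.continuous⟩, fun y => rfl, ?_⟩
  intro y k
  change (∫ k', f (act (act y k) k') * conj (χ k' : ℂ) ∂μ) =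
    χ k * ∫ k', f (act y k') * conj (χ k' : ℂ) ∂μ
  have h1 := MeasureTheory.integral_mul_left_eq_self (μ := μ)
    (fun k' => f (act y k') * conj (χ (k⁻¹ * k') : ℂ)) k
  simp only [inv_mul_cancel_left] at h1
  simp only [hmul]
  rw [h1, ← MeasureTheory.integral_const_mul]
  refine MeasureTheory.integral_congr_ae (Filter.Eventually.of_forall (fun k' => ?_))
  simp only [map_mul, map_inv, Circle.coe_mul, Circle.coe_inv]
  have h2 : conj ((χ k : ℂ)⁻¹) = (χ k : ℂ) := by
    rw [← Circle.coe_inv, Circle.coe_inv_eq_conj, Complex.conj_conj]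
  rw [h2]
  ring

theorem iso_dense_sep {X K : Type u} [TopologicalSpace X] [CompactSpace X] [T2Space X]
    [CommGroup K] [TopologicalSpace K] [IsTopologicalGroup K] [CompactSpace K] [T2Space K]
    (act : X → K → X)
    (hact : Continuous (fun p : X × K => act p.1 p.2)) (hone : ∀ x, act x 1 = x)
    (hmul : ∀ x k k', act (act x k) k' = act x (k * k'))
    (hfree : ∀ x k k', act x k = act x k' → k = k') (x x' : X) (hne : x ≠ x') :
    ∃ (F : C(X, ℂ)) (χ : ContinuousMonoidHom K Circle),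
      (∀ y k, F (act y k) = χ k * F y) ∧ F x ≠ F x' := by
  borelize K
  let μ : MeasureTheory.Measure K := MeasureTheory.Measure.haar
  have hfin : MeasureTheory.IsFiniteMeasure μ := inferInstance
  have hμ : μ.real Set.univ ≠ 0 := by
    rw [MeasureTheory.measureReal_def, ENNReal.toReal_ne_zero]
    exact ⟨isOpen_univ.measure_ne_zero μ ⟨1, Set.mem_univ _⟩, MeasureTheory.measure_ne_top _ _⟩
  have hemb : ∀ y, Topology.IsClosedEmbedding (fun k => act y k) := fun y =>
    (hact.comp (Continuous.prodMk_right y)).isClosedEmbedding (fun k k' h => hfree y k k' h)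
  by_cases hx : ∃ k, x' = act x k
  · obtain ⟨k0, rfl⟩ := hx
    have hk0 : k0 ≠ 1 := by
      rintro rfl
      exact hne (hone x).symm
    obtain ⟨χ, hχ⟩ := chars k0 hk0
    have hχc : Continuous (fun k : K => (χ k : ℂ)) :=
      continuous_subtype_val.comp χ.continuous_toFun
    obtain ⟨f, hf⟩ := ContinuousMap.exists_extension' (hemb x) ⟨fun k : K => (χ k : ℂ), hχc⟩
    obtain ⟨F, hF1, hF2⟩ := iso_dense_avg μ act hact hmul f χ
    refine ⟨F, χ, hF2, ?_⟩
    have hFx : F x = (μ.real Set.univ : ℂ) := by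
      rw [hF1]
      have : ∀ k, f (act x k) * conj (χ k : ℂ) = 1 := by
        intro k
        have h1 : f (act x k) = (χ k : ℂ) := congrFun hf k
        rw [h1, Complex.mul_conj, Circle.normSq_coe]
        simp
      simp only [this]
      rw [MeasureTheory.integral_const]
      simp
    rw [hF2, hFx]
    intro h
    have hc : (χ k0 : ℂ) = 1 := by
      have h3 : (μ.real Set.univ : ℂ) ≠ 0 := by exact_mod_cast hμ
      have h4 : (χ k0 : ℂ) * (μ.real Set.univ : ℂ) = 1 * (μ.real Set.univ : ℂ) := by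
        rw [one_mul]; exact h.symm
      exact mul_right_cancel₀ h3 h4
    exact hχ (Circle.ext (by rw [hc]; rfl))
  · have hd : Disjoint (Set.range (fun k => act x' k)) (Set.range (fun k => act x k)) := by
      rw [Set.disjoint_left]
      rintro y ⟨k, rfl⟩ ⟨k', hk'⟩
      apply hx
      refine ⟨k' * k⁻¹, ?_⟩
      have hk2 : act x k' = act x' k := hk'
      have h1 : act (act x' k) k⁻¹ = act (act x k') k⁻¹ := by rw [hk2]
      rw [hmul, hmul, mul_inv_cancel, hone] at h1
      exact h1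
    obtain ⟨f, hf0, hf1, -⟩ := exists_continuous_zero_one_of_isClosed
      (hemb x').isClosed_range (hemb x).isClosed_range hd
    obtain ⟨F, hF1, hF2⟩ := iso_dense_avg μ act hact hmul
      ⟨fun y => (f y : ℂ), Complex.continuous_ofReal.comp f.continuous⟩ 1
    refine ⟨F, 1, hF2, ?_⟩
    have e1 : F x = (μ.real Set.univ : ℂ) := by
      rw [hF1]
      have : ∀ k, (((f (act x k) : ℝ) : ℂ)) * conj (((1 : ContinuousMonoidHom K Circle) k : ℂ)) = 1 := by
        intro k
        have h1 : f (act x k) = 1 := hf1 ⟨k, rfl⟩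
        rw [h1]
        simp
      simp only [ContinuousMap.coe_mk, this]
      rw [MeasureTheory.integral_const]
      simp
    have e2 : F x' = 0 := by
      rw [hF1]
      have : ∀ k, (((f (act x' k) : ℝ) : ℂ)) * conj (((1 : ContinuousMonoidHom K Circle) k : ℂ)) = 0 := by
        intro k
        have h1 : f (act x' k) = 0 := hf0 ⟨k, rfl⟩
        rw [h1]
        simp
      simp only [ContinuousMap.coe_mk, this]
      simp
    rw [e1, e2]
    exact_mod_cast hμ

theorem iso_dense_t2 {G : Type u} [Group G] [TopologicalSpace G] [IsTopologicalGroup G]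
    (Γ : Subgroup G) (hΓ : IsClosed (Γ : Set G)) : T2Space (G ⧸ Γ) := by
  rw [t2_iff_isClosed_diagonal]
  have hq : IsOpenQuotientMap (Prod.map (QuotientGroup.mk : G → G ⧸ Γ) (QuotientGroup.mk : G → G ⧸ Γ)) :=
    QuotientGroup.isOpenQuotientMap_mk.prodMap QuotientGroup.isOpenQuotientMap_mk
  rw [← hq.isQuotientMap.isClosed_preimage]
  have : Prod.map (QuotientGroup.mk : G → G ⧸ Γ) (QuotientGroup.mk : G → G ⧸ Γ) ⁻¹'
      Set.diagonal (G ⧸ Γ) = (fun p : G × G => p.1⁻¹ * p.2) ⁻¹' (Γ : Set G) := by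
    ext ⟨a, b⟩
    simp only [Set.mem_preimage, Prod.map_apply, Set.mem_diagonal_iff, SetLike.mem_coe]
    exact QuotientGroup.eq
  rw [this]
  exact hΓ.preimage (continuous_fst.inv.mul continuous_snd)

theorem iso_dense_point {G : Type u} [Group G] [TopologicalSpace G] [IsTopologicalGroup G]
    (h2 : ∀ a b c : G, ⁅⁅a, b⁆, c⁆ = 1) (Γ : Subgroup G) (hΓ : IsClosed (Γ : Set G))
    [CompactSpace (G ⧸ Γ)] (C : Set G) (hC : IsCompact C)
    (hCΓ : ∀ g : G, ∃ c ∈ C, ∃ γ ∈ Γ, g = c * γ) (x x' : G ⧸ Γ) (hne : x ≠ x') :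
    ∃ F : C(G ⧸ Γ, ℂ), IsoFn Γ F ∧ F x ≠ F x' := by
  have hN : (Γ.subgroupOf (Hs Γ)).Normal := by
    refine ⟨fun n hn g => ?_⟩
    rw [Subgroup.mem_subgroupOf] at hn ⊢
    exact Hs_conj h2 Γ hΓ g.1 g.2 n.1 hn
  have hcl : IsClosed (Γ.subgroupOf (Hs Γ) : Set (Hs Γ)) := hΓ.preimage continuous_subtype_val
  letI instK : CommGroup (Hs Γ ⧸ Γ.subgroupOf (Hs Γ)) :=
    { QuotientGroup.Quotient.group (Γ.subgroupOf (Hs Γ)) with
      mul_comm := by
        intro a b
        induction a using QuotientGroup.induction_on with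
        | H a =>
          induction b using QuotientGroup.induction_on with
          | H b =>
            change ((a * b : Hs Γ) : Hs Γ ⧸ Γ.subgroupOf (Hs Γ)) = ((b * a : Hs Γ) : Hs Γ ⧸ Γ.subgroupOf (Hs Γ))
            rw [QuotientGroup.eq, Subgroup.mem_subgroupOf]
            have h := Hs_comm h2 Γ hΓ (b.1)⁻¹ ((Hs Γ).inv_mem b.2) (a.1)⁻¹ ((Hs Γ).inv_mem a.2)
            have e : (((a * b)⁻¹ * (b * a) : Hs Γ) : G) = ⁅(b.1)⁻¹, (a.1)⁻¹⁆ := by
              simp [commutatorElement_def, mul_assoc]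
            rw [e]
            exact h }
  have hTG : IsTopologicalGroup (Hs Γ ⧸ Γ.subgroupOf (Hs Γ)) :=
    QuotientGroup.instIsTopologicalGroup (Γ.subgroupOf (Hs Γ))
  have hT3 : T3Space (Hs Γ ⧸ Γ.subgroupOf (Hs Γ)) := QuotientGroup.instT3Space (Γ.subgroupOf (Hs Γ))
  have hT2 : T2Space (Hs Γ ⧸ Γ.subgroupOf (Hs Γ)) := inferInstance
  have hX2 : T2Space (G ⧸ Γ) := iso_dense_t2 Γ hΓ
  have hCK : CompactSpace (Hs Γ ⧸ Γ.subgroupOf (Hs Γ)) := by
    have hc : IsCompact ((Subtype.val : Hs Γ → G) ⁻¹' C) :=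
      (Hs_closed Γ).isClosedEmbedding_subtypeVal.isCompact_preimage hC
    have hi := hc.image (f := (QuotientGroup.mk : Hs Γ → Hs Γ ⧸ Γ.subgroupOf (Hs Γ)))
      QuotientGroup.continuous_mk
    refine ⟨?_⟩
    convert hi
    symm
    rw [Set.eq_univ_iff_forall]
    intro k
    induction k using QuotientGroup.induction_on with
    | H h =>
      obtain ⟨c, hc, γ, hγ, hcγ⟩ := hCΓ h.1
      have hc' : c ∈ Hs Γ := by
        have : c = h.1 * γ⁻¹ := by rw [hcγ]; group
        rw [this]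
        exact (Hs Γ).mul_mem h.2 ((Hs Γ).inv_mem (le_Hs Γ hγ))
      refine ⟨⟨c, hc'⟩, hc, ?_⟩
      rw [QuotientGroup.eq, Subgroup.mem_subgroupOf]
      have : (((⟨c, hc'⟩ : Hs Γ)⁻¹ * h : Hs Γ) : G) = γ := by
        simp [hcγ]
      rw [this]
      exact hγ
  let act : G ⧸ Γ → (Hs Γ ⧸ Γ.subgroupOf (Hs Γ)) → G ⧸ Γ := fun x k =>
    Quotient.liftOn₂' x k (fun (g : G) (h : Hs Γ) => ((g * h : G) : G ⧸ Γ)) (by
      intro a₁ b₁ a₂ b₂ h1 h3
      rw [QuotientGroup.leftRel_apply] at h1 h3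
      rw [Subgroup.mem_subgroupOf] at h3
      rw [QuotientGroup.eq]
      have h4 := Hs_conj h2 Γ hΓ (b₂.1)⁻¹ ((Hs Γ).inv_mem b₂.2) _ h1
      have h5 : ((b₁⁻¹ * b₂ : Hs Γ) : G) = b₁.1⁻¹ * b₂.1 := rfl
      rw [h5] at h3
      have h6 : (a₁ * b₁.1)⁻¹ * (a₂ * b₂.1) =
          (b₁.1⁻¹ * b₂.1) * (b₂.1⁻¹ * (a₁⁻¹ * a₂) * b₂.1⁻¹⁻¹) := by group
      rw [h6]
      exact Γ.mul_mem h3 h4)
  have hactmk : ∀ (g : G) (h : Hs Γ), act (g : G ⧸ Γ) (h : Hs Γ ⧸ Γ.subgroupOf (Hs Γ)) =
      ((g * h : G) : G ⧸ Γ) := fun g h => rfl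
  have hact : Continuous (fun p : (G ⧸ Γ) × (Hs Γ ⧸ Γ.subgroupOf (Hs Γ)) => act p.1 p.2) := by
    have hq : IsOpenQuotientMap (Prod.map (QuotientGroup.mk : G → G ⧸ Γ)
        (QuotientGroup.mk : Hs Γ → Hs Γ ⧸ Γ.subgroupOf (Hs Γ))) :=
      QuotientGroup.isOpenQuotientMap_mk.prodMap QuotientGroup.isOpenQuotientMap_mk
    rw [hq.isQuotientMap.continuous_iff]
    exact QuotientGroup.continuous_mk.comp
      (continuous_fst.mul (continuous_subtype_val.comp continuous_snd))
  obtain ⟨F, χ, hF, hFne⟩ := iso_dense_sep act hact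
    (by
      intro y
      induction y using QuotientGroup.induction_on with
      | H g =>
        have : act (g : G ⧸ Γ) ((1 : Hs Γ) : Hs Γ ⧸ Γ.subgroupOf (Hs Γ)) = ((g * (1 : Hs Γ) : G) : G ⧸ Γ) := rfl
        simpa using this)
    (by
      intro y k k'
      induction y using QuotientGroup.induction_on with
      | H g =>
        induction k using QuotientGroup.induction_on with
        | H h =>
          induction k' using QuotientGroup.induction_on with
          | H h' =>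
            change ((g * h * h' : G) : G ⧸ Γ) = ((g * (h * h' : Hs Γ) : G) : G ⧸ Γ)
            rw [Subgroup.coe_mul, mul_assoc])
    (by
      intro y k k'
      induction y using QuotientGroup.induction_on with
      | H g =>
        induction k using QuotientGroup.induction_on with
        | H h =>
          induction k' using QuotientGroup.induction_on with
          | H h' =>
            intro he
            rw [hactmk, hactmk, QuotientGroup.eq] at he
            rw [QuotientGroup.eq, Subgroup.mem_subgroupOf]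
            have e : (g * h.1)⁻¹ * (g * h'.1) = ((h⁻¹ * h' : Hs Γ) : G) := by
              simp [mul_assoc]
            rw [e] at he
            exact he)
    x x' hne
  refine ⟨F, ⟨χ.toMonoidHom.comp (QuotientGroup.mk' (Γ.subgroupOf (Hs Γ))), ?_⟩, hFne⟩
  intro g h
  exact hF (g : G ⧸ Γ) (h : Hs Γ ⧸ Γ.subgroupOf (Hs Γ))

theorem iso_dense {G : Type u} [Group G] [TopologicalSpace G] [IsTopologicalGroup G]
    (h2 : ∀ a b c : G, ⁅⁅a, b⁆, c⁆ = 1) (Γ : Subgroup G) (hΓ : IsClosed (Γ : Set G))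
    [CompactSpace (G ⧸ Γ)] (C : Set G) (hC : IsCompact C)
    (hCΓ : ∀ g : G, ∃ c ∈ C, ∃ γ ∈ Γ, g = c * γ)
    (F : G ⧸ Γ → ℂ) (hF : Continuous F) (ε : ℝ) (hε : 0 < ε) :
    ∃ (m : ℕ) (Fi : Fin m → G ⧸ Γ → ℂ), (∀ i, Continuous (Fi i) ∧ IsoFn Γ (Fi i)) ∧
      ∀ x, ‖F x - ∑ i, Fi i x‖ ≤ ε := by
  let S : Set C(G ⧸ Γ, ℂ) := {f | IsoFn Γ f}
  have hS1 : (1 : C(G ⧸ Γ, ℂ)) ∈ S := ⟨1, fun g h => by simp⟩
  have hSmul : ∀ f ∈ S, ∀ f' ∈ S, f * f' ∈ S := by
    rintro f ⟨χ, hχ⟩ f' ⟨χ', hχ'⟩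
    refine ⟨χ * χ', fun g h => ?_⟩
    simp only [ContinuousMap.mul_apply, hχ, hχ', MonoidHom.mul_apply, Circle.coe_mul]
    ring
  have hSstar : ∀ f ∈ S, star f ∈ S := by
    rintro f ⟨χ, hχ⟩
    refine ⟨χ⁻¹, fun g h => ?_⟩
    simp only [ContinuousMap.star_apply, hχ, MonoidHom.inv_apply, Circle.coe_inv_eq_conj,
      star_mul', RCLike.star_def]
  have hSsmul : ∀ (c : ℂ), ∀ f ∈ S, c • f ∈ S := by
    rintro c f ⟨χ, hχ⟩
    refine ⟨χ, fun g h => ?_⟩
    simp only [ContinuousMap.smul_apply, hχ, smul_eq_mul]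
    ring
  let A : StarSubalgebra ℂ C(G ⧸ Γ, ℂ) :=
    { carrier := (Submodule.span ℂ S : Set C(G ⧸ Γ, ℂ))
      mul_mem' := by
        intro a b ha hb
        have h1 : a * b ∈ Submodule.span ℂ S * Submodule.span ℂ S := Submodule.mul_mem_mul ha hb
        rw [Submodule.span_mul_span] at h1
        refine Submodule.span_mono ?_ h1
        rintro _ ⟨f, hf, f', hf', rfl⟩
        exact hSmul f hf f' hf'
      add_mem' := fun ha hb => Submodule.add_mem _ ha hb
      algebraMap_mem' := by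
        intro r
        rw [Algebra.algebraMap_eq_smul_one]
        exact Submodule.smul_mem _ _ (Submodule.subset_span hS1)
      star_mem' := by
        intro a ha
        refine Submodule.span_induction (p := fun f _ => star f ∈ (Submodule.span ℂ S : Set C(G ⧸ Γ, ℂ)))
          ?_ ?_ ?_ ?_ ha
        · exact fun f hf => Submodule.subset_span (hSstar f hf)
        · simp
        · intro f f' _ _ h h'
          rw [star_add]
          exact Submodule.add_mem _ h h'
        · intro c f _ h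
          rw [star_smul]
          exact Submodule.smul_mem _ _ h }
  have hA : A.topologicalClosure = ⊤ := by
    refine ContinuousMap.starSubalgebra_topologicalClosure_eq_top_of_separatesPoints A ?_
    intro x x' hne
    obtain ⟨f, hf, hfne⟩ := iso_dense_point h2 Γ hΓ C hC hCΓ x x' hne
    exact ⟨f, ⟨f, Submodule.subset_span hf, rfl⟩, hfne⟩
  have hmem : (⟨F, hF⟩ : C(G ⧸ Γ, ℂ)) ∈ A.topologicalClosure := by rw [hA]; trivial
  rw [← SetLike.mem_coe, StarSubalgebra.topologicalClosure_coe, Metric.mem_closure_iff] at hmem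
  obtain ⟨f, hfA, hfε⟩ := hmem ε hε
  have hfA' : f ∈ Submodule.span ℂ S := hfA
  rw [Submodule.mem_span_set'] at hfA'
  obtain ⟨m, c, g, hg⟩ := hfA'
  refine ⟨m, fun i => (c i • (g i : C(G ⧸ Γ, ℂ)) : C(G ⧸ Γ, ℂ)), fun i =>
    ⟨(c i • (g i : C(G ⧸ Γ, ℂ)) : C(G ⧸ Γ, ℂ)).continuous, hSsmul _ _ (g i).2⟩, fun x => ?_⟩
  have e1 : ∑ i, (c i • (g i : C(G ⧸ Γ, ℂ)) : C(G ⧸ Γ, ℂ)) x = f x := by
    rw [← hg, ContinuousMap.sum_apply]
  rw [e1, ← dist_eq_norm]
  exact (ContinuousMap.dist_apply_le_dist (f := ⟨F, hF⟩) (g := f) x).trans hfε.le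

end

end Pool.NilAvg
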