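import Pool.Agent.Helper986.NilAvg.Defs
import Pool.Agent.Helper986.NilAvg.Grp

set_option autoImplicit false

namespace Pool.NilAvg

open Filter Topology
open scoped ComplexConjugate

noncomputable section

variable {κ : Type}

universe u

open scoped commutatorElement


theorem lambda_fin_double (a : ℂ) (ha : ‖a‖ = 1) (h1 : ‖a - 1‖ < 1) :
    3 / 2 * ‖a - 1‖ ≤ ‖a ^ 2 - 1‖ := by
  have e : a ^ 2 - 1 = (a + 1) * (a - 1) := by ring
  rw [e, norm_mul]
  apply mul_le_mul_of_nonneg_right _ (norm_nonneg _)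
  have h2 : ‖a - 1‖ ^ 2 < 1 := by nlinarith [norm_nonneg (a - 1)]
  have h3 : ‖a‖ ^ 2 = 1 := by rw [ha]; norm_num
  rw [← Complex.normSq_eq_norm_sq, Complex.normSq_apply] at h2 h3
  simp only [Complex.sub_re, Complex.one_re, Complex.sub_im, Complex.one_im] at h2
  have h4 : 1 / 2 < a.re := by nlinarith
  have h5 : (a + 1).re ≤ ‖a + 1‖ := Complex.re_le_norm _
  simp only [Complex.add_re, Complex.one_re] at h5
  linarith

theorem lambda_fin_circle (z : Circle) (h : ∀ n : ℕ, ‖((z ^ n : Circle) : ℂ) - 1‖ < 1) :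
    z = 1 := by
  have key : ∀ k : ℕ, (3 / 2 : ℝ) ^ k * ‖(z : ℂ) - 1‖ ≤ ‖((z ^ (2 ^ k) : Circle) : ℂ) - 1‖ := by
    intro k
    induction k with
    | zero => simp
    | succ k ih =>
      have h1 := lambda_fin_double ((z ^ (2 ^ k) : Circle) : ℂ) (Circle.norm_coe _) (h _)
      have h2 : (((z ^ (2 ^ k) : Circle) : ℂ)) ^ 2 = ((z ^ (2 ^ (k + 1)) : Circle) : ℂ) := by
        rw [← Circle.coe_pow, ← pow_mul, pow_succ]
      rw [h2] at h1
      calc (3 / 2 : ℝ) ^ (k + 1) * ‖(z : ℂ) - 1‖ =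
          3 / 2 * ((3 / 2 : ℝ) ^ k * ‖(z : ℂ) - 1‖) := by ring
        _ ≤ 3 / 2 * ‖((z ^ (2 ^ k) : Circle) : ℂ) - 1‖ :=
          mul_le_mul_of_nonneg_left ih (by norm_num)
        _ ≤ _ := h1
  have h0 : ‖(z : ℂ) - 1‖ = 0 := by
    by_contra hne
    have hpos : 0 < ‖(z : ℂ) - 1‖ := lt_of_le_of_ne (norm_nonneg _) (Ne.symm hne)
    obtain ⟨k, hk⟩ := pow_unbounded_of_one_lt (1 / ‖(z : ℂ) - 1‖) (by norm_num : (1:ℝ) < 3 / 2)
    rw [div_lt_iff₀ hpos] at hk
    have := key k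
    have := h (2 ^ k)
    linarith
  have h1 : (z : ℂ) = 1 := sub_eq_zero.1 (norm_eq_zero.1 h0)
  exact Circle.ext (by rw [h1, Circle.coe_one])

/-- finiteness of the defects of additivity -/
theorem lambda_fin {G : Type u} [Group G] [TopologicalSpace G] [IsTopologicalGroup G]
    (h2 : ∀ a b c : G, ⁅⁅a, b⁆, c⁆ = 1) (Γ : Subgroup G) (C : Set G) (hC : IsCompact C)
    (hCΓ : ∀ g : G, ∃ c ∈ C, ∃ γ ∈ Γ, g = c * γ) (χ : Hs Γ →* Circle)
    (hχΓ : ∀ γ (hγ : γ ∈ Γ), χ ⟨γ, le_Hs Γ hγ⟩ = 1)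
    (hχc : Continuous fun p : G × G => χ ⟨⁅p.1, p.2⁆, comm_mem_Hs Γ p.1 p.2⟩) (b : G) :
    Set.Finite {z : Circle | ∃ κ ∈ Γ, (∃ c₁ ∈ C, ∃ c₂ ∈ C, ∃ c₃ ∈ C, ∃ z' ∈ commutator G,
      κ = z' * (c₁⁻¹ * c₂ * c₃)) ∧ z = χ ⟨⁅κ, b⁆, comm_mem_Hs Γ κ b⟩} := by
  classical
  obtain ⟨V, hV⟩ : ∃ V : G → G → Circle, ∀ a c, V a c = χ ⟨⁅a, c⁆, comm_mem_Hs Γ a c⟩ :=
    ⟨_, fun _ _ => rfl⟩
  have Vl : ∀ a a' c, V (a * a') c = V a c * V a' c := by
    intro a a' c
    rw [hV, hV, hV, ← map_mul]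
    congr 1
    exact Subtype.ext (comm_mul_left h2 a a' c)
  have Vr : ∀ a c c', V a (c * c') = V a c * V a c' := by
    intro a c c'
    rw [hV, hV, hV, ← map_mul]
    congr 1
    exact Subtype.ext (comm_mul_right h2 a c c')
  have V1 : ∀ c, V 1 c = 1 := by
    intro c
    have := Vl 1 1 c
    rw [mul_one] at this
    exact mul_left_cancel (a := V 1 c) (by rw [mul_one]; exact this.symm)
  have Vr1 : ∀ a, V a 1 = 1 := by
    intro a
    have := Vr a 1 1
    rw [mul_one] at this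
    exact mul_left_cancel (a := V a 1) (by rw [mul_one]; exact this.symm)
  have Vinv : ∀ a c, V a⁻¹ c = (V a c)⁻¹ := by
    intro a c
    have := Vl a⁻¹ a c
    rw [inv_mul_cancel, V1] at this
    exact eq_inv_of_mul_eq_one_left this.symm
  have Vz : ∀ z' ∈ commutator G, ∀ c, V z' c = 1 := by
    intro z' hz' c
    have h3 : ⁅z', c⁆ = 1 := commutatorElement_eq_one_iff_mul_comm.2 (comm_central h2 z' hz' c)
    rw [hV]
    have h4 : (⟨⁅z', c⁆, comm_mem_Hs Γ z' c⟩ : Hs Γ) = 1 := Subtype.ext h3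
    rw [h4, map_one]
  have VΓ : ∀ κ ∈ Γ, ∀ γ ∈ Γ, V κ γ = 1 := by
    intro κ hκ γ hγ
    rw [hV]
    have h3 : ⁅κ, γ⁆ ∈ Γ := by
      rw [commutatorElement_def]
      exact Γ.mul_mem (Γ.mul_mem (Γ.mul_mem hκ hγ) (Γ.inv_mem hκ)) (Γ.inv_mem hγ)
    exact hχΓ _ h3
  have Vpow : ∀ a c (n : ℕ), V a (c ^ n) = V a c ^ n := by
    intro a c n
    induction n with
    | zero => rw [pow_zero, pow_zero, Vr1]
    | succ n ih => rw [pow_succ, pow_succ, Vr, ih]
  have Vcont : Continuous fun p : G × G => V p.1 p.2 := by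
    simpa only [hV] using hχc
  obtain ⟨f, hf⟩ : ∃ f : G × G × G → G → Circle, ∀ k h, f k h =
      (V k.1 h)⁻¹ * V k.2.1 h * V k.2.2 h := ⟨_, fun _ _ => rfl⟩
  have fcont : Continuous fun p : (G × G × G) × G => f p.1 p.2 := by
    simp only [hf]
    have c1 : Continuous fun p : (G × G × G) × G => V p.1.1 p.2 :=
      Vcont.comp (by fun_prop : Continuous fun p : (G × G × G) × G => (p.1.1, p.2))
    have c2 : Continuous fun p : (G × G × G) × G => V p.1.2.1 p.2 :=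
      Vcont.comp (by fun_prop : Continuous fun p : (G × G × G) × G => (p.1.2.1, p.2))
    have c3 : Continuous fun p : (G × G × G) × G => V p.1.2.2 p.2 :=
      Vcont.comp (by fun_prop : Continuous fun p : (G × G × G) × G => (p.1.2.2, p.2))
    exact (c1.inv.mul c2).mul c3
  have hVf : ∀ (z' : G) (_ : z' ∈ commutator G) (k : G × G × G) (h : G),
      V (z' * (k.1⁻¹ * k.2.1 * k.2.2)) h = f k h := by
    intro z' hz' k h
    rw [Vl, Vz z' hz', one_mul, Vl, Vl, Vinv, hf]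
  have hK : IsCompact (C ×ˢ (C ×ˢ C)) := hC.prod (hC.prod hC)
  have main : Set.Finite {z : Circle | ∃ κ ∈ Γ, (∃ k ∈ C ×ˢ (C ×ˢ C), ∃ z' ∈ commutator G,
      κ = z' * (k.1⁻¹ * k.2.1 * k.2.2)) ∧ z = V κ b} := by
    refine hK.induction_on (p := fun s => Set.Finite {z : Circle | ∃ κ ∈ Γ,
      (∃ k ∈ s, ∃ z' ∈ commutator G, κ = z' * (k.1⁻¹ * k.2.1 * k.2.2)) ∧ z = V κ b})
      ?_ ?_ ?_ ?_
    · convert Set.finite_empty (α := Circle)
      ext z
      simp
    · intro s t hst ht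
      refine ht.subset ?_
      rintro z ⟨κ, hκ, ⟨k, hk, z', hz', e⟩, hz⟩
      exact ⟨κ, hκ, ⟨k, hst hk, z', hz', e⟩, hz⟩
    · intro s t hs ht
      refine (hs.union ht).subset ?_
      rintro z ⟨κ, hκ, ⟨k, hk, z', hz', e⟩, hz⟩
      rcases hk with hk | hk
      · exact Or.inl ⟨κ, hκ, ⟨k, hk, z', hz', e⟩, hz⟩
      · exact Or.inr ⟨κ, hκ, ⟨k, hk, z', hz', e⟩, hz⟩
    · intro k0 _
      have hev : ∀ᶠ k in 𝓝 k0, ∀ h ∈ C, ‖((f k h : Circle) : ℂ) - f k0 h‖ < 1 / 2 := by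
        apply hC.eventually_forall_of_forall_eventually
        intro h _
        have hcont : Continuous fun p : (G × G × G) × G =>
            ‖((f p.1 p.2 : Circle) : ℂ) - f k0 p.2‖ := by
          have c1 : Continuous fun p : (G × G × G) × G => ((f p.1 p.2 : Circle) : ℂ) :=
            continuous_subtype_val.comp fcont
          have c2 : Continuous fun p : (G × G × G) × G => ((f k0 p.2 : Circle) : ℂ) :=
            continuous_subtype_val.comp (fcont.comp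
              (by fun_prop : Continuous fun p : (G × G × G) × G => (k0, p.2)))
          exact (c1.sub c2).norm
        have := hcont.tendsto (k0, h)
        simp only [sub_self, norm_zero] at this
        exact this.eventually (eventually_lt_nhds (by norm_num))
      refine ⟨{k | ∀ h ∈ C, ‖((f k h : Circle) : ℂ) - f k0 h‖ < 1 / 2},
        mem_nhdsWithin_of_mem_nhds hev, ?_⟩
      apply Set.Subsingleton.finite
      rintro z ⟨κ, hκ, ⟨k, hk, z', hz', e⟩, hz⟩ w ⟨κ', hκ', ⟨k', hk', z'', hz'', e'⟩, hw⟩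
      have hclose : ∀ g, ‖((V κ g : Circle) : ℂ) - V κ' g‖ < 1 := by
        intro g
        obtain ⟨c, hc, γ, hγ, rfl⟩ := hCΓ g
        rw [Vr, Vr, VΓ κ hκ γ hγ, VΓ κ' hκ' γ hγ, mul_one, mul_one, e, e', hVf z' hz',
          hVf z'' hz'']
        have h3 := hk c hc
        have h4 := hk' c hc
        have h5 : ((f k c : Circle) : ℂ) - f k' c =
            (((f k c : Circle) : ℂ) - f k0 c) - (((f k' c : Circle) : ℂ) - f k0 c) := by ring
        rw [h5]
        refine (norm_sub_le _ _).trans_lt ?_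
        linarith
      have hone : V κ b / V κ' b = 1 := by
        apply lambda_fin_circle
        intro n
        rw [div_pow, ← Vpow, ← Vpow, Circle.coe_div]
        have h6 : ((V κ (b ^ n) : Circle) : ℂ) / V κ' (b ^ n) - 1 =
            (((V κ (b ^ n) : Circle) : ℂ) - V κ' (b ^ n)) / V κ' (b ^ n) := by
          rw [sub_div, div_self (Circle.coe_ne_zero _)]
        rw [h6, norm_div, Circle.norm_coe, div_one]
        exact hclose _
      rw [hz, hw]
      exact div_eq_one.1 hone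
  refine main.subset ?_
  rintro z ⟨κ, hκ, ⟨c₁, hc₁, c₂, hc₂, c₃, hc₃, z', hz', e⟩, hz⟩
  exact ⟨κ, hκ, ⟨(c₁, c₂, c₃), ⟨hc₁, hc₂, hc₃⟩, z', hz', e⟩, by rw [hz, hV]⟩

end

end Pool.NilAvg
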