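import Pool.Agent.Helper986.NilAvg.Defs
import Pool.Agent.Helper986.NilAvg.Grp

set_option autoImplicit false

namespace Pool.NilAvg

open Filter Topology
open scoped ComplexConjugate

noncomputable section

variable {κ : Type}

universe u

open scoped commutatorElement


theorem class_two {G : Type u} [Group G] [Group.IsNilpotent G]
    (h : Group.nilpotencyClass G ≤ 2) : ∀ a b c : G, ⁅⁅a, b⁆, c⁆ = 1 := by
  intro a b c
  have h2 : Subgroup.lowerCentralSeries (⊤ : Subgroup G) 2 = ⊥ := Subgroup.lowerCentralSeries_eq_bot_iff_nilpotencyClass_le.2 h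
  have h0 : a ∈ Subgroup.lowerCentralSeries (⊤ : Subgroup G) 0 := Subgroup.mem_top a
  have h1 : ⁅a, b⁆ ∈ Subgroup.lowerCentralSeries (⊤ : Subgroup G) 1 :=
    Subgroup.commutator_mem_commutator h0 (Subgroup.mem_top b)
  have h3 : ⁅⁅a, b⁆, c⁆ ∈ Subgroup.lowerCentralSeries (⊤ : Subgroup G) 2 :=
    Subgroup.commutator_mem_commutator h1 (Subgroup.mem_top c)
  rw [h2] at h3
  exact Subgroup.mem_bot.1 h3

theorem exists_compact_cover {G : Type u} [Group G] [TopologicalSpace G] [IsTopologicalGroup G]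
    [LocallyCompactSpace G] (Γ : Subgroup G) [CompactSpace (G ⧸ Γ)] :
    ∃ C : Set G, IsCompact C ∧ ∀ g : G, ∃ c ∈ C, ∃ γ ∈ Γ, g = c * γ := by
  choose K hK hKx using fun x : G => exists_compact_mem_nhds x
  obtain ⟨t, ht⟩ := isCompact_univ.elim_finite_subcover
    (fun x : G => ((↑) : G → G ⧸ Γ) '' interior (K x))
    (fun x => QuotientGroup.isOpenMap_coe _ isOpen_interior) (by
      intro y _
      obtain ⟨x, rfl⟩ := QuotientGroup.mk_surjective y
      exact Set.mem_iUnion.2 ⟨x, x, mem_interior_iff_mem_nhds.2 (hKx x), rfl⟩)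
  refine ⟨⋃ x ∈ t, K x, t.isCompact_biUnion (fun x _ => hK x), fun g => ?_⟩
  obtain ⟨x, hx⟩ := Set.mem_iUnion.1 (ht (Set.mem_univ (g : G ⧸ Γ)))
  obtain ⟨hxt, c, hc, hcg⟩ := Set.mem_iUnion.1 hx
  refine ⟨c, Set.mem_biUnion hxt (interior_subset hc), c⁻¹ * g, QuotientGroup.eq.1 hcg, ?_⟩
  rw [mul_inv_cancel_left]

end

end Pool.NilAvg
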