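import Pool.Agent.Helper986.NilAvg.Defs
import Pool.Agent.Helper986.NilAvg.Chars

set_option autoImplicit false

namespace Pool.NilAvg

open Filter Topology
open scoped ComplexConjugate

noncomputable section

variable {κ : Type}

universe u


theorem trig_dense {A : Type u} [CommGroup A] [TopologicalSpace A] [IsTopologicalGroup A]
    [CompactSpace A] [T2Space A] (chr : ContinuousMonoidHom A Circle → C(A, ℂ))
    (hchr : ∀ χ a, chr χ a = (χ a : ℂ)) (f : C(A, ℂ)) (ε : ℝ) (hε : 0 < ε) :
    ∃ g ∈ Submodule.span ℂ (Set.range chr), ‖f - g‖ < ε := by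
  classical
  have hmul : ∀ {a b : C(A, ℂ)}, a ∈ Submodule.span ℂ (Set.range chr) →
      b ∈ Submodule.span ℂ (Set.range chr) → a * b ∈ Submodule.span ℂ (Set.range chr) := by
    intro a b ha hb
    have h := Submodule.mul_mem_mul ha hb
    rw [Submodule.span_mul_span] at h
    refine Submodule.span_mono ?_ h
    rintro _ ⟨_, ⟨χ, rfl⟩, _, ⟨ψ, rfl⟩, rfl⟩
    refine ⟨χ * ψ, ?_⟩
    ext x
    simp [hchr]
  have hone : (1 : C(A, ℂ)) ∈ Submodule.span ℂ (Set.range chr) := by
    refine Submodule.subset_span ⟨1, ?_⟩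
    ext x
    simp [hchr]
  have hstar : ∀ {a : C(A, ℂ)}, a ∈ Submodule.span ℂ (Set.range chr) →
      star a ∈ Submodule.span ℂ (Set.range chr) := by
    intro a ha
    induction ha using Submodule.span_induction with
    | mem x hx =>
      obtain ⟨χ, rfl⟩ := hx
      refine Submodule.subset_span ⟨χ⁻¹, ?_⟩
      ext x
      rw [hchr, ContinuousMap.star_apply, hchr]
      have h1 : (χ⁻¹) x = (χ x)⁻¹ := rfl
      rw [h1, Circle.coe_inv_eq_conj]
      rfl
    | zero => simp
    | add x y _ _ hx hy => rw [star_add]; exact Submodule.add_mem _ hx hy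
    | smul c x _ hx => rw [star_smul]; exact Submodule.smul_mem _ _ hx
  let B : StarSubalgebra ℂ C(A, ℂ) :=
    { carrier := Submodule.span ℂ (Set.range chr)
      mul_mem' := fun ha hb => hmul ha hb
      one_mem' := hone
      add_mem' := fun ha hb => Submodule.add_mem _ ha hb
      zero_mem' := Submodule.zero_mem _
      algebraMap_mem' := by
        intro r
        rw [Algebra.algebraMap_eq_smul_one]
        exact Submodule.smul_mem _ _ hone
      star_mem' := fun ha => hstar ha }
  have hsep : B.SeparatesPoints := by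
    intro x y hxy
    have hk : x * y⁻¹ ≠ 1 := by
      intro h
      exact hxy (by rwa [mul_inv_eq_one] at h)
    obtain ⟨χ, hχ⟩ := chars (x * y⁻¹) hk
    refine ⟨fun a => chr χ a, ⟨chr χ, Submodule.subset_span ⟨χ, rfl⟩, rfl⟩, ?_⟩
    simp only [hchr]
    intro h
    apply hχ
    have : χ x = χ y := Circle.ext h
    rw [map_mul, map_inv, this, mul_inv_cancel]
  have hdense := ContinuousMap.starSubalgebra_topologicalClosure_eq_top_of_separatesPoints B hsep
  have hf : f ∈ B.topologicalClosure := by rw [hdense]; trivial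
  have hf' : f ∈ closure (B : Set C(A, ℂ)) := hf
  obtain ⟨g, hg, hd⟩ := Metric.mem_closure_iff.1 hf' ε hε
  refine ⟨g, hg, ?_⟩
  rwa [← dist_eq_norm]

/-- uniform trigonometric approximation on a compact family of continuous functions -/
theorem trig {A : Type u} [CommGroup A] [TopologicalSpace A] [IsTopologicalGroup A]
    [CompactSpace A] [T2Space A] {T : Type u} [TopologicalSpace T] [CompactSpace T]
    (Φ : T → A → ℂ) (hΦ : Continuous fun p : T × A => Φ p.1 p.2) (ε : ℝ) (hε : 0 < ε) :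
    ∃ (s : Finset (ContinuousMonoidHom A Circle)) (K : ℝ), ∀ c : T,
      ∃ p : ContinuousMonoidHom A Circle → ℂ, (∑ χ ∈ s, ‖p χ‖) ≤ K ∧
        ∀ a : A, ‖Φ c a - ∑ χ ∈ s, p χ * (χ a : ℂ)‖ ≤ ε := by
  classical
  let chr : ContinuousMonoidHom A Circle → C(A, ℂ) := fun χ =>
    ⟨fun a => (χ a : ℂ), continuous_subtype_val.comp χ.continuous_toFun⟩
  have hchr : ∀ χ a, chr χ a = (χ a : ℂ) := fun χ a => rfl
  let F : C(T, C(A, ℂ)) := ContinuousMap.curry ⟨fun p : T × A => Φ p.1 p.2, hΦ⟩
  have hF : ∀ c a, F c a = Φ c a := fun c a => rfl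
  have h1 : ∀ c : T, ∃ q : ContinuousMonoidHom A Circle →₀ ℂ,
      ‖F c - q.sum fun χ a => a • chr χ‖ < ε := by
    intro c
    obtain ⟨g, hg, hd⟩ := trig_dense chr hchr (F c) ε hε
    obtain ⟨q, hq⟩ := Finsupp.mem_span_range_iff_exists_finsupp.1 hg
    exact ⟨q, by rw [hq]; exact hd⟩
  choose q hq using h1
  have hopen : ∀ c : T, IsOpen {c' : T | ‖F c' - (q c).sum fun χ a => a • chr χ‖ < ε} := by
    intro c
    exact isOpen_lt (by fun_prop) continuous_const
  obtain ⟨t, ht⟩ := isCompact_univ.elim_finite_subcover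
    (fun c : T => {c' : T | ‖F c' - (q c).sum fun χ a => a • chr χ‖ < ε}) hopen
    (fun c _ => Set.mem_iUnion.2 ⟨c, hq c⟩)
  refine ⟨t.biUnion fun c => (q c).support,
    ∑ c ∈ t, ∑ χ ∈ t.biUnion (fun c => (q c).support), ‖q c χ‖, fun c => ?_⟩
  obtain ⟨d, hd⟩ := Set.mem_iUnion.1 (ht (Set.mem_univ c))
  obtain ⟨hdt, hd⟩ := Set.mem_iUnion.1 hd
  refine ⟨q d, ?_, fun a => ?_⟩
  · exact Finset.single_le_sum
      (f := fun c => ∑ χ ∈ t.biUnion (fun c => (q c).support), ‖q c χ‖)
      (fun i _ => Finset.sum_nonneg fun _ _ => norm_nonneg _) hdt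
  · have hd' : ‖F c - (q d).sum fun χ a => a • chr χ‖ < ε := hd
    have h2 := (ContinuousMap.norm_coe_le_norm (F c - (q d).sum fun χ a => a • chr χ) a).trans hd'.le
    have h3 : (F c - (q d).sum fun χ a => a • chr χ) a =
        Φ c a - ∑ χ ∈ t.biUnion (fun c => (q c).support), q d χ * (χ a : ℂ) := by
      rw [ContinuousMap.sub_apply, hF]
      congr 1
      rw [Finsupp.sum, ContinuousMap.sum_apply]
      refine Finset.sum_subset (Finset.subset_biUnion_of_mem (fun c => (q c).support) hdt) ?_ |>.trans ?_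
      · intro χ _ hχ
        rw [Finsupp.notMem_support_iff] at hχ
        simp [hχ]
      · refine Finset.sum_congr rfl fun χ _ => ?_
        simp [hchr]
    rw [h3] at h2
    exact h2

end

end Pool.NilAvg
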