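import Pool.Agent.Helper986.NilAvg.Defs
import Pool.Agent.Helper986.NilAvg.ApiHat
import Pool.Agent.Helper986.NilAvg.Grp
import Pool.Agent.Helper986.NilAvg.Trig
import Pool.Agent.Helper986.NilAvg.LambdaFin

set_option autoImplicit false

namespace Pool.NilAvg

open Filter Topology
open scoped ComplexConjugate

noncomputable section

variable {κ : Type}

universe u

open scoped commutatorElement


/-- argument of a point of the circle divided by `2 π` -/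
def tame_of_iso_ang (z : Circle) : ℝ := Complex.arg (z : ℂ) / (2 * Real.pi)

theorem tame_of_iso_e_ang (z : Circle) : e (tame_of_iso_ang z) = (z : ℂ) := by
  have h1 : ((Circle.exp (Complex.arg (z : ℂ)) : Circle) : ℂ) = (z : ℂ) := by
    rw [Circle.exp_arg]
  rw [← h1, Circle.coe_exp]
  unfold e tame_of_iso_ang
  congr 1
  push_cast
  have hpi : (Real.pi : ℂ) ≠ 0 := by exact_mod_cast Real.pi_ne_zero
  field_simp

theorem tame_of_iso_e_int_mul (n : ℤ) (x : ℝ) : e (n * x) = e x ^ n := by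
  unfold e
  rw [← Complex.exp_int_mul]
  congr 1
  push_cast
  ring

theorem tame_of_iso_e_eq {x y : ℝ} (h : e x = e y) : ∃ m : ℤ, x = y + m := by
  unfold e at h
  rw [Complex.exp_eq_exp_iff_exists_int] at h
  obtain ⟨m, hm⟩ := h
  refine ⟨m, ?_⟩
  have hpi : (2 * (Real.pi : ℂ) * Complex.I) ≠ 0 := by
    have : (Real.pi : ℂ) ≠ 0 := by exact_mod_cast Real.pi_ne_zero
    simp [this, Complex.I_ne_zero]
  have h2 : (2 * (Real.pi : ℂ) * Complex.I) * ((x : ℂ) - (y + m)) = 0 := by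
    linear_combination hm
  have h3 := (mul_eq_zero.mp h2).resolve_left hpi
  have h4 : (x : ℂ) = ((y + m : ℝ) : ℂ) := by
    push_cast
    linear_combination h3
  exact_mod_cast h4

theorem tame_of_iso_trig {A : Type u} [iA : Group A] (hcomm : ∀ a b : A, a * b = b * a)
    [TopologicalSpace A] [IsTopologicalGroup A]
    [CompactSpace A] [T2Space A] {T : Type u} [TopologicalSpace T] [CompactSpace T]
    (Φ : T → A → ℂ) (hΦ : Continuous fun p : T × A => Φ p.1 p.2) (ε : ℝ) (hε : 0 < ε) :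
    ∃ (ι : Type u) (_ : Fintype ι) (χ : ι → A →* Circle) (K : ℝ), ∀ c : T,
      ∃ p : ι → ℂ, (∑ i, ‖p i‖) ≤ K ∧
        ∀ a : A, ‖Φ c a - ∑ i, p i * (χ i a : ℂ)‖ ≤ ε := by
  let _ : CommGroup A := { iA with mul_comm := hcomm }
  obtain ⟨s, K, h⟩ := trig Φ hΦ ε hε
  refine ⟨s, inferInstance, fun i => i.1.toMonoidHom, K, fun c => ?_⟩
  obtain ⟨p, hp1, hp2⟩ := h c
  refine ⟨fun i => p i.1, ?_, ?_⟩
  · rw [Finset.sum_coe_sort s (fun χ => ‖p χ‖)]
    exact hp1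
  · intro a
    have h3 : ∑ i : s, p i.1 * ((i.1.toMonoidHom a : Circle) : ℂ) =
        ∑ χ ∈ s, p χ * (χ a : ℂ) :=
      Finset.sum_coe_sort s (fun χ => p χ * (χ a : ℂ))
    rw [h3]
    exact hp2 a

section tame_of_iso_sec

variable {G : Type u} [Group G] [TopologicalSpace G] [IsTopologicalGroup G] {Γ : Subgroup G}
  {F : G ⧸ Γ → ℂ} {χ₀ : Hs Γ →* Circle}

/-- the value of the character at a commutator -/
def tame_of_iso_z (χ₀ : Hs Γ →* Circle) (κ g : G) : Circle :=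
  χ₀ ⟨⁅κ, g⁆, comm_mem_Hs Γ κ g⟩

theorem tame_of_iso_z_mul_right (h2 : ∀ a b c : G, ⁅⁅a, b⁆, c⁆ = 1) (κ g g' : G) :
    tame_of_iso_z χ₀ κ (g * g') = tame_of_iso_z χ₀ κ g * tame_of_iso_z χ₀ κ g' := by
  unfold tame_of_iso_z
  rw [← map_mul]
  congr 1
  ext
  exact comm_mul_right h2 κ g g'

theorem tame_of_iso_z_mul_left (h2 : ∀ a b c : G, ⁅⁅a, b⁆, c⁆ = 1) (κ κ' g : G) :
    tame_of_iso_z χ₀ (κ * κ') g = tame_of_iso_z χ₀ κ g * tame_of_iso_z χ₀ κ' g := by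
  unfold tame_of_iso_z
  rw [← map_mul]
  congr 1
  ext
  exact comm_mul_left h2 κ κ' g

theorem tame_of_iso_z_zpow (h2 : ∀ a b c : G, ⁅⁅a, b⁆, c⁆ = 1) (κ g : G) (n : ℤ) :
    tame_of_iso_z χ₀ κ (g ^ n) = tame_of_iso_z χ₀ κ g ^ n :=
  map_zpow (MonoidHom.mk' (tame_of_iso_z χ₀ κ) (tame_of_iso_z_mul_right h2 κ)) g n

theorem tame_of_iso_z_inv (h2 : ∀ a b c : G, ⁅⁅a, b⁆, c⁆ = 1) (κ g : G) :
    tame_of_iso_z χ₀ κ⁻¹ g = (tame_of_iso_z χ₀ κ g)⁻¹ :=
  map_inv (MonoidHom.mk' (fun κ => tame_of_iso_z χ₀ κ g)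
    (fun a b => tame_of_iso_z_mul_left h2 a b g)) κ

theorem tame_of_iso_triv (hχ : ∀ (g : G) (h : Hs Γ),
      F ((g * h : G) : G ⧸ Γ) = χ₀ h * F (g : G ⧸ Γ))
    {g₁ : G} (hg₁ : F (g₁ : G ⧸ Γ) ≠ 0) (γ : G) (hγ : γ ∈ Γ) :
    χ₀ ⟨γ, le_Hs Γ hγ⟩ = 1 := by
  have h1 := hχ g₁ ⟨γ, le_Hs Γ hγ⟩
  have h3 : ((g₁ * γ : G) : G ⧸ Γ) = (g₁ : G ⧸ Γ) := QuotientGroup.mk_mul_of_mem g₁ hγ
  simp only at h1
  rw [h3] at h1
  have h4 : ((χ₀ ⟨γ, le_Hs Γ hγ⟩ : Circle) : ℂ) = 1 := by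
    have h5 : (((χ₀ ⟨γ, le_Hs Γ hγ⟩ : Circle) : ℂ) - 1) * F (g₁ : G ⧸ Γ) = 0 := by
      linear_combination -h1
    have h6 := (mul_eq_zero.mp h5).resolve_right hg₁
    linear_combination h6
  exact Circle.coe_eq_one.mp h4

theorem tame_of_iso_cont (hF : Continuous F) (hχ : ∀ (g : G) (h : Hs Γ),
      F ((g * h : G) : G ⧸ Γ) = χ₀ h * F (g : G ⧸ Γ))
    {g₁ : G} (hg₁ : F (g₁ : G ⧸ Γ) ≠ 0) :
    Continuous fun p : G × G => χ₀ ⟨⁅p.1, p.2⁆, comm_mem_Hs Γ p.1 p.2⟩ := by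
  have h0 : Topology.IsInducing (fun z : Circle => (z : ℂ)) := Topology.IsInducing.subtypeVal
  rw [h0.continuous_iff]
  have h1 : ((fun z : Circle => (z : ℂ)) ∘
      fun p : G × G => χ₀ ⟨⁅p.1, p.2⁆, comm_mem_Hs Γ p.1 p.2⟩) =
      fun p : G × G => F ((g₁ * ⁅p.1, p.2⁆ : G) : G ⧸ Γ) / F (g₁ : G ⧸ Γ) := by
    funext p
    have h3 := hχ g₁ ⟨⁅p.1, p.2⁆, comm_mem_Hs Γ p.1 p.2⟩
    rw [eq_div_iff hg₁]
    exact h3.symm
  rw [h1]
  refine (hF.comp (QuotientGroup.continuous_mk.comp ?_)).div_const _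
  simp only [commutatorElement_def]
  fun_prop

theorem tame_of_iso_key (h2 : ∀ a b c : G, ⁅⁅a, b⁆, c⁆ = 1) (hχ : ∀ (g : G) (h : Hs Γ),
      F ((g * h : G) : G ⧸ Γ) = χ₀ h * F (g : G ⧸ Γ))
    (c κ g : G) (hκ : κ ∈ Γ) :
    F ((c * κ * g : G) : G ⧸ Γ) = (tame_of_iso_z χ₀ κ g : ℂ) * F ((c * g : G) : G ⧸ Γ) := by
  have h3 : c * κ * g = (c * g * ⁅κ, g⁆) * κ := by
    have h4 := comm_central h2 ⁅κ, g⁆ (Subgroup.commutator_mem_commutator
      (Subgroup.mem_top κ) (Subgroup.mem_top g)) g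
    calc c * κ * g = c * (⁅κ, g⁆ * g) * κ := by
          rw [commutatorElement_def]; group
      _ = c * (g * ⁅κ, g⁆) * κ := by rw [h4]
      _ = _ := by group
  rw [h3, QuotientGroup.mk_mul_of_mem _ hκ]
  exact hχ (c * g) ⟨⁅κ, g⁆, comm_mem_Hs Γ κ g⟩

end tame_of_iso_sec

theorem tame_of_iso_phi {G : Type u} [Group G] [TopologicalSpace G] [IsTopologicalGroup G]
    (Γ : Subgroup G) (C : Set G) (hC : IsCompact C)
    (hCΓ : ∀ g : G, ∃ c ∈ C, ∃ γ ∈ Γ, g = c * γ)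
    (F : G ⧸ Γ → ℂ) (hF : Continuous F) (χ₀ : Hs Γ →* Circle)
    (hχ : ∀ (g : G) (h : Hs Γ), F ((g * h : G) : G ⧸ Γ) = χ₀ h * F (g : G ⧸ Γ))
    (ε : ℝ) (hε : 0 < ε) :
    ∃ (ι : Type u) (_ : Fintype ι) (χ : ι → G →* Circle) (K : ℝ), ∀ c ∈ C,
      ∃ p : ι → ℂ, (∑ i, ‖p i‖) ≤ K ∧
        ∀ g : G, ‖F ((c * g : G) : G ⧸ Γ) * conj (F (g : G ⧸ Γ)) -
          ∑ i, p i * (χ i g : ℂ)‖ ≤ ε := by
  haveI := Hs_normal Γ
  haveI : IsClosed (Hs Γ : Set G) := Hs_closed Γ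
  haveI : CompactSpace C := isCompact_iff_compactSpace.mp hC
  have hcomm : ∀ a b : G ⧸ Hs Γ, a * b = b * a := by
    intro a b
    induction a using QuotientGroup.induction_on with
    | H g =>
      induction b using QuotientGroup.induction_on with
      | H h =>
        rw [← QuotientGroup.mk_mul, ← QuotientGroup.mk_mul, QuotientGroup.eq]
        have h3 : (g * h)⁻¹ * (h * g) = ⁅h⁻¹, g⁻¹⁆ := by
          rw [commutatorElement_def]; group
        rw [h3]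
        exact comm_mem_Hs Γ _ _
  haveI : CompactSpace (G ⧸ Hs Γ) := by
    rw [← isCompact_univ_iff]
    have h3 : (Set.univ : Set (G ⧸ Hs Γ)) = (fun g : G => (g : G ⧸ Hs Γ)) '' C := by
      symm
      rw [Set.eq_univ_iff_forall]
      intro a
      induction a using QuotientGroup.induction_on with
      | H g =>
        obtain ⟨c, hc, γ, hγ, rfl⟩ := hCΓ g
        exact ⟨c, hc, (QuotientGroup.mk_mul_of_mem c (le_Hs Γ hγ)).symm⟩
    rw [h3]
    exact hC.image QuotientGroup.continuous_mk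
  have hΦmk : ∀ (c : C) (g : G),
      F ((c.1 * (g : G ⧸ Hs Γ).out : G) : G ⧸ Γ) * conj (F ((g : G ⧸ Hs Γ).out : G ⧸ Γ)) =
      F ((c.1 * g : G) : G ⧸ Γ) * conj (F (g : G ⧸ Γ)) := by
    intro c g
    obtain ⟨h, H⟩ := QuotientGroup.mk_out_eq_mul (Hs Γ) g
    rw [H, ← mul_assoc, hχ, hχ, map_mul]
    have h3 : ((χ₀ h : Circle) : ℂ) * conj ((χ₀ h : Circle) : ℂ) = 1 := by
      rw [Complex.mul_conj, Circle.normSq_coe]; simp
    calc ((χ₀ h : Circle) : ℂ) * F ((c.1 * g : G) : G ⧸ Γ) *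
          (conj ((χ₀ h : Circle) : ℂ) * conj (F (g : G ⧸ Γ)))
        = (((χ₀ h : Circle) : ℂ) * conj ((χ₀ h : Circle) : ℂ)) *
          (F ((c.1 * g : G) : G ⧸ Γ) * conj (F (g : G ⧸ Γ))) := by ring
      _ = _ := by rw [h3, one_mul]
  have hcont : Continuous fun p : C × (G ⧸ Hs Γ) =>
      F ((p.1.1 * p.2.out : G) : G ⧸ Γ) * conj (F (p.2.out : G ⧸ Γ)) := by
    rw [← ((IsOpenQuotientMap.id (X := C)).prodMap
      (QuotientGroup.isOpenQuotientMap_mk (N := Hs Γ))).continuous_comp_iff]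
    have h3 : ((fun p : C × (G ⧸ Hs Γ) =>
        F ((p.1.1 * p.2.out : G) : G ⧸ Γ) * conj (F (p.2.out : G ⧸ Γ))) ∘
        Prod.map id (QuotientGroup.mk (s := Hs Γ))) = fun p : C × G =>
        F ((p.1.1 * p.2 : G) : G ⧸ Γ) * conj (F (p.2 : G ⧸ Γ)) := by
      funext p
      exact hΦmk p.1 p.2
    rw [h3]
    refine (hF.comp (QuotientGroup.continuous_mk.comp ?_)).mul
      (Complex.continuous_conj.comp (hF.comp (QuotientGroup.continuous_mk.comp continuous_snd)))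
    exact (continuous_subtype_val.comp continuous_fst).mul continuous_snd
  obtain ⟨ι, iι, χ, K, h⟩ := tame_of_iso_trig hcomm
    (fun (c : C) (a : G ⧸ Hs Γ) =>
      F ((c.1 * a.out : G) : G ⧸ Γ) * conj (F (a.out : G ⧸ Γ))) hcont ε hε
  refine ⟨ι, iι, fun i => (χ i).comp (QuotientGroup.mk' (Hs Γ)), K, ?_⟩
  intro c hc
  obtain ⟨p, hp1, hp2⟩ := h ⟨c, hc⟩
  refine ⟨p, hp1, fun g => ?_⟩
  have h3 := hp2 (g : G ⧸ Hs Γ)
  rw [hΦmk ⟨c, hc⟩ g] at h3
  exact h3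

theorem tame_of_iso {G : Type u} [Group G] [TopologicalSpace G] [IsTopologicalGroup G]
    (h2 : ∀ a b c : G, ⁅⁅a, b⁆, c⁆ = 1) (Γ : Subgroup G) (hΓ : IsClosed (Γ : Set G))
    [CompactSpace (G ⧸ Γ)] (C : Set G) (hC : IsCompact C)
    (hCΓ : ∀ g : G, ∃ c ∈ C, ∃ γ ∈ Γ, g = c * γ)
    (F : G ⧸ Γ → ℂ) (hF : Continuous F) (hiso : IsoFn Γ F) (b g₀ : G) :
    Tame fun n : ℤ => F ((b ^ n * g₀ : G) : G ⧸ Γ) := by
  classical
  obtain ⟨χ₀, hχ⟩ := hiso
  by_cases hF0 : ∀ g : G, F (g : G ⧸ Γ) = 0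
  · refine ⟨fun _ => 0, {0}, ⟨0, fun n => ?_⟩, fun u v => ⟨0, by simp, 0, by simp⟩, ?_⟩
    · rw [hF0]; simp
    · intro ε hε
      refine ⟨∅, 0, fun u => ⟨fun _ => 0, by simp, fun n => ?_⟩⟩
      rw [hF0]
      simpa using hε.le
  push Not at hF0
  obtain ⟨g₁, hg₁⟩ := hF0
  choose cc hcC kk hkΓ hck using fun u : ℤ => hCΓ (b ^ u)
  have hχΓ := tame_of_iso_triv hχ hg₁
  have hχc := tame_of_iso_cont hF hχ hg₁
  have hfin := lambda_fin h2 Γ C hC hCΓ χ₀ hχΓ hχc b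
  refine ⟨fun u => tame_of_iso_ang (tame_of_iso_z χ₀ (kk u) b),
    hfin.toFinset.image tame_of_iso_ang, ?_, ?_, ?_⟩
  · obtain ⟨Cb, hCb⟩ := isCompact_univ.exists_bound_of_continuousOn hF.continuousOn
    exact ⟨Cb, fun n => hCb _ (Set.mem_univ _)⟩
  · intro u v
    obtain ⟨κ, hκdef⟩ : ∃ κ : G, κ = kk (u + v) * (kk u * kk v)⁻¹ := ⟨_, rfl⟩
    have hκΓ : κ ∈ Γ := by
      rw [hκdef]
      exact mul_mem (hkΓ _) (inv_mem (mul_mem (hkΓ _) (hkΓ _)))
    have hcommem : ⁅b ^ u, cc v⁆ ∈ commutator G :=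
      Subgroup.commutator_mem_commutator (Subgroup.mem_top _) (Subgroup.mem_top _)
    have hκ : κ = ⁅b ^ u, cc v⁆ * ((cc (u + v))⁻¹ * cc v * cc u) := by
      have e1 : kk (u + v) = (cc (u + v))⁻¹ * b ^ (u + v) := by rw [hck (u + v)]; group
      have e2 : kk u = (cc u)⁻¹ * b ^ u := by
        have := hck u
        rw [eq_inv_mul_iff_mul_eq]; exact this.symm
      have e3 : kk v = (cc v)⁻¹ * b ^ v := by
        have := hck v
        rw [eq_inv_mul_iff_mul_eq]; exact this.symm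
      have e4 := comm_central h2 _ hcommem (cc (u + v))⁻¹
      calc κ = (cc (u + v))⁻¹ * b ^ (u + v) * ((cc u)⁻¹ * b ^ u * ((cc v)⁻¹ * b ^ v))⁻¹ := by
            rw [hκdef, e1, e2, e3]
        _ = (cc (u + v))⁻¹ * (b ^ u * cc v * (b ^ u)⁻¹ * cc u) := by
            rw [zpow_add]; group
        _ = (cc (u + v))⁻¹ * ⁅b ^ u, cc v⁆ * cc v * cc u := by
            rw [commutatorElement_def]; group
        _ = (⁅b ^ u, cc v⁆ * (cc (u + v))⁻¹) * cc v * cc u := by rw [e4]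
        _ = _ := by group
    refine ⟨tame_of_iso_ang (tame_of_iso_z χ₀ κ b), ?_, ?_⟩
    · apply Finset.mem_image_of_mem
      rw [Set.Finite.mem_toFinset]
      exact ⟨κ, hκΓ, ⟨cc (u + v), hcC _, cc v, hcC _, cc u, hcC _, _, hcommem, hκ⟩, rfl⟩
    · apply tame_of_iso_e_eq
      rw [e_add, e_add, tame_of_iso_e_ang, tame_of_iso_e_ang, tame_of_iso_e_ang,
        tame_of_iso_e_ang, ← Circle.coe_mul, ← Circle.coe_mul, Circle.coe_inj, hκdef,
        tame_of_iso_z_mul_left h2, tame_of_iso_z_inv h2, tame_of_iso_z_mul_left h2]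
      rw [mul_comm (tame_of_iso_z χ₀ (kk (u + v)) b), mul_inv_cancel_left]
  · intro ε hε
    obtain ⟨ι, iι, χ, K, h⟩ := tame_of_iso_phi Γ C hC hCΓ F hF χ₀ hχ ε hε
    refine ⟨Finset.univ.image (fun i => tame_of_iso_ang (χ i b)), K, fun u => ?_⟩
    obtain ⟨p, hp1, hp2⟩ := h (cc u) (hcC u)
    refine ⟨fun ξ => (tame_of_iso_z χ₀ (kk u) g₀ : ℂ) *
      ∑ i with tame_of_iso_ang (χ i b) = ξ, p i * (χ i g₀ : ℂ), ?_, ?_⟩
    · calc ∑ ξ ∈ Finset.univ.image (fun i => tame_of_iso_ang (χ i b)),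
            ‖(tame_of_iso_z χ₀ (kk u) g₀ : ℂ) *
              ∑ i with tame_of_iso_ang (χ i b) = ξ, p i * (χ i g₀ : ℂ)‖
          ≤ ∑ ξ ∈ Finset.univ.image (fun i => tame_of_iso_ang (χ i b)),
            ∑ i with tame_of_iso_ang (χ i b) = ξ, ‖p i‖ := by
            apply Finset.sum_le_sum
            intro ξ _
            rw [norm_mul, Circle.norm_coe, one_mul]
            refine (norm_sum_le _ _).trans ?_
            apply Finset.sum_le_sum
            intro i _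
            rw [norm_mul, Circle.norm_coe, mul_one]
        _ = ∑ i, ‖p i‖ := Finset.sum_fiberwise_of_maps_to
            (fun i _ => Finset.mem_image_of_mem _ (Finset.mem_univ i)) _
        _ ≤ K := hp1
    · intro n
      have e1 : F ((b ^ (n + u) * g₀ : G) : G ⧸ Γ) =
          ((tame_of_iso_z χ₀ (kk u) b : Circle) : ℂ) ^ n * (tame_of_iso_z χ₀ (kk u) g₀ : ℂ) *
            F ((cc u * (b ^ n * g₀) : G) : G ⧸ Γ) := by
        have e3 : b ^ (n + u) * g₀ = cc u * kk u * (b ^ n * g₀) := by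
          rw [← hck u, add_comm, zpow_add]; group
        rw [e3, tame_of_iso_key h2 hχ _ _ _ (hkΓ u), tame_of_iso_z_mul_right h2,
          tame_of_iso_z_zpow h2]
        push_cast
        ring
      have e2 : ∑ ξ ∈ Finset.univ.image (fun i => tame_of_iso_ang (χ i b)),
          ((tame_of_iso_z χ₀ (kk u) g₀ : ℂ) *
            ∑ i with tame_of_iso_ang (χ i b) = ξ, p i * (χ i g₀ : ℂ)) * e (n * ξ) =
          (tame_of_iso_z χ₀ (kk u) g₀ : ℂ) * ∑ i, p i * (χ i (b ^ n * g₀) : ℂ) := by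
        rw [← Finset.sum_fiberwise_of_maps_to (s := Finset.univ)
          (t := Finset.univ.image (fun i => tame_of_iso_ang (χ i b)))
          (g := fun i => tame_of_iso_ang (χ i b))
          (fun i _ => Finset.mem_image_of_mem _ (Finset.mem_univ i)), Finset.mul_sum]
        apply Finset.sum_congr rfl
        intro ξ _
        rw [mul_assoc, Finset.sum_mul]
        congr 1
        apply Finset.sum_congr rfl
        intro i hi
        rw [Finset.mem_filter] at hi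
        rw [← hi.2, tame_of_iso_e_int_mul, tame_of_iso_e_ang, map_mul, map_zpow]
        push_cast
        ring
      simp only
      rw [e1, e2, tame_of_iso_e_int_mul, tame_of_iso_e_ang]
      have e4 : ((tame_of_iso_z χ₀ (kk u) b : Circle) : ℂ) ^ n *
            (tame_of_iso_z χ₀ (kk u) g₀ : ℂ) * F ((cc u * (b ^ n * g₀) : G) : G ⧸ Γ) *
            conj (F ((b ^ n * g₀ : G) : G ⧸ Γ)) -
          ((tame_of_iso_z χ₀ (kk u) b : Circle) : ℂ) ^ n *
            ((tame_of_iso_z χ₀ (kk u) g₀ : ℂ) * ∑ i, p i * (χ i (b ^ n * g₀) : ℂ)) =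
          (((tame_of_iso_z χ₀ (kk u) b) ^ n * tame_of_iso_z χ₀ (kk u) g₀ : Circle) : ℂ) *
            (F ((cc u * (b ^ n * g₀) : G) : G ⧸ Γ) * conj (F ((b ^ n * g₀ : G) : G ⧸ Γ)) -
              ∑ i, p i * (χ i (b ^ n * g₀) : ℂ)) := by
        push_cast
        ring
      rw [e4, norm_mul, Circle.norm_coe, one_mul]
      exact hp2 _

end

end Pool.NilAvg
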