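import Pool.Agent.Helper986.NilAvg.Defs
import Pool.Agent.Helper986.NilAvg.Grp
import Pool.Agent.Helper986.NilAvg.IsoDense
import Pool.Agent.Helper986.NilAvg.TameOfIso
import Pool.Agent.Helper986.NilAvg.DefsN
import Pool.Agent.Helper986.NilAvg.Lie

set_option autoImplicit false

namespace Pool.NilAvg

open Filter Topology
open scoped ComplexConjugate

noncomputable section

variable {κ : Type}

universe u

open scoped commutatorElement


/-- nilsequences are uniform limits of finite sums of tame sequences -/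
theorem nil_approx (N : ℤ → ℂ) (hN : IsNilseq.{u} N) (ε : ℝ) (hε : 0 < ε) :
    ∃ (m : ℕ) (f : Fin m → ℤ → ℂ), (∀ i, Tame (f i)) ∧ ∀ n, ‖N n - ∑ i, f i n‖ ≤ ε := by
  obtain ⟨N', ⟨d, G, iG, iT, iT2, iC, iL, iN, Γ, iD, iCo, F, b, y, hcl, hF, hN'⟩, hNN'⟩ :=
    hN (ε / 2) (by positivity)
  have itg : IsTopologicalGroup G :=
    topologicalGroup_of_lieGroup (modelWithCornersSelf ℝ (EuclideanSpace ℝ (Fin d))) (((⊤ : ℕ∞)) : WithTop ℕ∞)
  have ilc : LocallyCompactSpace G :=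
    ChartedSpace.locallyCompactSpace (EuclideanSpace ℝ (Fin d)) G
  have hΓ : IsClosed (Γ : Set G) := Subgroup.isClosed_of_discrete
  have h2 := class_two hcl
  obtain ⟨C, hC, hCΓ⟩ := exists_compact_cover Γ
  obtain ⟨m, Fi, hFi, hsum⟩ := iso_dense h2 Γ hΓ C hC hCΓ F hF (ε / 2) (by positivity)
  obtain ⟨g₀, rfl⟩ := QuotientGroup.mk_surjective y
  refine ⟨m, fun i n => Fi i ((b ^ n * g₀ : G) : G ⧸ Γ), fun i =>
    tame_of_iso h2 Γ hΓ C hC hCΓ (Fi i) (hFi i).1 (hFi i).2 b g₀, ?_⟩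
  intro n
  have h3 : N' n = F ((b ^ n * g₀ : G) : G ⧸ Γ) := hN' n
  have h4 := hNN' n
  have h5 := hsum ((b ^ n * g₀ : G) : G ⧸ Γ)
  rw [← h3] at h5
  calc ‖N n - ∑ i, Fi i ((b ^ n * g₀ : G) : G ⧸ Γ)‖
      = ‖(N n - N' n) + (N' n - ∑ i, Fi i ((b ^ n * g₀ : G) : G ⧸ Γ))‖ := by congr 1; ring
    _ ≤ ‖N n - N' n‖ + ‖N' n - ∑ i, Fi i ((b ^ n * g₀ : G) : G ⧸ Γ)‖ := norm_add_le _ _
    _ ≤ ε := by linarith

end

end Pool.NilAvg
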