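import Pool.Agent.Helper986.NilAvg.Defs
import Pool.Agent.Helper986.NilAvg.ApiEv
import Pool.Agent.Helper986.NilAvg.ApiNrm
import Pool.Agent.Helper986.NilAvg.ApproxList

set_option autoImplicit false

namespace Pool.NilAvg

open Filter Topology
open scoped ComplexConjugate

noncomputable section

variable {κ : Type}


theorem seqD_getD_sum (l : List ℤ) (f : ℤ → ℂ) :
    ∑ i ∈ Finset.range l.length, f (l.getD i 0) = (l.map f).sum := by
  induction l with
  | nil => simp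
  | cons x l ih =>
    rw [List.length_cons, Finset.sum_range_succ', List.map_cons, List.sum_cons, ← ih]
    simp only [List.getD_cons_succ, List.getD_cons_zero]
    rw [add_comm]

theorem seqD_full (l : List ℤ) (f : ℤ → ℂ) (q : ℕ) :
    ∑ n ∈ Finset.range (l.length * q), f (l.getD (n % l.length) 0) = q * (l.map f).sum := by
  induction q with
  | zero => simp
  | succ q ih =>
    rw [Nat.mul_succ, Finset.sum_range_add, ih]
    have h1 : ∑ x ∈ Finset.range l.length, f (l.getD ((l.length * q + x) % l.length) 0) =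
        (l.map f).sum := by
      rw [← seqD_getD_sum]
      refine Finset.sum_congr rfl fun x hx => ?_
      rw [Nat.mul_add_mod, Nat.mod_eq_of_lt (Finset.mem_range.1 hx)]
    rw [h1]
    push_cast
    ring

theorem seqD_block (l : List ℤ) (hl : l ≠ []) (f : ℤ → ℂ) (hf : ∀ n, ‖f n‖ ≤ 1) (E : ℂ)
    (hE : ‖E‖ ≤ 1) (ε : ℝ) (h : ‖(l.length : ℂ)⁻¹ * (l.map f).sum - E‖ ≤ ε) (K : ℕ) :
    ‖∑ n ∈ Finset.range K, f (l.getD (n % l.length) 0) - K * E‖ ≤
      K * ε + 2 * ((K % l.length : ℕ) : ℝ) := by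
  have hε : 0 ≤ ε := (norm_nonneg _).trans h
  have hlen : 0 < l.length := List.length_pos_iff.2 hl
  have hlen' : (l.length : ℂ) ≠ 0 := by exact_mod_cast hlen.ne'
  have hK := Nat.div_add_mod K l.length
  set q := K / l.length with hq
  set r := K % l.length with hr
  have hKc : (K : ℂ) = l.length * q + r := by exact_mod_cast hK.symm
  have hKr : (K : ℝ) = l.length * q + r := by exact_mod_cast hK.symm
  have h1 : ∑ n ∈ Finset.range K, f (l.getD (n % l.length) 0) - K * E =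
      (q * (l.map f).sum - l.length * q * E) +
        (∑ x ∈ Finset.range r, f (l.getD ((l.length * q + x) % l.length) 0) - r * E) := by
    rw [hKc]
    conv_lhs => rw [← hK]
    rw [Finset.sum_range_add, seqD_full]
    ring
  rw [h1]
  have h2 : ‖(q : ℂ) * (l.map f).sum - l.length * q * E‖ ≤ l.length * q * ε := by
    have h3 : (q : ℂ) * (l.map f).sum - l.length * q * E =
        (l.length * q : ℂ) * ((l.length : ℂ)⁻¹ * (l.map f).sum - E) := by
      field_simp
    rw [h3, norm_mul]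
    have h4 : ‖(l.length * q : ℂ)‖ = l.length * q := by
      rw [norm_mul, Complex.norm_natCast, Complex.norm_natCast]
    rw [h4]
    exact mul_le_mul_of_nonneg_left h (by positivity)
  have h3 : ‖∑ x ∈ Finset.range r, f (l.getD ((l.length * q + x) % l.length) 0) - r * E‖ ≤
      2 * r := by
    refine (norm_sub_le _ _).trans ?_
    have h4 : ‖∑ x ∈ Finset.range r, f (l.getD ((l.length * q + x) % l.length) 0)‖ ≤ r := by
      refine (norm_sum_le _ _).trans ?_
      refine (Finset.sum_le_sum fun x _ => hf _).trans ?_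
      simp
    have h5 : ‖(r : ℂ) * E‖ ≤ r := by
      rw [norm_mul, Complex.norm_natCast]
      exact mul_le_of_le_one_right (Nat.cast_nonneg _) hE
    linarith
  refine (norm_add_le _ _).trans ?_
  have h6 : (l.length : ℝ) * q * ε ≤ K * ε := by
    apply mul_le_mul_of_nonneg_right _ hε
    rw [hKr]
    have : (0 : ℝ) ≤ r := Nat.cast_nonneg _
    linarith
  linarith

theorem seqD_ev_norm {ν : Law} (hν : IsProb ν) (f : ℤ → ℂ) (hf : ∀ n, ‖f n‖ ≤ 1) :
    ‖ev ν f‖ ≤ 1 := by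
  have := norm_ev_le ν f 1 hf
  rwa [hν.nrm_eq, one_mul] at this

/-- concatenation of long blocks -/
theorem seqD (ν : ℕ → Law) (hν : ∀ j, IsProb (ν j)) :
    ∃ a : ℕ → ℤ,
      (∀ f : ℤ → ℂ, (∃ C : ℝ, ∀ n, ‖f n‖ ≤ C) → ∀ L : ℂ,
        Tendsto (fun j => ev (ν j) f) atTop (𝓝 L) →
        Tendsto (fun K : ℕ => (K : ℂ)⁻¹ * ∑ n ∈ Finset.range K, f (a n)) atTop (𝓝 L)) ∧
      ∃ Ks : ℕ → ℕ, StrictMono Ks ∧ ∀ f : ℤ → ℂ, (∀ n, ‖f n‖ ≤ 1) →
        Tendsto (fun j => (Ks j : ℂ)⁻¹ * ∑ n ∈ Finset.range (Ks j), f (a n) - ev (ν j) f)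
          atTop (𝓝 0) := by
  classical
  have hl : ∀ j : ℕ, ∃ l : List ℤ, l ≠ [] ∧ ∀ f : ℤ → ℂ, (∀ n, ‖f n‖ ≤ 1) →
      ‖(l.length : ℂ)⁻¹ * (l.map f).sum - ev (ν j) f‖ ≤ 1 / ((j : ℝ) + 1) :=
    fun j => approx_list (ν j) (hν j) _ (by positivity)
  choose l hl0 hl1 using hl
  let lam : ℕ → ℕ := fun j => (l j).length
  have hlam : ∀ j, 1 ≤ lam j := fun j => List.length_pos_iff.2 (hl0 j)
  obtain ⟨N, hN0, hNs⟩ : ∃ N : ℕ → ℕ, N 0 = 0 ∧
      ∀ j, N (j + 1) = N j + lam j * ((j + 1) * (N j + lam (j + 1)) + 1) :=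
    ⟨fun j => Nat.rec (motive := fun _ => ℕ) 0
      (fun j m => m + lam j * ((j + 1) * (m + lam (j + 1)) + 1)) j, rfl, fun j => rfl⟩
  have hgrow : ∀ j, (j + 1) * (N j + lam (j + 1)) + 1 ≤ N (j + 1) := by
    intro j
    rw [hNs]
    calc (j + 1) * (N j + lam (j + 1)) + 1 ≤ lam j * ((j + 1) * (N j + lam (j + 1)) + 1) :=
          Nat.le_mul_of_pos_left _ (hlam j)
      _ ≤ _ := Nat.le_add_left _ _
  have hmono : StrictMono N := strictMono_nat_of_lt_succ fun j => by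
    rw [hNs]
    have h1 : 0 < lam j * ((j + 1) * (N j + lam (j + 1)) + 1) :=
      Nat.mul_pos (hlam j) (Nat.succ_pos _)
    omega
  have hb : ∀ n, ∃ j, N j ≤ n ∧ n < N (j + 1) := by
    intro n
    have hex : ∃ j, n < N (j + 1) :=
      ⟨n, lt_of_lt_of_le (Nat.lt_succ_self n) (hmono.id_le (n + 1))⟩
    refine ⟨Nat.find hex, ?_, Nat.find_spec hex⟩
    rcases Nat.eq_zero_or_pos (Nat.find hex) with h | h
    · rw [h, hN0]
      exact Nat.zero_le n
    · have h1 := Nat.find_min hex (m := Nat.find hex - 1) (by omega)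
      rw [Nat.sub_add_cancel h] at h1
      exact not_lt.1 h1
  choose b hb1 hb2 using hb
  have hbu : ∀ n j, N j ≤ n → n < N (j + 1) → b n = j := by
    intro n j h1 h2
    have h3 : b n < j + 1 := by
      by_contra hcon
      exact absurd (lt_of_lt_of_le h2 (hmono.monotone (not_lt.1 hcon))) (not_lt.2 (hb1 n))
    have h4 : j < b n + 1 := by
      by_contra hcon
      exact absurd (lt_of_lt_of_le (hb2 n) (hmono.monotone (not_lt.1 hcon))) (not_lt.2 h1)
    omega
  let a : ℕ → ℤ := fun n => (l (b n)).getD ((n - N (b n)) % (l (b n)).length) 0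
  -- increments inside a block
  have hinc : ∀ (f : ℤ → ℂ), (∀ n, ‖f n‖ ≤ 1) → ∀ j d : ℕ, N j + d ≤ N (j + 1) →
      ‖∑ n ∈ Finset.range (N j + d), f (a n) - ∑ n ∈ Finset.range (N j), f (a n) -
        d * ev (ν j) f‖ ≤ d * (1 / ((j : ℝ) + 1)) + 2 * ((d % (l j).length : ℕ) : ℝ) := by
    intro f hf j d hd
    have h1 : ∑ n ∈ Finset.range (N j + d), f (a n) - ∑ n ∈ Finset.range (N j), f (a n) =
        ∑ n ∈ Finset.range d, f ((l j).getD (n % (l j).length) 0) := by
      rw [Finset.sum_range_add, add_sub_cancel_left]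
      refine Finset.sum_congr rfl fun x hx => ?_
      have hx' := Finset.mem_range.1 hx
      have h2 : b (N j + x) = j := hbu _ _ (Nat.le_add_right _ _) (by omega)
      show f ((l (b (N j + x))).getD ((N j + x - N (b (N j + x))) %
        (l (b (N j + x))).length) 0) = _
      rw [h2, Nat.add_sub_cancel_left]
    rw [h1]
    exact seqD_block (l j) (hl0 j) f hf _ (seqD_ev_norm (hν j) f hf) _ (hl1 j f hf) d
  -- at the ends of the blocks
  have hend : ∀ (f : ℤ → ℂ), (∀ n, ‖f n‖ ≤ 1) → ∀ j : ℕ,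
      ‖∑ n ∈ Finset.range (N (j + 1)), f (a n) - N (j + 1) * ev (ν j) f‖ ≤
        N (j + 1) * (3 / ((j : ℝ) + 1)) := by
    intro f hf j
    have hE := seqD_ev_norm (hν j) f hf
    obtain ⟨d, hd⟩ : ∃ d, d = lam j * ((j + 1) * (N j + lam (j + 1)) + 1) := ⟨_, rfl⟩
    have h1 := hinc f hf j d (by rw [hNs, hd])
    have h2 : d % (l j).length = 0 := by
      rw [hd]
      exact Nat.mul_mod_right _ _
    rw [h2] at h1
    have h3 : N j + d = N (j + 1) := by rw [hNs, hd]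
    rw [h3] at h1
    have h4 : ‖∑ n ∈ Finset.range (N j), f (a n)‖ ≤ N j := by
      refine (norm_sum_le _ _).trans ((Finset.sum_le_sum fun x _ => hf _).trans ?_)
      simp
    have h5 : ‖(N j : ℂ) * ev (ν j) f‖ ≤ N j := by
      rw [norm_mul, Complex.norm_natCast]
      exact mul_le_of_le_one_right (Nat.cast_nonneg _) hE
    have h6 : (N (j + 1) : ℂ) = N j + d := by exact_mod_cast h3.symm
    have h6' : (N (j + 1) : ℝ) = N j + d := by exact_mod_cast h3.symm
    have h7 : ∑ n ∈ Finset.range (N (j + 1)), f (a n) - N (j + 1) * ev (ν j) f =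
        (∑ n ∈ Finset.range (N (j + 1)), f (a n) - ∑ n ∈ Finset.range (N j), f (a n) -
          d * ev (ν j) f) + (∑ n ∈ Finset.range (N j), f (a n) - N j * ev (ν j) f) := by
      rw [h6]; ring
    rw [h7]
    refine (norm_add_le _ _).trans ?_
    have h8 : ‖∑ n ∈ Finset.range (N j), f (a n) - N j * ev (ν j) f‖ ≤ 2 * N j := by
      refine (norm_sub_le _ _).trans ?_
      linarith
    have hj : (0 : ℝ) < (j : ℝ) + 1 := by positivity
    have h9 : (N j : ℝ) ≤ N (j + 1) * (1 / ((j : ℝ) + 1)) := by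
      rw [mul_one_div, le_div_iff₀ hj]
      have h10 := hgrow j
      have h11 : (((j + 1) * (N j + lam (j + 1)) + 1 : ℕ) : ℝ) ≤ ((N (j + 1) : ℕ) : ℝ) :=
        Nat.cast_le.2 h10
      push_cast at h11
      have h12 : (0 : ℝ) ≤ (j + 1) * (lam (j + 1) : ℝ) := by positivity
      nlinarith
    have h13 : (d : ℝ) * (1 / ((j : ℝ) + 1)) ≤ N (j + 1) * (1 / ((j : ℝ) + 1)) := by
      apply mul_le_mul_of_nonneg_right _ (by positivity)
      rw [h6']
      have : (0 : ℝ) ≤ N j := Nat.cast_nonneg _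
      linarith
    have h14 : (N (j + 1) : ℝ) * (3 / ((j : ℝ) + 1)) = 3 * (N (j + 1) * (1 / ((j : ℝ) + 1))) := by
      ring
    rw [h14]
    push_cast at h1
    linarith
  -- everywhere
  have hall : ∀ (f : ℤ → ℂ), (∀ n, ‖f n‖ ≤ 1) → ∀ (L : ℂ) (j K : ℕ), N (j + 1) ≤ K →
      K < N (j + 2) →
      ‖(K : ℂ)⁻¹ * ∑ n ∈ Finset.range K, f (a n) - L‖ ≤
        6 / ((j : ℝ) + 1) + (‖ev (ν j) f - L‖ + ‖ev (ν (j + 1)) f - L‖) := by
    intro f hf L j K hK1 hK2
    obtain ⟨d, rfl⟩ := Nat.exists_eq_add_of_le hK1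
    have h1 := hinc f hf (j + 1) d hK2.le
    have h2 := hend f hf j
    have hNpos : 0 < N (j + 1) := lt_of_le_of_lt (Nat.zero_le _) (hmono (Nat.lt_succ_self j))
    obtain ⟨K, hK⟩ : ∃ K, K = N (j + 1) + d := ⟨_, rfl⟩
    rw [← hK] at h1 ⊢
    have hKpos : (0 : ℝ) < K := by
      rw [hK]
      exact_mod_cast (by omega : 0 < N (j + 1) + d)
    have hKc : (K : ℂ) ≠ 0 := by
      have : (K : ℝ) ≠ 0 := hKpos.ne'
      exact_mod_cast this
    have hKc2 : (K : ℂ) = N (j + 1) + d := by rw [hK]; push_cast; ring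
    have hKr2 : (K : ℝ) = N (j + 1) + d := by rw [hK]; push_cast; ring
    have h3 : (K : ℂ)⁻¹ * ∑ n ∈ Finset.range K, f (a n) - L =
        (K : ℂ)⁻¹ * ((∑ n ∈ Finset.range K, f (a n) - ∑ n ∈ Finset.range (N (j + 1)), f (a n) -
          d * ev (ν (j + 1)) f) + (∑ n ∈ Finset.range (N (j + 1)), f (a n) -
          N (j + 1) * ev (ν j) f) + (N (j + 1) * (ev (ν j) f - L) +
            d * (ev (ν (j + 1)) f - L))) := by
      have h4 : L = (K : ℂ)⁻¹ * (K * L) := by field_simp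
      conv_lhs => rw [h4]
      rw [← mul_sub]
      congr 1
      rw [hKc2]
      ring
    rw [h3, norm_mul, norm_inv, Complex.norm_natCast, inv_mul_le_iff₀ hKpos]
    have hj : (0 : ℝ) < (j : ℝ) + 1 := by positivity
    have h5 : ‖(N (j + 1) : ℂ) * (ev (ν j) f - L)‖ ≤ K * ‖ev (ν j) f - L‖ := by
      rw [norm_mul, Complex.norm_natCast]
      apply mul_le_mul_of_nonneg_right _ (norm_nonneg _)
      rw [hKr2]
      have : (0 : ℝ) ≤ d := Nat.cast_nonneg _
      linarith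
    have h6 : ‖(d : ℂ) * (ev (ν (j + 1)) f - L)‖ ≤ K * ‖ev (ν (j + 1)) f - L‖ := by
      rw [norm_mul, Complex.norm_natCast]
      apply mul_le_mul_of_nonneg_right _ (norm_nonneg _)
      rw [hKr2]
      have : (0 : ℝ) ≤ N (j + 1) := Nat.cast_nonneg _
      linarith
    have h7 : (N (j + 1) : ℝ) * (3 / ((j : ℝ) + 1)) ≤ K * (3 / ((j : ℝ) + 1)) := by
      apply mul_le_mul_of_nonneg_right _ (by positivity)
      rw [hKr2]
      have : (0 : ℝ) ≤ d := Nat.cast_nonneg _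
      linarith
    have h8 : (d : ℝ) * (1 / (((j + 1 : ℕ) : ℝ) + 1)) ≤ K * (1 / ((j : ℝ) + 1)) := by
      apply mul_le_mul
      · rw [hKr2]
        have : (0 : ℝ) ≤ N (j + 1) := Nat.cast_nonneg _
        linarith
      · apply one_div_le_one_div_of_le hj
        push_cast
        linarith
      · positivity
      · exact hKpos.le
    have h9 : 2 * ((d % (l (j + 1)).length : ℕ) : ℝ) ≤ K * (2 / ((j : ℝ) + 1)) := by
      have h10 : d % (l (j + 1)).length ≤ lam (j + 1) := (Nat.mod_lt _ (hlam (j + 1))).le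
      have h11 : ((d % (l (j + 1)).length : ℕ) : ℝ) ≤ lam (j + 1) := by exact_mod_cast h10
      have h12 : (((j + 1) * (N j + lam (j + 1)) + 1 : ℕ) : ℝ) ≤ ((N (j + 1) : ℕ) : ℝ) :=
        Nat.cast_le.2 (hgrow j)
      push_cast at h12
      have h13 : (0 : ℝ) ≤ (j + 1) * (N j : ℝ) := by positivity
      have h14 : (lam (j + 1) : ℝ) ≤ K * (1 / ((j : ℝ) + 1)) := by
        rw [mul_one_div, le_div_iff₀ hj, hKr2]
        have : (0 : ℝ) ≤ d := Nat.cast_nonneg _
        nlinarith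
      have h15 : (K : ℝ) * (2 / ((j : ℝ) + 1)) = 2 * (K * (1 / ((j : ℝ) + 1))) := by ring
      rw [h15]
      linarith
    have h16 : (K : ℝ) * (6 / ((j : ℝ) + 1) + (‖ev (ν j) f - L‖ + ‖ev (ν (j + 1)) f - L‖)) =
        K * (1 / ((j : ℝ) + 1)) + K * (2 / ((j : ℝ) + 1)) + K * (3 / ((j : ℝ) + 1)) +
        (K * ‖ev (ν j) f - L‖ + K * ‖ev (ν (j + 1)) f - L‖) := by ring
    rw [h16]
    refine (norm_add_le _ _).trans (add_le_add ((norm_add_le _ _).trans (add_le_add ?_ ?_))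
      ((norm_add_le _ _).trans (add_le_add h5 h6)))
    · linarith
    · linarith
  -- limits
  have hlim3 : ∀ c : ℝ, Tendsto (fun j : ℕ => c / ((j : ℝ) + 1)) atTop (𝓝 0) := fun c =>
    tendsto_const_div_atTop_nhds_zero_nat c |>.comp (tendsto_add_atTop_nat 1) |>.congr
      fun j => by simp [Function.comp]
  have hone : ∀ f : ℤ → ℂ, (∀ n, ‖f n‖ ≤ 1) → ∀ L : ℂ,
      Tendsto (fun j => ev (ν j) f) atTop (𝓝 L) →
      Tendsto (fun K : ℕ => (K : ℂ)⁻¹ * ∑ n ∈ Finset.range K, f (a n)) atTop (𝓝 L) := by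
    intro f hf L hL
    rw [Metric.tendsto_atTop]
    intro ε hε
    have h1 : Tendsto (fun j : ℕ => 6 / ((j : ℝ) + 1) +
        (‖ev (ν j) f - L‖ + ‖ev (ν (j + 1)) f - L‖)) atTop (𝓝 0) := by
      have h2 : Tendsto (fun j : ℕ => ‖ev (ν j) f - L‖) atTop (𝓝 0) :=
        tendsto_iff_norm_sub_tendsto_zero.1 hL
      have h3 : Tendsto (fun j : ℕ => ‖ev (ν (j + 1)) f - L‖) atTop (𝓝 0) :=
        h2.comp (tendsto_add_atTop_nat 1)
      simpa using (hlim3 6).add (h2.add h3)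
    obtain ⟨j₀, hj₀⟩ := (Metric.tendsto_atTop.1 h1) ε hε
    refine ⟨N (j₀ + 1), fun K hK => ?_⟩
    have hbK : j₀ + 1 < b K + 1 := by
      by_contra hcon
      exact absurd (lt_of_lt_of_le (hb2 K) (hmono.monotone (not_lt.1 hcon))) (not_lt.2 hK)
    obtain ⟨j, hj⟩ : ∃ j, b K = j + 1 := ⟨b K - 1, by omega⟩
    have h4 := hall f hf L j K (by rw [← hj]; exact hb1 K) (by
      have := hb2 K
      rw [hj] at this
      exact this)
    have h5 := hj₀ j (by omega)
    rw [Real.dist_eq, sub_zero] at h5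
    rw [dist_eq_norm]
    exact lt_of_le_of_lt h4 (lt_of_le_of_lt (le_abs_self _) h5)
  refine ⟨a, ?_, fun j => N (j + 1), fun i j hij => hmono (Nat.succ_lt_succ hij), ?_⟩
  · rintro f ⟨C, hC⟩ L hL
    obtain ⟨D, hD⟩ : ∃ D : ℝ, D = max C 1 := ⟨_, rfl⟩
    have hDpos : 0 < D := by rw [hD]; exact lt_of_lt_of_le one_pos (le_max_right _ _)
    have hDc : (D : ℂ) ≠ 0 := by exact_mod_cast hDpos.ne'
    have h1 : ∀ n, ‖(D : ℂ)⁻¹ * f n‖ ≤ 1 := by
      intro n
      rw [norm_mul, norm_inv, Complex.norm_real, Real.norm_eq_abs, abs_of_pos hDpos,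
        inv_mul_le_iff₀ hDpos, mul_one, hD]
      exact (hC n).trans (le_max_left _ _)
    have h2 : Tendsto (fun j => ev (ν j) (fun n => (D : ℂ)⁻¹ * f n)) atTop
        (𝓝 ((D : ℂ)⁻¹ * L)) := by
      simp only [ev_const_mul]
      exact hL.const_mul _
    have h3 := (hone _ h1 _ h2).const_mul (D : ℂ)
    have h4 : (D : ℂ) * ((D : ℂ)⁻¹ * L) = L := by field_simp
    rw [h4] at h3
    refine h3.congr fun K => ?_
    rw [← Finset.mul_sum]
    field_simp
  · intro f hf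
    rw [tendsto_zero_iff_norm_tendsto_zero]
    refine squeeze_zero (fun _ => norm_nonneg _) (fun j => ?_) (hlim3 3)
    have h1 := hend f hf j
    have hNpos : 0 < N (j + 1) := lt_of_le_of_lt (Nat.zero_le _) (hmono (Nat.lt_succ_self j))
    have hNr : (0 : ℝ) < N (j + 1) := by exact_mod_cast hNpos
    have hNc : (N (j + 1) : ℂ) ≠ 0 := by exact_mod_cast hNpos.ne'
    have h2 : (N (j + 1) : ℂ)⁻¹ * ∑ n ∈ Finset.range (N (j + 1)), f (a n) - ev (ν j) f =
        (N (j + 1) : ℂ)⁻¹ * (∑ n ∈ Finset.range (N (j + 1)), f (a n) -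
          N (j + 1) * ev (ν j) f) := by
      field_simp
    rw [h2, norm_mul, norm_inv, Complex.norm_natCast, inv_mul_le_iff₀ hNr]
    exact h1

end

end Pool.NilAvg
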