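import Pool.Agent.Helper986.NilAvg.Defs
import Pool.Agent.Helper986.NilAvg.DefsA
import Pool.Agent.Helper986.NilAvg.ResFacts

set_option autoImplicit false

namespace Pool.NilAvg

open Filter Topology
open scoped ComplexConjugate

noncomputable section

variable {κ : Type}

open MeasureTheory


theorem system_zero {ψ : ℕ → ℤ_[2] → Circle} {Φ : ℤ → ℤ_[2] → Circle} (hΦ : IsCoc ψ Φ)
    (x : ℤ_[2]) : Φ 0 x = 1 := by
  have h := hΦ.add 0 0 x
  simp only [add_zero, Int.cast_zero] at h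
  exact mul_left_cancel (a := Φ 0 x) (by rw [mul_one]; exact h.symm)

/-- the transformation -/
def system_T (Φ : ℤ → ℤ_[2] → Circle) (hm : Measurable (Φ 1)) : (ℤ_[2] × Circle) ≃ᵐ (ℤ_[2] × Circle) where
  toFun p := (p.1 + 1, p.2 * Φ 1 p.1)
  invFun p := (p.1 + (-1), p.2 * (Φ 1 (p.1 + (-1)))⁻¹)
  left_inv := by
    rintro ⟨x, z⟩
    simp
  right_inv := by
    rintro ⟨x, z⟩
    simp
  measurable_toFun := by
    apply Measurable.prodMk
    · exact measurable_fst.add_const 1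
    · exact measurable_snd.mul (hm.comp measurable_fst)
  measurable_invFun := by
    apply Measurable.prodMk
    · exact measurable_fst.add_const (-1)
    · exact measurable_snd.mul (hm.comp (measurable_fst.add_const (-1))).inv

theorem system_pow {ψ : ℕ → ℤ_[2] → Circle} {Φ : ℤ → ℤ_[2] → Circle} (hΦ : IsCoc ψ Φ) (n : ℤ) :
    ∀ (x : ℤ_[2]) (z : Circle),
    ((system_T Φ (hΦ.meas 1)).toEquiv ^ n : Equiv.Perm (ℤ_[2] × Circle)) (x, z) =
      (x + n, z * Φ n x) := by
  induction n using Int.induction_on with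
  | zero =>
    intro x z
    simp [system_zero hΦ]
  | succ n ih =>
    intro x z
    rw [zpow_add_one, Equiv.Perm.mul_apply]
    have h1 : (system_T Φ (hΦ.meas 1)).toEquiv (x, z) = (x + 1, z * Φ 1 x) := rfl
    rw [h1, ih, hΦ.add (n : ℤ) 1 x]
    ext1
    · push_cast; ring
    · simp only [Int.cast_one]
      rw [mul_assoc, mul_comm (Φ 1 x)]
  | pred n ih =>
    intro x z
    rw [zpow_sub_one, Equiv.Perm.mul_apply]
    have h1 : ((system_T Φ (hΦ.meas 1)).toEquiv⁻¹ : Equiv.Perm (ℤ_[2] × Circle)) (x, z) =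
        (x + (-1), z * (Φ 1 (x + (-1)))⁻¹) := rfl
    rw [h1, ih]
    have h2 := hΦ.add (-(n : ℤ) - 1) 1 (x + (-1))
    rw [sub_add_cancel] at h2
    rw [h2]
    ext1
    · push_cast; ring
    · simp only [Int.cast_one, neg_add_cancel_right]
      rw [mul_assoc, mul_comm (Φ (-(n : ℤ) - 1) x), inv_mul_cancel_left]

/-- the skew product over the odometer -/
theorem system (ψ : ℕ → ℤ_[2] → Circle) (Φ : ℤ → ℤ_[2] → Circle) (hΦ : IsCoc ψ Φ) :
    ∃ (X : Type) (_ : MeasurableSpace X) (_ : StandardBorelSpace X) (μ : Measure X)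
      (_ : IsProbabilityMeasure μ) (T : X ≃ᵐ X) (f g h : X → ℂ),
      MeasurePreserving T μ μ ∧ Measurable f ∧ Measurable g ∧ Measurable h ∧
      (∀ x, ‖f x‖ = 1) ∧ (∀ x, ‖g x‖ = 1) ∧ (∀ x, ‖h x‖ = 1) ∧
      ∀ n : ℤ, ∫ x, h x * (f ((T.toEquiv ^ n : Equiv.Perm X) x) *
        g ((T.toEquiv ^ (2 * n) : Equiv.Perm X) x)) ∂μ = corr Φ n := by
  have h0 : IsProbabilityMeasure mu2 := mu2_prob
  have hinv : mu2.IsAddLeftInvariant := by unfold mu2; infer_instance
  obtain ⟨ν, hν⟩ : ∃ ν : Measure Circle, ν = Measure.haarMeasure ⊤ := ⟨_, rfl⟩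
  have hν1 : IsProbabilityMeasure ν := ⟨by
    rw [hν]
    have := Measure.haarMeasure_self (G := Circle) (K₀ := ⊤)
    simpa using this⟩
  have hν2 : ν.IsMulLeftInvariant := by rw [hν]; infer_instance
  have hP1 : PolishSpace ℤ_[2] := inferInstance
  have hP2 : PolishSpace Circle := inferInstance
  have hcoe : Measurable (fun z : Circle => (z : ℂ)) := by
    have : Continuous (fun z : Circle => (z : ℂ)) := by fun_prop
    exact this.measurable
  refine ⟨ℤ_[2] × Circle, inferInstance, inferInstance, mu2.prod ν, inferInstance,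
    system_T Φ (hΦ.meas 1), fun p => ((p.2⁻¹ ^ 2 : Circle) : ℂ), fun p => (p.2 : ℂ),
    fun p => (p.2 : ℂ), ?_, ?_, ?_, ?_, ?_, ?_, ?_, ?_⟩
  · have h1 : MeasurePreserving (fun x : ℤ_[2] => x + 1) mu2 mu2 :=
      measurePreserving_add_right mu2 1
    have h2 : Measurable (Function.uncurry (fun (x : ℤ_[2]) (z : Circle) => z * Φ 1 x)) :=
      measurable_snd.mul ((hΦ.meas 1).comp measurable_fst)
    exact h1.skew_product h2 (Filter.Eventually.of_forall fun x => by
      exact map_mul_right_eq_self ν (Φ 1 x))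
  · exact hcoe.comp (measurable_snd.inv.pow_const 2)
  · exact hcoe.comp measurable_snd
  · exact hcoe.comp measurable_snd
  · intro p; exact Circle.norm_coe _
  · intro p; exact Circle.norm_coe _
  · intro p; exact Circle.norm_coe _
  · intro n
    have h3 : ∀ p : ℤ_[2] × Circle, (p.2 : ℂ) *
        ((((((system_T Φ (hΦ.meas 1)).toEquiv ^ n : Equiv.Perm (ℤ_[2] × Circle)) p).2⁻¹ ^ 2 :
          Circle) : ℂ) *
        (((((system_T Φ (hΦ.meas 1)).toEquiv ^ (2 * n) : Equiv.Perm (ℤ_[2] × Circle)) p).2 :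
          Circle) : ℂ)) = ((Φ (2 * n) p.1 * (Φ n p.1)⁻¹ ^ 2 : Circle) : ℂ) := by
      rintro ⟨x, z⟩
      rw [system_pow hΦ, system_pow hΦ, ← Circle.coe_mul, ← Circle.coe_mul]
      congr 1
      simp only [mul_inv, mul_pow]
      calc z * (z⁻¹ ^ 2 * (Φ n x)⁻¹ ^ 2 * (z * Φ (2 * n) x)) =
          (z * z * z⁻¹ ^ 2) * (Φ (2 * n) x * (Φ n x)⁻¹ ^ 2) := by
            simp only [mul_assoc, mul_left_comm, mul_comm]
        _ = Φ (2 * n) x * (Φ n x)⁻¹ ^ 2 := by
            rw [inv_pow, ← pow_two, mul_inv_cancel, one_mul]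
    unfold corr
    rw [integral_congr_ae (Filter.Eventually.of_forall h3),
      integral_fun_fst (fun x => ((Φ (2 * n) x * (Φ n x)⁻¹ ^ 2 : Circle) : ℂ))]
    simp

end

end Pool.NilAvg
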