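import Pool.Agent.Helper986.NilAvg.Defs
import Pool.Agent.Helper986.NilAvg.ApiEv
import Pool.Agent.Helper986.NilAvg.ApiNrm
import Pool.Agent.Helper986.NilAvg.ConvC
import Pool.Agent.Helper986.NilAvg.DefsB
import Pool.Agent.Helper986.NilAvg.ExistsMats
import Pool.Agent.Helper986.NilAvg.Params
import Pool.Agent.Helper986.NilAvg.Windows
import Pool.Agent.Helper986.NilAvg.WindowsFacts
import Pool.Agent.Helper986.NilAvg.ConvNu
import Pool.Agent.Helper986.NilAvg.DefsA
import Pool.Agent.Helper986.NilAvg.Cocycle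
import Pool.Agent.Helper986.NilAvg.System
import Pool.Agent.Helper986.NilAvg.PsiFacts
import Pool.Agent.Helper986.NilAvg.CorrNu
import Pool.Agent.Helper986.NilAvg.SeqD
import Pool.Agent.Helper986.NilAvg.Grp
import Pool.Agent.Helper986.NilAvg.DefsN
import Pool.Agent.Helper986.NilAvg.NilApprox

set_option autoImplicit false

namespace Pool.NilAvg

open Filter Topology
open scoped ComplexConjugate

noncomputable section

variable {κ : Type}

open MeasureTheory

universe u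

open scoped commutatorElement


theorem main_st (w : ℕ) : w ≤ st w := by
  induction w with
  | zero => exact Nat.zero_le _
  | succ w ih =>
    have h1 : st (w + 1) = st w + 2 * ell w * aa w := by
      unfold st
      rw [Finset.sum_range_succ]
    have h2 : 0 < ell w := by unfold ell; positivity
    have h3 : 0 < aa w := by unfold aa; omega
    have h4 : 0 < 2 * ell w * aa w := by positivity
    omega

theorem main_spar (Bm : ℕ → ℕ → ℕ → Bool) (D : ℕ) (h : IsProb (nuS Bm (-1) D)) :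
    (Spar Bm (-1) D).Nonempty := by
  by_contra hne
  rw [Finset.not_nonempty_iff_eq_empty] at hne
  have hW : W gen HH (Spar Bm (-1)) D = 0 := by
    unfold W
    rw [hne]
    simp
  have h0 : nuS Bm (-1) D = 0 := by
    unfold nuS
    rw [hW, mul_zero]
  have := h.sum_eq
  rw [h0] at this
  simp at this

theorem main_limit (A : ℕ → ℂ) (h : ∀ ε : ℝ, 0 < ε → ∃ B : ℕ → ℂ,
    (∃ L, Tendsto B atTop (𝓝 L)) ∧ ∀ K, ‖A K - B K‖ ≤ ε) : ∃ L, Tendsto A atTop (𝓝 L) := by
  apply cauchySeq_tendsto_of_complete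
  rw [Metric.cauchySeq_iff]
  intro ε hε
  obtain ⟨B, ⟨L, hL⟩, hAB⟩ := h (ε / 4) (by positivity)
  obtain ⟨N, hN⟩ := Metric.cauchySeq_iff.1 hL.cauchySeq (ε / 4) (by positivity)
  refine ⟨N, fun m hm n hn => ?_⟩
  have h1 := hN m hm n hn
  have h2 := hAB m
  have h3 := hAB n
  rw [dist_eq_norm] at h1 ⊢
  have e : A m - A n = (A m - B m) + (B m - B n) - (A n - B n) := by ring
  rw [e]
  calc ‖(A m - B m) + (B m - B n) - (A n - B n)‖
      ≤ ‖(A m - B m) + (B m - B n)‖ + ‖A n - B n‖ := norm_sub_le _ _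
    _ ≤ (‖A m - B m‖ + ‖B m - B n‖) + ‖A n - B n‖ := by gcongr; exact norm_add_le _ _
    _ < ε := by linarith

theorem main_avg_le (K : ℕ) (v : ℕ → ℂ) (ε : ℝ) (hε : 0 ≤ ε) (h : ∀ n, ‖v n‖ ≤ ε) :
    ‖(K : ℂ)⁻¹ * ∑ n ∈ Finset.range K, v n‖ ≤ ε := by
  rcases Nat.eq_zero_or_pos K with rfl | hK
  · simpa using hε
  · rw [norm_mul, norm_inv, Complex.norm_natCast]
    have h1 : ‖∑ n ∈ Finset.range K, v n‖ ≤ K * ε := by
      refine (norm_sum_le _ _).trans ?_
      refine (Finset.sum_le_sum fun n _ => h n).trans ?_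
      simp
    have hK' : (0 : ℝ) < K := by exact_mod_cast hK
    calc (K : ℝ)⁻¹ * ‖∑ n ∈ Finset.range K, v n‖ ≤ (K : ℝ)⁻¹ * (K * ε) := by gcongr
      _ = ε := by field_simp

theorem main_meas_pow {X : Type} [MeasurableSpace X] (T : X ≃ᵐ X) (n : ℤ) :
    Measurable fun x => (T.toEquiv ^ n : Equiv.Perm X) x := by
  have hnat : ∀ (S : X ≃ᵐ X) (k : ℕ), Measurable fun x => (S.toEquiv ^ k : Equiv.Perm X) x := by
    intro S k
    induction k with
    | zero => exact measurable_id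
    | succ k ih =>
      have e : (fun x => (S.toEquiv ^ (k + 1) : Equiv.Perm X) x) =
          (fun x => (S.toEquiv ^ k : Equiv.Perm X) x) ∘ S := by
        funext x
        rw [pow_succ]
        rfl
      rw [e]
      exact ih.comp S.measurable
  cases n with
  | ofNat k =>
    have := hnat T k
    simpa using this
  | negSucc k =>
    have := hnat T.symm (k + 1)
    have e : (T.toEquiv ^ (Int.negSucc k) : Equiv.Perm X) = T.symm.toEquiv ^ (k + 1) := by
      rw [zpow_negSucc, ← inv_pow]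
      rfl
    rw [e]
    exact this

theorem main_key {X : Type} [MeasurableSpace X] (μ : Measure X) [IsProbabilityMeasure μ]
    (T : X ≃ᵐ X) (f g h : X → ℂ) (hf : Measurable f) (hg : Measurable g) (hh : Measurable h)
    (nf : ∀ x, ‖f x‖ = 1) (ng : ∀ x, ‖g x‖ = 1) (nh : ∀ x, ‖h x‖ = 1) (c : ℤ → ℂ)
    (hc : ∀ n : ℤ, ∫ x, h x * (f ((T.toEquiv ^ n : Equiv.Perm X) x) *
        g ((T.toEquiv ^ (2 * n) : Equiv.Perm X) x)) ∂μ = c n) (a : ℕ → ℤ) (φ : X → ℂ)
    (hφ : MemLp φ 2 μ) (hlim : Tendsto (fun K : ℕ => eLpNorm (fun x => (K : ℂ)⁻¹ *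
      ∑ n ∈ Finset.range K, f ((T.toEquiv ^ (a n) : Equiv.Perm X) x) *
        g ((T.toEquiv ^ (2 * a n) : Equiv.Perm X) x) - φ x) 2 μ) atTop (𝓝 0)) :
    Tendsto (fun K : ℕ => (K : ℂ)⁻¹ * ∑ n ∈ Finset.range K, c (a n)) atTop
      (𝓝 (∫ x, h x * φ x ∂μ)) := by
  have hm1 : ∀ n : ℤ, Measurable fun x => f ((T.toEquiv ^ n : Equiv.Perm X) x) *
      g ((T.toEquiv ^ (2 * n) : Equiv.Perm X) x) := fun n =>
    (hf.comp (main_meas_pow T n)).mul (hg.comp (main_meas_pow T (2 * n)))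
  have hmA : ∀ K : ℕ, Measurable fun x => (K : ℂ)⁻¹ *
      ∑ n ∈ Finset.range K, f ((T.toEquiv ^ (a n) : Equiv.Perm X) x) *
        g ((T.toEquiv ^ (2 * a n) : Equiv.Perm X) x) := fun K =>
    (Finset.measurable_fun_sum _ fun n _ => hm1 (a n)).const_mul _
  have hint1 : ∀ n : ℤ, Integrable (fun x => h x * (f ((T.toEquiv ^ n : Equiv.Perm X) x) *
      g ((T.toEquiv ^ (2 * n) : Equiv.Perm X) x))) μ := by
    intro n
    refine Integrable.of_bound (hh.mul (hm1 n)).aestronglyMeasurable 1 ?_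
    refine Filter.Eventually.of_forall fun x => ?_
    rw [norm_mul, norm_mul, nf, ng, nh]
    norm_num
  have hintA : ∀ K : ℕ, ∫ x, h x * ((K : ℂ)⁻¹ *
      ∑ n ∈ Finset.range K, f ((T.toEquiv ^ (a n) : Equiv.Perm X) x) *
        g ((T.toEquiv ^ (2 * a n) : Equiv.Perm X) x)) ∂μ =
      (K : ℂ)⁻¹ * ∑ n ∈ Finset.range K, c (a n) := by
    intro K
    have e : (fun x => h x * ((K : ℂ)⁻¹ *
      ∑ n ∈ Finset.range K, f ((T.toEquiv ^ (a n) : Equiv.Perm X) x) *
        g ((T.toEquiv ^ (2 * a n) : Equiv.Perm X) x))) = fun x => (K : ℂ)⁻¹ *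
      ∑ n ∈ Finset.range K, h x * (f ((T.toEquiv ^ (a n) : Equiv.Perm X) x) *
        g ((T.toEquiv ^ (2 * a n) : Equiv.Perm X) x)) := by
      funext x
      rw [← Finset.mul_sum]
      ring
    rw [e, integral_const_mul, integral_finset_sum _ fun n _ => hint1 (a n)]
    congr 1
    exact Finset.sum_congr rfl fun n _ => hc (a n)
  have hφi : Integrable φ μ := hφ.integrable (by norm_num)
  have hhφ : Integrable (fun x => h x * φ x) μ :=
    hφi.bdd_mul (c := 1) hh.aestronglyMeasurable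
      (Filter.Eventually.of_forall fun x => (nh x).le)
  have hAi : ∀ K : ℕ, Integrable (fun x => h x * ((K : ℂ)⁻¹ *
      ∑ n ∈ Finset.range K, f ((T.toEquiv ^ (a n) : Equiv.Perm X) x) *
        g ((T.toEquiv ^ (2 * a n) : Equiv.Perm X) x))) μ := by
    intro K
    refine Integrable.of_bound (hh.mul (hmA K)).aestronglyMeasurable 1 ?_
    refine Filter.Eventually.of_forall fun x => ?_
    rw [norm_mul, nh, one_mul]
    refine main_avg_le K (fun n => f ((T.toEquiv ^ (a n) : Equiv.Perm X) x) *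
        g ((T.toEquiv ^ (2 * a n) : Equiv.Perm X) x)) 1 zero_le_one fun n => ?_
    rw [norm_mul, nf, ng]
    norm_num
  have hmain := tendsto_integral_of_L1 (fun x => h x * φ x) hhφ.aestronglyMeasurable
    (F := fun (K : ℕ) x => h x * ((K : ℂ)⁻¹ *
      ∑ n ∈ Finset.range K, f ((T.toEquiv ^ (a n) : Equiv.Perm X) x) *
        g ((T.toEquiv ^ (2 * a n) : Equiv.Perm X) x))) (l := atTop)
    (Filter.Eventually.of_forall hAi) (by
      refine tendsto_of_tendsto_of_tendsto_of_le_of_le tendsto_const_nhds hlim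
        (fun K => zero_le) fun K => ?_
      refine le_trans (le_of_eq ?_) (eLpNorm_le_eLpNorm_of_exponent_le (p := 1) (q := 2)
        (by norm_num) ((hmA K).aestronglyMeasurable.sub hφ.aestronglyMeasurable))
      rw [eLpNorm_one_eq_lintegral_enorm]
      refine lintegral_congr fun x => ?_
      rw [← mul_sub, enorm_mul]
      have : ‖h x‖ₑ = 1 := by
        rw [← ofReal_norm_eq_enorm, nh]
        simp
      rw [this, one_mul])
  simp only [hintA] at hmain
  exact hmain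

/-- main theorem -/
theorem main :
    ∃ a : ℕ → ℤ,
      (∀ N : ℤ → ℂ, IsNilseq.{u} N → ∃ L : ℂ,
        Tendsto (fun K : ℕ => (K : ℂ)⁻¹ * ∑ n ∈ Finset.range K, N (a n)) atTop (𝓝 L)) ∧
      ∃ (X : Type) (_ : MeasurableSpace X) (_ : StandardBorelSpace X) (μ : Measure X)
        (_ : IsProbabilityMeasure μ) (T : X ≃ᵐ X) (f g : X → ℂ),
        MeasurePreserving T μ μ ∧ Measurable f ∧ Measurable g ∧
        (∀ x, ‖f x‖ = 1) ∧ (∀ x, ‖g x‖ = 1) ∧
        ¬ ∃ φ : X → ℂ, MemLp φ 2 μ ∧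
          Tendsto (fun K : ℕ => eLpNorm (fun x => (K : ℂ)⁻¹ * ∑ n ∈ Finset.range K,
            f ((T.toEquiv ^ (a n) : Equiv.Perm X) x) *
              g ((T.toEquiv ^ (2 * a n) : Equiv.Perm X) x) - φ x) 2 μ) atTop (𝓝 0) := by
  classical
  obtain ⟨Bm, hBm⟩ := exists_mats
  obtain ⟨D0, hD0⟩ := Filter.eventually_atTop.1 (nuS_prob Bm hBm)
  obtain ⟨Φ, hΦ⟩ := cocycle (fun w => psi (st w) (aa w) (ell w) (Bm w)) st main_st
    (fun w => psi_meas _ _ _ _) (fun w x n h0 h1 => psi_inv w (Bm w) x n h0 h1)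
  obtain ⟨X, iX, iS, μ, iP, T, f, g, h, hT, hf, hg, hh, nf, ng, nh, hcorr⟩ := system _ Φ hΦ
  let ν : ℕ → Law := fun j => if Even j then nuS Bm 1 (D0 + j) else nuS Bm (-1) (D0 + j)
  have hν : ∀ j, IsProb (ν j) := by
    intro j
    show IsProb (if Even j then nuS Bm 1 (D0 + j) else nuS Bm (-1) (D0 + j))
    split
    · exact (hD0 (D0 + j) (Nat.le_add_right _ _)).1
    · exact (hD0 (D0 + j) (Nat.le_add_right _ _)).2
  have hνt : ∀ F : ℤ → ℂ, Tame F → ∃ L, Tendsto (fun j => ev (ν j) F) atTop (𝓝 L) := by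
    intro F hF
    obtain ⟨L, h1, h2⟩ := convNu Bm hBm hF
    refine ⟨L, ?_⟩
    have g1 : Tendsto (fun j => ev (nuS Bm 1 (D0 + j)) F) atTop (𝓝 L) :=
      h1.comp (tendsto_add_atTop_nat D0 |>.congr fun j => add_comm _ _)
    have g2 : Tendsto (fun j => ev (nuS Bm (-1) (D0 + j)) F) atTop (𝓝 L) :=
      h2.comp (tendsto_add_atTop_nat D0 |>.congr fun j => add_comm _ _)
    rw [Metric.tendsto_atTop] at g1 g2 ⊢
    intro ε hε
    obtain ⟨N1, hN1⟩ := g1 ε hε
    obtain ⟨N2, hN2⟩ := g2 ε hε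
    refine ⟨max N1 N2, fun j hj => ?_⟩
    show dist (ev (if Even j then nuS Bm 1 (D0 + j) else nuS Bm (-1) (D0 + j)) F) L < ε
    split
    · exact hN1 j ((le_max_left _ _).trans hj)
    · exact hN2 j ((le_max_right _ _).trans hj)
  obtain ⟨a, ha1, Ks, hKs, ha2⟩ := seqD ν hν
  refine ⟨a, ?_, X, iX, iS, μ, iP, T, f, g, hT, hf, hg, nf, ng, ?_⟩
  · intro N hN
    apply main_limit
    intro ε hε
    obtain ⟨m, F, hF, hNF⟩ := nil_approx N hN ε hε
    refine ⟨fun K => (K : ℂ)⁻¹ * ∑ n ∈ Finset.range K, ∑ i, F i (a n), ?_, ?_⟩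
    · have hi : ∀ i, ∃ L, Tendsto (fun K : ℕ => (K : ℂ)⁻¹ *
          ∑ n ∈ Finset.range K, F i (a n)) atTop (𝓝 L) := by
        intro i
        obtain ⟨L, hL⟩ := hνt (F i) (hF i)
        obtain ⟨θ, Λ, hT'⟩ := hF i
        exact ⟨L, ha1 (F i) hT'.bdd L hL⟩
      choose L hL using hi
      refine ⟨∑ i, L i, ?_⟩
      have := tendsto_finset_sum (Finset.univ : Finset (Fin m)) fun i _ => hL i
      refine this.congr fun K => ?_
      rw [← Finset.mul_sum, Finset.sum_comm]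
    · intro K
      rw [← mul_sub, ← Finset.sum_sub_distrib]
      exact main_avg_le K _ ε hε.le fun n => hNF (a n)
  · rintro ⟨φ, hφ, hlim⟩
    have hkey := main_key μ T f g h hf hg hh nf ng nh (corr Φ) hcorr a φ hφ hlim
    have hb : ∀ n, ‖corr Φ n‖ ≤ 1 := by
      intro n
      rw [← hcorr n]
      have := norm_integral_le_of_norm_le_const (μ := μ) (C := 1)
        (f := fun x => h x * (f ((T.toEquiv ^ n : Equiv.Perm X) x) *
          g ((T.toEquiv ^ (2 * n) : Equiv.Perm X) x)))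
        (Filter.Eventually.of_forall fun x => by rw [norm_mul, norm_mul, nf, ng, nh]; norm_num)
      simpa using this
    have h3 := ha2 (corr Φ) hb
    have h4 := hkey.comp hKs.tendsto_atTop
    have h5 : Tendsto (fun j => ev (ν j) (corr Φ)) atTop (𝓝 (∫ x, h x * φ x ∂μ)) := by
      have := h4.sub h3
      rw [sub_zero] at this
      refine this.congr fun j => ?_
      simp only [Function.comp]
      ring
    rw [Metric.tendsto_atTop] at h5
    obtain ⟨N, hN⟩ := h5 (1 / 100) (by norm_num)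
    have e1 := hN (2 * N) (by omega)
    have e2 := hN (2 * N + 1) (by omega)
    have v1 : ν (2 * N) = nuS Bm 1 (D0 + 2 * N) := by
      show (if Even (2 * N) then _ else _) = _
      rw [if_pos (even_two_mul N)]
    have v2 : ν (2 * N + 1) = nuS Bm (-1) (D0 + (2 * N + 1)) := by
      show (if Even (2 * N + 1) then _ else _) = _
      rw [if_neg (by rw [Nat.not_even_iff_odd]; exact odd_two_mul_add_one N)]
    rw [v1, dist_eq_norm] at e1
    rw [v2, dist_eq_norm] at e2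
    have c1 := corr_plus Bm Φ hΦ (D0 + 2 * N)
    have c2 := corr_minus Bm Φ hΦ (D0 + (2 * N + 1))
      (main_spar Bm _ (hD0 (D0 + (2 * N + 1)) (Nat.le_add_right _ _)).2)
    set L := ∫ x, h x * φ x ∂μ
    set A := ev (nuS Bm 1 (D0 + 2 * N)) (corr Φ)
    set B := ev (nuS Bm (-1) (D0 + (2 * N + 1))) (corr Φ)
    have : (1 : ℂ) = -(A - 1) + (A - L) - (B - L) + B := by ring
    have h1 : (1 : ℝ) ≤ ‖A - 1‖ + ‖A - L‖ + ‖B - L‖ + ‖B‖ := by
      calc (1 : ℝ) = ‖(1 : ℂ)‖ := by simp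
        _ = ‖-(A - 1) + (A - L) - (B - L) + B‖ := by rw [← this]
        _ ≤ ‖-(A - 1) + (A - L) - (B - L)‖ + ‖B‖ := norm_add_le _ _
        _ ≤ (‖-(A - 1) + (A - L)‖ + ‖B - L‖) + ‖B‖ := by gcongr; exact norm_sub_le _ _
        _ ≤ ((‖-(A - 1)‖ + ‖A - L‖) + ‖B - L‖) + ‖B‖ := by gcongr; exact norm_add_le _ _
        _ = _ := by rw [norm_neg]
    linarith

end

end Pool.NilAvg
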