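import Pool.Agent.Helper986.NilAvg.Defs
import Pool.Agent.Helper986.NilAvg.ApiEv
import Pool.Agent.Helper986.NilAvg.ApiNrm
import Pool.Agent.Helper986.NilAvg.ApiHat

set_option autoImplicit false

namespace Pool.NilAvg

open Filter Topology
open scoped ComplexConjugate

noncomputable section

variable {κ : Type}


theorem tame_av_conv {ι : Type*} (I : Finset ι) (c : ι → ℝ) (hc : ∀ i ∈ I, 0 ≤ c i)
    (hs : ∑ i ∈ I, c i = 1) (Ξ : Finset ℝ) (K ε : ℝ) (w : ℤ → ℂ) (G : ι → ℤ → ℂ)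
    (h : ∀ i ∈ I, ∃ p : ℝ → ℂ, (∑ ξ ∈ Ξ, ‖p ξ‖) ≤ K ∧
      ∀ n : ℤ, ‖G i n - w n * ∑ ξ ∈ Ξ, p ξ * e (n * ξ)‖ ≤ ε) :
    ∃ p : ℝ → ℂ, (∑ ξ ∈ Ξ, ‖p ξ‖) ≤ K ∧
      ∀ n : ℤ, ‖(∑ i ∈ I, (c i : ℂ) * G i n) - w n * ∑ ξ ∈ Ξ, p ξ * e (n * ξ)‖ ≤ ε := by
  classical
  choose! p hp1 hp2 using h
  refine ⟨fun ξ => ∑ i ∈ I, (c i : ℂ) * p i ξ, ?_, ?_⟩
  · calc ∑ ξ ∈ Ξ, ‖∑ i ∈ I, (c i : ℂ) * p i ξ‖ ≤ ∑ ξ ∈ Ξ, ∑ i ∈ I, c i * ‖p i ξ‖ := by
          apply Finset.sum_le_sum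
          intro ξ _
          refine (norm_sum_le _ _).trans ?_
          apply Finset.sum_le_sum
          intro i hi
          rw [norm_mul, Complex.norm_real, Real.norm_of_nonneg (hc i hi)]
      _ = ∑ i ∈ I, c i * ∑ ξ ∈ Ξ, ‖p i ξ‖ := by
          rw [Finset.sum_comm]
          simp only [Finset.mul_sum]
      _ ≤ ∑ i ∈ I, c i * K :=
          Finset.sum_le_sum fun i hi => mul_le_mul_of_nonneg_left (hp1 i hi) (hc i hi)
      _ = K := by rw [← Finset.sum_mul, hs, one_mul]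
  · intro n
    have h1 : (∑ i ∈ I, (c i : ℂ) * G i n) -
        w n * ∑ ξ ∈ Ξ, (∑ i ∈ I, (c i : ℂ) * p i ξ) * e (n * ξ) =
        ∑ i ∈ I, (c i : ℂ) * (G i n - w n * ∑ ξ ∈ Ξ, p i ξ * e (n * ξ)) := by
      simp only [mul_sub, Finset.sum_sub_distrib]
      congr 1
      simp only [Finset.mul_sum, Finset.sum_mul]
      rw [Finset.sum_comm]
      apply Finset.sum_congr rfl
      intro i _
      apply Finset.sum_congr rfl
      intro ξ _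
      ring
    rw [h1]
    refine (norm_sum_le _ _).trans ?_
    calc ∑ i ∈ I, ‖(c i : ℂ) * (G i n - w n * ∑ ξ ∈ Ξ, p i ξ * e (n * ξ))‖
        ≤ ∑ i ∈ I, c i * ε := by
          apply Finset.sum_le_sum
          intro i hi
          rw [norm_mul, Complex.norm_real, Real.norm_of_nonneg (hc i hi)]
          exact mul_le_mul_of_nonneg_left (hp2 i hi n) (hc i hi)
      _ = ε := by rw [← Finset.sum_mul, hs, one_mul]

theorem tame_av_sum {M : Type*} [AddCommMonoid M] (Ξ0 Ξ : Finset ℝ) (c : ℝ)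
    (hΞ : ∀ ξ ∈ Ξ0, c + ξ ∈ Ξ) (F : ℝ → M) [DecidablePred fun η : ℝ => η - c ∈ Ξ0] :
    (∑ η ∈ Ξ, if η - c ∈ Ξ0 then F η else 0) = ∑ ξ ∈ Ξ0, F (c + ξ) := by
  rw [← Finset.sum_filter]
  apply Finset.sum_nbij' (fun η => η - c) (fun ξ => c + ξ)
  · intro η hη
    exact (Finset.mem_filter.1 hη).2
  · intro ξ hξ
    rw [Finset.mem_filter]
    exact ⟨hΞ ξ hξ, by simpa using hξ⟩
  · intro η _
    ring
  · intro ξ _
    ring
  · intro η _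
    congr 1
    ring

theorem tame_av_single {θ : ℤ → ℝ} {f : ℤ → ℂ} {Ξ0 Ξ : Finset ℝ} {K ε : ℝ} (u v v' : ℤ)
    (p0 : ℝ → ℂ) (l : ℝ) (m : ℤ) (hθ : θ (u + (v - v')) = θ u + θ (v - v') + l + m)
    (h1 : ∑ ξ ∈ Ξ0, ‖p0 ξ‖ ≤ K)
    (h2 : ∀ n : ℤ, ‖f (n + (u + (v - v'))) * conj (f n) -
      e (n * θ (u + (v - v'))) * ∑ ξ ∈ Ξ0, p0 ξ * e (n * ξ)‖ ≤ ε)
    (hΞ : ∀ ξ ∈ Ξ0, θ (v - v') + l + ξ ∈ Ξ) :
    ∃ p : ℝ → ℂ, (∑ ξ ∈ Ξ, ‖p ξ‖) ≤ K ∧ ∀ n : ℤ, ‖f (n + u + v) * conj (f (n + v')) -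
      e (n * θ u) * ∑ ξ ∈ Ξ, p ξ * e (n * ξ)‖ ≤ ε := by
  classical
  obtain ⟨c, hc⟩ : ∃ c, c = θ (v - v') + l := ⟨_, rfl⟩
  rw [← hc] at hΞ
  refine ⟨fun η => if η - c ∈ Ξ0 then p0 (η - c) * e (v' * θ u) * e (v' * η) else 0, ?_, ?_⟩
  · have e1 : ∀ η, ‖(if η - c ∈ Ξ0 then p0 (η - c) * e (v' * θ u) * e (v' * η) else 0 : ℂ)‖ =
        if η - c ∈ Ξ0 then ‖p0 (η - c)‖ else 0 := by
      intro η
      split_ifs
      · rw [norm_mul, norm_mul, norm_e, norm_e, mul_one, mul_one]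
      · exact norm_zero
    simp only [e1]
    rw [tame_av_sum Ξ0 Ξ c hΞ (fun η => ‖p0 (η - c)‖)]
    simpa using h1
  · intro n
    have e2 : ∀ η, (if η - c ∈ Ξ0 then p0 (η - c) * e (v' * θ u) * e (v' * η) else 0 : ℂ) *
        e (n * η) = if η - c ∈ Ξ0 then
          p0 (η - c) * e (v' * θ u) * e (v' * η) * e (n * η) else 0 := by
      intro η
      split_ifs
      · rfl
      · exact zero_mul _
    simp only [e2]
    rw [tame_av_sum Ξ0 Ξ c hΞ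
      (fun η => p0 (η - c) * e (v' * θ u) * e (v' * η) * e (n * η))]
    have e3 : e (n * θ u) * ∑ ξ ∈ Ξ0, p0 (c + ξ - c) * e (v' * θ u) * e (v' * (c + ξ)) *
        e (n * (c + ξ)) =
        e (((n + v' : ℤ) : ℝ) * θ (u + (v - v'))) *
          ∑ ξ ∈ Ξ0, p0 ξ * e (((n + v' : ℤ) : ℝ) * ξ) := by
      rw [Finset.mul_sum, Finset.mul_sum]
      apply Finset.sum_congr rfl
      intro ξ _
      have h3 : (((n + v' : ℤ) : ℝ) * θ (u + (v - v'))) =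
          n * θ u + v' * θ u + (v' * c + n * c) + (((n + v') * m : ℤ) : ℝ) := by
        rw [hθ, hc]
        push_cast
        ring
      have h4 : ((n + v' : ℤ) : ℝ) * ξ = n * ξ + v' * ξ := by push_cast; ring
      rw [h3, h4, e_add, e_int, e_add, e_add, e_add, e_add, mul_add, mul_add, e_add, e_add,
        add_sub_cancel_left]
      ring
    rw [e3]
    have h5 := h2 (n + v')
    have h6 : n + v' + (u + (v - v')) = n + u + v := by ring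
    rw [h6] at h5
    exact h5

/-- a common finite spectrum for all averages of `f` along laws with bounded support -/
theorem tame_av {θ : ℤ → ℝ} {Λ : Finset ℝ} {f : ℤ → ℂ} (hf : TameWith θ Λ f) (R : ℕ) (ε : ℝ)
    (hε : 0 < ε) : ∃ (Ξ : Finset ℝ) (K : ℝ), 0 ≤ K ∧ ∀ μ : Law, IsProb μ →
      (∀ n ∈ μ.coeff.support, |n| ≤ R) → ∀ u : ℤ, ∃ p : ℝ → ℂ, (∑ ξ ∈ Ξ, ‖p ξ‖) ≤ K ∧
      ∀ n : ℤ, ‖av μ f (n + u) * conj (av μ f n) -
        e (n * θ u) * ∑ ξ ∈ Ξ, p ξ * e (n * ξ)‖ ≤ ε := by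
  classical
  obtain ⟨Ξ0, K, hK⟩ := hf.appr ε hε
  choose p0 hp1 hp2 using hK
  choose l hl m hm using hf.add
  have hK0 : 0 ≤ K := (Finset.sum_nonneg fun _ _ => norm_nonneg _).trans (hp1 0)
  obtain ⟨Ξ, hΞ⟩ : ∃ Ξ : Finset ℝ, ∀ d : ℤ, |d| ≤ 2 * R → ∀ x ∈ Λ, ∀ ξ ∈ Ξ0, θ d + x + ξ ∈ Ξ := by
    refine ⟨(Finset.Icc (-(2 * R : ℤ)) (2 * R)).biUnion fun d => Λ.biUnion fun x =>
      Ξ0.image fun ξ => θ d + x + ξ, ?_⟩
    intro d hd x hx ξ hξ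
    rw [Finset.mem_biUnion]
    refine ⟨d, Finset.mem_Icc.2 (abs_le.1 hd), ?_⟩
    rw [Finset.mem_biUnion]
    exact ⟨x, hx, Finset.mem_image.2 ⟨ξ, hξ, rfl⟩⟩
  refine ⟨Ξ, K, hK0, ?_⟩
  intro μ hμ hR u
  have hsum : ∑ i ∈ μ.coeff.support ×ˢ μ.coeff.support, μ.coeff i.1 * μ.coeff i.2 = 1 := by
    have h1 : ∑ v ∈ μ.coeff.support, μ.coeff v = 1 := hμ.sum_eq
    rw [Finset.sum_product, ← Finset.sum_mul_sum, h1, one_mul]
  obtain ⟨p, hp, hp'⟩ := tame_av_conv (μ.coeff.support ×ˢ μ.coeff.support)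
    (fun i => μ.coeff i.1 * μ.coeff i.2)
    (fun i _ => mul_nonneg (hμ.nonneg _) (hμ.nonneg _)) hsum Ξ K ε (fun n => e (n * θ u))
    (fun i n => f (n + u + i.1) * conj (f (n + i.2))) (by
      rintro ⟨v, v'⟩ hi
      rw [Finset.mem_product] at hi
      have hv := hR v hi.1
      have hv' := hR v' hi.2
      refine tame_av_single u v v' (p0 (u + (v - v'))) (l u (v - v')) (m u (v - v'))
        (hm u (v - v')) (hp1 _) (hp2 _) ?_
      intro ξ hξ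
      refine hΞ _ ?_ _ (hl _ _) ξ hξ
      have := abs_sub v v'
      linarith)
  refine ⟨p, hp, fun n => ?_⟩
  have hav : ∀ k, av μ f k = ∑ v ∈ μ.coeff.support, ((μ.coeff v : ℝ) : ℂ) * f (k + v) := by
    intro k
    show (μ.coeff.sum fun n a => a • f (k + n)) = _
    rw [Finsupp.sum]
    apply Finset.sum_congr rfl
    intro v _
    exact Complex.real_smul
  have h2 : av μ f (n + u) * conj (av μ f n) =
      ∑ i ∈ μ.coeff.support ×ˢ μ.coeff.support, ((μ.coeff i.1 * μ.coeff i.2 : ℝ) : ℂ) *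
        (f (n + u + i.1) * conj (f (n + i.2))) := by
    rw [hav, hav, map_sum, Finset.sum_mul_sum, Finset.sum_product]
    apply Finset.sum_congr rfl
    intro v _
    apply Finset.sum_congr rfl
    intro v' _
    rw [map_mul, Complex.conj_ofReal]
    push_cast
    ring
  rw [h2]
  exact hp' n

end

end Pool.NilAvg
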